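import Pool.Agent.Lib.H17T.C2

set_option autoImplicit false

/-!
# H17T, chunk C3 (M): monotonicity of `r` along the cones `a = const` (Raychaudhuri)

Let `a0 = NN 1 k f q` and `γ(ρ) = (a0 - XX k ρ, ρ)`; `γ(‖x‖) = qq f x` if `NN 1 k f x = a0`. For a function `φ` which is
differentiable at `γ(ρ)`, `d/dρ φ(γ(ρ)) = fderiv φ (γ ρ) (-k ρ, 1) = 2 k(ρ) Db k φ (γ ρ)` (`XX_deriv`). By `cone_mem` all `γ(ρ)` with
`ρ` between two of the numbers `‖x‖`, `‖y‖`, `‖q‖` are in `QQ f`. Fix any `n : S2` and put `z(ρ) = Db k r (γ ρ)`,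
`G(ρ) = F (ev (γ ρ) n) > 0`. Then `(z/G)' = (z' G - z G')/G² = 2 k (Db(Db r) G - Db(F∘ev) z)/G² ≤ 0` by `hR.rb`, so `z/G` is
antitone on the segment. As `z(‖q‖) = 0`: `z ≤ 0` to the right of `‖q‖` and `z ≥ 0` to the left, and `(r∘γ)' = 2 k z`.
(`Db k r` is differentiable at the points of `QQ f` since `r` is smooth there and `k` is smooth and positive: first lemma.)
-/

open MeasureTheory Filter Topology Set
open scoped ContDiff

namespace H17T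

open Pool.Agent.Lib.PenroseSph (E3 Tens S2 sm)

/-- `Da k φ` and `Db k φ` are smooth where `φ` is. -/
theorem D_smooth {k : ℝ → ℝ} {φ : ℝ × ℝ → ℝ} {q : ℝ × ℝ} (hk : ContDiffAt ℝ ∞ k q.2) (hk0 : 0 < k q.2)
    (hφ : ContDiffAt ℝ ∞ φ q) : ContDiffAt ℝ ∞ (Da k φ) q ∧ ContDiffAt ℝ ∞ (Db k φ) q := by
  have h1 : ContDiffAt ℝ ∞ (fderiv ℝ φ) q := hφ.fderiv_right (by simp)
  have h2 : ContDiffAt ℝ ∞ (fun q : ℝ × ℝ => 1 / (2 * k q.2)) q := by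
    refine contDiffAt_const.div (contDiffAt_const.mul (ContDiffAt.comp q hk contDiffAt_snd)) ?_
    positivity
  exact ⟨h1.clm_apply (contDiffAt_const.prodMk h2), h1.clm_apply (contDiffAt_const.prodMk h2)⟩

/-- Derivative along the cone `a = const`. -/
theorem cone_deriv {k : ℝ → ℝ} (hk : ∀ t : ℝ, 0 < t → ContDiffAt ℝ ∞ k t) (hk0 : ∀ t : ℝ, 0 < t → 0 < k t)
    {φ : ℝ × ℝ → ℝ} {a ρ : ℝ} (hρ : 0 < ρ) (hφ : DifferentiableAt ℝ φ (a - XX k ρ, ρ)) :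
    HasDerivAt (fun ρ => φ (a - XX k ρ, ρ)) (2 * k ρ * Db k φ (a - XX k ρ, ρ)) ρ := by
  have h1 : HasDerivAt (fun ρ => (a - XX k ρ, ρ)) (-k ρ, (1 : ℝ)) ρ := by
    have h2 : HasDerivAt (fun ρ => a - XX k ρ) (-k ρ) ρ := by
      simpa using (XX_deriv hk hρ).const_sub a
    exact h2.prodMk (hasDerivAt_id ρ)
  have h4 : HasFDerivAt φ (fderiv ℝ φ (a - XX k ρ, ρ)) ((fun ρ : ℝ => (a - XX k ρ, ρ)) ρ) := hφ.hasFDerivAt
  have h3 := HasFDerivAt.comp_hasDerivAt (f := fun ρ : ℝ => (a - XX k ρ, ρ)) ρ h4 h1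
  have e : 2 * k ρ * Db k φ (a - XX k ρ, ρ) = fderiv ℝ φ (a - XX k ρ, ρ) (-k ρ, (1 : ℝ)) := by
    have hk' : k ρ ≠ 0 := (hk0 ρ hρ).ne'
    unfold Db
    rw [← smul_eq_mul, ← map_smul]
    congr 1
    refine Prod.ext ?_ ?_
    · show 2 * k ρ * -(1 / 2) = -k ρ
      ring
    · show 2 * k ρ * (1 / (2 * k ρ)) = 1
      field_simp
  rw [e]
  exact h3

/-- The function `F` over the plane. -/
theorem c3_F {F : E4 → ℝ} {k : ℝ → ℝ} {r : ℝ × ℝ → ℝ} {f : E3 → ℝ} (hR : Red F k r f) {q : ℝ × ℝ} (hq : q ∈ QQ f)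
    (n : S2) : ContDiffAt ℝ ∞ (fun q => F (ev q n)) q := by
  have h1 : ContDiffAt ℝ ∞ (fun q : ℝ × ℝ => ev q (n : E3)) q := by
    unfold ev pt
    rw [contDiffAt_euclidean]
    intro i
    fin_cases i
    · exact contDiffAt_fst
    all_goals
      show ContDiffAt ℝ ∞ (fun q : ℝ × ℝ => q.2 * (n : E3) _) q
      exact contDiffAt_snd.mul contDiffAt_const
  exact ContDiffAt.comp q (hR.F_smooth q hq n) h1

theorem c3_quot {F : E4 → ℝ} {k : ℝ → ℝ} {r : ℝ × ℝ → ℝ} {f : E3 → ℝ} (hR : Red F k r f) {a l m : ℝ} (hl : 0 < l)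
    (hQ : ∀ ρ ∈ Icc l m, (a - XX k ρ, ρ) ∈ QQ f) (n : S2) :
    AntitoneOn (fun ρ => Db k r (a - XX k ρ, ρ) / F (ev (a - XX k ρ, ρ) n)) (Icc l m) := by
  have hd : ∀ ρ ∈ Icc l m, HasDerivAt (fun ρ => Db k r (a - XX k ρ, ρ) / F (ev (a - XX k ρ, ρ) n))
      ((2 * k ρ * Db k (Db k r) (a - XX k ρ, ρ) * F (ev (a - XX k ρ, ρ) n) -
        Db k r (a - XX k ρ, ρ) * (2 * k ρ * Db k (fun q => F (ev q n)) (a - XX k ρ, ρ))) /
        F (ev (a - XX k ρ, ρ) n) ^ 2) ρ := by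
    intro ρ hρ
    have hρ0 : 0 < ρ := lt_of_lt_of_le hl hρ.1
    have hq := hQ ρ hρ
    have h1 := (D_smooth (q := (a - XX k ρ, ρ)) (hR.k_smooth ρ hρ0) (hR.k_pos ρ hρ0) (hR.r_smooth _ hq)).2
    have h2 := cone_deriv hR.k_smooth hR.k_pos hρ0 (h1.differentiableAt (by simp))
    have h3 := cone_deriv hR.k_smooth hR.k_pos hρ0 ((c3_F hR hq n).differentiableAt (by simp))
    exact h2.div h3 (hR.F_pos _ hq n).ne'
  refine antitoneOn_of_deriv_nonpos (convex_Icc l m) (fun ρ hρ => (hd ρ hρ).continuousAt.continuousWithinAt)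
    (fun ρ hρ => (hd ρ (interior_subset hρ)).differentiableAt.differentiableWithinAt) fun ρ hρ => ?_
  have hρ' := interior_subset hρ
  have hρ0 : 0 < ρ := lt_of_lt_of_le hl hρ'.1
  rw [(hd ρ hρ').deriv]
  refine div_nonpos_of_nonpos_of_nonneg ?_ (sq_nonneg _)
  have h4 := hR.rb _ (hQ ρ hρ') n
  have h5 : 0 < 2 * k ρ := by
    have := hR.k_pos ρ hρ0
    linarith
  nlinarith [mul_le_mul_of_nonneg_left h4 h5.le]

theorem cone_b {F : E4 → ℝ} {k : ℝ → ℝ} {r : ℝ × ℝ → ℝ} {f : E3 → ℝ} (hR : Red F k r f) {x y q : E3} (hx : x ≠ 0)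
    (hy : y ≠ 0) (hq : q ≠ 0) (hxq : NN 1 k f x = NN 1 k f q) (hyq : NN 1 k f y = NN 1 k f q)
    (h0 : Db k r (qq f q) = 0) :
    (‖q‖ ≤ ‖y‖ → ‖y‖ ≤ ‖x‖ → r (qq f x) ≤ r (qq f y)) ∧
      (‖x‖ ≤ ‖y‖ → ‖y‖ ≤ ‖q‖ → r (qq f x) ≤ r (qq f y)) := by
  have hx0 : 0 < ‖x‖ := norm_pos_iff.2 hx
  have hq0 : 0 < ‖q‖ := norm_pos_iff.2 hq
  obtain ⟨n⟩ : Nonempty S2 := ⟨⟨EuclideanSpace.single 0 1, by simp⟩⟩
  set a : ℝ := NN 1 k f q with ha
  have hqq : ∀ z : E3, NN 1 k f z = a → qq f z = (a - XX k ‖z‖, ‖z‖) := by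
    intro z hz
    unfold qq
    rw [← hz]
    unfold NN
    refine Prod.ext ?_ rfl
    show f z = 1 * f z + XX k ‖z‖ - XX k ‖z‖
    ring
  rw [hqq x hxq, hqq y hyq]
  rw [hqq q rfl] at h0
  have hrd : ∀ ρ : ℝ, 0 < ρ → (a - XX k ρ, ρ) ∈ QQ f →
      HasDerivAt (fun ρ => r (a - XX k ρ, ρ)) (2 * k ρ * Db k r (a - XX k ρ, ρ)) ρ := fun ρ hρ hm =>
    cone_deriv hR.k_smooth hR.k_pos hρ ((hR.r_smooth _ hm).differentiableAt (by simp))
  constructor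
  · intro h1 h2
    have hQ : ∀ ρ ∈ Icc ‖q‖ ‖x‖, (a - XX k ρ, ρ) ∈ QQ f := by
      intro ρ hρ
      exact cone_mem hR hq hxq.symm hρ.1 hρ.2
    have hanti := c3_quot hR hq0 hQ n
    have hz : ∀ ρ ∈ Icc ‖q‖ ‖x‖, Db k r (a - XX k ρ, ρ) ≤ 0 := by
      intro ρ hρ
      have h3 := hanti (left_mem_Icc.2 (h1.trans h2)) hρ hρ.1
      simp only [h0, zero_div] at h3
      have h4 := hR.F_pos _ (hQ ρ hρ) n
      by_contra hcon
      rw [not_le] at hcon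
      exact absurd h3 (not_le.2 (div_pos hcon h4))
    have hr : AntitoneOn (fun ρ => r (a - XX k ρ, ρ)) (Icc ‖q‖ ‖x‖) := by
      refine antitoneOn_of_deriv_nonpos (convex_Icc _ _)
        (fun ρ hρ => (hrd ρ (lt_of_lt_of_le hq0 hρ.1) (hQ ρ hρ)).continuousAt.continuousWithinAt)
        (fun ρ hρ => (hrd ρ (lt_of_lt_of_le hq0 (interior_subset hρ).1) (hQ ρ (interior_subset hρ))).differentiableAt.differentiableWithinAt)
        fun ρ hρ => ?_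
      have hρ' := interior_subset hρ
      have hρ0 : 0 < ρ := lt_of_lt_of_le hq0 hρ'.1
      rw [(hrd ρ hρ0 (hQ ρ hρ')).deriv]
      have h5 := hR.k_pos ρ hρ0
      exact mul_nonpos_of_nonneg_of_nonpos (by linarith) (hz ρ hρ')
    exact hr ⟨h1, h2⟩ (right_mem_Icc.2 (h1.trans h2)) h2
  · intro h1 h2
    have hQ : ∀ ρ ∈ Icc ‖x‖ ‖q‖, (a - XX k ρ, ρ) ∈ QQ f := by
      intro ρ hρ
      rw [← hxq]
      exact cone_mem hR hx hxq hρ.1 hρ.2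
    have hanti := c3_quot hR hx0 hQ n
    have hz : ∀ ρ ∈ Icc ‖x‖ ‖q‖, 0 ≤ Db k r (a - XX k ρ, ρ) := by
      intro ρ hρ
      have h3 := hanti hρ (right_mem_Icc.2 (h1.trans h2)) hρ.2
      simp only [h0, zero_div] at h3
      have h4 := hR.F_pos _ (hQ ρ hρ) n
      by_contra hcon
      rw [not_le] at hcon
      exact absurd h3 (not_le.2 (div_neg_of_neg_of_pos hcon h4))
    have hr : MonotoneOn (fun ρ => r (a - XX k ρ, ρ)) (Icc ‖x‖ ‖q‖) := by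
      refine monotoneOn_of_deriv_nonneg (convex_Icc _ _)
        (fun ρ hρ => (hrd ρ (lt_of_lt_of_le hx0 hρ.1) (hQ ρ hρ)).continuousAt.continuousWithinAt)
        (fun ρ hρ => (hrd ρ (lt_of_lt_of_le hx0 (interior_subset hρ).1) (hQ ρ (interior_subset hρ))).differentiableAt.differentiableWithinAt)
        fun ρ hρ => ?_
      have hρ' := interior_subset hρ
      have hρ0 : 0 < ρ := lt_of_lt_of_le hx0 hρ'.1
      rw [(hrd ρ hρ0 (hQ ρ hρ')).deriv]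
      have h5 := hR.k_pos ρ hρ0
      exact mul_nonneg (by linarith) (hz ρ hρ')
    exact hr (left_mem_Icc.2 (h1.trans h2)) ⟨h1, h2⟩ h1

end H17T
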