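import Pool.Agent.Lib.H17T.FB
import Pool.Agent.Lib.H17T.C3

set_option autoImplicit false

/-!
# H17T, chunk F1 (M): growth of the null coordinates and signs at infinity

`|f(x)| ≤ C0 + 3 C log (‖x‖/R)` for `‖x‖ ≥ R` (along the ray: `|d/ds f(s n)| ≤ 3 C/s`; `f` is bounded on the sphere of radius `R`), and
`XX k ρ ≥ XX k R1 + (ρ - R1)/2` for `ρ ≥ R1 = max R (2C)` (`k ≥ 1/2`). So `± f + XX k ‖x‖ → ∞` uniformly.
`Da k r q = (r_T + r_ρ/k)/2`, `Db k r q = (-r_T + r_ρ/k)/2` tend to `1/2`.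
-/

open MeasureTheory Filter Topology Set
open scoped ContDiff

namespace H17T

open Pool.Agent.Lib.PenroseSph (E3 Tens S2 sm pd)

theorem f1_expand (D : E3 →L[ℝ] ℝ) (n : E3) : D n = ∑ m, n m * D (EuclideanSpace.single m 1) := by
  have hn : n = ∑ m, n m • EuclideanSpace.single m (1 : ℝ) := by
    ext i
    simp [Finset.sum_apply, Pi.single_apply]
  calc D n = D (∑ m, n m • EuclideanSpace.single m (1 : ℝ)) := by rw [← hn]
    _ = ∑ m, n m * D (EuclideanSpace.single m 1) := by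
        rw [map_sum]
        simp

theorem f1_norm (n : S2) {s : ℝ} (hs : 0 < s) : ‖s • (n : E3)‖ = s := by
  rw [norm_smul, Real.norm_eq_abs, abs_of_pos hs]
  simp

theorem f1_ne (n : S2) {s : ℝ} (hs : 0 < s) : s • (n : E3) ≠ 0 := by
  intro h
  have h1 := f1_norm n hs
  rw [h, norm_zero] at h1
  exact hs.ne h1

theorem f1_coord (n : E3) (i : Fin 3) : |n i| ≤ ‖n‖ := by
  have h := PiLp.norm_apply_le n i
  rwa [Real.norm_eq_abs] at h

/-- The derivative along the ray is small. -/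
theorem f1_small {F : E4 → ℝ} {k : ℝ → ℝ} {r : ℝ × ℝ → ℝ} {f : E3 → ℝ} {C R : ℝ}
    (hB : BD F k r f C R) (n : S2) {s : ℝ} (h1 : R ≤ s) (h2 : 12 * C ≤ s) : |fderiv ℝ f (s • (n : E3)) n| ≤ 1 / 4 := by
  have hs : 0 < s := by linarith [hB.R_pos]
  have hN := f1_norm n hs
  have hf := hB.f1 (s • (n : E3)) (by rw [hN]; exact h1)
  rw [hN] at hf
  rw [f1_expand]
  have hb : ∀ m : Fin 3, |(n : E3) m * fderiv ℝ f (s • (n : E3)) (EuclideanSpace.single m 1)| ≤ 1 / 12 := by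
    intro m
    rw [abs_mul]
    have a1 : |(n : E3) m| ≤ 1 := by
      have a2 := f1_coord (n : E3) m
      have a3 : ‖(n : E3)‖ = 1 := by simp
      rwa [a3] at a2
    have a4 : |fderiv ℝ f (s • (n : E3)) (EuclideanSpace.single m 1)| ≤ C / s := hf m
    have a5 : C / s ≤ 1 / 12 := by
      rw [div_le_iff₀ hs]
      linarith
    calc |(n : E3) m| * |fderiv ℝ f (s • (n : E3)) (EuclideanSpace.single m 1)|
        ≤ 1 * (C / s) := mul_le_mul a1 a4 (abs_nonneg _) zero_le_one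
      _ ≤ 1 / 12 := by rw [one_mul]; exact a5
  calc |∑ m, (n : E3) m * fderiv ℝ f (s • (n : E3)) (EuclideanSpace.single m 1)|
      ≤ ∑ m, |(n : E3) m * fderiv ℝ f (s • (n : E3)) (EuclideanSpace.single m 1)| := Finset.abs_sum_le_sum_abs _ _
    _ ≤ ∑ _m : Fin 3, (1 / 12 : ℝ) := Finset.sum_le_sum fun m _ => hb m
    _ = 1 / 4 := by simp; norm_num

theorem f1_grow {F : E4 → ℝ} {k : ℝ → ℝ} {r : ℝ × ℝ → ℝ} {f : E3 → ℝ} (hS : Slice F k r f) {C R : ℝ}
    (hB : BD F k r f C R) {ε : ℝ} (hε : ε = 1 ∨ ε = -1) (M : ℝ) :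
    ∃ R' : ℝ, ∀ x : E3, R' ≤ ‖x‖ → M ≤ NN ε k f x := by
  obtain ⟨R2, hR2⟩ : ∃ R2, R2 = max R (12 * C) := ⟨_, rfl⟩
  have hR2a : R ≤ R2 := by rw [hR2]; exact le_max_left _ _
  have hR2b : 12 * C ≤ R2 := by rw [hR2]; exact le_max_right _ _
  have hR2p : 0 < R2 := by linarith [hB.R_pos]
  have hcont : ContinuousOn (NN ε k f) (Metric.sphere (0 : E3) R2) := by
    intro x hx
    have hx1 : ‖x‖ = R2 := mem_sphere_zero_iff_norm.1 hx
    have hx0 : x ≠ 0 := by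
      rintro rfl
      rw [norm_zero] at hx1
      exact hR2p.ne hx1
    exact (NN_smooth hS.k_smooth hS.f_smooth hx0).continuousAt.continuousWithinAt
  obtain ⟨m, hm⟩ := ((isCompact_sphere (0 : E3) R2).image_of_continuousOn hcont).bddBelow
  have hm' : ∀ n : S2, m ≤ NN ε k f (R2 • (n : E3)) := fun n =>
    hm ⟨R2 • (n : E3), mem_sphere_zero_iff_norm.2 (f1_norm n hR2p), rfl⟩
  have hray : ∀ (n : S2) (s : ℝ), R2 ≤ s → m + (s - R2) / 2 ≤ NN ε k f (s • (n : E3)) := by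
    intro n s hs
    have hd : ∀ u : ℝ, R2 ≤ u → HasDerivAt (fun u : ℝ => NN ε k f (u • (n : E3)) - u / 2)
        (ε * fderiv ℝ f (u • (n : E3)) n + k u - 1 / 2) u := by
      intro u hu
      have hu0 : 0 < u := hR2p.trans_le hu
      have d1 : HasDerivAt (fun s : ℝ => s • (n : E3)) (n : E3) u := by
        have a1 := (hasDerivAt_id u).smul_const (n : E3)
        simpa using a1
      have d2 : HasDerivAt (fun s : ℝ => f (s • (n : E3))) (fderiv ℝ f (u • (n : E3)) n) u :=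
        ((hS.f_smooth _ (f1_ne n hu0)).differentiableAt (by simp)).hasFDerivAt.comp_hasDerivAt u d1
      have d3 : HasDerivAt (fun s : ℝ => XX k ‖s • (n : E3)‖) (k u) u := by
        refine (XX_deriv hS.k_smooth hu0).congr_of_eventuallyEq ?_
        filter_upwards [eventually_gt_nhds hu0] with w hw
        rw [f1_norm n hw]
      exact ((d2.const_mul ε).add d3).sub ((hasDerivAt_id u).div_const 2)
    have hmono : MonotoneOn (fun u : ℝ => NN ε k f (u • (n : E3)) - u / 2) (Ici R2) := by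
      refine monotoneOn_of_deriv_nonneg (convex_Ici R2) (fun u hu => (hd u hu).continuousAt.continuousWithinAt)
        (fun u hu => (hd u (interior_subset hu)).differentiableAt.differentiableWithinAt) (fun u hu => ?_)
      have hu' : R2 ≤ u := interior_subset hu
      have hu0 : 0 < u := hR2p.trans_le hu'
      rw [(hd u hu').deriv]
      have a1 := abs_le.1 (f1_small hB n (hR2a.trans hu') (hR2b.trans hu'))
      have a2 := abs_le.1 (hB.k0 u (hR2a.trans hu'))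
      have a3 : C / u ≤ 1 / 12 := by
        rw [div_le_iff₀ hu0]
        linarith
      have a4 : -(1 / 4) ≤ ε * fderiv ℝ f (u • (n : E3)) n := by
        rcases hε with h | h
        · rw [h]; linarith [a1.1]
        · rw [h]; linarith [a1.2]
      linarith [a2.1]
    have h1 := hmono (mem_Ici.2 le_rfl) hs hs
    have h2 : NN ε k f (R2 • (n : E3)) - R2 / 2 ≤ NN ε k f (s • (n : E3)) - s / 2 := h1
    linarith [hm' n]
  refine ⟨max R2 (R2 + 2 * (M - m)), fun x hx => ?_⟩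
  have h1 : R2 ≤ ‖x‖ := (le_max_left _ _).trans hx
  have h2 : R2 + 2 * (M - m) ≤ ‖x‖ := (le_max_right _ _).trans hx
  have hx0 : 0 < ‖x‖ := hR2p.trans_le h1
  have h3 := hray ⟨‖x‖⁻¹ • x, by
    rw [mem_sphere_zero_iff_norm, norm_smul, norm_inv, norm_norm, inv_mul_cancel₀ hx0.ne']⟩ ‖x‖ h1
  have h4 : ‖x‖ • (‖x‖⁻¹ • x) = x := by rw [smul_smul, mul_inv_cancel₀ hx0.ne', one_smul]
  have h5 : m + (‖x‖ - R2) / 2 ≤ NN ε k f (‖x‖ • (‖x‖⁻¹ • x)) := h3
  rw [h4] at h5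
  linarith

theorem ends_grow {F : E4 → ℝ} {k : ℝ → ℝ} {r : ℝ × ℝ → ℝ} {f : E3 → ℝ} (hS : Slice F k r f) {C R : ℝ}
    (hB : BD F k r f C R) (M : ℝ) :
    ∃ R' : ℝ, ∀ x : E3, R' ≤ ‖x‖ → M ≤ NN 1 k f x ∧ M ≤ NN (-1) k f x := by
  obtain ⟨R1, h1⟩ := f1_grow hS hB (Or.inl rfl) M
  obtain ⟨R2, h2⟩ := f1_grow hS hB (Or.inr rfl) M
  exact ⟨max R1 R2, fun x hx => ⟨h1 x ((le_max_left _ _).trans hx), h2 x ((le_max_right _ _).trans hx)⟩⟩

theorem ends_pos {F : E4 → ℝ} {k : ℝ → ℝ} {r : ℝ × ℝ → ℝ} {f : E3 → ℝ} (hS : Slice F k r f) {C R : ℝ}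
    (hB : BD F k r f C R) :
    ∃ R' : ℝ, ∀ x : E3, R' ≤ ‖x‖ → 0 < Da k r (qq f x) ∧ 0 < Db k r (qq f x) := by
  refine ⟨max R (8 * C), fun x hx => ?_⟩
  have h1 : R ≤ ‖x‖ := (le_max_left _ _).trans hx
  have h2 : 8 * C ≤ ‖x‖ := (le_max_right _ _).trans hx
  have hx0 : 0 < ‖x‖ := by linarith [hB.R_pos]
  have hC : C / ‖x‖ ≤ 1 / 8 := by
    rw [div_le_iff₀ hx0]
    linarith
  have hq : qq f x ∈ QQ f := ⟨x, norm_pos_iff.1 hx0, rfl⟩
  have hT := abs_le.1 (hB.rT (qq f x) hq h1)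
  have hR := abs_le.1 (hB.rR (qq f x) hq h1)
  have hk := abs_le.1 (hB.k0 ‖x‖ h1)
  have e2 : (qq f x).2 = ‖x‖ := rfl
  rw [e2] at hT hR
  have hk0 : 0 < k ‖x‖ := hS.k_pos _ hx0
  have e3 : ∀ a : ℝ, fderiv ℝ r (qq f x) (a, 1 / (2 * k ‖x‖)) =
      a * fderiv ℝ r (qq f x) (1, 0) + 1 / (2 * k ‖x‖) * fderiv ℝ r (qq f x) (0, 1) := by
    intro a
    have e4 : ((a, 1 / (2 * k ‖x‖)) : ℝ × ℝ) = a • ((1, 0) : ℝ × ℝ) + (1 / (2 * k ‖x‖)) • ((0, 1) : ℝ × ℝ) := by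
      refine Prod.ext ?_ ?_
      · show a = a * 1 + 1 / (2 * k ‖x‖) * 0
        ring
      · show 1 / (2 * k ‖x‖) = a * 0 + 1 / (2 * k ‖x‖) * 1
        ring
    rw [e4, map_add, map_smul, map_smul, smul_eq_mul, smul_eq_mul]
  have h5 : 1 / 8 < 1 / (2 * k ‖x‖) * fderiv ℝ r (qq f x) (0, 1) := by
    rw [one_div_mul_eq_div, lt_div_iff₀ (by linarith)]
    linarith [hk.2, hR.1]
  unfold Da Db
  rw [e2, e3, e3]
  constructor
  · linarith [hT.1]
  · linarith [hT.2]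

end H17T
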