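import Pool.Agent.Lib.H17T.C1

set_option autoImplicit false

/-!
# H17T, chunk C2 (S/M): intermediate values of the radius on a level set of `NN`

`NN ε k f` is continuous off the origin and strictly increasing along rays (`NN_mono`). Let `‖x‖ ≤ ρ ≤ ‖y‖` and
`NN x = NN y = a`. At `(ρ/‖x‖) • x` the function is `≥ a`, at `(ρ/‖y‖) • y` it is `≤ a`. The sphere of radius `ρ` in
`E3 = EuclideanSpace ℝ (Fin 3)` is connected (`isPreconnected_sphere`, the rank is `3 > 1`), hence `NN z = a` for some `z` on it.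
Second part: `NN 1 k f z = f z + XX k ‖z‖`.
-/

open MeasureTheory Filter Topology Set
open scoped ContDiff

namespace H17T

open Pool.Agent.Lib.PenroseSph (E3 Tens S2 sm)

theorem level_ivt {F : E4 → ℝ} {k : ℝ → ℝ} {r : ℝ × ℝ → ℝ} {f : E3 → ℝ} (hR : Red F k r f) {ε : ℝ}
    (hε : ε = 1 ∨ ε = -1) {x y : E3} (hx : x ≠ 0) (hxy : NN ε k f x = NN ε k f y) {ρ : ℝ}
    (h1 : ‖x‖ ≤ ρ) (h2 : ρ ≤ ‖y‖) : ∃ z : E3, ‖z‖ = ρ ∧ NN ε k f z = NN ε k f x := by
  have hx0 : 0 < ‖x‖ := norm_pos_iff.2 hx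
  have hρ : 0 < ρ := lt_of_lt_of_le hx0 h1
  have hy0 : 0 < ‖y‖ := lt_of_lt_of_le hρ h2
  have hy : y ≠ 0 := norm_pos_iff.1 hy0
  have hmono := fun {z : E3} (hz : z ≠ 0) {c : ℝ} (hc : 1 < c) =>
    NN_mono hε hR.k_smooth hR.f_smooth hR.slope hz hc
  -- the two points on the sphere
  have hxn : ‖(ρ / ‖x‖) • x‖ = ρ := by
    rw [norm_smul, Real.norm_of_nonneg (by positivity), div_mul_cancel₀ _ hx0.ne']
  have hyn : ‖(ρ / ‖y‖) • y‖ = ρ := by
    rw [norm_smul, Real.norm_of_nonneg (by positivity), div_mul_cancel₀ _ hy0.ne']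
  have hxa : NN ε k f x ≤ NN ε k f ((ρ / ‖x‖) • x) := by
    rcases h1.eq_or_lt with h | h
    · rw [← h, div_self hx0.ne', one_smul]
    · exact (hmono hx ((one_lt_div hx0).2 h)).le
  have hya : NN ε k f ((ρ / ‖y‖) • y) ≤ NN ε k f x := by
    rw [hxy]
    rcases h2.eq_or_lt with h | h
    · rw [h, div_self hy0.ne', one_smul]
    · have hne : (ρ / ‖y‖) • y ≠ 0 := by
        rw [← norm_pos_iff, hyn]
        exact hρ
      have h3 := hmono hne ((one_lt_div hρ).2 h)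
      have e : (‖y‖ / ρ) • (ρ / ‖y‖) • y = y := by
        rw [smul_smul, div_mul_div_cancel₀ hρ.ne', div_self hy0.ne', one_smul]
      rw [e] at h3
      exact h3.le
  have hconn : IsPreconnected (Metric.sphere (0 : E3) ρ) := by
    refine isPreconnected_sphere ?_ 0 ρ
    rw [← Module.finrank_eq_rank, finrank_euclideanSpace_fin]
    exact_mod_cast (by norm_num : 1 < 3)
  have hcont : ContinuousOn (NN ε k f) (Metric.sphere (0 : E3) ρ) := by
    intro z hz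
    have hz' : z ≠ 0 := by
      rw [← norm_pos_iff, mem_sphere_zero_iff_norm.1 hz]
      exact hρ
    exact (NN_smooth hR.k_smooth hR.f_smooth hz').continuousAt.continuousWithinAt
  obtain ⟨z, hz, hz'⟩ := hconn.intermediate_value (mem_sphere_zero_iff_norm.2 hyn) (mem_sphere_zero_iff_norm.2 hxn) hcont ⟨hya, hxa⟩
  exact ⟨z, mem_sphere_zero_iff_norm.1 hz, hz'⟩

/-- The points of the cone `T + X(ρ) = const` between two points of the slice belong to `QQ f`. -/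
theorem cone_mem {F : E4 → ℝ} {k : ℝ → ℝ} {r : ℝ × ℝ → ℝ} {f : E3 → ℝ} (hR : Red F k r f) {x y : E3} (hx : x ≠ 0)
    (hxy : NN 1 k f x = NN 1 k f y) {ρ : ℝ} (h1 : ‖x‖ ≤ ρ) (h2 : ρ ≤ ‖y‖) :
    (NN 1 k f x - XX k ρ, ρ) ∈ QQ f := by
  obtain ⟨z, hz, hz'⟩ := level_ivt hR (Or.inl rfl) hx hxy h1 h2
  have hz0 : z ≠ 0 := by
    rw [← norm_pos_iff, hz]
    exact lt_of_lt_of_le (norm_pos_iff.2 hx) h1
  refine ⟨z, hz0, ?_⟩
  unfold qq
  rw [← hz', ← hz]
  unfold NN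
  refine Prod.ext ?_ rfl
  show f z = 1 * f z + XX k ‖z‖ - XX k ‖z‖
  ring

end H17T
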