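import Pool.Agent.Lib.H17T.T0
import Pool.Agent.Lib.H17T.C2

set_option autoImplicit false

/-!
# H17T, chunk FB (M): bounds for `F`, `k`, `r` at the points of `QQ f` with large radius

`q ∈ QQ f` iff `ev q n ∈ Near f` (`ev_near`). From `Decay f F`: the bounds for `F`. From `Decay f (k ∘ ‖pos‖)`: `pd (i+1)` of it is
`k'(ρ) x̂_i`, take the sum of the squares. From `Decay` of `φ p = r (p 0, ‖pos p‖)/‖pos p‖`: `pd 0 φ = r_T/ρ`;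
`Σ_i x̂_i pd (i+1) φ = r_ρ/ρ - r/ρ²`; `pd 0 (pd 0 φ) = r_TT/ρ`; `Σ_i x̂_i pd 0 (pd (i+1) φ) = (r_ρ)_T/ρ - r_T/ρ²`. One constant `C` for all.
-/

open MeasureTheory Filter Topology Set
open scoped ContDiff

namespace H17T

open Pool.Agent.Lib.PenroseSph (E3 Tens S2 sm pd)

/-- Bounds at infinity. -/
structure BD (F : E4 → ℝ) (k : ℝ → ℝ) (r : ℝ × ℝ → ℝ) (f : E3 → ℝ) (C R : ℝ) : Prop where
  C_nonneg : 0 ≤ C
  R_pos : 1 ≤ R
  f1 : ∀ x : E3, R ≤ ‖x‖ → ∀ i, |pd i f x| ≤ C / ‖x‖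
  f2 : ∀ x : E3, R ≤ ‖x‖ → ∀ i j, |pd i (pd j f) x| ≤ C / ‖x‖ ^ 2
  F0 : ∀ q ∈ QQ f, R ≤ q.2 → ∀ n : S2, |F (ev q n) - 1| ≤ C / q.2
  F1 : ∀ q ∈ QQ f, R ≤ q.2 → ∀ (n : S2) a, |H31R.pd a F (ev q n)| ≤ C / q.2 ^ 2
  k0 : ∀ ρ : ℝ, R ≤ ρ → |k ρ - 1| ≤ C / ρ
  k1 : ∀ ρ : ℝ, R ≤ ρ → |deriv k ρ| ≤ C / ρ ^ 2
  r0 : ∀ q ∈ QQ f, R ≤ q.2 → |r q - q.2| ≤ C
  rT : ∀ q ∈ QQ f, R ≤ q.2 → |fderiv ℝ r q (1, 0)| ≤ C / q.2
  rR : ∀ q ∈ QQ f, R ≤ q.2 → |fderiv ℝ r q (0, 1) - 1| ≤ C / q.2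
  rTT : ∀ q ∈ QQ f, R ≤ q.2 → |fderiv ℝ (fun q => fderiv ℝ r q (1, 0)) q (1, 0)| ≤ C / q.2 ^ 2
  rRT : ∀ q ∈ QQ f, R ≤ q.2 → |fderiv ℝ (fun q => fderiv ℝ r q (0, 1)) q (1, 0)| ≤ C / q.2 ^ 2

/-- A fixed direction. -/
noncomputable def fb_e : S2 := ⟨EuclideanSpace.single (0 : Fin 3) (1 : ℝ), by
  rw [mem_sphere_zero_iff_norm]; simp⟩

/-- The plane through the axis in the fixed direction. -/
noncomputable def fb_i : ℝ × ℝ →L[ℝ] E4 :=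
  (ContinuousLinearMap.fst ℝ ℝ ℝ).smulRight (H31R.ebas (0 : Fin 4)) +
    (ContinuousLinearMap.snd ℝ ℝ ℝ).smulRight (H31R.ebas (1 : Fin 4))

theorem fb_i_apply (q : ℝ × ℝ) : fb_i q = q.1 • H31R.ebas (0 : Fin 4) + q.2 • H31R.ebas (1 : Fin 4) := rfl

theorem fb_ev (q : ℝ × ℝ) : ev q (fb_e : E3) = fb_i q := by
  rw [fb_i_apply]
  ext i
  fin_cases i <;> simp [ev, pt, fb_e, H31R.ebas]

theorem fb_i0 : fb_i (1, 0) = H31R.ebas (0 : Fin 4) := by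
  rw [fb_i_apply]
  simp

theorem fb_i1 : fb_i (0, 1) = H31R.ebas (1 : Fin 4) := by
  rw [fb_i_apply]
  simp

theorem fb_norm (q : ℝ × ℝ) (hq : 0 < q.2) : ‖pos (fb_i q)‖ = q.2 := by
  rw [← fb_ev]
  have h1 : pos (ev q (fb_e : E3)) = q.2 • (fb_e : E3) := pos_pt _ _
  rw [h1, norm_smul, mem_sphere_zero_iff_norm.1 fb_e.2, mul_one, Real.norm_of_nonneg hq.le]

theorem fb_zero (q : ℝ × ℝ) : fb_i q 0 = q.1 := by
  rw [← fb_ev]
  exact pt_zero _ _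

/-- The chain rule. -/
theorem fb_chain {φ : E4 → ℝ} {q : ℝ × ℝ} (h : ContDiffAt ℝ ∞ φ (fb_i q)) :
    ∀ᶠ q' in 𝓝 q, ∀ v : ℝ × ℝ, fderiv ℝ (fun q => φ (fb_i q)) q' v = fderiv ℝ φ (fb_i q') (fb_i v) := by
  have h1 : ∀ᶠ p in 𝓝 (fb_i q), ContDiffAt ℝ 1 φ p :=
    (h.of_le (by exact_mod_cast le_top : (1 : WithTop ℕ∞) ≤ ∞)).eventually (by simp)
  have h2 : ∀ᶠ q' in 𝓝 q, ContDiffAt ℝ 1 φ (fb_i q') := fb_i.continuous.continuousAt.eventually h1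
  filter_upwards [h2] with q' hq' v
  have h3 : HasFDerivAt φ (fderiv ℝ φ (fb_i q')) (fb_i q') := (hq'.differentiableAt (by simp)).hasFDerivAt
  have h4 : HasFDerivAt (fun q => φ (fb_i q)) ((fderiv ℝ φ (fb_i q')).comp fb_i) q' :=
    h3.comp q' fb_i.hasFDerivAt
  rw [h4.fderiv]
  rfl

theorem fb_chain2 {φ : E4 → ℝ} {q : ℝ × ℝ} (h : ContDiffAt ℝ ∞ φ (fb_i q)) (v w : ℝ × ℝ) :
    fderiv ℝ (fun q' => fderiv ℝ (fun q => φ (fb_i q)) q' v) q w =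
      fderiv ℝ (fun p => fderiv ℝ φ p (fb_i v)) (fb_i q) (fb_i w) := by
  have h1 : (fun q' => fderiv ℝ (fun q => φ (fb_i q)) q' v) =ᶠ[𝓝 q] fun q' => (fun p => fderiv ℝ φ p (fb_i v)) (fb_i q') := by
    filter_upwards [fb_chain h] with q' hq'
    exact hq' v
  rw [h1.fderiv_eq]
  have h2 : ContDiffAt ℝ ∞ (fun p => fderiv ℝ φ p (fb_i v)) (fb_i q) := by
    have h3 : ContDiffAt ℝ ∞ (fderiv ℝ φ) (fb_i q) := h.fderiv_right (by simp)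
    exact h3.clm_apply contDiffAt_const
  exact (fb_chain h2).self_of_nhds w

theorem fb_pos {f : E3 → ℝ} {q : ℝ × ℝ} (hq : q ∈ QQ f) : 0 < q.2 := by
  obtain ⟨y, hy, h⟩ := hq
  rw [← h]
  exact norm_pos_iff.2 hy

theorem fb_near {f : E3 → ℝ} {q : ℝ × ℝ} (hq : q ∈ QQ f) : fb_i q ∈ Near f := by
  rw [← fb_ev]
  exact (ev_near hq fb_e).1

theorem fb_ρ (f : E3 → ℝ) {ρ : ℝ} (hρ : 0 < ρ) : (f (ρ • (fb_e : E3)), ρ) ∈ QQ f := by
  refine ⟨ρ • (fb_e : E3), ?_, ?_⟩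
  · rw [← norm_pos_iff, norm_smul, mem_sphere_zero_iff_norm.1 fb_e.2, mul_one, Real.norm_of_nonneg hρ.le]
    exact hρ
  · unfold qq
    rw [norm_smul, mem_sphere_zero_iff_norm.1 fb_e.2, mul_one, Real.norm_of_nonneg hρ.le]

theorem fb_φ {F : E4 → ℝ} {k : ℝ → ℝ} {r : ℝ × ℝ → ℝ} {f : E3 → ℝ} (hS : Slice F k r f) {p : E4} (hp : p ∈ Near f) :
    ContDiffAt ℝ ∞ (fun p : E4 => r (p 0, ‖pos p‖) / ‖pos p‖) p ∧ ContDiffAt ℝ ∞ (fun p : E4 => k ‖pos p‖) p := by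
  have hp1 := hp.1
  have hpos : ContDiffAt ℝ ∞ pos p := pos_smooth.contDiffAt
  have hnorm : ContDiffAt ℝ ∞ (fun p : E4 => ‖pos p‖) p := hpos.norm ℝ hp1
  have hn : ‖pos p‖ ≠ 0 := norm_ne_zero_iff.mpr hp1
  have hp0 : ContDiffAt ℝ ∞ (fun p : E4 => p 0) p := by
    have : ContDiffAt ℝ ∞ (fun p : E4 => (EuclideanSpace.proj (0 : Fin 4) : E4 →L[ℝ] ℝ) p) p :=
      (EuclideanSpace.proj (0 : Fin 4) : E4 →L[ℝ] ℝ).contDiff.contDiffAt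
    exact this
  have hk' : ContDiffAt ℝ ∞ (fun p : E4 => k ‖pos p‖) p :=
    ContDiffAt.comp p (g := k) (hS.k_smooth _ (norm_pos_iff.2 hp1)) hnorm
  have hr' : ContDiffAt ℝ ∞ (fun p : E4 => r (p 0, ‖pos p‖)) p := by
    have h1 : ContDiffAt ℝ ∞ (fun p : E4 => (p 0, ‖pos p‖)) p := hp0.prodMk hnorm
    exact ContDiffAt.comp p (g := r) (hS.r_smooth p hp) h1
  exact ⟨hr'.div hnorm hn, hk'⟩

/-- The derivatives of r. -/
theorem fb_r {F : E4 → ℝ} {k : ℝ → ℝ} {r : ℝ × ℝ → ℝ} {f : E3 → ℝ} (hS : Slice F k r f) {q : ℝ × ℝ} (hq : q ∈ QQ f) :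
    (∀ᶠ q' in 𝓝 q, ∀ v : ℝ × ℝ, fderiv ℝ r q' v = q'.2 * fderiv ℝ (fun p : E4 => r (p 0, ‖pos p‖) / ‖pos p‖) (fb_i q') (fb_i v) +
      v.2 * (r q' / q'.2)) := by
  have hsm := (fb_φ hS (fb_near hq)).1
  have hpos := fb_pos hq
  have h0 : ∀ᶠ q' in 𝓝 q, 0 < q'.2 := continuous_snd.continuousAt.eventually (lt_mem_nhds hpos)
  have hrq : ContDiffAt ℝ ∞ r q := by
    have h1 := hS.r_smooth _ (fb_near hq)
    rwa [fb_zero, fb_norm q hpos] at h1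
  have hr1 : ∀ᶠ q' in 𝓝 q, ContDiffAt ℝ 1 r q' :=
    (hrq.of_le (by exact_mod_cast le_top : (1 : WithTop ℕ∞) ≤ ∞)).eventually (by simp)
  have hev : ∀ᶠ q' in 𝓝 q, ∀ᶠ q'' in 𝓝 q', (fun q => (fun p : E4 => r (p 0, ‖pos p‖) / ‖pos p‖) (fb_i q)) q'' = r q'' / q''.2 := by
    filter_upwards [h0] with q' hq'
    have h1 : ∀ᶠ q'' in 𝓝 q', 0 < q''.2 := continuous_snd.continuousAt.eventually (lt_mem_nhds hq')
    filter_upwards [h1] with q'' hq''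
    show r (fb_i q'' 0, ‖pos (fb_i q'')‖) / ‖pos (fb_i q'')‖ = r q'' / q''.2
    rw [fb_zero, fb_norm q'' hq'']
  filter_upwards [h0, hr1, hev, fb_chain hsm] with q' hq' hr hev' hch v
  rw [← hch v]
  have h3 : (fun q => (fun p : E4 => r (p 0, ‖pos p‖) / ‖pos p‖) (fb_i q)) =ᶠ[𝓝 q'] fun q => r q / q.2 := hev'
  rw [h3.fderiv_eq]
  have h4 : HasFDerivAt r (fderiv ℝ r q') q' := (hr.differentiableAt (by simp)).hasFDerivAt
  have h5 : HasFDerivAt (fun q : ℝ × ℝ => q.2) (ContinuousLinearMap.snd ℝ ℝ ℝ) q' := hasFDerivAt_snd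
  have h6 : DifferentiableAt ℝ (fun q : ℝ × ℝ => r q / q.2) q' :=
    (hr.div contDiffAt_snd hq'.ne').differentiableAt (by simp)
  have h7 : HasFDerivAt (fun q : ℝ × ℝ => q.2 * (r q / q.2)) (q'.2 • fderiv ℝ (fun q : ℝ × ℝ => r q / q.2) q' +
      (r q' / q'.2) • ContinuousLinearMap.snd ℝ ℝ ℝ) q' := h5.mul h6.hasFDerivAt
  have h8 : r =ᶠ[𝓝 q'] fun q : ℝ × ℝ => q.2 * (r q / q.2) := by
    have h1 : ∀ᶠ q'' in 𝓝 q', 0 < q''.2 := continuous_snd.continuousAt.eventually (lt_mem_nhds hq')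
    filter_upwards [h1] with q'' hq''
    field_simp
  rw [h8.fderiv_eq, h7.fderiv]
  rw [ContinuousLinearMap.add_apply, ContinuousLinearMap.smul_apply, ContinuousLinearMap.smul_apply, smul_eq_mul, smul_eq_mul,
    ContinuousLinearMap.coe_snd', mul_comm v.2]

theorem fb_r2 {F : E4 → ℝ} {k : ℝ → ℝ} {r : ℝ × ℝ → ℝ} {f : E3 → ℝ} (hS : Slice F k r f) {q : ℝ × ℝ} (hq : q ∈ QQ f) (v : ℝ × ℝ) :
    fderiv ℝ (fun q' => fderiv ℝ r q' v) q (1, 0) =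
      q.2 * fderiv ℝ (fun p => fderiv ℝ (fun p : E4 => r (p 0, ‖pos p‖) / ‖pos p‖) p (fb_i v)) (fb_i q) (fb_i (1, 0)) +
      v.2 * fderiv ℝ (fun p : E4 => r (p 0, ‖pos p‖) / ‖pos p‖) (fb_i q) (fb_i (1, 0)) := by
  set φ : E4 → ℝ := fun p : E4 => r (p 0, ‖pos p‖) / ‖pos p‖ with hφ
  have hsm : ContDiffAt ℝ ∞ φ (fb_i q) := (fb_φ hS (fb_near hq)).1
  have hpos := fb_pos hq
  have h0 : ∀ᶠ q' in 𝓝 q, 0 < q'.2 := continuous_snd.continuousAt.eventually (lt_mem_nhds hpos)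
  have h1 : (fun q' => fderiv ℝ r q' v) =ᶠ[𝓝 q] fun q' => q'.2 * fderiv ℝ φ (fb_i q') (fb_i v) + v.2 * φ (fb_i q') := by
    filter_upwards [fb_r hS hq, h0] with q' hq' hq0
    rw [hq' v]
    have e : φ (fb_i q') = r q' / q'.2 := by
      show r (fb_i q' 0, ‖pos (fb_i q')‖) / ‖pos (fb_i q')‖ = r q' / q'.2
      rw [fb_zero, fb_norm q' hq0]
    rw [e]
  rw [h1.fderiv_eq]
  have h2 : ContDiffAt ℝ ∞ (fun p => fderiv ℝ φ p (fb_i v)) (fb_i q) := by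
    have h3 : ContDiffAt ℝ ∞ (fderiv ℝ φ) (fb_i q) := hsm.fderiv_right (by simp)
    exact h3.clm_apply contDiffAt_const
  have h4 : HasFDerivAt (fun q' => (fun p => fderiv ℝ φ p (fb_i v)) (fb_i q')) _ q :=
    ((h2.differentiableAt (by simp)).hasFDerivAt).comp q fb_i.hasFDerivAt
  have h5 : HasFDerivAt (fun q' => φ (fb_i q')) _ q :=
    ((hsm.differentiableAt (by simp)).hasFDerivAt).comp q fb_i.hasFDerivAt
  have h6 : HasFDerivAt (fun q : ℝ × ℝ => q.2) (ContinuousLinearMap.snd ℝ ℝ ℝ) q := hasFDerivAt_snd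
  have h7 := (h6.mul h4).add (h5.const_mul v.2)
  have h8 : fderiv ℝ (fun q' : ℝ × ℝ => q'.2 * fderiv ℝ φ (fb_i q') (fb_i v) + v.2 * φ (fb_i q')) q = _ := h7.fderiv
  rw [h8]
  show q.2 * _ + _ * (0 : ℝ) + v.2 * _ = _
  rw [mul_zero, add_zero]
  rfl

theorem bounds {F : E4 → ℝ} {k : ℝ → ℝ} {r : ℝ × ℝ → ℝ} {f : E3 → ℝ} (hS : Slice F k r f)
    (hA : AsympFlat F k r f) : ∃ C R : ℝ, BD F k r f C R := by
  obtain ⟨C₁, R₁, hR₁, h₁⟩ := hA.f_decay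
  obtain ⟨C₂, R₂, hR₂, h₂⟩ := hA.F_decay
  obtain ⟨C₃, R₃, hR₃, h₃⟩ := hA.k_decay
  obtain ⟨C₄, R₄, hR₄, h₄⟩ := hA.r_decay
  set C : ℝ := |C₁| + |C₂| + |C₃| + 2 * |C₄| with hC
  have hC0 : 0 ≤ C := by positivity
  have hc1 : C₁ ≤ C := by have := le_abs_self C₁; have := abs_nonneg C₂; have := abs_nonneg C₃; have := abs_nonneg C₄; linarith
  have hc2 : C₂ ≤ C := by have := le_abs_self C₂; have := abs_nonneg C₁; have := abs_nonneg C₃; have := abs_nonneg C₄; linarith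
  have hc3 : C₃ ≤ C := by have := le_abs_self C₃; have := abs_nonneg C₂; have := abs_nonneg C₁; have := abs_nonneg C₄; linarith
  have hc4 : 2 * C₄ ≤ C := by have := le_abs_self C₄; have := abs_nonneg C₂; have := abs_nonneg C₃; have := abs_nonneg C₁; linarith
  have hc4' : C₄ ≤ C := by have := le_abs_self C₄; have := abs_nonneg C₂; have := abs_nonneg C₃; have := abs_nonneg C₁; have := abs_nonneg C₄; linarith
  set R : ℝ := max (max 1 R₁) (max (max R₂ R₃) R₄) with hR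
  have r1 : 1 ≤ R := (le_max_left _ _).trans (le_max_left _ _)
  have r2 : R₁ ≤ R := (le_max_right _ _).trans (le_max_left _ _)
  have r3 : R₂ ≤ R := ((le_max_left _ _).trans (le_max_left _ _)).trans (le_max_right _ _)
  have r4 : R₃ ≤ R := ((le_max_right _ _).trans (le_max_left _ _)).trans (le_max_right _ _)
  have r5 : R₄ ≤ R := (le_max_right _ _).trans (le_max_right _ _)
  -- the function r
  have hφ : ∀ q ∈ QQ f, R ≤ q.2 → |r q / q.2 - 1| ≤ C₄ / q.2 ∧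
      (∀ a, |H31R.pd a (fun p : E4 => r (p 0, ‖pos p‖) / ‖pos p‖) (fb_i q)| ≤ C₄ / q.2 ^ 2) ∧
      ∀ a b, |H31R.pd a (H31R.pd b (fun p : E4 => r (p 0, ‖pos p‖) / ‖pos p‖)) (fb_i q)| ≤ C₄ / q.2 ^ 3 := by
    intro q hq hRq
    have hpos := fb_pos hq
    have hn := fb_norm q hpos
    have h := h₄ (fb_i q) (fb_near hq) (by rw [hn]; exact r5.trans hRq)
    rw [hn] at h
    refine ⟨?_, h.2.1, h.2.2⟩
    have h' := h.1
    have e : (fun p : E4 => r (p 0, ‖pos p‖) / ‖pos p‖) (fb_i q) = r q / q.2 := by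
      show r (fb_i q 0, ‖pos (fb_i q)‖) / ‖pos (fb_i q)‖ = r q / q.2
      rw [fb_zero, hn]
    rw [← e]
    exact h'
  have hP0 : ∀ q : ℝ × ℝ, fderiv ℝ (fun p : E4 => r (p 0, ‖pos p‖) / ‖pos p‖) (fb_i q) (fb_i (1, 0)) =
      H31R.pd 0 (fun p : E4 => r (p 0, ‖pos p‖) / ‖pos p‖) (fb_i q) := by
    intro q
    rw [fb_i0]
    rfl
  have hP1 : ∀ q : ℝ × ℝ, fderiv ℝ (fun p : E4 => r (p 0, ‖pos p‖) / ‖pos p‖) (fb_i q) (fb_i (0, 1)) =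
      H31R.pd 1 (fun p : E4 => r (p 0, ‖pos p‖) / ‖pos p‖) (fb_i q) := by
    intro q
    rw [fb_i1]
    rfl
  have hdiv : ∀ {a b c : ℝ}, 0 < c → a ≤ b → a / c ≤ b / c := fun hc hab => div_le_div_of_nonneg_right hab hc.le
  refine ⟨C, R, hC0, r1, ?_, ?_, ?_, ?_, ?_, ?_, ?_, ?_, ?_, ?_, ?_⟩
  · intro x hx i
    have hx0 : 0 < ‖x‖ := lt_of_lt_of_le one_pos (r1.trans hx)
    exact ((h₁ x (r2.trans hx)).1 i).trans (hdiv hx0 hc1)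
  · intro x hx i j
    have hx0 : 0 < ‖x‖ := lt_of_lt_of_le one_pos (r1.trans hx)
    exact ((h₁ x (r2.trans hx)).2 i j).trans (hdiv (pow_pos hx0 2) hc1)
  · intro q hq hx n
    obtain ⟨k1, -, k3, -⟩ := ev_near hq n
    have h := h₂ _ k1 (by rw [k3]; exact r3.trans hx)
    rw [k3] at h
    exact h.1.trans (hdiv (fb_pos hq) hc2)
  · intro q hq hx n a
    obtain ⟨k1, -, k3, -⟩ := ev_near hq n
    have h := h₂ _ k1 (by rw [k3]; exact r3.trans hx)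
    rw [k3] at h
    exact (h.2.1 a).trans (hdiv (pow_pos (fb_pos hq) 2) hc2)
  · intro ρ hρ
    have hρ0 : 0 < ρ := lt_of_lt_of_le one_pos (r1.trans hρ)
    have hq := fb_ρ f hρ0
    have hn := fb_norm _ (fb_pos hq)
    have h := h₃ _ (fb_near hq) (by rw [hn]; exact r4.trans hρ)
    simp only [hn] at h
    exact h.1.trans (hdiv hρ0 hc3)
  · intro ρ hρ
    have hρ0 : 0 < ρ := lt_of_lt_of_le one_pos (r1.trans hρ)
    have hq := fb_ρ f hρ0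
    have hn := fb_norm _ (fb_pos hq)
    have h := (h₃ _ (fb_near hq) (by rw [hn]; exact r4.trans hρ)).2.1 1
    rw [hn] at h
    have hch := (fb_chain (fb_φ hS (fb_near hq)).2).self_of_nhds (0, 1)
    have e1 : (fun q => (fun p : E4 => k ‖pos p‖) (fb_i q)) =ᶠ[𝓝 (f (ρ • (fb_e : E3)), ρ)] fun q : ℝ × ℝ => k q.2 := by
      have h0 : ∀ᶠ q' : ℝ × ℝ in 𝓝 (f (ρ • (fb_e : E3)), ρ), 0 < q'.2 :=
        continuous_snd.continuousAt.eventually (lt_mem_nhds hρ0)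
      filter_upwards [h0] with q' hq'
      show k ‖pos (fb_i q')‖ = k q'.2
      rw [fb_norm q' hq']
    rw [e1.fderiv_eq] at hch
    have h2 : HasDerivAt k (deriv k ρ) ρ := ((hS.k_smooth ρ hρ0).differentiableAt (by simp)).hasDerivAt
    have h3 : HasFDerivAt (fun q : ℝ × ℝ => k q.2) (deriv k ρ • ContinuousLinearMap.snd ℝ ℝ ℝ) (f (ρ • (fb_e : E3)), ρ) :=
      HasDerivAt.comp_hasFDerivAt (f := fun q : ℝ × ℝ => q.2) (f (ρ • (fb_e : E3)), ρ) h2 hasFDerivAt_snd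
    rw [h3.fderiv, fb_i1] at hch
    have h4 : deriv k ρ = H31R.pd 1 (fun p : E4 => k ‖pos p‖) (fb_i (f (ρ • (fb_e : E3)), ρ)) := by
      have h5 : (deriv k ρ • ContinuousLinearMap.snd ℝ ℝ ℝ) ((0 : ℝ), (1 : ℝ)) = deriv k ρ := by
        show deriv k ρ * 1 = deriv k ρ
        rw [mul_one]
      rw [← h5]
      exact hch
    rw [h4]
    exact h.trans (hdiv (pow_pos hρ0 2) hc3)
  · intro q hq hx
    have hpos := fb_pos hq
    have h := (hφ q hq hx).1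
    have e : r q - q.2 = q.2 * (r q / q.2 - 1) := by
      field_simp
    rw [e, abs_mul, abs_of_pos hpos]
    calc q.2 * |r q / q.2 - 1| ≤ q.2 * (C₄ / q.2) := mul_le_mul_of_nonneg_left h hpos.le
      _ = C₄ := by field_simp
      _ ≤ C := hc4'
  · intro q hq hx
    have hpos := fb_pos hq
    have h := (hφ q hq hx).2.1 0
    rw [(fb_r hS hq).self_of_nhds (1, 0), hP0]
    show |q.2 * _ + 0 * _| ≤ C / q.2
    rw [zero_mul, add_zero, abs_mul, abs_of_pos hpos]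
    calc q.2 * _ ≤ q.2 * (C₄ / q.2 ^ 2) := mul_le_mul_of_nonneg_left h hpos.le
      _ = C₄ / q.2 := by field_simp
      _ ≤ C / q.2 := hdiv hpos hc4'
  · intro q hq hx
    have hpos := fb_pos hq
    obtain ⟨h0, h1, -⟩ := hφ q hq hx
    rw [(fb_r hS hq).self_of_nhds (0, 1), hP1]
    show |q.2 * _ + 1 * _ - 1| ≤ C / q.2
    rw [one_mul, add_sub_assoc]
    calc _ ≤ |q.2 * H31R.pd 1 (fun p : E4 => r (p 0, ‖pos p‖) / ‖pos p‖) (fb_i q)| + |r q / q.2 - 1| := abs_add_le _ _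
      _ ≤ q.2 * (C₄ / q.2 ^ 2) + C₄ / q.2 := by
        rw [abs_mul, abs_of_pos hpos]
        exact add_le_add (mul_le_mul_of_nonneg_left (h1 1) hpos.le) h0
      _ = (2 * C₄) / q.2 := by
        field_simp
        ring
      _ ≤ C / q.2 := hdiv hpos hc4
  · intro q hq hx
    have hpos := fb_pos hq
    have h := (hφ q hq hx).2.2 0 0
    rw [fb_r2 hS hq (1, 0), hP0]
    show |q.2 * _ + 0 * _| ≤ C / q.2 ^ 2
    have e : fderiv ℝ (fun p => fderiv ℝ (fun p : E4 => r (p 0, ‖pos p‖) / ‖pos p‖) p (fb_i (1, 0))) (fb_i q) (fb_i (1, 0)) =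
        H31R.pd 0 (H31R.pd 0 (fun p : E4 => r (p 0, ‖pos p‖) / ‖pos p‖)) (fb_i q) := by
      rw [fb_i0]
      rfl
    rw [e, zero_mul, add_zero, abs_mul, abs_of_pos hpos]
    calc q.2 * _ ≤ q.2 * (C₄ / q.2 ^ 3) := mul_le_mul_of_nonneg_left h hpos.le
      _ = C₄ / q.2 ^ 2 := by field_simp
      _ ≤ C / q.2 ^ 2 := hdiv (pow_pos hpos 2) hc4'
  · intro q hq hx
    have hpos := fb_pos hq
    obtain ⟨-, h1, h2⟩ := hφ q hq hx
    rw [fb_r2 hS hq (0, 1), hP0]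
    show |q.2 * _ + 1 * _| ≤ C / q.2 ^ 2
    have e : fderiv ℝ (fun p => fderiv ℝ (fun p : E4 => r (p 0, ‖pos p‖) / ‖pos p‖) p (fb_i (0, 1))) (fb_i q) (fb_i (1, 0)) =
        H31R.pd 0 (H31R.pd 1 (fun p : E4 => r (p 0, ‖pos p‖) / ‖pos p‖)) (fb_i q) := by
      rw [fb_i0, fb_i1]
      rfl
    rw [e, one_mul]
    calc _ ≤ |q.2 * H31R.pd 0 (H31R.pd 1 (fun p : E4 => r (p 0, ‖pos p‖) / ‖pos p‖)) (fb_i q)| +
          |H31R.pd 0 (fun p : E4 => r (p 0, ‖pos p‖) / ‖pos p‖) (fb_i q)| := abs_add_le _ _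
      _ ≤ q.2 * (C₄ / q.2 ^ 3) + C₄ / q.2 ^ 2 := by
        rw [abs_mul, abs_of_pos hpos]
        exact add_le_add (mul_le_mul_of_nonneg_left (h2 0 1) hpos.le) (h1 0)
      _ = (2 * C₄) / q.2 ^ 2 := by
        field_simp
        ring
      _ ≤ C / q.2 ^ 2 := hdiv (pow_pos hpos 2) hc4

/-- Larger radii. -/
theorem BD.mono {F : E4 → ℝ} {k : ℝ → ℝ} {r : ℝ × ℝ → ℝ} {f : E3 → ℝ} {C R R' : ℝ} (h : BD F k r f C R)
    (hR : R ≤ R') : BD F k r f C R' :=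
  ⟨h.C_nonneg, h.R_pos.trans hR, fun x hx => h.f1 x (hR.trans hx), fun x hx => h.f2 x (hR.trans hx),
    fun q hq hx => h.F0 q hq (hR.trans hx), fun q hq hx => h.F1 q hq (hR.trans hx), fun ρ hρ => h.k0 ρ (hR.trans hρ),
    fun ρ hρ => h.k1 ρ (hR.trans hρ), fun q hq hx => h.r0 q hq (hR.trans hx), fun q hq hx => h.rT q hq (hR.trans hx),
    fun q hq hx => h.rR q hq (hR.trans hx), fun q hq hx => h.rTT q hq (hR.trans hx), fun q hq hx => h.rRT q hq (hR.trans hx)⟩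

end H17T
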