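import Pool.Agent.Lib.H17T.Red

set_option autoImplicit false

/-!
# H17T, chunk C1 (S/M): the primitive `XX k` and the functions `NN ε k f`

All elementary: `XX k` is an interval integral of a function which is smooth on `(0, ∞)`, the norm is smooth off the origin.
For the monotonicity: `t ↦ NN ε k f (t • n)` has the derivative `fderiv (NN ε k f) (t • n) n > 0` for `t > 0`
(`t * fderiv (NN ε k f) (t • n) n = fderiv (NN ε k f) (t • n) (t • n) > 0`).
-/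

open MeasureTheory Filter Topology Set
open scoped ContDiff

namespace H17T

open Pool.Agent.Lib.PenroseSph (E3 Tens S2 sm)

theorem XX_deriv {k : ℝ → ℝ} (hk : ∀ t : ℝ, 0 < t → ContDiffAt ℝ ∞ k t) {t : ℝ} (ht : 0 < t) :
    HasDerivAt (XX k) (k t) t := by
  have hc : ContinuousOn k (Ioi 0) := fun s hs => (hk s hs).continuousAt.continuousWithinAt
  have hsub : uIcc (1 : ℝ) t ⊆ Ioi 0 := by
    intro s hs
    have h1 : min 1 t ≤ s := hs.1
    exact lt_of_lt_of_le (lt_min one_pos ht) h1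
  exact intervalIntegral.integral_hasDerivAt_right ((hc.mono hsub).intervalIntegrable)
    (hc.stronglyMeasurableAtFilter isOpen_Ioi t ht) (hk t ht).continuousAt

theorem XX_smooth {k : ℝ → ℝ} (hk : ∀ t : ℝ, 0 < t → ContDiffAt ℝ ∞ k t) {t : ℝ} (ht : 0 < t) :
    ContDiffAt ℝ ∞ (XX k) t := by
  have h1 : ContDiffOn ℝ ∞ (XX k) (Ioi 0) := by
    rw [contDiffOn_infty_iff_deriv_of_isOpen isOpen_Ioi]
    refine ⟨fun s hs => (XX_deriv hk hs).differentiableAt.differentiableWithinAt, ?_⟩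
    have h2 : ContDiffOn ℝ ∞ k (Ioi 0) := fun s hs => (hk s hs).contDiffWithinAt
    exact h2.congr fun s hs => (XX_deriv hk hs).deriv
  exact h1.contDiffAt (Ioi_mem_nhds ht)

theorem NN_smooth {ε : ℝ} {k : ℝ → ℝ} {f : E3 → ℝ} (hk : ∀ t : ℝ, 0 < t → ContDiffAt ℝ ∞ k t)
    (hf : ∀ x : E3, x ≠ 0 → ContDiffAt ℝ ∞ f x) {x : E3} (hx : x ≠ 0) : ContDiffAt ℝ ∞ (NN ε k f) x := by
  unfold NN
  refine (contDiffAt_const.mul (hf x hx)).add ?_
  exact ContDiffAt.comp x (XX_smooth hk (norm_pos_iff.2 hx)) (contDiffAt_norm ℝ hx)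

theorem NN_fderiv {ε : ℝ} {k : ℝ → ℝ} {f : E3 → ℝ} (hk : ∀ t : ℝ, 0 < t → ContDiffAt ℝ ∞ k t)
    (hf : ∀ x : E3, x ≠ 0 → ContDiffAt ℝ ∞ f x) {x : E3} (hx : x ≠ 0) (v : E3) :
    fderiv ℝ (NN ε k f) x v = ε * fderiv ℝ f x v + k ‖x‖ * ((∑ i, x i * v i) / ‖x‖) := by
  have h1 : HasFDerivAt f (fderiv ℝ f x) x := ((hf x hx).differentiableAt (by simp)).hasFDerivAt
  have h2 := (XX_deriv hk (norm_pos_iff.2 hx)).comp_hasFDerivAt x (Pool.Agent.Lib.PenroseSph.hasFDerivAt_norm' hx)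
  have h3 : HasFDerivAt (NN ε k f) (ε • fderiv ℝ f x + k ‖x‖ • ‖x‖⁻¹ • innerSL ℝ x) x := (h1.const_mul ε).add h2
  rw [h3.fderiv]
  have e : (innerSL ℝ x) v = ∑ i, x i * v i := by
    rw [innerSL_apply_apply, PiLp.inner_apply]
    refine Finset.sum_congr rfl fun i _ => ?_
    rw [real_inner_comm]
    rfl
  rw [ContinuousLinearMap.add_apply, ContinuousLinearMap.smul_apply, ContinuousLinearMap.smul_apply,
    ContinuousLinearMap.smul_apply, e, smul_eq_mul, smul_eq_mul, smul_eq_mul]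
  ring

/-- `NN` increases along rays (infinitesimal form). -/
theorem NN_radial {ε : ℝ} {k : ℝ → ℝ} {f : E3 → ℝ} (hε : ε = 1 ∨ ε = -1)
    (hk : ∀ t : ℝ, 0 < t → ContDiffAt ℝ ∞ k t) (hf : ∀ x : E3, x ≠ 0 → ContDiffAt ℝ ∞ f x)
    (hs : ∀ x : E3, x ≠ 0 → |fderiv ℝ f x x| < k ‖x‖ * ‖x‖) {x : E3} (hx : x ≠ 0) :
    0 < fderiv ℝ (NN ε k f) x x := by
  have hn : 0 < ‖x‖ := norm_pos_iff.2 hx
  have e : ∑ i, x i * x i = ‖x‖ ^ 2 := by
    rw [EuclideanSpace.norm_sq_eq]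
    refine Finset.sum_congr rfl fun i _ => ?_
    rw [Real.norm_eq_abs, sq_abs, sq]
  have e2 : ‖x‖ ^ 2 / ‖x‖ = ‖x‖ := by
    rw [sq, mul_div_assoc, div_self hn.ne', mul_one]
  rw [NN_fderiv hk hf hx, e, e2]
  have h := abs_lt.1 (hs x hx)
  rcases hε with rfl | rfl
  · linarith [h.1]
  · linarith [h.2]

/-- `NN` increases along rays. -/
theorem NN_mono {ε : ℝ} {k : ℝ → ℝ} {f : E3 → ℝ} (hε : ε = 1 ∨ ε = -1)
    (hk : ∀ t : ℝ, 0 < t → ContDiffAt ℝ ∞ k t) (hf : ∀ x : E3, x ≠ 0 → ContDiffAt ℝ ∞ f x)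
    (hs : ∀ x : E3, x ≠ 0 → |fderiv ℝ f x x| < k ‖x‖ * ‖x‖) {x : E3} (hx : x ≠ 0) {c : ℝ} (hc : 1 < c) :
    NN ε k f x < NN ε k f (c • x) := by
  have hd : ∀ t : ℝ, 0 < t → HasDerivAt (fun t : ℝ => NN ε k f (t • x)) (fderiv ℝ (NN ε k f) (t • x) x) t := by
    intro t ht
    have hne : t • x ≠ 0 := smul_ne_zero ht.ne' hx
    have h1 : HasFDerivAt (NN ε k f) (fderiv ℝ (NN ε k f) (t • x)) (t • x) :=
      ((NN_smooth hk hf hne).differentiableAt (by simp)).hasFDerivAt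
    have h2 : HasDerivAt (fun t : ℝ => t • x) x t := by
      simpa using (hasDerivAt_id t).smul_const x
    exact h1.comp_hasDerivAt t h2
  have hmono : StrictMonoOn (fun t : ℝ => NN ε k f (t • x)) (Icc 1 c) := by
    refine strictMonoOn_of_deriv_pos (convex_Icc 1 c) ?_ ?_
    · intro t ht
      exact (hd t (lt_of_lt_of_le one_pos ht.1)).continuousAt.continuousWithinAt
    · intro t ht
      rw [interior_Icc] at ht
      have ht0 : 0 < t := lt_trans one_pos ht.1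
      rw [(hd t ht0).deriv]
      have h3 := NN_radial hε hk hf hs (smul_ne_zero ht0.ne' hx)
      rw [map_smul, smul_eq_mul] at h3
      exact (mul_pos_iff_of_pos_left ht0).1 h3
  have h4 := hmono (left_mem_Icc.2 hc.le) (right_mem_Icc.2 hc.le) hc
  simpa using h4

end H17T
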