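import Pool.Agent.Lib.H17T.M3

set_option autoImplicit false

/-!
# H17T, chunk C4 (M): the outermost cones

`Outer k r f a0 c d`: no point of the slice outside `{a = a0}` has `r_b ≤ 0`, with equality attained; either (`c = 0`, `d = 1`) no
point outside has `r_a ≤ 0`, or (`c = 1`, `d = -b0`) the same for `{b = b0}`.

Proof of `exists_outer`. Let `P = {x | x ≠ 0, NN 1 x ≥ NN 1 p, r_b(x) ≤ 0}`; `p ∈ P`. It is compact: bounded by `hE.pos`, the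
points with `‖x‖ < ρ0` have `NN 1 x < NN 1 p`, and `x ↦ r_b(qq f x)`, `NN 1` are continuous off the origin (`D_smooth`,
`NN_smooth`). Let `q` be a maximum point of `NN 1` on `P`, `a0 = NN 1 q`. Then `a0 ≥ NN 1 p` and `NN 1 x > a0` implies
`r_b(x) > 0`. Let `P' = {x | x ≠ 0, NN 1 x ≥ a0, r_a(x) ≤ 0}`, compact for the same reason. If `P'` is empty take
`c = 0`, `d = 1`. Otherwise let `q'` be a maximum point of `NN (-1)` on `P'`, `c = 1`, `d = -NN (-1) q'`.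
-/

open MeasureTheory Filter Topology Set
open scoped ContDiff

namespace H17T

open Pool.Agent.Lib.PenroseSph (E3 Tens S2 sm)

/-- The outermost cones. -/
structure Outer (k : ℝ → ℝ) (r : ℝ × ℝ → ℝ) (f : E3 → ℝ) (a0 c d : ℝ) : Prop where
  hb : ∃ q : E3, q ≠ 0 ∧ NN 1 k f q = a0 ∧ Db k r (qq f q) ≤ 0
  outb : ∀ x : E3, x ≠ 0 → a0 < NN 1 k f x → 0 < Db k r (qq f x)
  ha : (c = 0 ∧ d = 1) ∨
    (c = 1 ∧ ∃ q : E3, q ≠ 0 ∧ a0 ≤ NN 1 k f q ∧ NN (-1) k f q = -d ∧ Da k r (qq f q) ≤ 0)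
  outa : ∀ x : E3, x ≠ 0 → a0 ≤ NN 1 k f x → 0 < c * NN (-1) k f x + d → 0 < Da k r (qq f x)

theorem c4_ann {ρ0 R : ℝ} : IsCompact {x : E3 | ρ0 ≤ ‖x‖ ∧ ‖x‖ ≤ R} := by
  have h1 : IsCompact (Metric.closedBall (0 : E3) R) := isCompact_closedBall _ _
  have h2 : IsClosed {x : E3 | ρ0 ≤ ‖x‖} := isClosed_le continuous_const continuous_norm
  refine (h1.inter_left h2).of_isClosed_subset ?_ ?_
  · exact (isClosed_le continuous_const continuous_norm).inter (isClosed_le continuous_norm continuous_const)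
  · rintro x ⟨h3, h4⟩
    exact ⟨h3, by simpa using h4⟩

theorem c4_sep {g : E3 → ℝ} (hg : ∀ x : E3, x ≠ 0 → ContinuousAt g x) {S : Set E3} (hS : IsCompact S)
    (h0 : ∀ x ∈ S, x ≠ 0) : IsCompact {x : E3 | x ∈ S ∧ 0 ≤ g x} := by
  have h1 : ContinuousOn g S := fun x hx => (hg x (h0 x hx)).continuousWithinAt
  have h2 : IsClosed (S ∩ g ⁻¹' (Ici 0)) := h1.preimage_isClosed_of_isClosed hS.isClosed isClosed_Ici
  refine hS.of_isClosed_subset ?_ (fun x hx => hx.1)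
  exact h2

theorem c4_qq {f : E3 → ℝ} (hf : ∀ x : E3, x ≠ 0 → ContDiffAt ℝ ∞ f x) {x : E3} (hx : x ≠ 0) :
    ContinuousAt (qq f) x := by
  unfold qq
  exact (hf x hx).continuousAt.prodMk continuous_norm.continuousAt

theorem c4_D {F : E4 → ℝ} {k : ℝ → ℝ} {r : ℝ × ℝ → ℝ} {f : E3 → ℝ} (hR : Red F k r f) {x : E3} (hx : x ≠ 0) :
    ContinuousAt (fun x => Da k r (qq f x)) x ∧ ContinuousAt (fun x => Db k r (qq f x)) x := by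
  have hn : 0 < ‖x‖ := norm_pos_iff.2 hx
  have h1 := D_smooth (q := qq f x) (hR.k_smooth ‖x‖ hn) (hR.k_pos ‖x‖ hn) (hR.r_smooth (qq f x) ⟨x, hx, rfl⟩)
  have h2 := c4_qq hR.f_smooth hx
  exact ⟨ContinuousAt.comp (g := Da k r) h1.1.continuousAt h2, ContinuousAt.comp (g := Db k r) h1.2.continuousAt h2⟩

theorem c4_NN {F : E4 → ℝ} {k : ℝ → ℝ} {r : ℝ × ℝ → ℝ} {f : E3 → ℝ} (hR : Red F k r f) (ε : ℝ) {x : E3} (hx : x ≠ 0) :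
    ContinuousAt (NN ε k f) x :=
  (NN_smooth hR.k_smooth hR.f_smooth hx).continuousAt

theorem c4_max {F : E4 → ℝ} {k : ℝ → ℝ} {r : ℝ × ℝ → ℝ} {f : E3 → ℝ} (hR : Red F k r f) {g h : E3 → ℝ}
    (hg : ∀ x : E3, x ≠ 0 → ContinuousAt g x) (hh : ∀ x : E3, x ≠ 0 → ContinuousAt h x) {m ρ0 : ℝ} (hρ0 : 0 < ρ0)
    (hin : ∀ x : E3, x ≠ 0 → ‖x‖ < ρ0 → NN 1 k f x < m) {R : ℝ} (hout : ∀ x : E3, R ≤ ‖x‖ → 0 < h x)
    {p : E3} (hp0 : p ≠ 0) (hp : m ≤ NN 1 k f p) (hp' : h p ≤ 0) :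
    ∃ q : E3, q ≠ 0 ∧ m ≤ NN 1 k f q ∧ h q ≤ 0 ∧ ∀ x : E3, x ≠ 0 → m ≤ NN 1 k f x → h x ≤ 0 → g x ≤ g q := by
  have hmem : ∀ x : E3, x ≠ 0 → m ≤ NN 1 k f x → h x ≤ 0 → ρ0 ≤ ‖x‖ ∧ ‖x‖ ≤ R := by
    intro x h0 h1 h2
    constructor
    · by_contra h3
      exact absurd (hin x h0 (not_le.1 h3)) (not_lt.2 h1)
    · by_contra h3
      exact absurd (hout x (not_le.1 h3).le) (not_lt.2 h2)
  have hne : ∀ x : E3, ρ0 ≤ ‖x‖ → x ≠ 0 := fun x hx => norm_pos_iff.1 (lt_of_lt_of_le hρ0 hx)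
  have k1 : IsCompact {x : E3 | x ∈ {x : E3 | ρ0 ≤ ‖x‖ ∧ ‖x‖ ≤ R} ∧ 0 ≤ NN 1 k f x - m} :=
    c4_sep (g := fun x => NN 1 k f x - m) (fun x hx => (c4_NN hR 1 hx).sub continuousAt_const) c4_ann
      (fun x hx => hne x hx.1)
  have k2 := c4_sep (g := fun x => -h x) (fun x hx => (hh x hx).neg) k1 (fun x hx => hne x hx.1.1)
  have hc : ContinuousOn g {x : E3 | x ∈ {x : E3 | x ∈ {x : E3 | ρ0 ≤ ‖x‖ ∧ ‖x‖ ≤ R} ∧ 0 ≤ NN 1 k f x - m} ∧ 0 ≤ -h x} :=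
    fun x hx => (hg x (hne x hx.1.1.1)).continuousWithinAt
  have hp1 := hmem p hp0 hp hp'
  obtain ⟨q, hq, hq'⟩ := k2.exists_isMaxOn ⟨p, ⟨⟨hp1, by linarith⟩, by linarith⟩⟩ hc
  refine ⟨q, hne q hq.1.1.1, by linarith [hq.1.2], by linarith [hq.2], ?_⟩
  intro x h0 h1 h2
  exact hq' ⟨⟨hmem x h0 h1 h2, by linarith⟩, by linarith⟩

theorem exists_outer {F : E4 → ℝ} {k : ℝ → ℝ} {r : ℝ × ℝ → ℝ} {f : E3 → ℝ} {E : ℝ} (hR : Red F k r f)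
    (hE : Ends F k r f E) {p : E3} (hp : p ≠ 0) (hpb : Db k r (qq f p) ≤ 0) {ρ0 : ℝ} (hρ0 : 0 < ρ0)
    (hin : ∀ x : E3, x ≠ 0 → ‖x‖ < ρ0 → NN 1 k f x < NN 1 k f p) :
    ∃ a0 c d : ℝ, Outer k r f a0 c d ∧ NN 1 k f p ≤ a0 := by
  obtain ⟨R, hpos⟩ := hE.pos
  obtain ⟨q, hq0, hqA, hqD, hqm⟩ := c4_max (g := NN 1 k f) (h := fun x => Db k r (qq f x)) hR
    (fun x hx => c4_NN hR 1 hx) (fun x hx => (c4_D hR hx).2) hρ0 hin (fun x hx => (hpos x hx).2) hp le_rfl hpb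
  have outb : ∀ x : E3, x ≠ 0 → NN 1 k f q < NN 1 k f x → 0 < Db k r (qq f x) := by
    intro x hx hlt
    by_contra h1
    exact absurd (hqm x hx (hqA.trans hlt.le) (not_lt.1 h1)) (not_le.2 hlt)
  by_cases hP : ∃ p' : E3, p' ≠ 0 ∧ NN 1 k f q ≤ NN 1 k f p' ∧ Da k r (qq f p') ≤ 0
  · obtain ⟨p', hp0, hpA, hpD⟩ := hP
    obtain ⟨q', hq0', hqA', hqD', hqm'⟩ := c4_max (g := NN (-1) k f) (h := fun x => Da k r (qq f x)) hR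
      (fun x hx => c4_NN hR (-1) hx) (fun x hx => (c4_D hR hx).1) hρ0
      (fun x hx hlt => lt_of_lt_of_le (hin x hx hlt) hqA) (fun x hx => (hpos x hx).1) hp0 hpA hpD
    refine ⟨NN 1 k f q, 1, -NN (-1) k f q', ⟨⟨q, hq0, rfl, hqD⟩, outb, Or.inr ⟨rfl, q', hq0', hqA', by ring, hqD'⟩, ?_⟩,
      hqA⟩
    intro x hx hA hQ
    by_contra h1
    have := hqm' x hx hA (not_lt.1 h1)
    linarith
  · push Not at hP
    exact ⟨NN 1 k f q, 0, 1, ⟨⟨q, hq0, rfl, hqD⟩, outb, Or.inl ⟨rfl, rfl⟩, fun x hx hA _ => hP x hx hA⟩, hqA⟩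

end H17T
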