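import Pool.Agent.Lib.H17T.C4

set_option autoImplicit false

/-!
# H17T, chunk C5 (M): `r ≤ 2 E` on the envelope

`mass = r/2` where `r_a r_b = 0`. Write `A = NN 1`, `B = NN (-1)`, `Q = c B + d`.
(1) If `A x ≥ a0` and `Q x ≥ 0` then `mass (qq f x) ≤ E` (`mass_le`): for `c' > 1` the point `c' x` has `A > a0`, `Q > 0`
(`NN_mono`; if `c = 0` then `Q = 1`), so `r_a, r_b > 0` there; at `c' = 1` they are `≥ 0` by continuity.
(2) Let `q` be as in `hO.hb`: `r_b(q) = 0` (`≤ 0` given, `≥ 0` as a limit of the points `c' q`, `c' ↓ 1`). So by `cone_b` (with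
`y = q`) `r(x) ≤ r(q)` for every `x` with `A x = a0`. If `c = 0` then `r(q)/2 = mass ≤ E` by (1), done.
(3) Let `c = 1`, `q'` as in `hO.ha`, `b0 = -d`: `r_a(q') = 0` in the same way (the points `c' q'` have `A > a0`, `B > b0`), and
`A q' ≥ a0`, `B q' = b0`, so `r(q')/2 ≤ E` by (1); by `cone_b` for the time reversed data (`Red.rev`, `Db_rev`, `NN_rev`:
`NN 1 k (revf f) = NN (-1) k f`, `revr r (qq (revf f) x) = r (qq f x)`) `r(x) ≤ r(q') ≤ 2E` for all `x` with `B x = b0`.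
(4) Let `A x = a0`, `B x ≥ b0`. If `B q ≥ b0` then `r(x) ≤ r(q) ≤ 2 E` by (2), (1). If `B q < b0 ≤ B x`: on `{A = a0}` one has
`B = 2 XX ‖·‖ - a0`, so by `level_ivt` (ε = 1) there is `x0` with `A x0 = a0`, `‖q‖ ≤ ‖x0‖ ≤ ‖x‖`, `B x0 = b0` (XX is continuous and
increasing on `(0, ∞)`: choose the radius by the intermediate value theorem), and `r(x) ≤ r(x0)` by `cone_b`, `r(x0) ≤ 2E` by (3).
-/

open MeasureTheory Filter Topology Set
open scoped ContDiff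

namespace H17T

open Pool.Agent.Lib.PenroseSph (E3 Tens S2 sm)

theorem c5_lim {g : E3 → ℝ} {x : E3} (hg : ContinuousAt g x) (h : ∀ c : ℝ, 1 < c → 0 < g (c • x)) : 0 ≤ g x := by
  have h1 : Tendsto (fun c : ℝ => g (c • x)) (𝓝[>] (1 : ℝ)) (𝓝 (g x)) := by
    have h2 : ContinuousAt (fun c : ℝ => c • x) (1 : ℝ) := by fun_prop
    have h3 : ContinuousAt (fun c : ℝ => g (c • x)) (1 : ℝ) := by
      refine ContinuousAt.comp (g := g) ?_ h2
      simpa using hg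
    have h4 : Tendsto (fun c : ℝ => g (c • x)) (𝓝 (1 : ℝ)) (𝓝 (g x)) := by
      have := h3.tendsto
      simpa using this
    exact h4.mono_left nhdsWithin_le_nhds
  refine ge_of_tendsto h1 ?_
  filter_upwards [self_mem_nhdsWithin] with c hc
  exact (h c hc).le

theorem c5_XX {k : ℝ → ℝ} (hk : ∀ t : ℝ, 0 < t → ContDiffAt ℝ ∞ k t) (hk0 : ∀ t : ℝ, 0 < t → 0 < k t) {s t : ℝ}
    (hs : 0 < s) (hst : s ≤ t) : XX k s ≤ XX k t := by
  have hp : ∀ u ∈ Icc s t, 0 < u := fun u hu => lt_of_lt_of_le hs hu.1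
  have h1 : MonotoneOn (XX k) (Icc s t) := by
    refine monotoneOn_of_deriv_nonneg (convex_Icc s t)
      (fun u hu => (XX_deriv hk (hp u hu)).continuousAt.continuousWithinAt) ?_ ?_
    · intro u hu
      exact (XX_deriv hk (hp u (interior_subset hu))).differentiableAt.differentiableWithinAt
    · intro u hu
      rw [(XX_deriv hk (hp u (interior_subset hu))).deriv]
      exact (hk0 u (hp u (interior_subset hu))).le
  exact h1 ⟨le_rfl, hst⟩ ⟨hst, le_rfl⟩ hst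

theorem c5_pos {F : E4 → ℝ} {k : ℝ → ℝ} {r : ℝ × ℝ → ℝ} {f : E3 → ℝ} {a0 c d : ℝ} (hR : Red F k r f)
    (hO : Outer k r f a0 c d) {x : E3} (hx : x ≠ 0) (hA : a0 ≤ NN 1 k f x)
    (hQ : 0 ≤ c * NN (-1) k f x + d) {c' : ℝ} (hc : 1 < c') :
    0 < Da k r (qq f (c' • x)) ∧ 0 < Db k r (qq f (c' • x)) := by
  have hne : c' • x ≠ 0 := smul_ne_zero (by linarith) hx
  have h1 : a0 < NN 1 k f (c' • x) :=
    lt_of_le_of_lt hA (NN_mono (Or.inl rfl) hR.k_smooth hR.f_smooth hR.slope hx hc)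
  refine ⟨hO.outa _ hne h1.le ?_, hO.outb _ hne h1⟩
  have h2 : NN (-1) k f x < NN (-1) k f (c' • x) := NN_mono (Or.inr rfl) hR.k_smooth hR.f_smooth hR.slope hx hc
  rcases hO.ha with ⟨h3, h4⟩ | ⟨h3, -⟩
  · rw [h3, h4]
    norm_num
  · rw [h3] at hQ ⊢
    linarith

theorem c5_nn {F : E4 → ℝ} {k : ℝ → ℝ} {r : ℝ × ℝ → ℝ} {f : E3 → ℝ} {a0 c d : ℝ} (hR : Red F k r f)
    (hO : Outer k r f a0 c d) {x : E3} (hx : x ≠ 0) (hA : a0 ≤ NN 1 k f x)
    (hQ : 0 ≤ c * NN (-1) k f x + d) : 0 ≤ Da k r (qq f x) ∧ 0 ≤ Db k r (qq f x) :=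
  ⟨c5_lim (g := fun x => Da k r (qq f x)) (c4_D hR hx).1 fun _ hc => (c5_pos hR hO hx hA hQ hc).1,
    c5_lim (g := fun x => Db k r (qq f x)) (c4_D hR hx).2 fun _ hc => (c5_pos hR hO hx hA hQ hc).2⟩

theorem c5_mass {F : E4 → ℝ} {k : ℝ → ℝ} {r : ℝ × ℝ → ℝ} {f : E3 → ℝ} {E a0 c d : ℝ} (hR : Red F k r f)
    (hE : Ends F k r f E) (hO : Outer k r f a0 c d) {x : E3} (hx : x ≠ 0) (hA : a0 ≤ NN 1 k f x)
    (hQ : 0 ≤ c * NN (-1) k f x + d) (h0 : Da k r (qq f x) = 0 ∨ Db k r (qq f x) = 0) : r (qq f x) ≤ 2 * E := by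
  have h1 : mass F k r (qq f x) ≤ E := by
    refine mass_le hR hE hx fun c' hc => ?_
    rcases hc.lt_or_eq with h2 | h2
    · exact ⟨(c5_pos hR hO hx hA hQ h2).1.le, (c5_pos hR hO hx hA hQ h2).2.le⟩
    · rw [← h2, one_smul]
      exact c5_nn hR hO hx hA hQ
  unfold mass at h1
  rcases h0 with h0 | h0 <;> rw [h0] at h1 <;> linarith

theorem c5_B {F : E4 → ℝ} {k : ℝ → ℝ} {r : ℝ × ℝ → ℝ} {f : E3 → ℝ} {E a0 d : ℝ} (hR : Red F k r f)
    (hE : Ends F k r f E) (hO : Outer k r f a0 1 d) {q' : E3} (hq : q' ≠ 0) (hqA : a0 ≤ NN 1 k f q')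
    (hqB : NN (-1) k f q' = -d) (hqD : Da k r (qq f q') ≤ 0) {x : E3} (hx : x ≠ 0) (hxB : NN (-1) k f x = -d) :
    r (qq f x) ≤ 2 * E := by
  have hQ : 0 ≤ 1 * NN (-1) k f q' + d := by rw [hqB]; linarith
  have h0 : Da k r (qq f q') = 0 := le_antisymm hqD (c5_nn hR hO hq hqA hQ).1
  have h1 := c5_mass hR hE hO hq hqA hQ (Or.inl h0)
  have e : ∀ y : E3, revr r (qq (revf f) y) = r (qq f y) := by
    intro y
    simp only [revr, revf, qq, neg_neg]
  have h2 : Db k (revr r) (qq (revf f) q') = 0 := by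
    rw [Db_rev]
    have : (-(qq (revf f) q').1, (qq (revf f) q').2) = qq f q' := by
      simp only [revf, qq, neg_neg]
    rw [this]
    exact h0
  have h3 : NN 1 k (revf f) x = NN 1 k (revf f) q' := by
    rw [NN_rev, hxB, hqB]
  have h4 := cone_b hR.rev hx hq hq h3 rfl h2
  rw [e, e] at h4
  rcases le_total ‖q'‖ ‖x‖ with h5 | h5
  · exact (h4.1 le_rfl h5).trans h1
  · exact (h4.2 h5 le_rfl).trans h1

theorem env_bound {F : E4 → ℝ} {k : ℝ → ℝ} {r : ℝ × ℝ → ℝ} {f : E3 → ℝ} {E a0 c d : ℝ} (hR : Red F k r f)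
    (hE : Ends F k r f E) (hO : Outer k r f a0 c d) {x : E3} (hx : x ≠ 0) (hA : a0 ≤ NN 1 k f x)
    (hQ : 0 ≤ c * NN (-1) k f x + d) (h0 : (NN 1 k f x - a0) * (c * NN (-1) k f x + d) = 0) :
    r (qq f x) ≤ 2 * E := by
  obtain ⟨q, hq0, hqA, hqD⟩ := hO.hb
  have hqpos : 0 ≤ Db k r (qq f q) := by
    refine c5_lim (g := fun x => Db k r (qq f x)) (c4_D hR hq0).2 fun c' hc => ?_
    refine hO.outb _ (smul_ne_zero (by linarith) hq0) ?_
    rw [← hqA]
    exact NN_mono (Or.inl rfl) hR.k_smooth hR.f_smooth hR.slope hq0 hc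
  have hq1 : Db k r (qq f q) = 0 := le_antisymm hqD hqpos
  have hcone : NN 1 k f x = a0 → r (qq f x) ≤ r (qq f q) := by
    intro h1
    have h4 := cone_b hR hx hq0 hq0 (h1.trans hqA.symm) rfl hq1
    rcases le_total ‖q‖ ‖x‖ with h5 | h5
    · exact h4.1 le_rfl h5
    · exact h4.2 h5 le_rfl
  rcases hO.ha with ⟨hc, hd⟩ | ⟨hc, q', hq', hqA', hqB', hqD'⟩
  · have h1 : NN 1 k f x = a0 := by
      rw [hc, hd] at h0
      linarith
    refine (hcone h1).trans (c5_mass hR hE hO hq0 hqA.ge ?_ (Or.inr hq1))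
    rw [hc, hd]
    norm_num
  · subst hc
    rcases mul_eq_zero.1 h0 with h1 | h1
    · have h1 : NN 1 k f x = a0 := by linarith
      by_cases h2 : 0 ≤ 1 * NN (-1) k f q + d
      · exact (hcone h1).trans (c5_mass hR hE hO hq0 hqA.ge h2 (Or.inr hq1))
      · have h2 := not_le.1 h2
        have hxn : 0 < ‖x‖ := norm_pos_iff.2 hx
        have hqn : 0 < ‖q‖ := norm_pos_iff.2 hq0
        have e1 : 1 * f x + XX k ‖x‖ = a0 := h1
        have e2 : 1 * f q + XX k ‖q‖ = a0 := hqA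
        have e3 : 0 ≤ 1 * (-1 * f x + XX k ‖x‖) + d := hQ
        have e4 : 1 * (-1 * f q + XX k ‖q‖) + d < 0 := h2
        have hlt : ‖q‖ ≤ ‖x‖ := by
          by_contra h5
          have := c5_XX hR.k_smooth hR.k_pos hxn (not_le.1 h5).le
          linarith
        have hcont : ContinuousOn (XX k) (Icc ‖q‖ ‖x‖) := fun u hu =>
          (XX_deriv hR.k_smooth (lt_of_lt_of_le hqn hu.1)).continuousAt.continuousWithinAt
        obtain ⟨ρ, hρ, hρ'⟩ := intermediate_value_Icc hlt hcont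
          (show (a0 - d) / 2 ∈ Icc (XX k ‖q‖) (XX k ‖x‖) from ⟨by linarith, by linarith⟩)
        obtain ⟨z, hz, hz'⟩ := level_ivt hR (Or.inl rfl) hq0 (hqA.trans h1.symm) hρ.1 hρ.2
        have hz0 : z ≠ 0 := by
          rw [← norm_pos_iff, hz]
          exact lt_of_lt_of_le hqn hρ.1
        have e5 : 1 * f z + XX k ‖z‖ = a0 := by
          have : NN 1 k f z = a0 := hz'.trans hqA
          exact this
        have e6 : XX k ‖z‖ = (a0 - d) / 2 := by rw [hz]; exact hρ'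
        have h6 : NN (-1) k f z = -d := by
          show -1 * f z + XX k ‖z‖ = -d
          linarith
        have h7 := (cone_b hR hx hz0 hq0 (h1.trans hqA.symm) hz' hq1).1 (by rw [hz]; exact hρ.1) (by rw [hz]; exact hρ.2)
        exact h7.trans (c5_B hR hE hO hq' hqA' hqB' hqD' hz0 h6)
    · exact c5_B hR hE hO hq' hqA' hqB' hqD' hx (by linarith)

end H17T
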