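import Pool.Agent.Lib.H17T.C5

set_option autoImplicit false

/-!
# H17T, chunk C6 (M): `r` near the envelope

Let `K` be the set of the `x ≠ 0` with `a0 ≤ NN 1 x`, `0 ≤ Q x := c NN (-1) x + d`, `(NN 1 x - a0) Q x ≤ 1`, `r(x) ≥ 2 E + η`.
It is compact: `‖x‖ ≥ ρ0` by `hin`; bounded since for large `‖x‖` one has `NN 1 x - a0 > 1` and `Q x ≥ 1` (`hE.grow`; `c = 0`, `d = 1`
or `c = 1`). On `K` the continuous function `(NN 1 - a0) Q` is positive (it vanishes only where `r ≤ 2 E`: `hb`), so it is `≥ δ0 > 0`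
on `K`. Take `δ = min (δ0/2) 1`.
-/

open MeasureTheory Filter Topology Set
open scoped ContDiff

namespace H17T

open Pool.Agent.Lib.PenroseSph (E3 Tens S2 sm)

theorem c6_far {F : E4 → ℝ} {k : ℝ → ℝ} {r : ℝ × ℝ → ℝ} {f : E3 → ℝ} {E a0 c d : ℝ}
    (hE : Ends F k r f E) (hc : (c = 0 ∧ d = 1) ∨ c = 1) :
    ∃ R : ℝ, ∀ x : E3, R ≤ ‖x‖ → 1 < (NN 1 k f x - a0) * (c * NN (-1) k f x + d) := by
  obtain ⟨R, hR⟩ := hE.grow (max (a0 + 2) (1 - d))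
  refine ⟨R, fun x hx => ?_⟩
  obtain ⟨h1, h2⟩ := hR x hx
  have h3 := (le_max_left (a0 + 2) (1 - d)).trans h1
  have h4 := (le_max_right (a0 + 2) (1 - d)).trans h2
  have h5 : 1 ≤ c * NN (-1) k f x + d := by
    rcases hc with ⟨hc, hd⟩ | hc
    · rw [hc, hd]
      norm_num
    · rw [hc]
      linarith
  nlinarith

theorem near_env {F : E4 → ℝ} {k : ℝ → ℝ} {r : ℝ × ℝ → ℝ} {f : E3 → ℝ} {E a0 c d : ℝ} (hR : Red F k r f)
    (hE : Ends F k r f E) (hc : (c = 0 ∧ d = 1) ∨ c = 1) {ρ0 : ℝ} (hρ0 : 0 < ρ0)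
    (hin : ∀ x : E3, x ≠ 0 → ‖x‖ < ρ0 → NN 1 k f x < a0)
    (hb : ∀ x : E3, x ≠ 0 → a0 ≤ NN 1 k f x → 0 ≤ c * NN (-1) k f x + d →
      (NN 1 k f x - a0) * (c * NN (-1) k f x + d) = 0 → r (qq f x) ≤ 2 * E) {η : ℝ} (hη : 0 < η) :
    ∃ δ : ℝ, 0 < δ ∧ ∀ x : E3, x ≠ 0 → a0 ≤ NN 1 k f x → 0 ≤ c * NN (-1) k f x + d →
      (NN 1 k f x - a0) * (c * NN (-1) k f x + d) = δ → r (qq f x) ≤ 2 * E + η := by
  obtain ⟨R, hfar⟩ := c6_far (a0 := a0) hE hc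
  have hne : ∀ x : E3, ρ0 ≤ ‖x‖ → x ≠ 0 := fun x hx => norm_pos_iff.1 (lt_of_lt_of_le hρ0 hx)
  have cg : ∀ x : E3, x ≠ 0 → ContinuousAt (fun x => (NN 1 k f x - a0) * (c * NN (-1) k f x + d)) x := fun x hx =>
    ((c4_NN hR 1 hx).sub continuousAt_const).mul ((continuousAt_const.mul (c4_NN hR (-1) hx)).add continuousAt_const)
  have cr : ∀ x : E3, x ≠ 0 → ContinuousAt (fun x => r (qq f x)) x := fun x hx =>
    ContinuousAt.comp (g := r) (hR.r_smooth (qq f x) ⟨x, hx, rfl⟩).continuousAt (c4_qq hR.f_smooth hx)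
  have k0 : IsCompact {x : E3 | ρ0 ≤ ‖x‖ ∧ ‖x‖ ≤ R} := c4_ann
  have k1 := c4_sep (g := fun x => NN 1 k f x - a0) (fun x hx => (c4_NN hR 1 hx).sub continuousAt_const) k0
    (fun x hx => hne x hx.1)
  have k2 := c4_sep (g := fun x => c * NN (-1) k f x + d)
    (fun x hx => (continuousAt_const.mul (c4_NN hR (-1) hx)).add continuousAt_const) k1 (fun x hx => hne x hx.1.1)
  have k3 := c4_sep (g := fun x => r (qq f x) - (2 * E + η)) (fun x hx => (cr x hx).sub continuousAt_const) k2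
    (fun x hx => hne x hx.1.1.1)
  generalize hK : {x : E3 | x ∈ {x : E3 | x ∈ {x : E3 | x ∈ {x : E3 | ρ0 ≤ ‖x‖ ∧ ‖x‖ ≤ R} ∧ 0 ≤ NN 1 k f x - a0} ∧
    0 ≤ c * NN (-1) k f x + d} ∧ 0 ≤ r (qq f x) - (2 * E + η)} = K at k3
  have hKm : ∀ x : E3, x ∈ K ↔ (((ρ0 ≤ ‖x‖ ∧ ‖x‖ ≤ R) ∧ 0 ≤ NN 1 k f x - a0) ∧ 0 ≤ c * NN (-1) k f x + d) ∧
      0 ≤ r (qq f x) - (2 * E + η) := by
    intro x
    rw [← hK]
    rfl
  have hKpos : ∀ x ∈ K, 0 < (NN 1 k f x - a0) * (c * NN (-1) k f x + d) := by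
    intro x hx
    obtain ⟨⟨⟨⟨h1, h2⟩, h3⟩, h4⟩, h5⟩ := (hKm x).1 hx
    refine lt_of_le_of_ne (mul_nonneg h3 h4) fun h6 => ?_
    have := hb x (hne x h1) (by linarith) h4 h6.symm
    linarith
  have hin' : ∀ x : E3, x ≠ 0 → a0 ≤ NN 1 k f x → 0 ≤ c * NN (-1) k f x + d →
      (NN 1 k f x - a0) * (c * NN (-1) k f x + d) ≤ 1 → 2 * E + η < r (qq f x) → x ∈ K := by
    intro x hx h1 h2 h3 h4
    refine (hKm x).2 ⟨⟨⟨⟨?_, ?_⟩, by linarith⟩, h2⟩, by linarith⟩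
    · by_contra h5
      exact absurd (hin x hx (not_le.1 h5)) (not_lt.2 h1)
    · by_contra h5
      exact absurd (hfar x (not_le.1 h5).le) (not_lt.2 h3)
  rcases K.eq_empty_or_nonempty with h0 | h0
  · refine ⟨1, one_pos, fun x hx h1 h2 h3 => ?_⟩
    by_contra h4
    have := hin' x hx h1 h2 h3.le (not_le.1 h4)
    rw [h0] at this
    exact this
  · obtain ⟨x0, hx0, hm⟩ := k3.exists_isMinOn h0
      (f := fun x => (NN 1 k f x - a0) * (c * NN (-1) k f x + d))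
      (fun x hx => (cg x (hne x ((hKm x).1 hx).1.1.1.1)).continuousWithinAt)
    have hp := hKpos x0 hx0
    refine ⟨min (((NN 1 k f x0 - a0) * (c * NN (-1) k f x0 + d)) / 2) 1, lt_min (by linarith) one_pos,
      fun x hx h1 h2 h3 => ?_⟩
    by_contra h4
    have h5 := hin' x hx h1 h2 (h3.le.trans (min_le_right _ _)) (not_le.1 h4)
    have h6 : (NN 1 k f x0 - a0) * (c * NN (-1) k f x0 + d) ≤ (NN 1 k f x - a0) * (c * NN (-1) k f x + d) := hm h5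
    have h7 := h3.le.trans (min_le_left _ _)
    linarith

end H17T
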