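import Pool.Agent.Lib.H17T.G2

set_option autoImplicit false

/-!
# H17T, chunk G3 (S/M): the differentials of `a` and `b` on the tangent planes of the approximate envelopes

Let `v = rotv i n` (orthogonal to `n`), `γ(t) = ‖n + t v‖⁻¹ • (n + t v)`, a curve in the unit sphere with `γ(0) = n`, `γ'(0) = v`
(`‖n + t v‖² = 1 + t² ‖v‖²`). With `G x = s x • x` and `H x = (NN 1 x - a0) (c NN (-1) x + d)` the function `H(G(γ(t)))` is the
constant `δ`; differentiate at `t = 0`: `fderiv H (s n • n) (gtan s n i) = 0`, and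
`fderiv H = (c NN (-1) + d) fderiv (NN 1) + (NN 1 - a0) c fderiv (NN (-1))`.
-/

open MeasureTheory Filter Topology Set
open scoped ContDiff

namespace H17T

open Pool.Agent.Lib.PenroseSph (E3 Tens S2 sm)

theorem g3_orth (i : Fin 3) (n : E3) : inner ℝ n (rotv i n) = 0 := by
  unfold rotv
  rw [inner_sub_right, inner_smul_right, inner_smul_right, EuclideanSpace.inner_single_right,
    EuclideanSpace.inner_single_right]
  simp
  ring

theorem graph_tangent {F : E4 → ℝ} {k : ℝ → ℝ} {r : ℝ × ℝ → ℝ} {f : E3 → ℝ} {a0 c d δ : ℝ} (hR : Red F k r f)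
    {s : E3 → ℝ} (hs : RadialGraph s)
    (h : ∀ n : S2, (NN 1 k f (s n • (n : E3)) - a0) * (c * NN (-1) k f (s n • (n : E3)) + d) = δ) (n : S2)
    (i : Fin 3) :
    (c * NN (-1) k f (s n • (n : E3)) + d) * fderiv ℝ (NN 1 k f) (s n • (n : E3)) (gtan s n i)
      + ((NN 1 k f (s n • (n : E3)) - a0) * c) * fderiv ℝ (NN (-1) k f) (s n • (n : E3)) (gtan s n i) = 0 := by
  obtain ⟨v, hv⟩ : ∃ v, v = rotv i (n : E3) := ⟨_, rfl⟩
  have hn1 : ‖(n : E3)‖ = 1 := by simp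
  have hn0 : (n : E3) ≠ 0 := by
    intro h0
    rw [h0, norm_zero] at hn1
    exact zero_ne_one hn1
  have horth : inner ℝ (n : E3) v = 0 := by
    rw [hv]
    exact g3_orth i n
  have hnorm : ∀ t : ℝ, ‖(n : E3) + t • v‖ ^ 2 = 1 + t ^ 2 * ‖v‖ ^ 2 := by
    intro t
    rw [norm_add_sq_real, inner_smul_right, horth, norm_smul, hn1, mul_pow, Real.norm_eq_abs, sq_abs]
    ring
  have hpos : ∀ t : ℝ, 0 < ‖(n : E3) + t • v‖ := by
    intro t
    have h1 := hnorm t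
    by_contra hcon
    have h2 : ‖(n : E3) + t • v‖ = 0 := le_antisymm (not_lt.1 hcon) (norm_nonneg _)
    rw [h2] at h1
    have h3 : 0 ≤ t ^ 2 * ‖v‖ ^ 2 := by positivity
    linarith
  have e0 : (n : E3) + (0 : ℝ) • v = n := by simp
  -- the derivative of the curve
  have hsq : ∀ t : ℝ, ‖(n : E3) + t • v‖ = Real.sqrt (1 + t ^ 2 * ‖v‖ ^ 2) := by
    intro t
    rw [← hnorm, Real.sqrt_sq (norm_nonneg _)]
  have d1 : HasDerivAt (fun t : ℝ => ‖(n : E3) + t • v‖⁻¹) 0 0 := by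
    have a1 : HasDerivAt (fun t : ℝ => 1 + t ^ 2 * ‖v‖ ^ 2) 0 0 := by
      have a2 := ((hasDerivAt_pow 2 (0 : ℝ)).mul_const (‖v‖ ^ 2)).const_add 1
      simpa using a2
    have a3 := a1.sqrt (by simp)
    simp only [hsq]
    exact (a3.inv (by simp)).congr_deriv (by simp)
  have d2 : HasDerivAt (fun t : ℝ => (n : E3) + t • v) v 0 := by
    have a1 := ((hasDerivAt_id (0 : ℝ)).smul_const v).const_add (n : E3)
    simpa using a1
  have hG : HasFDerivAt (fun x : E3 => s x • x) (fderiv ℝ (fun x : E3 => s x • x) n) ((n : E3) + (0 : ℝ) • v) := by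
    rw [e0]
    have a1 : DifferentiableAt ℝ s n := (hs.smooth n hn0).differentiableAt (by simp)
    exact (a1.smul differentiableAt_id).hasFDerivAt
  have d3 : HasDerivAt (fun t : ℝ => s ((n : E3) + t • v) • ((n : E3) + t • v)) (gtan s n i) 0 := by
    have a1 := hG.comp_hasDerivAt (0 : ℝ) d2
    rw [hv] at a1 ⊢
    exact a1
  have d4 : HasDerivAt (fun t : ℝ => ‖(n : E3) + t • v‖⁻¹ • (s ((n : E3) + t • v) • ((n : E3) + t • v)))
      (gtan s n i) 0 := by
    exact (d1.smul d3).congr_deriv (by simp [hn1])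
  have hval : ‖(n : E3) + (0 : ℝ) • v‖⁻¹ • (s ((n : E3) + (0 : ℝ) • v) • ((n : E3) + (0 : ℝ) • v)) =
      s n • (n : E3) := by
    rw [e0, hn1, inv_one, one_smul]
  have hx0 : s n • (n : E3) ≠ 0 := smul_ne_zero (hs.pos n hn0).ne' hn0
  have dN : ∀ ε : ℝ, HasDerivAt (fun t : ℝ => NN ε k f
      (‖(n : E3) + t • v‖⁻¹ • (s ((n : E3) + t • v) • ((n : E3) + t • v))))
      (fderiv ℝ (NN ε k f) (s n • (n : E3)) (gtan s n i)) 0 := by
    intro ε
    have a1 : HasFDerivAt (NN ε k f) (fderiv ℝ (NN ε k f) (s n • (n : E3)))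
        (‖(n : E3) + (0 : ℝ) • v‖⁻¹ • (s ((n : E3) + (0 : ℝ) • v) • ((n : E3) + (0 : ℝ) • v))) := by
      rw [hval]
      exact ((NN_smooth hR.k_smooth hR.f_smooth hx0).differentiableAt (by simp)).hasFDerivAt
    exact a1.comp_hasDerivAt (0 : ℝ) d4
  have dP := ((dN 1).sub_const a0).mul (((dN (-1)).const_mul c).add_const d)
  have hconst : ∀ t : ℝ, (NN 1 k f (‖(n : E3) + t • v‖⁻¹ • (s ((n : E3) + t • v) • ((n : E3) + t • v))) - a0) *
      (c * NN (-1) k f (‖(n : E3) + t • v‖⁻¹ • (s ((n : E3) + t • v) • ((n : E3) + t • v))) + d) = δ := by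
    intro t
    have hu : ‖‖(n : E3) + t • v‖⁻¹ • ((n : E3) + t • v)‖ = 1 := by
      rw [norm_smul, norm_inv, norm_norm, inv_mul_cancel₀ (hpos t).ne']
    have a1 := h ⟨‖(n : E3) + t • v‖⁻¹ • ((n : E3) + t • v), by rw [mem_sphere_zero_iff_norm]; exact hu⟩
    have a2 : s (‖(n : E3) + t • v‖⁻¹ • ((n : E3) + t • v)) = s ((n : E3) + t • v) :=
      hs.homog _ _ (inv_pos.2 (hpos t))
    have a3 : ‖(n : E3) + t • v‖⁻¹ • (s ((n : E3) + t • v) • ((n : E3) + t • v)) =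
        s (‖(n : E3) + t • v‖⁻¹ • ((n : E3) + t • v)) • (‖(n : E3) + t • v‖⁻¹ • ((n : E3) + t • v)) := by
      rw [a2, smul_smul, smul_smul, mul_comm]
    rw [a3]
    exact a1
  have dC := hasDerivAt_const (0 : ℝ) δ
  have hfun : (fun t : ℝ => (NN 1 k f (‖(n : E3) + t • v‖⁻¹ • (s ((n : E3) + t • v) • ((n : E3) + t • v))) - a0) *
      (c * NN (-1) k f (‖(n : E3) + t • v‖⁻¹ • (s ((n : E3) + t • v) • ((n : E3) + t • v))) + d)) =
      fun _ => δ := funext hconst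
  have dP2 : HasDerivAt (fun t : ℝ => (NN 1 k f (‖(n : E3) + t • v‖⁻¹ • (s ((n : E3) + t • v) • ((n : E3) + t • v))) - a0) *
      (c * NN (-1) k f (‖(n : E3) + t • v‖⁻¹ • (s ((n : E3) + t • v) • ((n : E3) + t • v))) + d)) _ 0 := dP
  rw [hfun] at dP2
  have hfin := dP2.unique dC
  rw [hval] at hfin
  linear_combination hfin

end H17T
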