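import Pool.Agent.Lib.H17T.C6
import Pool.Agent.Lib.H17T.G3

set_option autoImplicit false

/-!
# H17T: assembly of the reduced problem
-/

open MeasureTheory Filter Topology Set
open scoped ContDiff

namespace H17T

open Pool.Agent.Lib.PenroseSph (E3 Tens S2 sm)

/-- The future (`b`) version. -/
theorem env_main {F : E4 → ℝ} {k : ℝ → ℝ} {r : ℝ × ℝ → ℝ} {f : E3 → ℝ} {E : ℝ} (hR : Red F k r f)
    (hE : Ends F k r f E) {Om : Set E3} {p : E3} (hp : p ≠ 0) (hpb : Db k r (qq f p) ≤ 0)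
    (hOm : ∀ x ∈ Om, x ≠ 0 → NN 1 k f x ≤ NN 1 k f p) {ρ0 : ℝ} (hρ0 : 0 < ρ0)
    (hin : ∀ x : E3, x ≠ 0 → ‖x‖ < ρ0 → NN 1 k f x < NN 1 k f p) :
    0 < E ∧ ∀ δ : ℝ, 0 < δ → Env k r f Om E δ := by
  obtain ⟨a0, c, d, hO, ha0⟩ := exists_outer hR hE hp hpb hρ0 hin
  have hin' : ∀ x : E3, x ≠ 0 → ‖x‖ < ρ0 → NN 1 k f x < a0 := fun x hx h => (hin x hx h).trans_le ha0
  have hc : (c = 0 ∧ d = 1) ∨ c = 1 := by
    rcases hO.ha with h | h
    · exact Or.inl h
    · exact Or.inr h.1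
  have hc0 : 0 ≤ c := by
    rcases hc with h | h
    · rw [h.1]
    · rw [h]; exact zero_le_one
  have key : ∀ δ : ℝ, 0 < δ → Env k r f Om E δ := by
    intro δ hδ
    obtain ⟨δ', hδ', hnear⟩ := near_env hR hE hc hρ0 hin'
      (fun x hx h1 h2 h3 => env_bound hR hE hO hx h1 h2 h3) hδ
    obtain ⟨s, hs, hsn⟩ := exists_graph hR hE.grow hc hρ0 hin' hδ'
    refine ⟨s, hs, ?_, ?_⟩
    · intro x hx hx0
      by_contra hlt
      push Not at hlt
      -- `x` is not inside the graph: the value of `NN 1` would be larger than `a0`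
      have hnx : 0 < ‖x‖ := norm_pos_iff.2 hx0
      obtain ⟨n, hn⟩ : ∃ n : S2, x = ‖x‖ • (n : E3) := by
        refine ⟨⟨‖x‖⁻¹ • x, ?_⟩, ?_⟩
        · rw [mem_sphere_zero_iff_norm, norm_smul, norm_inv, norm_norm, inv_mul_cancel₀ hnx.ne']
        · show x = ‖x‖ • (‖x‖⁻¹ • x)
          rw [smul_smul, mul_inv_cancel₀ hnx.ne', one_smul]
      have hsx : s x = s n := by
        conv_lhs => rw [hn]
        exact hs.homog _ _ hnx
      have hn0 : (n : E3) ≠ 0 := by
        intro h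
        have := norm_eq_of_mem_sphere n
        rw [h, norm_zero] at this
        exact zero_ne_one this
      have hspos : 0 < s n := hs.pos _ hn0
      have h1 := (hsn n).1
      have hle : NN 1 k f (s n • (n : E3)) ≤ NN 1 k f x := by
        rw [hsx] at hlt
        rcases hlt.eq_or_lt with h | h
        · rw [h, ← hn]
        · have hc1 : 1 < ‖x‖ / s n := (one_lt_div hspos).2 h
          have := NN_mono (ε := 1) (Or.inl rfl) hR.k_smooth hR.f_smooth hR.slope
            (x := s n • (n : E3)) (smul_ne_zero hspos.ne' hn0) hc1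
          rw [smul_smul, div_mul_cancel₀ _ hspos.ne', ← hn] at this
          exact this.le
      have := hOm x hx hx0
      linarith
    · intro n
      obtain ⟨h1, h2, h3⟩ := hsn n
      have hn0 : (n : E3) ≠ 0 := by
        intro h
        have := norm_eq_of_mem_sphere n
        rw [h, norm_zero] at this
        exact zero_ne_one this
      refine ⟨hnear _ (smul_ne_zero (hs.pos _ hn0).ne' hn0) h1.le h2.le h3,
        c * NN (-1) k f (s n • (n : E3)) + d, (NN 1 k f (s n • (n : E3)) - a0) * c, h2.le,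
        mul_nonneg (by linarith) hc0, ?_, ?_⟩
      · have := mul_nonneg (show 0 ≤ NN 1 k f (s n • (n : E3)) - a0 by linarith) hc0
        linarith
      · exact fun i => graph_tangent hR hs (fun n => (hsn n).2.2) n i
  refine ⟨?_, key⟩
  by_contra hneg
  push Not at hneg
  -- some point of the slice has `r ≤ 2 E + δ` for all `δ`; use the point on the envelope instead
  obtain ⟨q, hq, hqa, hqb⟩ := hO.hb
  rcases hO.ha with ⟨h1, h2⟩ | ⟨h1, q', hq', h3, h4, -⟩
  · have h := env_bound hR hE hO hq hqa.ge (by rw [h1, h2]; norm_num) (by rw [hqa]; ring)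
    have := hR.r_pos (qq f q) ⟨q, hq, rfl⟩
    linarith
  · have h := env_bound hR hE hO hq' h3 (by rw [h1, h4]; linarith) (by rw [h1, h4]; ring)
    have := hR.r_pos (qq f q') ⟨q', hq', rfl⟩
    linarith

/-- Both versions. -/
theorem env_both {F : E4 → ℝ} {k : ℝ → ℝ} {r : ℝ × ℝ → ℝ} {f : E3 → ℝ} {E ε : ℝ} (hε : ε = 1 ∨ ε = -1)
    (hR : Red F k r f) (hE : Ends F k r f E) {Om : Set E3} {p : E3} (hp : p ≠ 0)
    (hpb : fderiv ℝ r (qq f p) (-ε, 1 / k ‖p‖) ≤ 0)
    (hOm : ∀ x ∈ Om, x ≠ 0 → NN ε k f x ≤ NN ε k f p) {ρ0 : ℝ} (hρ0 : 0 < ρ0)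
    (hin : ∀ x : E3, x ≠ 0 → ‖x‖ < ρ0 → NN ε k f x < NN ε k f p) :
    0 < E ∧ ∀ δ : ℝ, 0 < δ → Env k r f Om E δ := by
  have hkp : 0 < k ‖p‖ := hR.k_pos _ (norm_pos_iff.2 hp)
  rcases hε with rfl | rfl
  · refine env_main hR hE hp ?_ hOm hρ0 hin
    have e : ((-(1 / 2) : ℝ), 1 / (2 * k ‖p‖)) = (1 / 2 : ℝ) • ((-1 : ℝ), 1 / k ‖p‖) := by
      rw [Prod.smul_mk, smul_eq_mul, smul_eq_mul]
      congr 1
      · norm_num
      · field_simp
    show fderiv ℝ r (qq f p) (-(1 / 2), 1 / (2 * k ‖p‖)) ≤ 0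
    rw [e, map_smul, smul_eq_mul]
    linarith
  · have h := env_main (f := revf f) hR.rev hE.rev (Om := Om) hp ?_ ?_ hρ0 ?_
    · exact ⟨h.1, fun δ hδ => (h.2 δ hδ).rev⟩
    · rw [Db_rev]
      have e2 : ((-(qq (revf f) p).1, (qq (revf f) p).2) : ℝ × ℝ) = qq f p := by
        show ((- -f p, ‖p‖) : ℝ × ℝ) = (f p, ‖p‖)
        rw [neg_neg]
      rw [e2]
      have e : ((1 / 2 : ℝ), 1 / (2 * k ‖p‖)) = (1 / 2 : ℝ) • ((- -1 : ℝ), 1 / k ‖p‖) := by
        rw [Prod.smul_mk, smul_eq_mul, smul_eq_mul]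
        congr 1
        · norm_num
        · field_simp
      show fderiv ℝ r (qq f p) (1 / 2, 1 / (2 * k ‖p‖)) ≤ 0
      rw [e, map_smul, smul_eq_mul]
      linarith
    · intro x hx hx0
      rw [NN_rev]
      exact hOm x hx hx0
    · intro x hx hx0
      rw [NN_rev]
      exact hin x hx hx0

end H17T
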