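import Pool.Agent.Lib.H31R.Stat
import Pool.Agent.Lib.PenroseSph.System

set_option autoImplicit false

/-!
# H17T: definitions of the statement

The space-time with the metric `-F du dv + r² σ` (`u = T - X(ρ)`, `v = T + X(ρ)`, `X' = k`, `σ` the round metric of the unit
sphere) in the coordinates `(T, x)`, its slices `T = f(x)`, the data induced on a slice, the dominant energy condition,
asymptotic flatness, surfaces which are radial graphs and their area.
-/

open MeasureTheory Filter Topology Set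
open scoped ContDiff

namespace H17T

open Pool.Agent.Lib.PenroseSph (E3 Tens S2 sm pd chr gradNorm normal meanCurv trLevel admFlux admMom DefFun)

/-- The coordinate space of the events `(T, x)`. -/
abbrev E4 := EuclideanSpace ℝ (Fin 4)

/-- The event with time `t` and position `x`. -/
noncomputable def pt (t : ℝ) (x : E3) : E4 := !₂[t, x 0, x 1, x 2]

/-- The position of an event. -/
noncomputable def pos (p : E4) : E3 := !₂[p 1, p 2, p 3]

/-- The metric `-F dT² + F k(ρ)² dρ² + (r/ρ)² (|dx|² - dρ²)`, `ρ = |x|`, where `F` is a function of `(T, x)` and `r` a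
function of `(T, ρ)`. -/
noncomputable def stMetric (F : E4 → ℝ) (k : ℝ → ℝ) (r : ℝ × ℝ → ℝ) (p : E4) : Matrix (Fin 4) (Fin 4) ℝ :=
  Matrix.of fun a b =>
    Fin.cases (Fin.cases (-F p) (fun _ => 0) b)
      (fun i => Fin.cases 0 (fun j =>
        F p * k ‖pos p‖ ^ 2 * (pos p i / ‖pos p‖ * (pos p j / ‖pos p‖))
          + (r (p 0, ‖pos p‖) / ‖pos p‖) ^ 2 *
            ((if i = j then 1 else 0) - pos p i / ‖pos p‖ * (pos p j / ‖pos p‖))) b) a

/-- The tangent vector `(∂_i f, ∂_i)` of the slice `T = f(x)`. -/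
noncomputable def tang (f : E3 → ℝ) (x : E3) (i : Fin 3) : Fin 4 → ℝ :=
  Fin.cons (pd i f x) fun j => if j = i then 1 else 0

/-- The differential of `T - f`. -/
noncomputable def conorm (f : E3 → ℝ) (x : E3) : Fin 4 → ℝ := Fin.cons 1 fun i => -pd i f x

/-- The metric induced by `G` on the slice `T = f(x)`. -/
noncomputable def slice (G : E4 → Matrix (Fin 4) (Fin 4) ℝ) (f : E3 → ℝ) : Tens := fun x =>
  Matrix.of fun i j => ∑ a, ∑ b, G (pt (f x) x) a b * tang f x i a * tang f x j b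

/-- The second fundamental form of the slice `T = f(x)` with respect to the future unit normal. -/
noncomputable def second (G : E4 → Matrix (Fin 4) (Fin 4) ℝ) (f : E3 → ℝ) : Tens := fun x =>
  Matrix.of fun i j =>
    (pd i (pd j f) x + ∑ c, ∑ a, ∑ b, H31R.chr G c a b (pt (f x) x) * conorm f x c * tang f x i a * tang f x j b) /
      Real.sqrt (-∑ a, ∑ b, (G (pt (f x) x))⁻¹ a b * conorm f x a * conorm f x b)

/-- The Einstein tensor of `G`. -/
noncomputable def ein (G : E4 → Matrix (Fin 4) (Fin 4) ℝ) (a b : Fin 4) (p : E4) : ℝ :=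
  H31R.ric G a b p - 1 / 2 * (∑ c, ∑ d, (G p)⁻¹ c d * H31R.ric G c d p) * G p a b

/-- Future directed causal vectors. -/
def Causal (G : E4 → Matrix (Fin 4) (Fin 4) ℝ) (p : E4) (ξ : Fin 4 → ℝ) : Prop :=
  0 < ξ 0 ∧ ∑ a, ∑ b, G p a b * ξ a * ξ b ≤ 0

/-- The dominant energy condition at `p`. -/
def DEC (G : E4 → Matrix (Fin 4) (Fin 4) ℝ) (p : E4) : Prop :=
  ∀ ξ η : Fin 4 → ℝ, Causal G p ξ → Causal G p η → 0 ≤ ∑ a, ∑ b, ein G a b p * ξ a * η b

/-- The events at the same time and radius as some event of the slice `T = f(x)`. -/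
def Near (f : E3 → ℝ) : Set E4 := {p | pos p ≠ 0 ∧ ∃ y : E3, ‖y‖ = ‖pos p‖ ∧ f y = p 0}

/-- The slice `T = f(x)` is a smooth spacelike slice of a space-time of our class, smooth and with the dominant energy
condition at all events `Near f`. -/
structure Slice (F : E4 → ℝ) (k : ℝ → ℝ) (r : ℝ × ℝ → ℝ) (f : E3 → ℝ) : Prop where
  F_smooth : ∀ p ∈ Near f, ContDiffAt ℝ ∞ F p
  F_pos : ∀ p ∈ Near f, 0 < F p
  k_smooth : ∀ t : ℝ, 0 < t → ContDiffAt ℝ ∞ k t
  k_pos : ∀ t : ℝ, 0 < t → 0 < k t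
  r_smooth : ∀ p ∈ Near f, ContDiffAt ℝ ∞ r (p 0, ‖pos p‖)
  r_pos : ∀ p ∈ Near f, 0 < r (p 0, ‖pos p‖)
  f_smooth : ∀ x : E3, x ≠ 0 → ContDiffAt ℝ ∞ f x
  spacelike : ∀ x : E3, x ≠ 0 → ∀ ξ : Fin 3 → ℝ, ξ ≠ 0 → 0 < ∑ i, ∑ j, slice (stMetric F k r) f x i j * ξ i * ξ j
  dec : ∀ p ∈ Near f, DEC (stMetric F k r) p

/-- `φ - 1`, `∂φ`, `∂∂φ` are `O(1/|x|)`, `O(1/|x|²)`, `O(1/|x|³)` at the events `Near f`. -/
def Decay (f : E3 → ℝ) (φ : E4 → ℝ) : Prop :=
  ∃ C R : ℝ, 0 < R ∧ ∀ p ∈ Near f, R ≤ ‖pos p‖ → |φ p - 1| ≤ C / ‖pos p‖ ∧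
    (∀ a, |H31R.pd a φ p| ≤ C / ‖pos p‖ ^ 2) ∧ ∀ a b, |H31R.pd a (H31R.pd b φ) p| ≤ C / ‖pos p‖ ^ 3

/-- The space-time and the slice are asymptotically flat. -/
structure AsympFlat (F : E4 → ℝ) (k : ℝ → ℝ) (r : ℝ × ℝ → ℝ) (f : E3 → ℝ) : Prop where
  f_decay : ∃ C R : ℝ, 0 < R ∧ ∀ x : E3, R ≤ ‖x‖ → (∀ i, |pd i f x| ≤ C / ‖x‖) ∧ ∀ i j, |pd i (pd j f) x| ≤ C / ‖x‖ ^ 2
  F_decay : Decay f F
  k_decay : Decay f fun p => k ‖pos p‖
  r_decay : Decay f fun p => r (p 0, ‖pos p‖) / ‖pos p‖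

/-- The origin is a regular centre: the slice is continuous there, and the space-time metric extends to a nondegenerate
metric of class `C¹`. -/
def Centre (G : E4 → Matrix (Fin 4) (Fin 4) ℝ) (f : E3 → ℝ) : Prop :=
  ContinuousAt f 0 ∧ ∃ H : E4 → Matrix (Fin 4) (Fin 4) ℝ, (∀ a b, ContDiffAt ℝ 1 (fun p => H p a b) (pt (f 0) 0)) ∧
    (H (pt (f 0) 0)).det ≠ 0 ∧ ∀ p, pos p ≠ 0 → H p = G p

/-- The function `s` describes the smooth closed surface `{x | |x| = s(x)}`, a radial graph over the unit sphere. -/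
structure RadialGraph (s : E3 → ℝ) : Prop where
  smooth : ∀ x : E3, x ≠ 0 → ContDiffAt ℝ ∞ s x
  pos : ∀ x : E3, x ≠ 0 → 0 < s x
  homog : ∀ (x : E3) (c : ℝ), 0 < c → s (c • x) = s x

/-- The rotation field `e_i × n`. -/
noncomputable def rotv (i : Fin 3) (n : E3) : E3 :=
  n (i + 1) • EuclideanSpace.single (i + 2) (1 : ℝ) - n (i + 2) • EuclideanSpace.single (i + 1) (1 : ℝ)

/-- The tangent vector of the graph of `s` at `s(n) n` which corresponds to the tangent vector `e_i × n` of the sphere. -/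
noncomputable def gtan (s : E3 → ℝ) (n : E3) (i : Fin 3) : E3 := fderiv ℝ (fun x => s x • x) n (rotv i n)

/-- Scalar product, with respect to `g`, of the tangent vectors `gtan s n i` and `gtan s n j`. -/
noncomputable def gprod (g : Tens) (s : E3 → ℝ) (n : E3) (i j : Fin 3) : ℝ :=
  ∑ a, ∑ b, g (s n • n) a b * gtan s n i a * gtan s n j b

/-- Square of the area element of the graph of `s`: the squares of the areas of the parallelograms spanned by
`gtan s n i`, `gtan s n j`, summed over the pairs `i < j` (on the unit sphere this sum is one). -/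
noncomputable def areaSq (g : Tens) (s : E3 → ℝ) (n : E3) : ℝ :=
  1 / 2 * ∑ i, ∑ j, (gprod g s n i i * gprod g s n j j - gprod g s n i j ^ 2)

/-- The area, with respect to `g`, of the graph of `s`. -/
noncomputable def graphArea (g : Tens) (s : E3 → ℝ) : ℝ := ∫ n : S2, Real.sqrt (areaSq g s n) ∂sm

end H17T
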