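import Pool.Agent.Lib.H17T.T7
import Pool.Agent.Lib.H31R.N4

set_option autoImplicit false

/-!
# H17T, chunk F0 (M): regularity of the induced data

`G = stMetric F k r`, `g = slice G f`, `x ≠ 0`, `P = pt (f x) x ∈ Near f` (`mem_near`). The entries of `G` are smooth at `P`
(`stMetric_smooth`), `f` is smooth at `x`; so the entries of `g`, and of `second G f` (`normal_timelike`: the square root does not vanish;
the entries of the inverse of a smooth invertible matrix are smooth, `H31R.N_inv_at` of `H31R/N4.lean`) are smooth at `x`; the densities are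
continuous off the origin. Formula of `slice_eq`: from the definition (`stMetric` has no `(0, i)` entries).
-/

open MeasureTheory Filter Topology Set
open scoped ContDiff

namespace H17T

open Pool.Agent.Lib.PenroseSph (E3 Tens S2 sm pd fluxDensity momDensity)

theorem slice_eq (F : E4 → ℝ) (k : ℝ → ℝ) (r : ℝ × ℝ → ℝ) (f : E3 → ℝ) (x : E3) (i j : Fin 3) :
    slice (stMetric F k r) f x i j
      = F (pt (f x) x) * k ‖x‖ ^ 2 * (x i / ‖x‖ * (x j / ‖x‖))
        + (r (qq f x) / ‖x‖) ^ 2 * ((if i = j then 1 else 0) - x i / ‖x‖ * (x j / ‖x‖))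
        - F (pt (f x) x) * (pd i f x * pd j f x) := by
  have h0 : pos (pt (f x) x) = x := pos_pt _ _
  have h1 : (pt (f x) x) 0 = f x := pt_zero _ _
  rw [slice, Matrix.of_apply, Fin.sum_univ_succ]
  have e1 : ∑ b, stMetric F k r (pt (f x) x) 0 b * tang f x i 0 * tang f x j b
      = -(F (pt (f x) x) * (pd i f x * pd j f x)) := by
    rw [Fin.sum_univ_succ]
    simp [stMetric, tang]
    ring
  have e2 : ∀ a : Fin 3, ∑ b, stMetric F k r (pt (f x) x) a.succ b * tang f x i a.succ * tang f x j b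
      = (F (pt (f x) x) * k ‖x‖ ^ 2 * (x a / ‖x‖ * (x j / ‖x‖))
        + (r (qq f x) / ‖x‖) ^ 2 * ((if a = j then 1 else 0) - x a / ‖x‖ * (x j / ‖x‖)))
          * (if a = i then 1 else 0) := by
    intro a
    rw [Fin.sum_univ_succ]
    simp only [stMetric, tang, Matrix.of_apply, Fin.cases_zero, Fin.cases_succ, Fin.cons_succ, h0, h1, qq]
    rw [zero_mul, zero_mul, zero_add, Finset.sum_eq_single j]
    · simp
    · intro b _ hb
      rw [if_neg hb, mul_zero]
    · simp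
  rw [e1, Finset.sum_congr rfl fun a _ => e2 a, Finset.sum_eq_single i]
  · simp
    ring
  · intro b _ hb
    rw [if_neg hb, mul_zero]
  · simp

private theorem cd_pt {f : E3 → ℝ} {x : E3} (hf : ContDiffAt ℝ ∞ f x) :
    ContDiffAt ℝ ∞ (fun y => pt (f y) y) x :=
  ContDiffAt.comp (g := fun q : ℝ × E3 => pt q.1 q.2) (f := fun y : E3 => (f y, y)) x
    pt_smooth.contDiffAt (hf.prodMk contDiffAt_id)

private theorem cd_comp {φ : E4 → ℝ} {f : E3 → ℝ} {x : E3} (hφ : ContDiffAt ℝ ∞ φ (pt (f x) x))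
    (hf : ContDiffAt ℝ ∞ f x) : ContDiffAt ℝ ∞ (fun y => φ (pt (f y) y)) x :=
  ContDiffAt.comp (g := φ) (f := fun y : E3 => pt (f y) y) x hφ (cd_pt hf)

private theorem cd_pd {φ : E3 → ℝ} {x : E3} (h : ContDiffAt ℝ ∞ φ x) (i : Fin 3) :
    ContDiffAt ℝ ∞ (pd i φ) x :=
  (h.fderiv_right (m := ∞) (by simp)).clm_apply contDiffAt_const

private theorem cd_pd4 {φ : E4 → ℝ} {x : E4} (h : ContDiffAt ℝ ∞ φ x) (i : Fin 4) :
    ContDiffAt ℝ ∞ (H31R.pd i φ) x :=
  (h.fderiv_right (m := ∞) (by simp)).clm_apply contDiffAt_const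

private theorem cd_coord (i : Fin 3) {x : E3} : ContDiffAt ℝ ∞ (fun y : E3 => y i) x :=
  (EuclideanSpace.proj (𝕜 := ℝ) i).contDiff.contDiffAt

private theorem st_at {F : E4 → ℝ} {k : ℝ → ℝ} {r : ℝ × ℝ → ℝ} {f : E3 → ℝ} (hS : Slice F k r f) {x : E3}
    (hx : x ≠ 0) (a b : Fin 4) : ContDiffAt ℝ ∞ (fun p => stMetric F k r p a b) (pt (f x) x) := by
  have hN := mem_near (f := f) hx
  refine stMetric_smooth (by rw [pos_pt]; exact hx) (hS.F_smooth _ hN) ?_ (hS.r_smooth _ hN) a b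
  rw [pos_pt]
  exact hS.k_smooth _ (norm_pos_iff.2 hx)

private theorem st_det {F : E4 → ℝ} {k : ℝ → ℝ} {r : ℝ × ℝ → ℝ} {f : E3 → ℝ} (hS : Slice F k r f) {x : E3}
    (hx : x ≠ 0) : (stMetric F k r (pt (f x) x)).det ≠ 0 := by
  have hN := mem_near (f := f) hx
  refine (stMetric_inv (by rw [pos_pt]; exact hx) (hS.F_pos _ hN) ?_ (hS.r_pos _ hN)).2
  rw [pos_pt]
  exact hS.k_pos _ (norm_pos_iff.2 hx)

private theorem cd_tang {f : E3 → ℝ} {x : E3} (hf : ContDiffAt ℝ ∞ f x) (i : Fin 3) (a : Fin 4) :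
    ContDiffAt ℝ ∞ (fun y => tang f y i a) x := by
  refine Fin.cases ?_ (fun j => ?_) a
  · exact cd_pd hf i
  · exact contDiffAt_const

private theorem cd_conorm {f : E3 → ℝ} {x : E3} (hf : ContDiffAt ℝ ∞ f x) (a : Fin 4) :
    ContDiffAt ℝ ∞ (fun y => conorm f y a) x := by
  refine Fin.cases ?_ (fun j => ?_) a
  · exact contDiffAt_const
  · exact (cd_pd hf j).neg

theorem slice_smooth {F : E4 → ℝ} {k : ℝ → ℝ} {r : ℝ × ℝ → ℝ} {f : E3 → ℝ} (hS : Slice F k r f) {x : E3}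
    (hx : x ≠ 0) (i j : Fin 3) : ContDiffAt ℝ ∞ (fun y => slice (stMetric F k r) f y i j) x := by
  have hf := hS.f_smooth x hx
  show ContDiffAt ℝ ∞ (fun y => ∑ a, ∑ b, stMetric F k r (pt (f y) y) a b * tang f y i a * tang f y j b) x
  refine ContDiffAt.sum fun a _ => ContDiffAt.sum fun b _ => ?_
  exact ((cd_comp (st_at hS hx a b) hf).mul (cd_tang hf i a)).mul (cd_tang hf j b)

theorem slice_symm (F : E4 → ℝ) (k : ℝ → ℝ) (r : ℝ × ℝ → ℝ) (f : E3 → ℝ) (x : E3) (i j : Fin 3) :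
    slice (stMetric F k r) f x i j = slice (stMetric F k r) f x j i := by
  rw [slice_eq, slice_eq]
  by_cases h : i = j
  · subst h; rfl
  · rw [if_neg h, if_neg (Ne.symm h)]
    ring

private theorem second_smooth {F : E4 → ℝ} {k : ℝ → ℝ} {r : ℝ × ℝ → ℝ} {f : E3 → ℝ} (hS : Slice F k r f) {x : E3}
    (hx : x ≠ 0) (i j : Fin 3) : ContDiffAt ℝ ∞ (fun y => second (stMetric F k r) f y i j) x := by
  have hf := hS.f_smooth x hx
  have hinv : ∀ a b, ContDiffAt ℝ ∞ (fun p => (stMetric F k r p)⁻¹ a b) (pt (f x) x) := fun a b =>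
    H31R.N_inv_at (fun a b => st_at hS hx a b) (st_det hS hx) a b
  have hchr : ∀ c a b, ContDiffAt ℝ ∞ (H31R.chr (stMetric F k r) c a b) (pt (f x) x) := by
    intro c a b
    refine contDiffAt_const.mul (ContDiffAt.sum fun l _ => (hinv c l).mul ?_)
    exact ((cd_pd4 (st_at hS hx b l) a).add (cd_pd4 (st_at hS hx a l) b)).sub (cd_pd4 (st_at hS hx a b) l)
  refine ContDiffAt.div ?_ (ContDiffAt.sqrt ?_ (normal_timelike hS hx).ne')
    (Real.sqrt_ne_zero'.2 (normal_timelike hS hx))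
  · refine (cd_pd (cd_pd hf j) i).add (ContDiffAt.sum fun c _ => ContDiffAt.sum fun a _ => ContDiffAt.sum fun b _ => ?_)
    exact (((cd_comp (hchr c a b) hf).mul (cd_conorm hf c)).mul (cd_tang hf i a)).mul
      (cd_tang hf j b)
  · refine (ContDiffAt.sum fun a _ => ContDiffAt.sum fun b _ => ?_).neg
    exact ((cd_comp (hinv a b) hf).mul (cd_conorm hf a)).mul (cd_conorm hf b)

theorem second_cont {F : E4 → ℝ} {k : ℝ → ℝ} {r : ℝ × ℝ → ℝ} {f : E3 → ℝ} (hS : Slice F k r f) {x : E3}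
    (hx : x ≠ 0) (i j : Fin 3) : ContinuousAt (fun y => second (stMetric F k r) f y i j) x :=
  (second_smooth hS hx i j).continuousAt

private theorem det_ne_of_pos {A : Matrix (Fin 3) (Fin 3) ℝ}
    (h : ∀ ξ : Fin 3 → ℝ, ξ ≠ 0 → 0 < ∑ i, ∑ j, A i j * ξ i * ξ j) : A.det ≠ 0 := by
  intro h0
  obtain ⟨v, hv, hv0⟩ := Matrix.exists_mulVec_eq_zero_iff.2 h0
  have h1 := h v hv
  have h2 : ∑ i, ∑ j, A i j * v i * v j = ∑ i, v i * (A.mulVec v) i := by
    refine Finset.sum_congr rfl fun i _ => ?_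
    rw [Matrix.mulVec, dotProduct, Finset.mul_sum]
    refine Finset.sum_congr rfl fun j _ => ?_
    ring
  rw [h2, hv0] at h1
  simp at h1

theorem dens_cont {F : E4 → ℝ} {k : ℝ → ℝ} {r : ℝ × ℝ → ℝ} {f : E3 → ℝ} (hS : Slice F k r f) {x : E3}
    (hx : x ≠ 0) (i : Fin 3) : ContinuousAt (fluxDensity (slice (stMetric F k r) f)) x ∧
      ContinuousAt (momDensity (slice (stMetric F k r) f) (second (stMetric F k r) f) i) x := by
  have hn : ∀ j : Fin 3, ContinuousAt (fun y : E3 => y j / ‖y‖) x := fun j =>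
    (cd_coord j).continuousAt.div continuous_norm.continuousAt (norm_ne_zero_iff.2 hx)
  have hg := fun i j => slice_smooth hS hx i j
  have hdet := det_ne_of_pos (hS.spacelike x hx)
  have hinv : ∀ a b, ContDiffAt ℝ ∞ (fun y => (slice (stMetric F k r) f y)⁻¹ a b) x := fun a b =>
    H31R.N_inv_at hg hdet a b
  constructor
  · refine tendsto_finsetSum _ fun i _ => tendsto_finsetSum _ fun j _ => ?_
    exact ((cd_pd (hg i j) j).continuousAt.sub (cd_pd (hg j j) i).continuousAt).mul (hn i)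
  · refine tendsto_finsetSum _ fun j _ => ?_
    refine ((second_cont hS hx i j).sub (ContinuousAt.mul ?_ (hg i j).continuousAt)).mul (hn j)
    refine tendsto_finsetSum _ fun a _ => tendsto_finsetSum _ fun b _ => ?_
    exact (hinv a b).continuousAt.mul (second_cont hS hx a b)

end H17T
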