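import Pool.Agent.Lib.H17T.FB

set_option autoImplicit false

/-!
# H17T, chunk F2 (M): comparison of different times on the same sphere

`‖x‖ = ‖y‖ = ρ ≥ R`. (a) `|f x - f y| ≤ 6 π C` or any other fixed multiple of `C`: join `x` and `y` by a great circle arc
`t ↦ cos t x + sin t z` (`z` orthogonal to `x`, `‖z‖ = ρ`, `y = cos θ x + sin θ z`, `θ ∈ [0, π]`), along which `|d/dt f| ≤ 3 (C/ρ) ρ`.
(b) For every time `T` between `f x` and `f y` the point `(T, ρ)` is in `QQ f` (the sphere of radius `ρ` is connected, `f` continuous on it).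
(c) mean value theorem in `T` on the segment, with the bounds `F1` (`a = 0`; `∂_T F(ev (T, ρ) n) = H31R.pd 0 F (ev ..)`), `rRT`, `rTT`.
-/

open MeasureTheory Filter Topology Set
open scoped ContDiff

namespace H17T

open Pool.Agent.Lib.PenroseSph (E3 Tens S2 sm pd)

theorem f2_expand (D : E3 →L[ℝ] ℝ) (n : E3) : D n = ∑ m, n m * D (EuclideanSpace.single m 1) := by
  have hn : n = ∑ m, n m • EuclideanSpace.single m (1 : ℝ) := by
    ext i
    simp [Finset.sum_apply, Pi.single_apply]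
  calc D n = D (∑ m, n m • EuclideanSpace.single m (1 : ℝ)) := by rw [← hn]
    _ = ∑ m, n m * D (EuclideanSpace.single m 1) := by
        rw [map_sum]
        simp

theorem f2_coord (n : E3) (i : Fin 3) : |n i| ≤ ‖n‖ := by
  have h := PiLp.norm_apply_le n i
  rwa [Real.norm_eq_abs] at h

/-- A vector orthogonal to `x` of the same norm. -/
theorem f2_orth {x : E3} (hx : x ≠ 0) : ∃ z : E3, ‖z‖ = ‖x‖ ∧ inner ℝ x z = 0 := by
  obtain ⟨w, hw0, hw⟩ : ∃ w : E3, w ≠ 0 ∧ inner ℝ x w = 0 := by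
    have hf : Fact (Module.finrank ℝ E3 = 2 + 1) := ⟨by simp⟩
    have h1 := Submodule.finrank_orthogonal_span_singleton (𝕜 := ℝ) (n := 2) hx
    have h2 : (Submodule.span ℝ {x})ᗮ ≠ ⊥ := by
      intro h
      rw [h, finrank_bot] at h1
      omega
    obtain ⟨w, hw, hw0⟩ := Submodule.exists_mem_ne_zero_of_ne_bot h2
    exact ⟨w, hw0, Submodule.mem_orthogonal_singleton_iff_inner_right.1 hw⟩
  have hw1 : 0 < ‖w‖ := norm_pos_iff.2 hw0
  refine ⟨(‖x‖ / ‖w‖) • w, ?_, ?_⟩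
  · rw [norm_smul, Real.norm_eq_abs, abs_of_nonneg (by positivity), div_mul_cancel₀ _ hw1.ne']
  · rw [inner_smul_right, hw, mul_zero]

/-- The great circle arc from `x` to `y`. -/
theorem f2_arc {x y : E3} (hx : x ≠ 0) (hxy : ‖y‖ = ‖x‖) : ∃ (z : E3) (θ : ℝ), 0 ≤ θ ∧ θ ≤ Real.pi ∧ ‖z‖ = ‖x‖ ∧
    inner ℝ x z = 0 ∧ y = Real.cos θ • x + Real.sin θ • z := by
  have hρ : 0 < ‖x‖ := norm_pos_iff.2 hx
  have hρ2 : 0 < ‖x‖ ^ 2 := by positivity
  obtain ⟨c, hc⟩ : ∃ c, c = inner ℝ x y / ‖x‖ ^ 2 := ⟨_, rfl⟩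
  have hcs := abs_real_inner_le_norm x y
  rw [hxy] at hcs
  have hin : inner ℝ x y = c * ‖x‖ ^ 2 := by
    rw [hc, div_mul_cancel₀ _ hρ2.ne']
  have hc1 : |c| ≤ 1 := by
    rw [hin, abs_mul, abs_of_pos hρ2] at hcs
    nlinarith
  have hc2 := abs_le.1 hc1
  obtain ⟨w, hw⟩ : ∃ w, w = y - c • x := ⟨_, rfl⟩
  have hxw : inner ℝ x w = 0 := by
    rw [hw, inner_sub_right, inner_smul_right, real_inner_self_eq_norm_sq, hin]
    ring
  have hwn : ‖w‖ ^ 2 = ‖x‖ ^ 2 * (1 - c ^ 2) := by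
    rw [hw, norm_sub_sq_real, inner_smul_right, real_inner_comm, hin, norm_smul, hxy, mul_pow, Real.norm_eq_abs, sq_abs]
    ring
  have hy : y = c • x + w := by
    rw [hw]
    abel
  have hwn2 : ‖w‖ = ‖x‖ * Real.sqrt (1 - c ^ 2) := by
    rw [← Real.sqrt_sq (norm_nonneg w), hwn, Real.sqrt_mul hρ2.le, Real.sqrt_sq hρ.le]
  by_cases hw0 : w = 0
  · obtain ⟨z, hz1, hz2⟩ := f2_orth hx
    refine ⟨z, Real.arccos c, Real.arccos_nonneg c, Real.arccos_le_pi c, hz1, hz2, ?_⟩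
    have h1 : Real.sqrt (1 - c ^ 2) = 0 := by
      rw [hw0, norm_zero] at hwn2
      rcases mul_eq_zero.1 hwn2.symm with h | h
      · exact absurd h hρ.ne'
      · exact h
    rw [Real.cos_arccos hc2.1 hc2.2, Real.sin_arccos, h1, zero_smul, hy, hw0]
  · have hw1 : 0 < ‖w‖ := norm_pos_iff.2 hw0
    refine ⟨(‖x‖ / ‖w‖) • w, Real.arccos c, Real.arccos_nonneg c, Real.arccos_le_pi c, ?_, ?_, ?_⟩
    · rw [norm_smul, Real.norm_eq_abs, abs_of_nonneg (by positivity), div_mul_cancel₀ _ hw1.ne']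
    · rw [inner_smul_right, hxw, mul_zero]
    · rw [Real.cos_arccos hc2.1 hc2.2, Real.sin_arccos, smul_smul]
      have h1 : Real.sqrt (1 - c ^ 2) * (‖x‖ / ‖w‖) = 1 := by
        rw [← mul_div_assoc, mul_comm, ← hwn2, div_self hw1.ne']
      rw [h1, one_smul]
      exact hy

theorem f2_nsq {x z : E3} (hz : ‖z‖ = ‖x‖) (hxz : inner ℝ x z = 0) {a b : ℝ} (hab : a ^ 2 + b ^ 2 = 1) :
    ‖a • x + b • z‖ = ‖x‖ := by
  have h1 : ‖a • x + b • z‖ ^ 2 = ‖x‖ ^ 2 := by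
    rw [norm_add_sq_real, inner_smul_right, real_inner_smul_left, hxz, norm_smul, norm_smul, hz, mul_pow, mul_pow,
      Real.norm_eq_abs, Real.norm_eq_abs, sq_abs, sq_abs]
    linear_combination ‖x‖ ^ 2 * hab
  exact (sq_eq_sq₀ (norm_nonneg _) (norm_nonneg _)).1 h1

/-- (a), (b): the times on the sphere. -/
theorem f2_times {F : E4 → ℝ} {k : ℝ → ℝ} {r : ℝ × ℝ → ℝ} {f : E3 → ℝ} (hS : Slice F k r f) {C R : ℝ}
    (hB : BD F k r f C R) {x y : E3} (hx : R ≤ ‖x‖) (hxy : ‖y‖ = ‖x‖) :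
    |f y - f x| ≤ 3 * C * Real.pi ∧ ∀ T ∈ uIcc (f x) (f y), (T, ‖x‖) ∈ QQ f := by
  have hρ : 0 < ‖x‖ := by linarith [hB.R_pos]
  have hx0 : x ≠ 0 := norm_pos_iff.1 hρ
  obtain ⟨z, θ, h0, h1, hz, hxz, hy⟩ := f2_arc hx0 hxy
  have hn : ∀ t : ℝ, ‖Real.cos t • x + Real.sin t • z‖ = ‖x‖ := fun t =>
    f2_nsq hz hxz (Real.cos_sq_add_sin_sq t)
  have hn' : ∀ t : ℝ, ‖(-Real.sin t) • x + Real.cos t • z‖ = ‖x‖ := fun t =>
    f2_nsq hz hxz (by rw [neg_sq, Real.sin_sq_add_cos_sq])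
  have hne : ∀ t : ℝ, Real.cos t • x + Real.sin t • z ≠ 0 := by
    intro t h
    have h2 := hn t
    rw [h, norm_zero] at h2
    exact hρ.ne h2
  have hd : ∀ t : ℝ, HasDerivAt (fun t : ℝ => f (Real.cos t • x + Real.sin t • z))
      (fderiv ℝ f (Real.cos t • x + Real.sin t • z) ((-Real.sin t) • x + Real.cos t • z)) t := by
    intro t
    have d1 : HasDerivAt (fun t : ℝ => Real.cos t • x + Real.sin t • z) ((-Real.sin t) • x + Real.cos t • z) t :=
      ((Real.hasDerivAt_cos t).smul_const x).add ((Real.hasDerivAt_sin t).smul_const z)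
    exact ((hS.f_smooth _ (hne t)).differentiableAt (by simp)).hasFDerivAt.comp_hasDerivAt t d1
  have hb : ∀ t : ℝ, ‖fderiv ℝ f (Real.cos t • x + Real.sin t • z) ((-Real.sin t) • x + Real.cos t • z)‖ ≤ 3 * C := by
    intro t
    rw [Real.norm_eq_abs, f2_expand]
    have hf := hB.f1 (Real.cos t • x + Real.sin t • z) (by rw [hn t]; exact hx)
    rw [hn t] at hf
    calc |∑ m, ((-Real.sin t) • x + Real.cos t • z : E3) m *
          fderiv ℝ f (Real.cos t • x + Real.sin t • z) (EuclideanSpace.single m 1)|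
        ≤ ∑ m, |((-Real.sin t) • x + Real.cos t • z : E3) m *
          fderiv ℝ f (Real.cos t • x + Real.sin t • z) (EuclideanSpace.single m 1)| := Finset.abs_sum_le_sum_abs _ _
      _ ≤ ∑ _m : Fin 3, C := by
          refine Finset.sum_le_sum fun m _ => ?_
          rw [abs_mul]
          have a1 := f2_coord ((-Real.sin t) • x + Real.cos t • z) m
          rw [hn' t] at a1
          calc |((-Real.sin t) • x + Real.cos t • z : E3) m| *
                |fderiv ℝ f (Real.cos t • x + Real.sin t • z) (EuclideanSpace.single m 1)|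
              ≤ ‖x‖ * (C / ‖x‖) := mul_le_mul a1 (hf m) (abs_nonneg _) hρ.le
            _ = C := mul_div_cancel₀ _ hρ.ne'
      _ = 3 * C := by simp
  have e0 : Real.cos 0 • x + Real.sin 0 • z = x := by simp
  constructor
  · have h2 := Convex.norm_image_sub_le_of_norm_hasDerivWithin_le (s := univ)
      (fun t _ => (hd t).hasDerivWithinAt) (fun t _ => hb t) convex_univ (mem_univ (0 : ℝ)) (mem_univ θ)
    have h3 : |f (Real.cos θ • x + Real.sin θ • z) - f (Real.cos 0 • x + Real.sin 0 • z)| ≤ 3 * C * |θ - 0| := h2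
    rw [← hy, e0, sub_zero, abs_of_nonneg h0] at h3
    exact h3.trans (mul_le_mul_of_nonneg_left h1 (by linarith [hB.C_nonneg]))
  · intro T hT
    have hc : ContinuousOn (fun t : ℝ => f (Real.cos t • x + Real.sin t • z)) (uIcc 0 θ) := fun t _ =>
      (hd t).continuousAt.continuousWithinAt
    have h2 := intermediate_value_uIcc hc
    have e1 : f (Real.cos 0 • x + Real.sin 0 • z) = f x := by rw [e0]
    have e2 : f (Real.cos θ • x + Real.sin θ • z) = f y := by rw [← hy]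
    have h3 : T ∈ (fun t : ℝ => f (Real.cos t • x + Real.sin t • z)) '' uIcc 0 θ := by
      refine h2 ?_
      show T ∈ uIcc (f (Real.cos 0 • x + Real.sin 0 • z)) (f (Real.cos θ • x + Real.sin θ • z))
      rw [e1, e2]
      exact hT
    obtain ⟨t, -, ht⟩ := h3
    refine ⟨Real.cos t • x + Real.sin t • z, hne t, ?_⟩
    show (f (Real.cos t • x + Real.sin t • z), ‖Real.cos t • x + Real.sin t • z‖) = (T, ‖x‖)
    rw [hn t]
    exact congrArg (fun u => (u, ‖x‖)) ht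

theorem f2_pt (T : ℝ) (x : E3) : pt T x = pt 0 x + T • EuclideanSpace.single 0 (1 : ℝ) := by
  ext i
  fin_cases i <;> simp [pt]

theorem f2_ev (ρ : ℝ) (n : E3) (T : ℝ) : HasDerivAt (fun T : ℝ => ev (T, ρ) n) (EuclideanSpace.single 0 (1 : ℝ)) T := by
  have h1 : (fun T : ℝ => ev (T, ρ) n) = fun T => pt 0 (ρ • n) + T • EuclideanSpace.single 0 (1 : ℝ) := by
    funext T
    exact f2_pt T (ρ • n)
  rw [h1]
  have a1 := ((hasDerivAt_id T).smul_const (EuclideanSpace.single (0 : Fin 4) (1 : ℝ))).const_add (pt 0 (ρ • n))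
  simpa using a1

theorem f2_mvt {φ φ' : ℝ → ℝ} {a b B L : ℝ} (hd : ∀ t ∈ uIcc a b, HasDerivAt φ (φ' t) t)
    (hb : ∀ t ∈ uIcc a b, |φ' t| ≤ B) (hB : 0 ≤ B) (hL : |b - a| ≤ L) : |φ a - φ b| ≤ B * L := by
  have h2 := Convex.norm_image_sub_le_of_norm_hasDerivWithin_le (s := uIcc a b)
      (fun t ht => (hd t ht).hasDerivWithinAt) (fun t ht => hb t ht) (convex_uIcc a b) left_mem_uIcc right_mem_uIcc
  rw [Real.norm_eq_abs, Real.norm_eq_abs, abs_sub_comm] at h2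
  exact h2.trans (mul_le_mul_of_nonneg_left hL hB)

theorem f2_rd {r : ℝ × ℝ → ℝ} {T ρ : ℝ} (hr : ContDiffAt ℝ ∞ r (T, ρ)) (v : ℝ × ℝ) :
    HasDerivAt (fun T : ℝ => fderiv ℝ r (T, ρ) v) (fderiv ℝ (fun q => fderiv ℝ r q v) (T, ρ) (1, 0)) T := by
  have h1 : ContDiffAt ℝ ∞ (fderiv ℝ r) (T, ρ) := hr.fderiv_right (m := ∞) (by simp)
  have h2 : DifferentiableAt ℝ (fun q => fderiv ℝ r q v) (T, ρ) :=
    (h1.differentiableAt (by simp)).clm_apply (differentiableAt_const v)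
  have d1 : HasDerivAt (fun T : ℝ => ((T, ρ) : ℝ × ℝ)) (1, 0) T := (hasDerivAt_id T).prodMk (hasDerivAt_const T ρ)
  exact h2.hasFDerivAt.comp_hasDerivAt T d1

theorem times {F : E4 → ℝ} {k : ℝ → ℝ} {r : ℝ × ℝ → ℝ} {f : E3 → ℝ} (hS : Slice F k r f) {C R : ℝ}
    (hB : BD F k r f C R) :
    ∃ C' : ℝ, ∀ x y : E3, R ≤ ‖x‖ → ‖y‖ = ‖x‖ →
      (∀ n : S2, |F (ev (qq f x) n) - F (ev (qq f y) n)| ≤ C' / ‖x‖ ^ 2) ∧
      |fderiv ℝ r (qq f x) (0, 1) - fderiv ℝ r (qq f y) (0, 1)| ≤ C' / ‖x‖ ^ 2 ∧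
      |fderiv ℝ r (qq f x) (1, 0) - fderiv ℝ r (qq f y) (1, 0)| ≤ C' / ‖x‖ ^ 2 := by
  refine ⟨C * (3 * C * Real.pi), fun x y hx hxy => ?_⟩
  have hρ : 0 < ‖x‖ := by linarith [hB.R_pos]
  obtain ⟨h1, h2⟩ := f2_times hS hB hx hxy
  have hB0 : 0 ≤ C / ‖x‖ ^ 2 := div_nonneg hB.C_nonneg (by positivity)
  have e1 : qq f x = (f x, ‖x‖) := rfl
  have e2 : qq f y = (f y, ‖x‖) := by rw [← hxy]; rfl
  have e3 : C * (3 * C * Real.pi) / ‖x‖ ^ 2 = C / ‖x‖ ^ 2 * (3 * C * Real.pi) := by ring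
  have hr : ∀ q ∈ QQ f, ContDiffAt ℝ ∞ r q := by
    rintro q ⟨y, hy, rfl⟩
    have a1 := hS.r_smooth _ (mem_near (f := f) hy)
    rw [pos_pt, pt_zero] at a1
    exact a1
  rw [e1, e2, e3]
  refine ⟨fun n => ?_, ?_, ?_⟩
  · refine f2_mvt (φ := fun T => F (ev (T, ‖x‖) n)) (φ' := fun T => H31R.pd 0 F (ev (T, ‖x‖) n)) (fun T hT => ?_)
      (fun T hT => ?_) hB0 h1
    · have a1 := (ev_near (h2 T hT) n).1
      exact ((hS.F_smooth _ a1).differentiableAt (by simp)).hasFDerivAt.comp_hasDerivAt T (f2_ev ‖x‖ n T)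
    · exact hB.F1 _ (h2 T hT) hx n 0
  · exact f2_mvt (φ := fun T => fderiv ℝ r (T, ‖x‖) (0, 1)) (fun T hT => f2_rd (hr _ (h2 T hT)) (0, 1))
      (fun T hT => hB.rRT _ (h2 T hT) hx) hB0 h1
  · exact f2_mvt (φ := fun T => fderiv ℝ r (T, ‖x‖) (1, 0)) (fun T hT => f2_rd (hr _ (h2 T hT)) (1, 0))
      (fun T hT => hB.rTT _ (h2 T hT) hx) hB0 h1

end H17T
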