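import Pool.Agent.Lib.H17T.Defs

set_option autoImplicit false

/-!
# H17T, chunk T4A (M): the inverse metric in terms of the tangent vectors and the normal

Linear algebra: `e i = (p i, δ_i)`, `τ = (1, -p)`, `τ(e i) = 0`, `N = G⁻¹ τ`, `T = τ N`. For the `4 × 4` matrix `M` with the columns
`e 0, e 1, e 2, N` one has `Mᵀ G M = diag(g, T)` in block form (`e_iᵀ G N = τ(e_i) = 0`), which is invertible; hence `M` is
invertible and `G⁻¹ = M diag(g⁻¹, 1/T) Mᵀ`. (Alternatively: check that the right hand side times `G` is the identity on the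
basis `e_i`, `N`.)
-/

open MeasureTheory Filter Topology Set
open scoped ContDiff

namespace H17T

open scoped Matrix

theorem t4a_dot_e {p : Fin 3 → ℝ} (i : Fin 3) (w : Fin 4 → ℝ) :
    (Fin.cons (p i) fun j => if j = i then (1 : ℝ) else 0 : Fin 4 → ℝ) ⬝ᵥ w = p i * w 0 + w i.succ := by
  simp only [dotProduct]
  rw [Fin.sum_univ_succ]
  simp

theorem t4a_e_tau {p : Fin 3 → ℝ} (i : Fin 3) :
    (Fin.cons (p i) fun j => if j = i then (1 : ℝ) else 0 : Fin 4 → ℝ) ⬝ᵥ (Fin.cons 1 fun i => -p i : Fin 4 → ℝ) = 0 := by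
  rw [t4a_dot_e]
  simp

/-- A vector killed by `τ` is a combination of the `e i`. -/
theorem t4a_comb {p : Fin 3 → ℝ} {e : Fin 3 → Fin 4 → ℝ}
    (he : ∀ i, e i = Fin.cons (p i) fun j => if j = i then 1 else 0)
    {v : Fin 4 → ℝ} (hv : (Fin.cons 1 fun i => -p i : Fin 4 → ℝ) ⬝ᵥ v = 0) (a : Fin 4) :
    v a = ∑ i : Fin 3, v i.succ * e i a := by
  simp only [dotProduct] at hv
  rw [Fin.sum_univ_succ] at hv
  simp only [Fin.cons_zero, Fin.cons_succ, one_mul] at hv
  refine Fin.cases ?_ (fun j => ?_) a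
  · have h1 : ∀ i, v i.succ * e i 0 = -(-p i * v i.succ) := by
      intro i
      rw [he i]
      simp only [Fin.cons_zero]
      ring
    simp only [h1, Finset.sum_neg_distrib]
    linarith
  · have h1 : ∀ i, v i.succ * e i j.succ = if j = i then v i.succ else 0 := by
      intro i
      rw [he i]
      simp only [Fin.cons_succ]
      split_ifs <;> simp
    simp only [h1]
    simp

theorem inv_decomp {G : Matrix (Fin 4) (Fin 4) ℝ} (hsym : ∀ a b, G a b = G b a) (hdet : G.det ≠ 0)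
    {p : Fin 3 → ℝ} {e : Fin 3 → Fin 4 → ℝ} (he : ∀ i, e i = Fin.cons (p i) fun j => if j = i then 1 else 0)
    {τ : Fin 4 → ℝ} (hτ : τ = Fin.cons 1 fun i => -p i) {g : Matrix (Fin 3) (Fin 3) ℝ}
    (hg : ∀ i j, g i j = ∑ a, ∑ b, G a b * e i a * e j b) (hgdet : g.det ≠ 0)
    (hT : ∑ a, ∑ b, G⁻¹ a b * τ a * τ b ≠ 0) (a b : Fin 4) :
    G⁻¹ a b = (∑ i, ∑ j, g⁻¹ i j * e i a * e j b)
      + (∑ c, G⁻¹ a c * τ c) * (∑ c, G⁻¹ b c * τ c) / ∑ a, ∑ b, G⁻¹ a b * τ a * τ b := by
  classical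
  set N : Fin 4 → ℝ := G⁻¹ *ᵥ τ with hNdef
  have hu : IsUnit G.det := isUnit_iff_ne_zero.2 hdet
  have hug : IsUnit g.det := isUnit_iff_ne_zero.2 hgdet
  have hGN : G *ᵥ N = τ := by
    rw [hNdef, Matrix.mulVec_mulVec, Matrix.mul_nonsing_inv _ hu, Matrix.one_mulVec]
  have hNa : ∀ a, N a = ∑ c, G⁻¹ a c * τ c := by
    intro a
    rw [hNdef]
    rfl
  have hTN : ∑ a, ∑ b, G⁻¹ a b * τ a * τ b = τ ⬝ᵥ N := by
    simp only [dotProduct]
    refine Finset.sum_congr rfl fun a _ => ?_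
    rw [hNa, Finset.mul_sum]
    refine Finset.sum_congr rfl fun b _ => ?_
    ring
  have hsymG : ∀ v w : Fin 4 → ℝ, v ⬝ᵥ (G *ᵥ w) = (G *ᵥ v) ⬝ᵥ w := by
    intro v w
    simp only [dotProduct, Matrix.mulVec, Finset.mul_sum, Finset.sum_mul]
    rw [Finset.sum_comm]
    refine Finset.sum_congr rfl fun b _ => Finset.sum_congr rfl fun a _ => ?_
    rw [hsym a b]
    ring
  have hg' : ∀ i j, g i j = e i ⬝ᵥ (G *ᵥ e j) := by
    intro i j
    rw [hg]
    simp only [dotProduct, Matrix.mulVec, Finset.mul_sum]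
    refine Finset.sum_congr rfl fun a _ => Finset.sum_congr rfl fun b _ => ?_
    ring
  have heτ : ∀ i, e i ⬝ᵥ τ = 0 := by
    intro i
    rw [he i, hτ]
    exact t4a_e_tau i
  set T : ℝ := ∑ a, ∑ b, G⁻¹ a b * τ a * τ b with hTdef
  let R : Matrix (Fin 4) (Fin 4) ℝ := Matrix.of fun a b =>
    (∑ i, ∑ j, g⁻¹ i j * e i a * e j b) + N a * N b / T
  have hRmul : ∀ w : Fin 4 → ℝ, ∀ a, (R *ᵥ w) a
      = (∑ i, ∑ j, g⁻¹ i j * (e j ⬝ᵥ w) * e i a) + N a * (N ⬝ᵥ w) / T := by
    intro w a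
    have h0 : (R *ᵥ w) a = ∑ b, R a b * w b := rfl
    rw [h0]
    have h1 : ∀ b, R a b * w b = (∑ i, ∑ j, g⁻¹ i j * e i a * (e j b * w b)) + N a / T * (N b * w b) := by
      intro b
      change ((∑ i, ∑ j, g⁻¹ i j * e i a * e j b) + N a * N b / T) * w b = _
      rw [add_mul, Finset.sum_mul]
      congr 1
      · refine Finset.sum_congr rfl fun i _ => ?_
        rw [Finset.sum_mul]
        refine Finset.sum_congr rfl fun j _ => ?_
        ring
      · ring
    simp only [h1]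
    rw [Finset.sum_add_distrib]
    congr 1
    · rw [Finset.sum_comm]
      refine Finset.sum_congr rfl fun i _ => ?_
      rw [Finset.sum_comm]
      refine Finset.sum_congr rfl fun j _ => ?_
      rw [← Finset.mul_sum]
      simp only [dotProduct]
      ring
    · rw [← Finset.mul_sum]
      simp only [dotProduct]
      ring
  have hRG : R * G = 1 := by
    apply Matrix.mulVec_injective
    funext v
    rw [← Matrix.mulVec_mulVec, Matrix.one_mulVec]
    funext a
    set s : ℝ := (τ ⬝ᵥ v) / T with hs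
    have hv0 : (Fin.cons 1 fun i => -p i : Fin 4 → ℝ) ⬝ᵥ (v - s • N) = 0 := by
      rw [← hτ, dotProduct_sub, dotProduct_smul, ← hTN, hs, smul_eq_mul, div_mul_cancel₀ _ hT, sub_self]
    have hv1 := t4a_comb he hv0
    set c : Fin 3 → ℝ := fun i => (v - s • N) i.succ with hc
    have hv2 : v = (∑ i, c i • e i) + s • N := by
      funext a
      have := hv1 a
      simp only [Pi.add_apply, Finset.sum_apply, Pi.smul_apply, smul_eq_mul, Pi.sub_apply] at this ⊢
      rw [sub_eq_iff_eq_add] at this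
      rw [this]
      rfl
    have hGv : G *ᵥ v = (∑ i, c i • (G *ᵥ e i)) + s • τ := by
      conv_lhs => rw [hv2]
      rw [Matrix.mulVec_add, Matrix.mulVec_sum, Matrix.mulVec_smul, hGN]
      congr 1
      refine Finset.sum_congr rfl fun i _ => ?_
      rw [Matrix.mulVec_smul]
    have h1 : ∀ j, e j ⬝ᵥ (G *ᵥ v) = ∑ i, c i * g j i := by
      intro j
      rw [hGv, dotProduct_add, dotProduct_sum, dotProduct_smul, heτ, smul_zero, add_zero]
      refine Finset.sum_congr rfl fun i _ => ?_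
      rw [dotProduct_smul, hg' j i, smul_eq_mul]
    have h2 : N ⬝ᵥ (G *ᵥ v) = s * T := by
      rw [hsymG, hGN, hs, div_mul_cancel₀ _ hT]
    rw [hRmul, h2]
    have h3 : ∀ i, ∑ j, g⁻¹ i j * (e j ⬝ᵥ (G *ᵥ v)) * e i a = c i * e i a := by
      intro i
      rw [← Finset.sum_mul]
      congr 1
      have h4 : ∑ j, g⁻¹ i j * (e j ⬝ᵥ (G *ᵥ v)) = (g⁻¹ *ᵥ (g *ᵥ c)) i := by
        simp only [Matrix.mulVec, dotProduct] at h1 ⊢
        refine Finset.sum_congr rfl fun j _ => ?_
        rw [h1 j]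
        congr 1
        refine Finset.sum_congr rfl fun k _ => ?_
        ring
      rw [h4, Matrix.mulVec_mulVec, Matrix.nonsing_inv_mul _ hug, Matrix.one_mulVec]
    simp only [h3]
    conv_rhs => rw [hv2]
    simp only [Pi.add_apply, Finset.sum_apply, Pi.smul_apply, smul_eq_mul]
    congr 1
    field_simp
  have hfin : G⁻¹ = R := Matrix.inv_eq_left_inv hRG
  have hab : G⁻¹ a b = R a b := by rw [← hfin]
  rw [hab]
  change (∑ i, ∑ j, g⁻¹ i j * e i a * e j b) + N a * N b / T = _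
  rw [hNa a, hNa b]

end H17T
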