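import Pool.Agent.Lib.H17T.T0
import Pool.Agent.Lib.H17T.T4
import Pool.Agent.Lib.H31R.N2

set_option autoImplicit false

/-!
# H17T, chunk T4B (M/L): the Gauss formula for the Hessian

General metric `G` (symmetric, `C¹` and nondegenerate at `P = pt (f x) x`), `e_i = tang f x i`, `τ = conorm f x`, `g = slice G f`.
(a) `pd l (fun y => φ (pt (f y) y)) x = Σ_a ∂_a φ(P) e_l^a` (chain rule); `pd l (tang f · i a) = f_li` for `a = 0` and `0` otherwise.
(b) with `Γ_c(i,j) = Σ_ab Γ^c_ab e_i^a e_j^b` and the vector `Z^c = δ^c_0 f_ij + Γ_c(i,j)`: for all `l`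
`(1/2) (∂_i g_jl + ∂_j g_il - ∂_l g_ij) = Σ_cd G_cd Z^c e_l^d` (product rule; `Σ_c G_cd Γ^c_ab = (1/2)(∂_a G_bd + ∂_b G_ad - ∂_d G_ab)`).
Hence `Σ_k chr g k i j e_k^a = Z^a + (component along the normal)`: by `inv_decomp` (T4A)
`Z^a = Σ_k chr g k i j e_k^a + (G⁻¹τ)^a τ(Z)/T`, `T = G⁻¹(τ,τ)`, and `τ(Z) = f_ij + Σ Γ^c τ_c e e = second_ij * √(-T)`.
(c) `∂_i∂_j (ν(pt (f y) y)) = Σ ν_ab e_i^a e_j^b + ν_0 f_ij`, and `Σ_k chr g k i j ∂_k N = Σ_k chr g k i j dν(e_k)
= dν(Z) - dν(G⁻¹τ) τ(Z)/T`. Subtract: the `ν_0 f_ij` cancels against the first part of `dν(Z)`, and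
`dν(G⁻¹τ) τ(Z)/T = -second_ij * (dν(G⁻¹τ)/√(-T)) * ...` gives the last term (`√(-T)² = -T`).
-/

open MeasureTheory Filter Topology Set
open scoped ContDiff

namespace H17T

open Pool.Agent.Lib.PenroseSph (E3 Tens S2 sm pd chr)

theorem t4b_swap (F : Fin 3 → Fin 3 → Fin 4 → Fin 4 → ℝ) :
    ∑ k, ∑ l, ∑ a, ∑ b, F k l a b = ∑ a, ∑ b, ∑ k, ∑ l, F k l a b := by
  have h1 : ∀ k, ∑ l, ∑ a, ∑ b, F k l a b = ∑ a, ∑ l, ∑ b, F k l a b := fun k => Finset.sum_comm
  simp only [h1]
  rw [Finset.sum_comm]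
  refine Finset.sum_congr rfl fun a _ => ?_
  have h2 : ∀ k, ∑ l, ∑ b, F k l a b = ∑ b, ∑ l, F k l a b := fun k => Finset.sum_comm
  simp only [h2]
  rw [Finset.sum_comm]

theorem t4b_io_diff {f : E3 → ℝ} {y : E3} (hf : DifferentiableAt ℝ f y) :
    DifferentiableAt ℝ (fun z => pt (f z) z) y := by
  have h1 : DifferentiableAt ℝ (fun z : E3 => (f z, z)) y := hf.prodMk differentiableAt_id
  have h2 : DifferentiableAt ℝ (fun q : ℝ × E3 => pt q.1 q.2) (f y, y) :=
    pt_smooth.contDiffAt.differentiableAt (by simp)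
  exact DifferentiableAt.comp y (f := fun z : E3 => (f z, z)) h2 h1

theorem t4b_io_apply {f : E3 → ℝ} {y : E3} (hf : DifferentiableAt ℝ f y) (l : Fin 3) (a : Fin 4) :
    (fderiv ℝ (fun z => pt (f z) z) y (EuclideanSpace.single l 1)) a = tang f y l a := by
  have h : HasFDerivAt (fun z => pt (f z) z) (fderiv ℝ (fun z => pt (f z) z) y) y :=
    (t4b_io_diff hf).hasFDerivAt
  have h2 : HasFDerivAt (fun z => pt (f z) z a)
      ((EuclideanSpace.proj a : E4 →L[ℝ] ℝ).comp (fderiv ℝ (fun z => pt (f z) z) y)) y :=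
    (EuclideanSpace.proj a : E4 →L[ℝ] ℝ).hasFDerivAt.comp y h
  have h3 : (fderiv ℝ (fun z => pt (f z) z) y (EuclideanSpace.single l 1)) a
      = fderiv ℝ (fun z => pt (f z) z a) y (EuclideanSpace.single l 1) := by
    rw [h2.fderiv]
    rfl
  rw [h3]
  clear h h2 h3
  refine Fin.cases ?_ (fun j => ?_) a
  · have : (fun z => pt (f z) z 0) = f := by
      funext z
      exact pt_zero _ _
    rw [this]
    rfl
  · have : (fun z => pt (f z) z j.succ) = fun z : E3 => z j := by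
      funext z
      exact pt_succ _ _ _
    rw [this]
    have h4 := Pool.Agent.Lib.PenroseSph.pd_coord l j y
    unfold Pool.Agent.Lib.PenroseSph.pd at h4
    rw [h4]
    simp [tang]

/-- The chain rule along the slice. -/
theorem t4b_chain {φ : E4 → ℝ} {f : E3 → ℝ} {y : E3} (hφ : DifferentiableAt ℝ φ (pt (f y) y))
    (hf : DifferentiableAt ℝ f y) (l : Fin 3) :
    pd l (fun z => φ (pt (f z) z)) y = ∑ a, H31R.pd a φ (pt (f y) y) * tang f y l a := by
  have h : HasFDerivAt (fun z => pt (f z) z) (fderiv ℝ (fun z => pt (f z) z) y) y :=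
    (t4b_io_diff hf).hasFDerivAt
  have h1 : HasFDerivAt (fun z => φ (pt (f z) z))
      ((fderiv ℝ φ (pt (f y) y)).comp (fderiv ℝ (fun z => pt (f z) z) y)) y :=
    HasFDerivAt.comp y hφ.hasFDerivAt h
  unfold pd
  rw [h1.fderiv, ContinuousLinearMap.comp_apply, H31R.N_basis (fderiv ℝ (fun z => pt (f z) z) y _), map_sum]
  refine Finset.sum_congr rfl fun a _ => ?_
  rw [map_smul, smul_eq_mul, t4b_io_apply hf, mul_comm]
  rfl

/-- `δ_a0`. -/
noncomputable def t4b_dl : Fin 4 → ℝ := Fin.cons 1 fun _ => 0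

theorem t4b_dl_sum (v : Fin 4 → ℝ) : ∑ a, v a * t4b_dl a = v 0 := by
  rw [Fin.sum_univ_succ]
  simp [t4b_dl]

theorem t4b_pd_diff {f : E3 → ℝ} {x : E3} (hf : ContDiffAt ℝ ∞ f x) (l : Fin 3) :
    DifferentiableAt ℝ (pd l f) x := by
  have h := (hf.fderiv_right (m := 1) (by norm_cast)).differentiableAt (by simp)
  exact h.clm_apply (differentiableAt_const _)

theorem t4b_pd4_diff {φ : E4 → ℝ} {p : E4} (hφ : ContDiffAt ℝ ∞ φ p) (a : Fin 4) :
    DifferentiableAt ℝ (H31R.pd a φ) p := by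
  have h := (hφ.fderiv_right (m := 1) (by norm_cast)).differentiableAt (by simp)
  exact h.clm_apply (differentiableAt_const _)

theorem t4b_tang_diff {f : E3 → ℝ} {x : E3} (hf : ContDiffAt ℝ ∞ f x) (l : Fin 3) (a : Fin 4) :
    DifferentiableAt ℝ (fun y => tang f y l a) x := by
  refine Fin.cases ?_ (fun j => ?_) a
  · exact t4b_pd_diff hf l
  · exact differentiableAt_const _

theorem t4b_tang_pd (f : E3 → ℝ) (x : E3) (i l : Fin 3) (a : Fin 4) :
    pd i (fun y => tang f y l a) x = pd i (pd l f) x * t4b_dl a := by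
  refine Fin.cases ?_ (fun j => ?_) a
  · have : (fun y => tang f y l 0) = pd l f := rfl
    rw [this]
    simp [t4b_dl]
  · have : (fun y => tang f y l j.succ) = fun _ : E3 => (if j = l then (1 : ℝ) else 0) := rfl
    rw [this]
    simp [t4b_dl, pd]

theorem t4b_pd_sum {ι : Type} (s : Finset ι) (F : ι → E3 → ℝ) {x : E3}
    (hF : ∀ i ∈ s, DifferentiableAt ℝ (F i) x) (k : Fin 3) :
    pd k (fun y => ∑ i ∈ s, F i y) x = ∑ i ∈ s, pd k (F i) x := by
  unfold pd; rw [fderiv_fun_sum hF]; simp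

theorem t4b_pd_symm {f : E3 → ℝ} {x : E3} (hf : ContDiffAt ℝ ∞ f x) (i j : Fin 3) :
    pd i (pd j f) x = pd j (pd i f) x := by
  have hc : ContDiffAt ℝ 2 f x := hf.of_le (by norm_cast)
  have hs : IsSymmSndFDerivAt ℝ f x := hc.isSymmSndFDerivAt (by
    rw [minSmoothness_of_isRCLikeNormedField])
  have hd : DifferentiableAt ℝ (fderiv ℝ f) x :=
    (hc.fderiv_right (m := 1) (by norm_cast)).differentiableAt (by simp)
  have key : ∀ i j : Fin 3, pd i (pd j f) x
      = fderiv ℝ (fderiv ℝ f) x (EuclideanSpace.single i 1) (EuclideanSpace.single j 1) := by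
    intro i j
    have : (pd j f) = fun y => fderiv ℝ f y (EuclideanSpace.single j 1) := rfl
    unfold pd
    rw [fderiv_clm_apply hd (by fun_prop)]
    simp
  rw [key, key]
  exact hs _ _

theorem t4b_ev_diff {f : E3 → ℝ} {x : E3} (hf : ContDiffAt ℝ ∞ f x) : ∀ᶠ y in 𝓝 x, DifferentiableAt ℝ f y := by
  have h1 : ContDiffAt ℝ 1 f x := hf.of_le (by norm_cast)
  filter_upwards [h1.eventually (by simp)] with y hy
  exact hy.differentiableAt (by simp)

/-- Second derivatives along the slice. -/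
theorem t4b_second {f : E3 → ℝ} {ν : E4 → ℝ} {x : E3} (hf : ContDiffAt ℝ ∞ f x)
    (hν : ContDiffAt ℝ ∞ ν (pt (f x) x)) (i j : Fin 3) :
    pd i (pd j fun y => ν (pt (f y) y)) x
      = (∑ a, ∑ b, H31R.pd a (H31R.pd b ν) (pt (f x) x) * tang f x i a * tang f x j b)
        + H31R.pd 0 ν (pt (f x) x) * pd i (pd j f) x := by
  have hfd : DifferentiableAt ℝ f x := hf.differentiableAt (by simp)
  have hio : ContinuousAt (fun z => pt (f z) z) x := (t4b_io_diff hfd).continuousAt
  have hν1 : ∀ᶠ p in 𝓝 (pt (f x) x), DifferentiableAt ℝ ν p := by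
    have h1 : ContDiffAt ℝ 1 ν (pt (f x) x) := hν.of_le (by norm_cast)
    filter_upwards [h1.eventually (by simp)] with y hy
    exact hy.differentiableAt (by simp)
  have hev : (pd j fun y => ν (pt (f y) y)) =ᶠ[𝓝 x]
      fun y => ∑ b, H31R.pd b ν (pt (f y) y) * tang f y j b := by
    filter_upwards [t4b_ev_diff hf, hio.eventually hν1] with y hy1 hy2
    exact t4b_chain hy2 hy1 j
  rw [Pool.Agent.Lib.PenroseSph.pd_congr i hev]
  have hd1 : ∀ b, DifferentiableAt ℝ (fun y => H31R.pd b ν (pt (f y) y)) x := fun b =>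
    DifferentiableAt.comp x (f := fun z => pt (f z) z) (t4b_pd4_diff hν b) (t4b_io_diff hfd)
  have hd2 : ∀ b, DifferentiableAt ℝ (fun y => tang f y j b) x := fun b => t4b_tang_diff hf j b
  rw [t4b_pd_sum Finset.univ (fun b y => H31R.pd b ν (pt (f y) y) * tang f y j b) (fun b _ => (hd1 b).mul (hd2 b))]
  have h1 : ∀ b, pd i (fun y => H31R.pd b ν (pt (f y) y) * tang f y j b) x
      = (∑ a, H31R.pd a (H31R.pd b ν) (pt (f x) x) * tang f x i a * tang f x j b)
        + H31R.pd b ν (pt (f x) x) * pd i (pd j f) x * t4b_dl b := by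
    intro b
    rw [Pool.Agent.Lib.PenroseSph.pd_mul i (hd1 b) (hd2 b), t4b_tang_pd,
      t4b_chain (t4b_pd4_diff hν b) hfd, Finset.mul_sum]
    rw [add_comm]
    congr 1
    · refine Finset.sum_congr rfl fun a _ => ?_
      ring
    · ring
  simp only [h1]
  rw [Finset.sum_add_distrib, t4b_dl_sum (fun b => H31R.pd b ν (pt (f x) x) * pd i (pd j f) x), Finset.sum_comm]

/-- Derivative of the induced metric. -/
theorem t4b_slice_pd {G : E4 → Matrix (Fin 4) (Fin 4) ℝ} {f : E3 → ℝ} {x : E3}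
    (hG : ∀ a b, ContDiffAt ℝ ∞ (fun p => G p a b) (pt (f x) x)) (hf : ContDiffAt ℝ ∞ f x) (i j l : Fin 3) :
    pd i (fun y => slice G f y j l) x
      = (∑ a, ∑ b, (∑ c, H31R.pd c (fun p => G p a b) (pt (f x) x) * tang f x i c) * tang f x j a * tang f x l b)
        + pd i (pd j f) x * (∑ a, ∑ b, G (pt (f x) x) a b * t4b_dl a * tang f x l b)
        + pd i (pd l f) x * (∑ a, ∑ b, G (pt (f x) x) a b * tang f x j a * t4b_dl b) := by
  have hfd : DifferentiableAt ℝ f x := hf.differentiableAt (by simp)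
  have hGd : ∀ a b, DifferentiableAt ℝ (fun p => G p a b) (pt (f x) x) := fun a b =>
    (hG a b).differentiableAt (by simp)
  have hd1 : ∀ a b, DifferentiableAt ℝ (fun y => G (pt (f y) y) a b) x := fun a b =>
    DifferentiableAt.comp x (f := fun z => pt (f z) z) (hGd a b) (t4b_io_diff hfd)
  have hd2 : ∀ j b, DifferentiableAt ℝ (fun y => tang f y j b) x := fun j b => t4b_tang_diff hf j b
  have h0 : (fun y => slice G f y j l)
      = fun y => ∑ a, ∑ b, G (pt (f y) y) a b * tang f y j a * tang f y l b := rfl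
  rw [h0, t4b_pd_sum _ _ (fun a _ => by
    refine DifferentiableAt.fun_sum fun b _ => ((hd1 a b).mul (hd2 j a)).mul (hd2 l b))]
  have h1 : ∀ a, pd i (fun y => ∑ b, G (pt (f y) y) a b * tang f y j a * tang f y l b) x
      = ∑ b, ((∑ c, H31R.pd c (fun p => G p a b) (pt (f x) x) * tang f x i c) * tang f x j a * tang f x l b
        + pd i (pd j f) x * (G (pt (f x) x) a b * t4b_dl a * tang f x l b)
        + pd i (pd l f) x * (G (pt (f x) x) a b * tang f x j a * t4b_dl b)) := by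
    intro a
    rw [t4b_pd_sum Finset.univ (fun b y => G (pt (f y) y) a b * tang f y j a * tang f y l b)
      (fun b _ => ((hd1 a b).mul (hd2 j a)).mul (hd2 l b))]
    refine Finset.sum_congr rfl fun b _ => ?_
    rw [Pool.Agent.Lib.PenroseSph.pd_mul (f := fun y => G (pt (f y) y) a b * tang f y j a)
        (g := fun y => tang f y l b) i ((hd1 a b).mul (hd2 j a)) (hd2 l b),
      Pool.Agent.Lib.PenroseSph.pd_mul (f := fun y => G (pt (f y) y) a b) (g := fun y => tang f y j a) i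
        (hd1 a b) (hd2 j a), t4b_tang_pd, t4b_tang_pd,
      t4b_chain (φ := fun p => G p a b) (hGd a b) hfd]
    ring
  simp only [h1]
  simp only [Finset.sum_add_distrib, Finset.mul_sum]

open scoped Matrix

/-- The lowered Christoffel symbols of the induced metric. -/
theorem t4b_S {G : E4 → Matrix (Fin 4) (Fin 4) ℝ} {f : E3 → ℝ} {x : E3}
    (hsym : ∀ p a b, G p a b = G p b a) (hG : ∀ a b, ContDiffAt ℝ ∞ (fun p => G p a b) (pt (f x) x))
    (hdet : (G (pt (f x) x)).det ≠ 0) (hf : ContDiffAt ℝ ∞ f x) (i j l : Fin 3) :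
    pd i (fun y => slice G f y j l) x + pd j (fun y => slice G f y i l) x - pd l (fun y => slice G f y i j) x
      = 2 * (tang f x l ⬝ᵥ (G (pt (f x) x) *ᵥ fun c =>
        (∑ a, ∑ b, H31R.chr G c a b (pt (f x) x) * tang f x i a * tang f x j b)
          + pd i (pd j f) x * t4b_dl c)) := by
  have hu : IsUnit (G (pt (f x) x)).det := isUnit_iff_ne_zero.2 hdet
  set P := pt (f x) x with hP
  set e := tang f x with he
  set D : Fin 4 → Fin 4 → Fin 4 → ℝ := fun a b c => H31R.pd c (fun p => G p a b) P with hD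
  have hDs : ∀ a b c, D a b c = D b a c := by
    intro a b c
    have : (fun p => G p a b) = fun p => G p b a := by
      funext p
      exact hsym p a b
    simp only [hD, this]
  set m : Fin 4 → ℝ := fun d => ∑ a, ∑ b, (D b d a + D a d b - D a b d) * e i a * e j b with hm
  have hM : (fun c => ∑ a, ∑ b, H31R.chr G c a b P * e i a * e j b) = (1 / 2 : ℝ) • ((G P)⁻¹ *ᵥ m) := by
    funext c
    simp only [Pi.smul_apply, smul_eq_mul, Matrix.mulVec, dotProduct, hm]
    have h1 : ∀ a b, H31R.chr G c a b P * e i a * e j b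
        = ∑ d, 1 / 2 * ((G P)⁻¹ c d * ((D b d a + D a d b - D a b d) * e i a * e j b)) := by
      intro a b
      simp only [H31R.chr, hD, Finset.mul_sum, Finset.sum_mul]
      refine Finset.sum_congr rfl fun d _ => ?_
      ring
    simp only [h1, Finset.mul_sum]
    have h2 : ∀ a, ∑ b, ∑ d, 1 / 2 * ((G P)⁻¹ c d * ((D b d a + D a d b - D a b d) * e i a * e j b))
        = ∑ d, ∑ b, 1 / 2 * ((G P)⁻¹ c d * ((D b d a + D a d b - D a b d) * e i a * e j b)) := fun a =>
      Finset.sum_comm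
    simp only [h2]
    rw [Finset.sum_comm]
  have hZ : (fun c => (∑ a, ∑ b, H31R.chr G c a b P * e i a * e j b) + pd i (pd j f) x * t4b_dl c)
      = (1 / 2 : ℝ) • ((G P)⁻¹ *ᵥ m) + pd i (pd j f) x • t4b_dl := by
    rw [← hM]
    rfl
  rw [hZ, Matrix.mulVec_add, Matrix.mulVec_smul, Matrix.mulVec_smul, Matrix.mulVec_mulVec,
    Matrix.mul_nonsing_inv _ hu, Matrix.one_mulVec, dotProduct_add, dotProduct_smul, dotProduct_smul,
    t4b_slice_pd hG hf, t4b_slice_pd hG hf, t4b_slice_pd hG hf, ← hP, ← he,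
    t4b_pd_symm hf j i, t4b_pd_symm hf l i, t4b_pd_symm hf l j]
  have hB : ∀ u v : Fin 4 → ℝ, ∑ a, ∑ b, G P a b * u a * v b = ∑ a, ∑ b, G P a b * v a * u b := by
    intro u v
    rw [Finset.sum_comm]
    refine Finset.sum_congr rfl fun a _ => Finset.sum_congr rfl fun b _ => ?_
    rw [hsym P b a]
    ring
  have hB2 : e l ⬝ᵥ (G P *ᵥ t4b_dl) = ∑ a, ∑ b, G P a b * t4b_dl a * e l b := by
    rw [hB]
    simp only [dotProduct, Matrix.mulVec, Finset.mul_sum]
    refine Finset.sum_congr rfl fun a _ => Finset.sum_congr rfl fun b _ => ?_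
    ring
  rw [hB2, hB (e j) t4b_dl, hB (e i) t4b_dl]
  have hmm : e l ⬝ᵥ m
      = (∑ a, ∑ b, (∑ c, D a b c * e i c) * e j a * e l b)
        + (∑ a, ∑ b, (∑ c, D a b c * e j c) * e i a * e l b)
        - (∑ a, ∑ b, (∑ c, D a b c * e l c) * e i a * e j b) := by
    have e1 : ∑ a, ∑ b, (∑ c, D a b c * e i c) * e j a * e l b = ∑ d, ∑ a, ∑ b, D b d a * e i a * e j b * e l d := by
      rw [Finset.sum_comm]
      refine Finset.sum_congr rfl fun d _ => ?_
      rw [Finset.sum_comm]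
      refine Finset.sum_congr rfl fun b _ => ?_
      rw [Finset.sum_mul, Finset.sum_mul]
    have e2 : ∑ a, ∑ b, (∑ c, D a b c * e j c) * e i a * e l b = ∑ d, ∑ a, ∑ b, D a d b * e i a * e j b * e l d := by
      rw [Finset.sum_comm]
      refine Finset.sum_congr rfl fun d _ => ?_
      refine Finset.sum_congr rfl fun a _ => ?_
      rw [Finset.sum_mul, Finset.sum_mul]
      refine Finset.sum_congr rfl fun b _ => ?_
      ring
    have e3 : ∑ a, ∑ b, (∑ c, D a b c * e l c) * e i a * e j b = ∑ d, ∑ a, ∑ b, D a b d * e i a * e j b * e l d := by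
      have h1 : ∀ a b, (∑ c, D a b c * e l c) * e i a * e j b = ∑ d, D a b d * e i a * e j b * e l d := by
        intro a b
        rw [Finset.sum_mul, Finset.sum_mul]
        refine Finset.sum_congr rfl fun c _ => ?_
        ring
      simp only [h1]
      have h2 : ∀ a, ∑ b, ∑ d, D a b d * e i a * e j b * e l d = ∑ d, ∑ b, D a b d * e i a * e j b * e l d :=
        fun a => Finset.sum_comm
      simp only [h2]
      rw [Finset.sum_comm]
    rw [e1, e2, e3, ← Finset.sum_add_distrib, ← Finset.sum_sub_distrib]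
    simp only [dotProduct, hm]
    refine Finset.sum_congr rfl fun d _ => ?_
    rw [← Finset.sum_add_distrib, ← Finset.sum_sub_distrib, Finset.mul_sum]
    refine Finset.sum_congr rfl fun a _ => ?_
    rw [← Finset.sum_add_distrib, ← Finset.sum_sub_distrib, Finset.mul_sum]
    refine Finset.sum_congr rfl fun b _ => ?_
    ring
  rw [hmm]
  simp only [hD, smul_eq_mul]
  ring

theorem gauss_hessian {G : E4 → Matrix (Fin 4) (Fin 4) ℝ} {f : E3 → ℝ} {ν : E4 → ℝ} {x : E3}
    (hsym : ∀ p a b, G p a b = G p b a) (hG : ∀ a b, ContDiffAt ℝ ∞ (fun p => G p a b) (pt (f x) x))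
    (hdet : (G (pt (f x) x)).det ≠ 0) (hf : ContDiffAt ℝ ∞ f x) (hν : ContDiffAt ℝ ∞ ν (pt (f x) x))
    (hgdet : (slice G f x).det ≠ 0)
    (hT : 0 < -∑ a, ∑ b, (G (pt (f x) x))⁻¹ a b * conorm f x a * conorm f x b) (i j : Fin 3) :
    pd i (pd j fun y => ν (pt (f y) y)) x - ∑ l, chr (slice G f) l i j x * pd l (fun y => ν (pt (f y) y)) x
      = (∑ a, ∑ b, (H31R.pd a (H31R.pd b ν) (pt (f x) x)
            - ∑ c, H31R.chr G c a b (pt (f x) x) * H31R.pd c ν (pt (f x) x)) * tang f x i a * tang f x j b)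
        + second G f x i j * (-(∑ a, ∑ b, (G (pt (f x) x))⁻¹ a b * conorm f x a * H31R.pd b ν (pt (f x) x)) /
            Real.sqrt (-∑ a, ∑ b, (G (pt (f x) x))⁻¹ a b * conorm f x a * conorm f x b)) := by
  classical
  set P := pt (f x) x with hP
  set e := tang f x with he
  set τ := conorm f x with hτ
  have hu : IsUnit (G P).det := isUnit_iff_ne_zero.2 hdet
  set T : ℝ := ∑ a, ∑ b, (G P)⁻¹ a b * τ a * τ b with hTdef
  have hT0 : T ≠ 0 := fun h => by rw [h, neg_zero] at hT; exact lt_irrefl _ hT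
  have hdec := inv_decomp (G := G P) (fun a b => hsym P a b) hdet (p := fun i => pd i f x) (e := e)
    (fun i => rfl) (τ := τ) rfl (g := slice G f x) (fun i j => rfl) hgdet hT0
  set Z : Fin 4 → ℝ := fun c => (∑ a, ∑ b, H31R.chr G c a b P * e i a * e j b) + pd i (pd j f) x * t4b_dl c with hZ
  set dn : Fin 4 → ℝ := fun a => H31R.pd a ν P with hdn
  have hchr : ∀ k, chr (slice G f) k i j x = ∑ l, (slice G f x)⁻¹ k l * (e l ⬝ᵥ (G P *ᵥ Z)) := by
    intro k
    unfold chr
    rw [Finset.mul_sum]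
    refine Finset.sum_congr rfl fun l _ => ?_
    rw [t4b_S hsym hG hdet hf]
    ring
  have hnu1 : ∀ k, pd k (fun y => ν (pt (f y) y)) x = dn ⬝ᵥ e k := by
    intro k
    rw [t4b_chain (hν.differentiableAt (by simp)) (hf.differentiableAt (by simp))]
    rfl
  set N : Fin 4 → ℝ := fun a => ∑ c, (G P)⁻¹ a c * τ c with hN
  have hGN : G P *ᵥ N = τ := by
    have : N = (G P)⁻¹ *ᵥ τ := rfl
    rw [this, Matrix.mulVec_mulVec, Matrix.mul_nonsing_inv _ hu, Matrix.one_mulVec]
  have hsymI : ∀ a b, (G P)⁻¹ a b = (G P)⁻¹ b a := by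
    intro a b
    have h1 : (G P).transpose = G P := by
      ext a b
      exact hsym P b a
    have h2 : ((G P)⁻¹).transpose = (G P)⁻¹ := by rw [Matrix.transpose_nonsing_inv, h1]
    conv_lhs => rw [← h2]
    rfl
  have hsymG : ∀ v w : Fin 4 → ℝ, v ⬝ᵥ (G P *ᵥ w) = (G P *ᵥ v) ⬝ᵥ w := by
    intro v w
    simp only [dotProduct, Matrix.mulVec, Finset.mul_sum, Finset.sum_mul]
    rw [Finset.sum_comm]
    refine Finset.sum_congr rfl fun b _ => Finset.sum_congr rfl fun a _ => ?_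
    rw [hsym P a b]
    ring
  have key : ∀ y : Fin 4 → ℝ, dn ⬝ᵥ ((G P)⁻¹ *ᵥ y)
      = (∑ k, ∑ l, (slice G f x)⁻¹ k l * (e l ⬝ᵥ y) * (dn ⬝ᵥ e k)) + (dn ⬝ᵥ N) * (N ⬝ᵥ y) / T := by
    intro y
    have h1 : ∀ k l, (slice G f x)⁻¹ k l * (e l ⬝ᵥ y) * (dn ⬝ᵥ e k)
        = ∑ a, ∑ b, (slice G f x)⁻¹ k l * (dn a * e k a) * (e l b * y b) := by
      intro k l
      simp only [dotProduct]
      rw [mul_assoc, mul_comm (∑ b, e l b * y b), Finset.sum_mul_sum, Finset.mul_sum]
      refine Finset.sum_congr rfl fun a _ => ?_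
      rw [Finset.mul_sum]
      refine Finset.sum_congr rfl fun b _ => ?_
      ring
    simp only [h1]
    rw [t4b_swap]
    have h2 : (dn ⬝ᵥ N) * (N ⬝ᵥ y) / T = ∑ a, ∑ b, (dn a * N a) * (N b * y b) / T := by
      simp only [dotProduct]
      rw [Finset.sum_mul_sum, Finset.sum_div]
      refine Finset.sum_congr rfl fun a _ => ?_
      rw [Finset.sum_div]
    rw [h2, ← Finset.sum_add_distrib]
    simp only [dotProduct, Matrix.mulVec]
    refine Finset.sum_congr rfl fun a _ => ?_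
    rw [← Finset.sum_add_distrib, Finset.mul_sum]
    refine Finset.sum_congr rfl fun b _ => ?_
    rw [hdec a b, ← hTdef, add_mul, mul_add, Finset.sum_mul, Finset.mul_sum]
    congr 1
    · refine Finset.sum_congr rfl fun k _ => ?_
      rw [Finset.sum_mul, Finset.mul_sum]
      refine Finset.sum_congr rfl fun l _ => ?_
      ring
    · simp only [hN]
      ring
  have hdnN : dn ⬝ᵥ N = ∑ a, ∑ b, (G P)⁻¹ a b * τ a * dn b := by
    simp only [dotProduct, hN, Finset.mul_sum]
    rw [Finset.sum_comm]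
    refine Finset.sum_congr rfl fun a _ => Finset.sum_congr rfl fun b _ => ?_
    rw [hsymI b a]
    ring
  have hsum : ∑ k, chr (slice G f) k i j x * pd k (fun y => ν (pt (f y) y)) x
      = dn ⬝ᵥ Z - (∑ a, ∑ b, (G P)⁻¹ a b * τ a * dn b) * (τ ⬝ᵥ Z) / T := by
    have h1 := key (G P *ᵥ Z)
    rw [Matrix.mulVec_mulVec, Matrix.nonsing_inv_mul _ hu, Matrix.one_mulVec, hsymG N Z, hGN, hdnN] at h1
    rw [h1, add_sub_cancel_right]
    refine Finset.sum_congr rfl fun k _ => ?_
    rw [hchr, hnu1, Finset.sum_mul]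
  have hsec : τ ⬝ᵥ Z = second G f x i j * Real.sqrt (-T) := by
    have hs : 0 < Real.sqrt (-T) := Real.sqrt_pos.2 hT
    have hse : second G f x i j
        = (pd i (pd j f) x + ∑ c, ∑ a, ∑ b, H31R.chr G c a b P * τ c * e i a * e j b) / Real.sqrt (-T) := rfl
    rw [hse, div_mul_cancel₀ _ hs.ne']
    simp only [dotProduct, hZ]
    have h1 : ∀ c, τ c * ((∑ a, ∑ b, H31R.chr G c a b P * e i a * e j b) + pd i (pd j f) x * t4b_dl c)
        = (τ c * pd i (pd j f) x) * t4b_dl c + ∑ a, ∑ b, H31R.chr G c a b P * τ c * e i a * e j b := by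
      intro c
      rw [mul_add, add_comm]
      congr 1
      · ring
      · rw [Finset.mul_sum]
        refine Finset.sum_congr rfl fun a _ => ?_
        rw [Finset.mul_sum]
        refine Finset.sum_congr rfl fun b _ => ?_
        ring
    simp only [h1]
    rw [Finset.sum_add_distrib, t4b_dl_sum (fun c => τ c * pd i (pd j f) x)]
    have h2 : τ 0 = 1 := rfl
    rw [h2, one_mul]
  rw [t4b_second hf hν, hsum, hsec]
  have hs : 0 < Real.sqrt (-T) := Real.sqrt_pos.2 hT
  have hs2 : Real.sqrt (-T) * Real.sqrt (-T) = -T := Real.mul_self_sqrt hT.le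
  have hdnZ : dn ⬝ᵥ Z = (∑ a, ∑ b, (∑ c, H31R.chr G c a b P * dn c) * e i a * e j b) + dn 0 * pd i (pd j f) x := by
    simp only [dotProduct, hZ]
    have h1 : ∀ c, dn c * ((∑ a, ∑ b, H31R.chr G c a b P * e i a * e j b) + pd i (pd j f) x * t4b_dl c)
        = (dn c * pd i (pd j f) x) * t4b_dl c + ∑ a, ∑ b, H31R.chr G c a b P * dn c * e i a * e j b := by
      intro c
      rw [mul_add, add_comm]
      congr 1
      · ring
      · rw [Finset.mul_sum]
        refine Finset.sum_congr rfl fun a _ => ?_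
        rw [Finset.mul_sum]
        refine Finset.sum_congr rfl fun b _ => ?_
        ring
    simp only [h1]
    rw [Finset.sum_add_distrib, t4b_dl_sum (fun c => dn c * pd i (pd j f) x), add_comm]
    congr 1
    rw [Finset.sum_comm]
    refine Finset.sum_congr rfl fun a _ => ?_
    rw [Finset.sum_comm]
    refine Finset.sum_congr rfl fun b _ => ?_
    rw [Finset.sum_mul, Finset.sum_mul]
  rw [hdnZ]
  have hfin : (∑ a, ∑ b, (G P)⁻¹ a b * τ a * dn b) * (second G f x i j * Real.sqrt (-T)) / T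
      = second G f x i j * (-(∑ a, ∑ b, (G P)⁻¹ a b * τ a * dn b) / Real.sqrt (-T)) := by
    rw [div_eq_iff hT0]
    have h3 : T = - (Real.sqrt (-T) * Real.sqrt (-T)) := by rw [hs2]; ring
    have h4 : -(∑ a, ∑ b, (G P)⁻¹ a b * τ a * dn b) / Real.sqrt (-T) * T
        = (∑ a, ∑ b, (G P)⁻¹ a b * τ a * dn b) * Real.sqrt (-T) := by
      rw [div_mul_eq_mul_div, div_eq_iff hs.ne']
      conv_lhs => rw [h3]
      ring
    rw [mul_assoc, h4]
    ring
  rw [hfin]
  simp only [sub_mul, Finset.sum_sub_distrib]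
  ring

end H17T
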