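import Pool.Agent.Lib.H17T.F0
import Pool.Agent.Lib.H17T.FB
import Pool.Agent.Lib.H17T.T4B

set_option autoImplicit false

/-!
# H17T, chunk F3 (M/L): expansion of the energy flux density

`slice_eq`: `g_ij = b δ_ij + (a - b) x̂_i x̂_j - F f_i f_j`, `a = F k²`, `b = (r/ρ)²` (functions of `x` through `T = f(x)`, `ρ = ‖x‖`).
(a) The first two terms contribute exactly `2 (a - b)/ρ - 2 b'`, `b' = Σ x̂_i ∂_i b` to `fluxDensity g = Σ_ij (∂_j g_ij - ∂_i g_jj) x̂_i`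
(`∂_j x̂_i = (δ_ij - x̂_i x̂_j)/ρ`): `Σ_j ∂_j (b δ_ij) x̂_i = b'`, `Σ_ij ∂_j ((a-b) x̂_i x̂_j) x̂_i = (a-b)' + 2(a-b)/ρ`, `Σ_i ∂_i (3b + (a-b)) x̂_i = a' + 2b'`.
(b) The last term contributes at most `C'/ρ³`: `|∂(F(pt (f x) x))| ≤ C'/ρ²` (`F1`, `f1`), `f_i = O(1/ρ)`, `f_ij = O(1/ρ²)`.
(c) `b' = 2 (r/ρ²)(r' - r/ρ)`, `r' = r_ρ + r_T f_ρ = r_ρ + O(1/ρ²)`, `r = ρ + O(1)`, `r_ρ = 1 + O(1/ρ)`; so
`ρ² (2(a-b)/ρ - 2 b') = 2ρ (a - 1) - 2ρ (b - 1) - 4 r (r' - r/ρ)`, `ρ (b - 1) = 2 (r - ρ) + O(1/ρ)`,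
`r (r' - r/ρ) = ρ (r_ρ - 1) - (r - ρ) + O(1/ρ)`: total `2ρ (a - 1) - 4ρ (r_ρ - 1) + O(1/ρ)`.
-/

open MeasureTheory Filter Topology Set
open scoped ContDiff

namespace H17T

open Pool.Agent.Lib.PenroseSph (E3 Tens S2 sm pd fluxDensity)

open Pool.Agent.Lib.PenroseSph in
/-- derivative of the radial unit vector -/
theorem f3_N {x : E3} (hx : x ≠ 0) (i m : Fin 3) :
    DifferentiableAt ℝ (fun y : E3 => y i / ‖y‖) x ∧
    pd m (fun y : E3 => y i / ‖y‖) x = ((if i = m then 1 else 0) - x i / ‖x‖ * (x m / ‖x‖)) / ‖x‖ := by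
  have hn : ‖x‖ ≠ 0 := norm_ne_zero_iff.2 hx
  have hd : DifferentiableAt ℝ (fun t : ℝ => t⁻¹) ‖x‖ := differentiableAt_inv hn
  have e : (fun y : E3 => y i / ‖y‖) = fun y => (fun t : ℝ => t⁻¹) ‖y‖ * y i := by
    funext y
    rw [div_eq_mul_inv, mul_comm]
  rw [e]
  refine ⟨diff_radial_mul (F := fun t : ℝ => t⁻¹) hx hd i, ?_⟩
  rw [pd_radial_mul (F := fun t : ℝ => t⁻¹) hx hd i m, deriv_inv]
  field_simp
  ring

/-- the algebra of the flux density -/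
theorem f3_alg (u dA dB dP D : Fin 3 → ℝ) (H : Fin 3 → Fin 3 → ℝ) (A B P ρ : ℝ) (hu : u 0 ^ 2 + u 1 ^ 2 + u 2 ^ 2 = 1) :
    ∑ i, ∑ j, ((dA j * (u i * u j) + A * (((if i = j then 1 else 0) - u i * u j) / ρ * u j
          + u i * (((if j = j then 1 else 0) - u j * u j) / ρ))
        + (dB j * ((if i = j then 1 else 0) - u i * u j) - B * (((if i = j then 1 else 0) - u i * u j) / ρ * u j
          + u i * (((if j = j then 1 else 0) - u j * u j) / ρ)))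
        - (dP j * (D i * D j) + P * (H j i * D j + D i * H j j)))
      - (dA i * (u j * u j) + A * (((if j = i then 1 else 0) - u j * u i) / ρ * u j
          + u j * (((if j = i then 1 else 0) - u j * u i) / ρ))
        + (dB i * ((if j = j then 1 else 0) - u j * u j) - B * (((if j = i then 1 else 0) - u j * u i) / ρ * u j
          + u j * (((if j = i then 1 else 0) - u j * u i) / ρ)))
        - (dP i * (D j * D j) + P * (H i j * D j + D j * H i j)))) * u i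
    = 2 * (A - B) / ρ - 2 * (dB 0 * u 0 + dB 1 * u 1 + dB 2 * u 2)
      - ∑ i, ∑ j, (dP j * (D i * D j) + P * (H j i * D j + D i * H j j)
        - (dP i * (D j * D j) + P * (H i j * D j + D j * H i j))) * u i := by
  simp only [Fin.sum_univ_three]
  simp
  linear_combination (2 * (A - B) / ρ) * hu


/-- the first derivatives of the induced metric -/
theorem f3_pd {A B P : E3 → ℝ} {D : Fin 3 → E3 → ℝ} {x : E3} (hx : x ≠ 0) (hA : DifferentiableAt ℝ A x)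
    (hB : DifferentiableAt ℝ B x) (hP : DifferentiableAt ℝ P x) (hD : ∀ i, DifferentiableAt ℝ (D i) x) (i j m : Fin 3) :
    pd m (fun y => A y * (y i / ‖y‖ * (y j / ‖y‖)) + B y * ((if i = j then 1 else 0) - y i / ‖y‖ * (y j / ‖y‖))
      - P y * (D i y * D j y)) x =
      (pd m A x * (x i / ‖x‖ * (x j / ‖x‖)) + A x * (((if i = m then 1 else 0) - x i / ‖x‖ * (x m / ‖x‖)) / ‖x‖ * (x j / ‖x‖)
          + x i / ‖x‖ * (((if j = m then 1 else 0) - x j / ‖x‖ * (x m / ‖x‖)) / ‖x‖))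
        + (pd m B x * ((if i = j then 1 else 0) - x i / ‖x‖ * (x j / ‖x‖))
          - B x * (((if i = m then 1 else 0) - x i / ‖x‖ * (x m / ‖x‖)) / ‖x‖ * (x j / ‖x‖)
          + x i / ‖x‖ * (((if j = m then 1 else 0) - x j / ‖x‖ * (x m / ‖x‖)) / ‖x‖)))
        - (pd m P x * (D i x * D j x) + P x * (pd m (D i) x * D j x + D i x * pd m (D j) x))) := by
  obtain ⟨n1, n2⟩ := f3_N hx i m
  obtain ⟨n3, n4⟩ := f3_N hx j m
  have hN : DifferentiableAt ℝ (fun y : E3 => y i / ‖y‖ * (y j / ‖y‖)) x := n1.mul n3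
  have hc : DifferentiableAt ℝ (fun _ : E3 => (if i = j then (1 : ℝ) else 0)) x := differentiableAt_const _
  have hN2 : DifferentiableAt ℝ (fun y : E3 => (if i = j then 1 else 0) - y i / ‖y‖ * (y j / ‖y‖)) x := hc.sub hN
  have hDD : DifferentiableAt ℝ (fun y : E3 => D i y * D j y) x := (hD i).mul (hD j)
  rw [Pool.Agent.Lib.PenroseSph.pd_sub m (f := fun y => A y * (y i / ‖y‖ * (y j / ‖y‖))
      + B y * ((if i = j then 1 else 0) - y i / ‖y‖ * (y j / ‖y‖))) (g := fun y => P y * (D i y * D j y))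
      ((hA.mul hN).add (hB.mul hN2)) (hP.mul hDD),
    Pool.Agent.Lib.PenroseSph.pd_add m (f := fun y => A y * (y i / ‖y‖ * (y j / ‖y‖)))
      (g := fun y => B y * ((if i = j then 1 else 0) - y i / ‖y‖ * (y j / ‖y‖))) (hA.mul hN) (hB.mul hN2),
    Pool.Agent.Lib.PenroseSph.pd_mul m hA hN, Pool.Agent.Lib.PenroseSph.pd_mul m hB hN2,
    Pool.Agent.Lib.PenroseSph.pd_mul m hP hDD, Pool.Agent.Lib.PenroseSph.pd_mul m (hD i) (hD j),
    Pool.Agent.Lib.PenroseSph.pd_sub m (f := fun _ => if i = j then (1 : ℝ) else 0) (g := fun y => y i / ‖y‖ * (y j / ‖y‖)) hc hN,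
    Pool.Agent.Lib.PenroseSph.pd_mul m n1 n3, n2, n4]
  have h0 : pd m (fun _ : E3 => (if i = j then (1 : ℝ) else 0)) x = 0 := by
    unfold pd
    rw [fderiv_const_apply]
    rfl
  rw [h0]
  ring


open Pool.Agent.Lib.PenroseSph in
/-- derivative of the tangential factor -/
theorem f3_B {r : ℝ × ℝ → ℝ} {f : E3 → ℝ} {x : E3} (hx : x ≠ 0) (hr : DifferentiableAt ℝ r (qq f x))
    (hf : DifferentiableAt ℝ f x) (m : Fin 3) :
    DifferentiableAt ℝ (fun y => (r (qq f y) / ‖y‖) ^ 2) x ∧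
    pd m (fun y => (r (qq f y) / ‖y‖) ^ 2) x = 2 * (r (qq f x) / ‖x‖) *
      ((fderiv ℝ r (qq f x) (1, 0) * pd m f x + fderiv ℝ r (qq f x) (0, 1) * (x m / ‖x‖)) / ‖x‖
        - r (qq f x) * (x m / ‖x‖) / ‖x‖ ^ 2) := by
  have hn : ‖x‖ ≠ 0 := norm_ne_zero_iff.2 hx
  have hd : DifferentiableAt ℝ (fun t : ℝ => t⁻¹) ‖x‖ := differentiableAt_inv hn
  have h1 : HasFDerivAt (fun y => qq f y) ((fderiv ℝ f x).prod (‖x‖⁻¹ • innerSL ℝ x)) x :=
    hf.hasFDerivAt.prodMk (hasFDerivAt_norm' hx)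
  have h2 : HasFDerivAt (fun y => r (qq f y)) ((fderiv ℝ r (qq f x)).comp ((fderiv ℝ f x).prod (‖x‖⁻¹ • innerSL ℝ x))) x :=
    hr.hasFDerivAt.comp x h1
  have h3 : pd m (fun y => r (qq f y)) x =
      fderiv ℝ r (qq f x) (1, 0) * pd m f x + fderiv ℝ r (qq f x) (0, 1) * (x m / ‖x‖) := by
    have e : ((pd m f x, x m / ‖x‖) : ℝ × ℝ) = pd m f x • (1, 0) + (x m / ‖x‖) • (0, 1) := by
      ext <;> simp
    have e2 : ((fderiv ℝ f x).prod (‖x‖⁻¹ • innerSL ℝ x)) (EuclideanSpace.single m 1) = (pd m f x, x m / ‖x‖) := by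
      refine Prod.ext rfl ?_
      show ‖x‖⁻¹ • (innerSL ℝ x) (EuclideanSpace.single m 1) = x m / ‖x‖
      simp [EuclideanSpace.inner_single_right]
      ring
    have e3 : pd m (fun y => r (qq f y)) x = fderiv ℝ r (qq f x) (pd m f x, x m / ‖x‖) := by
      rw [← e2]
      unfold pd
      rw [h2.fderiv]
      rfl
    rw [e3, e, map_add, map_smul, map_smul, smul_eq_mul, smul_eq_mul]
    ring
  have h4 : DifferentiableAt ℝ (fun y => r (qq f y)) x := h2.differentiableAt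
  have h5 : DifferentiableAt ℝ (fun y : E3 => (fun t : ℝ => t⁻¹) ‖y‖) x := diff_radial (F := fun t : ℝ => t⁻¹) hx hd
  have h6 : DifferentiableAt ℝ (fun y => r (qq f y) * (fun t : ℝ => t⁻¹) ‖y‖) x := h4.mul h5
  have e : (fun y => (r (qq f y) / ‖y‖) ^ 2) =
      fun y => (r (qq f y) * (fun t : ℝ => t⁻¹) ‖y‖) * (r (qq f y) * (fun t : ℝ => t⁻¹) ‖y‖) := by
    funext y
    rw [div_eq_mul_inv, sq]
  rw [e]
  refine ⟨h6.mul h6, ?_⟩
  rw [pd_mul m h6 h6, pd_mul m h4 h5, pd_radial (F := fun t : ℝ => t⁻¹) hx hd, deriv_inv, h3]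
  field_simp
  ring

theorem f3_sum {f : Fin 3 → ℝ} {b : ℝ} (h : ∀ i, |f i| ≤ b) : |∑ i, f i| ≤ 3 * b := by
  calc |∑ i, f i| ≤ ∑ i, |f i| := Finset.abs_sum_le_sum_abs _ _
    _ ≤ ∑ _i : Fin 3, b := Finset.sum_le_sum fun i _ => h i
    _ = 3 * b := by simp

/-- a bound for the error term -/
theorem f3_err {u dP D : Fin 3 → ℝ} {H : Fin 3 → Fin 3 → ℝ} {P p d h w : ℝ} (hu : ∀ i, |u i| ≤ 1) (hp : ∀ i, |dP i| ≤ p)
    (hD : ∀ i, |D i| ≤ d) (hH : ∀ i j, |H i j| ≤ h) (hP : |P| ≤ w) :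
    |∑ i, ∑ j, (dP j * (D i * D j) + P * (H j i * D j + D i * H j j)
        - (dP i * (D j * D j) + P * (H i j * D j + D j * H i j))) * u i| ≤ 9 * (2 * (p * d ^ 2) + 4 * (w * (h * d))) := by
  have hp0 : 0 ≤ p := (abs_nonneg _).trans (hp 0)
  have hd0 : 0 ≤ d := (abs_nonneg _).trans (hD 0)
  have hh0 : 0 ≤ h := (abs_nonneg _).trans (hH 0 0)
  have hw0 : 0 ≤ w := (abs_nonneg _).trans hP
  have a1 : ∀ i j l, |dP i * (D j * D l)| ≤ p * d ^ 2 := by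
    intro i j l
    rw [abs_mul, abs_mul, sq]
    exact mul_le_mul (hp i) (mul_le_mul (hD j) (hD l) (abs_nonneg _) hd0) (by positivity) hp0
  have a2 : ∀ i j l, |H i j * D l| ≤ h * d := by
    intro i j l
    rw [abs_mul]
    exact mul_le_mul (hH i j) (hD l) (abs_nonneg _) hh0
  have a3 : ∀ i j l i' j' l', |P * (H i j * D l + D l' * H i' j')| ≤ 2 * (w * (h * d)) := by
    intro i j l i' j' l'
    rw [abs_mul]
    have b1 := a2 i j l
    have b2 := a2 i' j' l'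
    rw [mul_comm (H i' j')] at b2
    have b3 := abs_add_le (H i j * D l) (D l' * H i' j')
    calc |P| * |H i j * D l + D l' * H i' j'| ≤ w * (h * d + h * d) :=
          mul_le_mul hP (by linarith) (abs_nonneg _) hw0
      _ = 2 * (w * (h * d)) := by ring
  have key : |∑ i, ∑ j, (dP j * (D i * D j) + P * (H j i * D j + D i * H j j)
        - (dP i * (D j * D j) + P * (H i j * D j + D j * H i j))) * u i| ≤
      3 * (3 * (2 * (p * d ^ 2) + 4 * (w * (h * d)))) := by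
    refine f3_sum fun i => f3_sum fun j => ?_
    rw [abs_mul]
    have c1 := a1 j i j
    have c2 := a1 i j j
    have c3 := a3 j i j j j i
    have c4 := a3 i j j i j j
    have c5 : |dP j * (D i * D j) + P * (H j i * D j + D i * H j j)
        - (dP i * (D j * D j) + P * (H i j * D j + D j * H i j))| ≤ 2 * (p * d ^ 2) + 4 * (w * (h * d)) := by
      have d1 := abs_sub (dP j * (D i * D j) + P * (H j i * D j + D i * H j j))
        (dP i * (D j * D j) + P * (H i j * D j + D j * H i j))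
      have d2 := abs_add_le (dP j * (D i * D j)) (P * (H j i * D j + D i * H j j))
      have d3 := abs_add_le (dP i * (D j * D j)) (P * (H i j * D j + D j * H i j))
      linarith
    calc _ ≤ (2 * (p * d ^ 2) + 4 * (w * (h * d))) * 1 := mul_le_mul c5 (hu i) (abs_nonneg _) (by positivity)
      _ = _ := mul_one _
  linarith


/-- the final estimate -/
theorem f3_fin {ρ C A r0 rT rR E : ℝ} {u D : Fin 3 → ℝ} (hρ : 1 ≤ ρ) (hC : 0 ≤ C) (hu : ∀ i, |u i| ≤ 1)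
    (hu2 : u 0 ^ 2 + u 1 ^ 2 + u 2 ^ 2 = 1) (hr : |r0 - ρ| ≤ C) (hrT : |rT| ≤ C / ρ) (hrR : |rR - 1| ≤ C / ρ)
    (hD : ∀ i, |D i| ≤ C / ρ)
    (hE : |E| ≤ 9 * (2 * ((C ^ 2 + C) / ρ ^ 2 * (C / ρ) ^ 2) + 4 * ((1 + C) * (C / ρ ^ 2 * (C / ρ))))) :
    |ρ ^ 2 * (2 * (A - (r0 / ρ) ^ 2) / ρ
        - 2 * (2 * (r0 / ρ) * ((rT * D 0 + rR * u 0) / ρ - r0 * u 0 / ρ ^ 2) * u 0
          + 2 * (r0 / ρ) * ((rT * D 1 + rR * u 1) / ρ - r0 * u 1 / ρ ^ 2) * u 1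
          + 2 * (r0 / ρ) * ((rT * D 2 + rR * u 2) / ρ - r0 * u 2 / ρ ^ 2) * u 2) - E)
      - (2 * ρ * (A - 1) - 4 * ρ * (rR - 1))| ≤
      (4 * C ^ 2 + 2 * C ^ 2 + 12 * ((1 + C) * C ^ 2) + 9 * (2 * ((C ^ 2 + C) * C ^ 2) + 4 * ((1 + C) * (C * C)))) / ρ := by
  have hρ0 : 0 < ρ := by linarith
  have hρn := hρ0.ne'
  have e : ρ ^ 2 * (2 * (A - (r0 / ρ) ^ 2) / ρ
        - 2 * (2 * (r0 / ρ) * ((rT * D 0 + rR * u 0) / ρ - r0 * u 0 / ρ ^ 2) * u 0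
          + 2 * (r0 / ρ) * ((rT * D 1 + rR * u 1) / ρ - r0 * u 1 / ρ ^ 2) * u 1
          + 2 * (r0 / ρ) * ((rT * D 2 + rR * u 2) / ρ - r0 * u 2 / ρ ^ 2) * u 2) - E)
      - (2 * ρ * (A - 1) - 4 * ρ * (rR - 1))
      = -4 * ((r0 - ρ) * (rR - 1)) + 2 * ((r0 - ρ) ^ 2 / ρ) - 4 * (r0 * (rT * ∑ i, D i * u i)) - ρ ^ 2 * E := by
    have e1 : ∑ i, D i * u i = D 0 * u 0 + D 1 * u 1 + D 2 * u 2 := Fin.sum_univ_three _
    rw [e1]
    have e2 : ρ ^ 2 * (2 * (A - (r0 / ρ) ^ 2) / ρ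
        - 2 * (2 * (r0 / ρ) * ((rT * D 0 + rR * u 0) / ρ - r0 * u 0 / ρ ^ 2) * u 0
          + 2 * (r0 / ρ) * ((rT * D 1 + rR * u 1) / ρ - r0 * u 1 / ρ ^ 2) * u 1
          + 2 * (r0 / ρ) * ((rT * D 2 + rR * u 2) / ρ - r0 * u 2 / ρ ^ 2) * u 2) - E)
        = 2 * ρ * A - 2 * r0 ^ 2 / ρ - 4 * r0 * (rT * (D 0 * u 0 + D 1 * u 1 + D 2 * u 2))
          - 4 * r0 * rR * (u 0 ^ 2 + u 1 ^ 2 + u 2 ^ 2) + 4 * r0 ^ 2 / ρ * (u 0 ^ 2 + u 1 ^ 2 + u 2 ^ 2) - ρ ^ 2 * E := by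
      field_simp
      ring
    rw [e2, hu2]
    field_simp
    ring
  rw [e]
  have b1 : |-4 * ((r0 - ρ) * (rR - 1))| ≤ 4 * C ^ 2 / ρ := by
    rw [abs_mul, abs_mul]
    have h1 : |r0 - ρ| * |rR - 1| ≤ C * (C / ρ) := mul_le_mul hr hrR (abs_nonneg _) hC
    have h2 : |(-4 : ℝ)| = 4 := by norm_num
    rw [h2]
    calc 4 * (|r0 - ρ| * |rR - 1|) ≤ 4 * (C * (C / ρ)) := by linarith
      _ = 4 * C ^ 2 / ρ := by ring
  have b2 : |2 * ((r0 - ρ) ^ 2 / ρ)| ≤ 2 * C ^ 2 / ρ := by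
    rw [abs_mul, abs_div, abs_of_pos hρ0, abs_pow]
    have h1 : |r0 - ρ| ^ 2 ≤ C ^ 2 := pow_le_pow_left₀ (abs_nonneg _) hr 2
    have h2 : |(2 : ℝ)| = 2 := by norm_num
    rw [h2]
    have h3 : |r0 - ρ| ^ 2 / ρ ≤ C ^ 2 / ρ := div_le_div_of_nonneg_right h1 hρ0.le
    calc 2 * (|r0 - ρ| ^ 2 / ρ) ≤ 2 * (C ^ 2 / ρ) := by linarith
      _ = 2 * C ^ 2 / ρ := by ring
  have b3 : |4 * (r0 * (rT * ∑ i, D i * u i))| ≤ 12 * ((1 + C) * C ^ 2) / ρ := by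
    rw [abs_mul, abs_mul, abs_mul]
    have h0 : |(4 : ℝ)| = 4 := by norm_num
    have h1 : |r0| ≤ (1 + C) * ρ := by
      have h := abs_add_le (r0 - ρ) ρ
      rw [sub_add_cancel, abs_of_pos hρ0] at h
      nlinarith
    have h2 : |∑ i, D i * u i| ≤ 3 * (C / ρ) := f3_sum fun i => by
      rw [abs_mul]
      calc |D i| * |u i| ≤ C / ρ * 1 := mul_le_mul (hD i) (hu i) (abs_nonneg _) (by positivity)
        _ = C / ρ := mul_one _
    have h3 : |rT| * |∑ i, D i * u i| ≤ C / ρ * (3 * (C / ρ)) := mul_le_mul hrT h2 (abs_nonneg _) (by positivity)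
    have h4 : |r0| * (|rT| * |∑ i, D i * u i|) ≤ (1 + C) * ρ * (C / ρ * (3 * (C / ρ))) :=
      mul_le_mul h1 h3 (by positivity) (by positivity)
    rw [h0]
    calc 4 * (|r0| * (|rT| * |∑ i, D i * u i|)) ≤ 4 * ((1 + C) * ρ * (C / ρ * (3 * (C / ρ)))) := by linarith
      _ = 12 * ((1 + C) * C ^ 2) / ρ := by
        field_simp
        ring
  have b4 : |ρ ^ 2 * E| ≤ 9 * (2 * ((C ^ 2 + C) * C ^ 2) + 4 * ((1 + C) * (C * C))) / ρ := by
    rw [abs_mul, abs_pow, abs_of_pos hρ0]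
    have h1 : ρ ^ 2 * |E| ≤ ρ ^ 2 * (9 * (2 * ((C ^ 2 + C) / ρ ^ 2 * (C / ρ) ^ 2) + 4 * ((1 + C) * (C / ρ ^ 2 * (C / ρ))))) :=
      mul_le_mul_of_nonneg_left hE (by positivity)
    have h2 : (C ^ 2 + C) / ρ ^ 2 * (C / ρ) ^ 2 ≤ (C ^ 2 + C) * C ^ 2 / ρ ^ 3 := by
      have h3 : (C ^ 2 + C) / ρ ^ 2 * (C / ρ) ^ 2 = (C ^ 2 + C) * C ^ 2 / ρ ^ 3 / ρ := by
        field_simp
      rw [h3]
      exact div_le_self (by positivity) hρ
    have h4 : ρ ^ 2 * (9 * (2 * ((C ^ 2 + C) * C ^ 2 / ρ ^ 3) + 4 * ((1 + C) * (C / ρ ^ 2 * (C / ρ))))) =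
        9 * (2 * ((C ^ 2 + C) * C ^ 2) + 4 * ((1 + C) * (C * C))) / ρ := by
      field_simp
    have h5 : ρ ^ 2 * (9 * (2 * ((C ^ 2 + C) / ρ ^ 2 * (C / ρ) ^ 2) + 4 * ((1 + C) * (C / ρ ^ 2 * (C / ρ))))) ≤
        ρ ^ 2 * (9 * (2 * ((C ^ 2 + C) * C ^ 2 / ρ ^ 3) + 4 * ((1 + C) * (C / ρ ^ 2 * (C / ρ))))) := by
      refine mul_le_mul_of_nonneg_left ?_ (by positivity)
      linarith
    linarith
  have t1 := abs_sub (-4 * ((r0 - ρ) * (rR - 1)) + 2 * ((r0 - ρ) ^ 2 / ρ) - 4 * (r0 * (rT * ∑ i, D i * u i))) (ρ ^ 2 * E)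
  have t2 := abs_sub (-4 * ((r0 - ρ) * (rR - 1)) + 2 * ((r0 - ρ) ^ 2 / ρ)) (4 * (r0 * (rT * ∑ i, D i * u i)))
  have t3 := abs_add_le (-4 * ((r0 - ρ) * (rR - 1))) (2 * ((r0 - ρ) ^ 2 / ρ))
  have t4 : (4 * C ^ 2 + 2 * C ^ 2 + 12 * ((1 + C) * C ^ 2) + 9 * (2 * ((C ^ 2 + C) * C ^ 2) + 4 * ((1 + C) * (C * C)))) / ρ
      = 4 * C ^ 2 / ρ + 2 * C ^ 2 / ρ + 12 * ((1 + C) * C ^ 2) / ρ
        + 9 * (2 * ((C ^ 2 + C) * C ^ 2) + 4 * ((1 + C) * (C * C))) / ρ := by ring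
  linarith

theorem flux_exp {F : E4 → ℝ} {k : ℝ → ℝ} {r : ℝ × ℝ → ℝ} {f : E3 → ℝ} (hS : Slice F k r f) {C R : ℝ}
    (hB : BD F k r f C R) :
    ∃ C' : ℝ, ∀ x : E3, R ≤ ‖x‖ →
      |‖x‖ ^ 2 * fluxDensity (slice (stMetric F k r) f) x
        - (2 * ‖x‖ * (F (pt (f x) x) * k ‖x‖ ^ 2 - 1) - 4 * ‖x‖ * (fderiv ℝ r (qq f x) (0, 1) - 1))| ≤ C' / ‖x‖ := by
  have hC0 := hB.C_nonneg
  refine ⟨4 * C ^ 2 + 2 * C ^ 2 + 12 * ((1 + C) * C ^ 2) + 9 * (2 * ((C ^ 2 + C) * C ^ 2) + 4 * ((1 + C) * (C * C))),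
    fun x hx => ?_⟩
  have hρ1 : 1 ≤ ‖x‖ := hB.R_pos.trans hx
  have hρ : 0 < ‖x‖ := by linarith
  have hx0 : x ≠ 0 := norm_pos_iff.1 hρ
  have hq : qq f x ∈ QQ f := ⟨x, hx0, rfl⟩
  obtain ⟨n, hn⟩ : ∃ n : S2, ‖x‖ • (n : E3) = x := by
    refine ⟨⟨‖x‖⁻¹ • x, ?_⟩, ?_⟩
    · rw [mem_sphere_zero_iff_norm, norm_smul, norm_inv, norm_norm, inv_mul_cancel₀ hρ.ne']
    · show ‖x‖ • (‖x‖⁻¹ • x) = x
      rw [smul_smul, mul_inv_cancel₀ hρ.ne', one_smul]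
  have hev : ev (qq f x) n = pt (f x) x := by
    show pt (f x) (‖x‖ • (n : E3)) = pt (f x) x
    rw [hn]
  have e2 : (qq f x).2 = ‖x‖ := rfl
  have hF := hB.F0 (qq f x) hq hx n
  have hF1 := hB.F1 (qq f x) hq hx n
  have hr := hB.r0 (qq f x) hq hx
  have hrT := hB.rT (qq f x) hq hx
  have hrR := hB.rR (qq f x) hq hx
  have hf1 := hB.f1 x hx
  have hf2 := hB.f2 x hx
  rw [hev, e2] at hF hF1
  rw [e2] at hr hrT hrR
  have hN := mem_near (f := f) hx0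
  have hfs := hS.f_smooth x hx0
  have hFs : ContDiffAt ℝ ∞ F (pt (f x) x) := hS.F_smooth _ hN
  have hrs : ContDiffAt ℝ ∞ r (qq f x) := by
    have h := hS.r_smooth _ hN
    rwa [pos_pt, pt_zero] at h
  have hks : ContDiffAt ℝ ∞ k ‖x‖ := hS.k_smooth _ hρ
  have hfd : DifferentiableAt ℝ f x := hfs.differentiableAt (by simp)
  have hFd : DifferentiableAt ℝ F (pt (f x) x) := hFs.differentiableAt (by simp)
  have hP : DifferentiableAt ℝ (fun y => F (pt (f y) y)) x :=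
    DifferentiableAt.comp x (g := F) (f := fun y => pt (f y) y) hFd (t4b_io_diff hfd)
  have hk2 : DifferentiableAt ℝ (fun y : E3 => k ‖y‖ ^ 2) x :=
    (Pool.Agent.Lib.PenroseSph.diff_radial (F := k) hx0 (hks.differentiableAt (by simp))).pow 2
  have hA : DifferentiableAt ℝ (fun y => F (pt (f y) y) * k ‖y‖ ^ 2) x := hP.mul hk2
  have hBB := fun m => f3_B (r := r) hx0 (hrs.differentiableAt (by simp)) hfd m
  have hD : ∀ i, DifferentiableAt ℝ (pd i f) x := fun i => t4b_pd_diff hfs i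
  obtain ⟨hu1, hu2⟩ : (∀ i, |x i / ‖x‖| ≤ 1) ∧ (x 0 / ‖x‖) ^ 2 + (x 1 / ‖x‖) ^ 2 + (x 2 / ‖x‖) ^ 2 = 1 := by
    refine ⟨fun i => ?_, by have h := t0_unit hx0; linarith⟩
    rw [abs_div, abs_of_pos hρ, div_le_one hρ]
    have h := PiLp.norm_apply_le x i
    rwa [Real.norm_eq_abs] at h
  have hpd : ∀ i j m, pd m (fun y => slice (stMetric F k r) f y i j) x = pd m (fun y =>
        F (pt (f y) y) * k ‖y‖ ^ 2 * (y i / ‖y‖ * (y j / ‖y‖)) + (r (qq f y) / ‖y‖) ^ 2 *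
          ((if i = j then 1 else 0) - y i / ‖y‖ * (y j / ‖y‖)) - F (pt (f y) y) * (pd i f y * pd j f y)) x := fun i j m => by
    have e : (fun y => slice (stMetric F k r) f y i j) = fun y =>
        F (pt (f y) y) * k ‖y‖ ^ 2 * (y i / ‖y‖ * (y j / ‖y‖)) + (r (qq f y) / ‖y‖) ^ 2 *
          ((if i = j then 1 else 0) - y i / ‖y‖ * (y j / ‖y‖)) - F (pt (f y) y) * (pd i f y * pd j f y) :=
      funext fun y => slice_eq F k r f y i j
    rw [e]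
  have hpd2 := f3_pd (A := fun y => F (pt (f y) y) * k ‖y‖ ^ 2) (B := fun y => (r (qq f y) / ‖y‖) ^ 2)
      (P := fun y => F (pt (f y) y)) (D := fun i => pd i f) hx0 hA (hBB 0).1 hP hD
  have hdP : ∀ i, |pd i (fun y => F (pt (f y) y)) x| ≤ (C ^ 2 + C) / ‖x‖ ^ 2 := by
    intro i
    rw [t4b_chain hFd hfd i, Fin.sum_univ_succ, Finset.sum_eq_single i]
    · have h1 : H31R.pd i.succ F (pt (f x) x) * tang f x i i.succ = H31R.pd i.succ F (pt (f x) x) := by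
        simp [tang]
      have h2 : H31R.pd 0 F (pt (f x) x) * tang f x i 0 = H31R.pd 0 F (pt (f x) x) * pd i f x := rfl
      rw [h1, h2]
      have h3 : |H31R.pd 0 F (pt (f x) x) * pd i f x| ≤ C ^ 2 / ‖x‖ ^ 2 := by
        rw [abs_mul]
        calc |H31R.pd 0 F (pt (f x) x)| * |pd i f x| ≤ C / ‖x‖ ^ 2 * (C / ‖x‖) :=
              mul_le_mul (hF1 0) (hf1 i) (abs_nonneg _) (by positivity)
          _ ≤ C / ‖x‖ ^ 2 * C := by
              refine mul_le_mul_of_nonneg_left ?_ (by positivity)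
              exact div_le_self hC0 hρ1
          _ = C ^ 2 / ‖x‖ ^ 2 := by ring
      have h4 := hF1 i.succ
      have h5 := abs_add_le (H31R.pd 0 F (pt (f x) x) * pd i f x) (H31R.pd i.succ F (pt (f x) x))
      have h6 : (C ^ 2 + C) / ‖x‖ ^ 2 = C ^ 2 / ‖x‖ ^ 2 + C / ‖x‖ ^ 2 := by ring
      linarith
    · intro b _ hb
      simp [tang, hb]
    · simp
  have hPb : |F (pt (f x) x)| ≤ 1 + C := by
    have h1 := abs_add_le (F (pt (f x) x) - 1) 1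
    rw [sub_add_cancel, abs_one] at h1
    have h2 : C / ‖x‖ ≤ C := div_le_self hC0 hρ1
    linarith
  have hfl : fluxDensity (slice (stMetric F k r) f) x = 2 * (F (pt (f x) x) * k ‖x‖ ^ 2 - (r (qq f x) / ‖x‖) ^ 2) / ‖x‖
      - 2 * (pd 0 (fun y => (r (qq f y) / ‖y‖) ^ 2) x * (x 0 / ‖x‖) + pd 1 (fun y => (r (qq f y) / ‖y‖) ^ 2) x * (x 1 / ‖x‖)
        + pd 2 (fun y => (r (qq f y) / ‖y‖) ^ 2) x * (x 2 / ‖x‖))
      - ∑ i, ∑ j, (pd j (fun y => F (pt (f y) y)) x * (pd i f x * pd j f x)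
          + F (pt (f x) x) * (pd j (pd i f) x * pd j f x + pd i f x * pd j (pd j f) x)
        - (pd i (fun y => F (pt (f y) y)) x * (pd j f x * pd j f x)
          + F (pt (f x) x) * (pd i (pd j f) x * pd j f x + pd j f x * pd i (pd j f) x))) * (x i / ‖x‖) := by
    rw [← f3_alg (fun i => x i / ‖x‖) (fun i => pd i (fun y => F (pt (f y) y) * k ‖y‖ ^ 2) x)
      (fun i => pd i (fun y => (r (qq f y) / ‖y‖) ^ 2) x) (fun i => pd i (fun y => F (pt (f y) y)) x) (fun i => pd i f x)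
      (fun i j => pd i (pd j f) x) (F (pt (f x) x) * k ‖x‖ ^ 2) ((r (qq f x) / ‖x‖) ^ 2) (F (pt (f x) x)) ‖x‖ hu2]
    unfold fluxDensity
    refine Finset.sum_congr rfl fun i _ => Finset.sum_congr rfl fun j _ => ?_
    rw [hpd i j j, hpd j j i, hpd2 i j j, hpd2 j j i]
  have herr := f3_err hu1 hdP hf1 hf2 hPb
  rw [hfl, (hBB 0).2, (hBB 1).2, (hBB 2).2]
  clear hfl hpd hpd2 hBB hdP hPb hA hk2 hP hD hFd hfd hks hFs hfs
  generalize (∑ i, ∑ j, (pd j (fun y => F (pt (f y) y)) x * (pd i f x * pd j f x)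
          + F (pt (f x) x) * (pd j (pd i f) x * pd j f x + pd i f x * pd j (pd j f) x)
        - (pd i (fun y => F (pt (f y) y)) x * (pd j f x * pd j f x)
          + F (pt (f x) x) * (pd i (pd j f) x * pd j f x + pd j f x * pd i (pd j f) x))) * (x i / ‖x‖)) = E at herr ⊢
  exact f3_fin (u := fun i => x i / ‖x‖) (D := fun i => pd i f x) hρ1 hC0 hu1 hu2 hr hrT hrR hf1 herr

end H17T
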