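import Pool.Agent.Lib.H17T.C3

set_option autoImplicit false

/-!
# H17T, chunk M1 (M): derivative of the mean of `1/F`

Differentiation under the integral sign over the compact sphere. Let `q ∈ QQ f`. Since `F` is `C¹` near the compact set
`{ev q n | n : S2}` and positive on it, there is a ball around `q` on which `(q', n) ↦ F (ev q' n)` is `C¹` and bounded below
(tube lemma); `hasFDerivAt_integral_of_dominated_of_fderiv_le`, or two one-dimensional statements as in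
`Pool.Agent.Lib.PenroseSph.hasDerivAt_int`. Note that `ev` is a continuous (bilinear plus linear) function of `(q, n)`.
-/

open MeasureTheory Filter Topology Set
open scoped ContDiff

namespace H17T

open Pool.Agent.Lib.PenroseSph (E3 Tens S2 sm)

/-- The function `F ∘ ev` of both variables. -/
noncomputable def m1G (F : E4 → ℝ) (z : (ℝ × ℝ) × E3) : ℝ := F (ev z.1 z.2)

theorem m1_ev : ContDiff ℝ ∞ fun z : (ℝ × ℝ) × E3 => ev z.1 z.2 := by
  have hx : ∀ j : Fin 3, ContDiff ℝ ∞ fun z : (ℝ × ℝ) × E3 => z.1.2 * z.2 j := by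
    intro j
    have h1 : ContDiff ℝ ∞ fun z : (ℝ × ℝ) × E3 => (EuclideanSpace.proj (j : Fin 3) : E3 →L[ℝ] ℝ) z.2 :=
      (EuclideanSpace.proj (j : Fin 3) : E3 →L[ℝ] ℝ).contDiff.comp contDiff_snd
    exact (contDiff_snd.comp contDiff_fst).mul h1
  rw [contDiff_euclidean]
  intro i
  fin_cases i
  · exact contDiff_fst.comp contDiff_fst
  · exact hx 0
  · exact hx 1
  · exact hx 2

theorem m1_smooth {F : E4 → ℝ} {q : ℝ × ℝ} (hF : ∀ n : S2, ContDiffAt ℝ ∞ F (ev q n)) (n : S2) :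
    ContDiffAt ℝ ∞ (m1G F) (q, (n : E3)) :=
  ContDiffAt.comp (g := F) (f := fun z : (ℝ × ℝ) × E3 => ev z.1 z.2) (q, (n : E3)) (hF n) m1_ev.contDiffAt

theorem m1_partial {G : (ℝ × ℝ) × E3 → ℝ} {q : ℝ × ℝ} {x : E3} (h : DifferentiableAt ℝ G (q, x)) :
    HasFDerivAt (fun q' => G (q', x)) ((fderiv ℝ G (q, x)).comp (ContinuousLinearMap.inl ℝ (ℝ × ℝ) E3)) q := by
  have h1 : HasFDerivAt (fun q' : ℝ × ℝ => (q', x)) (ContinuousLinearMap.inl ℝ (ℝ × ℝ) E3) q :=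
    hasFDerivAt_prodMk_left q x
  exact HasFDerivAt.comp q (g := G) h.hasFDerivAt h1

theorem m1_inv {F : E4 → ℝ} {q : ℝ × ℝ} (hF : ∀ n : S2, ContDiffAt ℝ ∞ F (ev q n))
    (hF0 : ∀ n : S2, 0 < F (ev q n)) (n : S2) : ContDiffAt ℝ ∞ (fun z => (m1G F z)⁻¹) (q, (n : E3)) :=
  (m1_smooth hF n).inv (hF0 n).ne'

/-- The derivatives of `1/F` are bounded near the sphere. -/
theorem m1_bound {G : (ℝ × ℝ) × E3 → ℝ} {q : ℝ × ℝ} (hG : ∀ n : S2, ContDiffAt ℝ ∞ G (q, (n : E3))) :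
    ∃ ε C : ℝ, 0 < ε ∧ ∀ q' ∈ Metric.ball q ε, ∀ n : S2, DifferentiableAt ℝ G (q', (n : E3)) ∧
      ‖fderiv ℝ G (q', (n : E3))‖ ≤ C := by
  set V : Set ((ℝ × ℝ) × E3) := {z | ContDiffAt ℝ 1 G z} with hV
  have hVo : IsOpen V := by
    rw [isOpen_iff_eventually]
    intro z hz
    have hz' : ContDiffAt ℝ 1 G z := hz
    exact hz'.eventually (by norm_num)
  have hsub : ({q} : Set (ℝ × ℝ)) ×ˢ (Metric.sphere (0 : E3) 1) ⊆ V := by
    rintro ⟨a, b⟩ ⟨ha, hb⟩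
    have ha' : a = q := ha
    subst ha'
    have h1 : ContDiffAt ℝ 1 G (a, b) := (hG ⟨b, hb⟩).of_le
      (show ((1 : ℕ∞) : WithTop ℕ∞) ≤ ((⊤ : ℕ∞) : WithTop ℕ∞) from WithTop.coe_le_coe.mpr le_top)
    exact h1
  obtain ⟨u, v, hu, hv, hqu, hSv, huv⟩ := generalized_tube_lemma (isCompact_singleton) (isCompact_sphere (0 : E3) 1) hVo hsub
  obtain ⟨ε, hε, hball⟩ := Metric.isOpen_iff.mp hu q (hqu rfl)
  have hcomp : IsCompact (Metric.closedBall q (ε / 2) ×ˢ Metric.sphere (0 : E3) 1) :=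
    (isCompact_closedBall q (ε / 2)).prod (isCompact_sphere (0 : E3) 1)
  have hsub2 : Metric.closedBall q (ε / 2) ×ˢ Metric.sphere (0 : E3) 1 ⊆ V := by
    rintro ⟨a, b⟩ ⟨ha, hb⟩
    apply huv
    refine ⟨hball ?_, hSv hb⟩
    exact Metric.closedBall_subset_ball (by linarith) ha
  have hcont : ContinuousOn (fderiv ℝ G) (Metric.closedBall q (ε / 2) ×ˢ Metric.sphere (0 : E3) 1) := by
    intro z hz
    have h1 : ContDiffAt ℝ 1 G z := hsub2 hz
    have h2 : ContDiffAt ℝ 0 (fderiv ℝ G) z := h1.fderiv_right (m := 0) (by simp)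
    exact h2.continuousAt.continuousWithinAt
  obtain ⟨C, hC⟩ := hcomp.exists_bound_of_continuousOn hcont
  refine ⟨ε / 2, C, by positivity, fun q' hq' n => ?_⟩
  have hz : (q', (n : E3)) ∈ Metric.closedBall q (ε / 2) ×ˢ Metric.sphere (0 : E3) 1 :=
    ⟨Metric.ball_subset_closedBall hq', n.2⟩
  have h1 : ContDiffAt ℝ 1 G (q', (n : E3)) := hsub2 hz
  exact ⟨h1.differentiableAt (by simp), hC _ hz⟩

theorem m1_cont {G : (ℝ × ℝ) × E3 → ℝ} {q : ℝ × ℝ} (hG : ∀ n : S2, ContDiffAt ℝ ∞ G (q, (n : E3))) :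
    (Continuous fun n : S2 => G (q, (n : E3))) ∧ Continuous fun n : S2 => fderiv ℝ G (q, (n : E3)) := by
  have hi : Continuous fun n : S2 => ((q, (n : E3)) : (ℝ × ℝ) × E3) := continuous_const.prodMk continuous_subtype_val
  constructor
  · rw [continuous_iff_continuousAt]
    intro n
    exact ContinuousAt.comp (g := G) (hG n).continuousAt hi.continuousAt
  · rw [continuous_iff_continuousAt]
    intro n
    have h2 : ContDiffAt ℝ 0 (fderiv ℝ G) (q, (n : E3)) := (hG n).fderiv_right (m := 0) (by simp)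
    exact ContinuousAt.comp (g := fderiv ℝ G) h2.continuousAt hi.continuousAt

/-- The derivative of the inverse. -/
theorem m1_fd {F : E4 → ℝ} {q : ℝ × ℝ} (hF : ∀ n : S2, ContDiffAt ℝ ∞ F (ev q n))
    (hF0 : ∀ n : S2, 0 < F (ev q n)) (n : S2) (v : ℝ × ℝ) :
    fderiv ℝ (fun z => (m1G F z)⁻¹) (q, (n : E3)) (v, 0)
      = -(fderiv ℝ (fun q => F (ev q n)) q v / F (ev q n) ^ 2) := by
  have h1 : DifferentiableAt ℝ (m1G F) (q, (n : E3)) := (m1_smooth hF n).differentiableAt (by simp)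
  have h2 : HasFDerivAt (fun z => (m1G F z)⁻¹)
      ((-((m1G F (q, (n : E3))) ^ 2)⁻¹) • fderiv ℝ (m1G F) (q, (n : E3))) (q, (n : E3)) :=
    (hasDerivAt_inv (hF0 n).ne').comp_hasFDerivAt (q, (n : E3)) h1.hasFDerivAt
  have h3 : fderiv ℝ (fun q => F (ev q n)) q = (fderiv ℝ (m1G F) (q, (n : E3))).comp (ContinuousLinearMap.inl ℝ (ℝ × ℝ) E3) :=
    (m1_partial h1).fderiv
  rw [h2.fderiv, h3]
  simp [m1G]
  ring

theorem mF_deriv {F : E4 → ℝ} {q : ℝ × ℝ} (hF : ∀ n : S2, ContDiffAt ℝ ∞ F (ev q n))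
    (hF0 : ∀ n : S2, 0 < F (ev q n)) :
    DifferentiableAt ℝ (mF F) q ∧ ∀ v : ℝ × ℝ, fderiv ℝ (mF F) q v
      = -((4 * Real.pi)⁻¹ * ∫ n : S2, fderiv ℝ (fun q => F (ev q n)) q v / F (ev q n) ^ 2 ∂sm) := by
  obtain ⟨ε, C, hε, hC⟩ := m1_bound (m1_inv hF hF0)
  obtain ⟨hc1, hc2⟩ := m1_cont (m1_inv hF hF0)
  have hmeas : ∀ q' ∈ Metric.ball q ε, Continuous fun n : S2 => (m1G F (q', (n : E3)))⁻¹ := by
    intro q' hq'
    rw [continuous_iff_continuousAt]
    intro n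
    have hi : Continuous fun n : S2 => ((q', (n : E3)) : (ℝ × ℝ) × E3) := continuous_const.prodMk continuous_subtype_val
    exact ContinuousAt.comp (g := fun z => (m1G F z)⁻¹) (hC q' hq' n).1.continuousAt hi.continuousAt
  have key : HasFDerivAt (fun q' => ∫ n : S2, (m1G F (q', (n : E3)))⁻¹ ∂sm)
      (∫ n : S2, (fderiv ℝ (fun z => (m1G F z)⁻¹) (q, (n : E3))).comp (ContinuousLinearMap.inl ℝ (ℝ × ℝ) E3) ∂sm) q := by
    apply hasFDerivAt_integral_of_dominated_of_fderiv_le (μ := sm)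
      (F := fun (q' : ℝ × ℝ) (n : S2) => (m1G F (q', (n : E3)))⁻¹)
      (F' := fun (q' : ℝ × ℝ) (n : S2) => (fderiv ℝ (fun z => (m1G F z)⁻¹) (q', (n : E3))).comp
        (ContinuousLinearMap.inl ℝ (ℝ × ℝ) E3))
      (bound := fun _ => C * ‖ContinuousLinearMap.inl ℝ (ℝ × ℝ) E3‖) (Metric.ball_mem_nhds q hε)
    · filter_upwards [Metric.ball_mem_nhds q hε] with q' hq'
      exact (hmeas q' hq').aestronglyMeasurable
    · exact Pool.Agent.Lib.PenroseSph.integrable_S2 hc1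
    · exact ((ContinuousLinearMap.compL ℝ (ℝ × ℝ) ((ℝ × ℝ) × E3) ℝ).flip
        (ContinuousLinearMap.inl ℝ (ℝ × ℝ) E3)).continuous.comp hc2 |>.aestronglyMeasurable
    · refine Filter.Eventually.of_forall fun n q' hq' => ?_
      exact (ContinuousLinearMap.opNorm_comp_le _ _).trans
        (mul_le_mul_of_nonneg_right (hC q' hq' n).2 (norm_nonneg _))
    · exact integrable_const _
    · refine Filter.Eventually.of_forall fun n q' hq' => ?_
      exact m1_partial (G := fun z => (m1G F z)⁻¹) (hC q' hq' n).1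
  have hint : Integrable (fun n : S2 => (fderiv ℝ (fun z => (m1G F z)⁻¹) (q, (n : E3))).comp
      (ContinuousLinearMap.inl ℝ (ℝ × ℝ) E3)) sm := by
    refine Integrable.mono' (integrable_const (C * ‖ContinuousLinearMap.inl ℝ (ℝ × ℝ) E3‖)) ?_ ?_
    · exact ((ContinuousLinearMap.compL ℝ (ℝ × ℝ) ((ℝ × ℝ) × E3) ℝ).flip
        (ContinuousLinearMap.inl ℝ (ℝ × ℝ) E3)).continuous.comp hc2 |>.aestronglyMeasurable
    · refine Filter.Eventually.of_forall fun n => ?_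
      exact (ContinuousLinearMap.opNorm_comp_le _ _).trans
        (mul_le_mul_of_nonneg_right (hC q (Metric.mem_ball_self hε) n).2 (norm_nonneg _))
  have e1 : mF F = fun q' => (4 * Real.pi)⁻¹ * ∫ n : S2, (m1G F (q', (n : E3)))⁻¹ ∂sm := rfl
  have key2 := key.const_mul ((4 * Real.pi)⁻¹)
  rw [← e1] at key2
  refine ⟨key2.differentiableAt, fun v => ?_⟩
  rw [key2.fderiv]
  have e2 : ((4 * Real.pi)⁻¹ • ∫ n : S2, (fderiv ℝ (fun z => (m1G F z)⁻¹) (q, (n : E3))).comp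
      (ContinuousLinearMap.inl ℝ (ℝ × ℝ) E3) ∂sm) v
      = (4 * Real.pi)⁻¹ * ∫ n : S2, fderiv ℝ (fun z => (m1G F z)⁻¹) (q, (n : E3)) (v, 0) ∂sm := by
    rw [_root_.smul_apply, ContinuousLinearMap.integral_apply hint]
    rfl
  rw [e2]
  simp_rw [m1_fd hF hF0]
  rw [integral_neg]
  ring

/-- The integrands are continuous. -/
theorem mF_cont {F : E4 → ℝ} {q : ℝ × ℝ} (hF : ∀ n : S2, ContDiffAt ℝ ∞ F (ev q n))
    (hF0 : ∀ n : S2, 0 < F (ev q n)) (v : ℝ × ℝ) :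
    (Continuous fun n : S2 => fderiv ℝ (fun q => F (ev q n)) q v / F (ev q n) ^ 2) ∧
      Continuous fun n : S2 => (F (ev q n))⁻¹ := by
  obtain ⟨hc1, hc2⟩ := m1_cont (m1_inv hF hF0)
  refine ⟨?_, hc1⟩
  have h : (fun n : S2 => fderiv ℝ (fun q => F (ev q n)) q v / F (ev q n) ^ 2)
      = fun n : S2 => -(fderiv ℝ (fun z => (m1G F z)⁻¹) (q, (n : E3)) (v, 0)) := by
    funext n
    rw [m1_fd hF hF0, neg_neg]
  rw [h]
  exact (hc2.clm_apply continuous_const).neg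

end H17T
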