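import Pool.Agent.Lib.H17T.FB
import Pool.Agent.Lib.H17T.C3
import Pool.Agent.Lib.H17T.M1

set_option autoImplicit false

/-!
# H17T, chunk F4 (M): expansion of the mass

`q ∈ QQ f`, `ρ = q.2 ≥ R`. `4 Da r Db r = r_ρ²/k² - r_T²`. `mass q = (r/2)(1 - (r_ρ²/k² - r_T²) <1/F>)`. For each `n`: with
`a = F (ev q n) k²`, `1/F = k²/a`, `1/a = 1 - (a - 1) + O(1/ρ²)`, so `(r_ρ²/k²)(1/F) = r_ρ²/a = 1 + 2 (r_ρ - 1) - (a - 1) + O(1/ρ²)`,
`r_T² = O(1/ρ²)`, `r = ρ + O(1)`. Hence `mass q = (4π)⁻¹ ∫ (1/2)(ρ (a - 1) - 2 ρ (r_ρ - 1)) + O(1/ρ)`. Increase `R` to `R'` so that `F`, `k ≥ 1/2`.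
(Integrability: the integrands are continuous, `mF_cont`, `sm univ = 4π`: `Pool.Agent.Lib.PenroseSph.sm_univ`.)
-/

open MeasureTheory Filter Topology Set
open scoped ContDiff

namespace H17T

open Pool.Agent.Lib.PenroseSph (E3 Tens S2 sm pd)

theorem f4_pw {t r ρ F k rT rR : ℝ} (ht0 : 0 ≤ t) (ht : 14 * t ≤ 1) (hρ : 0 < ρ) (hF : |F - 1| ≤ t) (hk : |k - 1| ≤ t)
    (hr : |r - ρ| ≤ t * ρ) (hT : |rT| ≤ t) (hR : |rR - 1| ≤ t) :
    |r / 2 * (1 - 4 * (rT / 2 + rR / (2 * k)) * (-(rT / 2) + rR / (2 * k)) * F⁻¹) -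
      1 / 2 * (ρ * (F * k ^ 2 - 1) - 2 * ρ * (rR - 1))| ≤ 76 * (t ^ 2 * ρ) := by
  have hF1 := abs_le.1 hF
  have hk1 := abs_le.1 hk
  have hF2 : 1 / 2 ≤ F := by linarith [hF1.1]
  have hF0 : 0 < F := by linarith
  have hk0 : 0 < k := by linarith [hk1.1]
  have hF3 : |F| ≤ 2 := by rw [abs_of_pos hF0]; linarith [hF1.2]
  have hk3 : |k + 1| ≤ 3 := by
    rw [abs_le]
    constructor <;> linarith [hk1.1, hk1.2]
  have he : |F * k ^ 2 - 1| ≤ 7 * t := by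
    have e1 : F * k ^ 2 - 1 = F * ((k - 1) * (k + 1)) + (F - 1) := by ring
    rw [e1]
    calc |F * ((k - 1) * (k + 1)) + (F - 1)| ≤ |F * ((k - 1) * (k + 1))| + |F - 1| := abs_add_le _ _
      _ ≤ 2 * (t * 3) + t := by
        rw [abs_mul, abs_mul]
        have : |F| * (|k - 1| * |k + 1|) ≤ 2 * (t * 3) :=
          mul_le_mul hF3 (mul_le_mul hk hk3 (abs_nonneg _) ht0) (by positivity) (by norm_num)
        linarith
      _ = 7 * t := by ring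
  obtain ⟨a, ha⟩ : ∃ a, a = F * k ^ 2 := ⟨_, rfl⟩
  have ha0 : 0 < a := by rw [ha]; positivity
  have ha2 : 1 / 2 ≤ a := by
    rw [← ha] at he
    linarith [(abs_le.1 he).1]
  have hai : a⁻¹ ≤ 2 := by
    rw [inv_le_comm₀ ha0 (by norm_num)]
    linarith
  have hFi : F⁻¹ ≤ 2 := by
    rw [inv_le_comm₀ hF0 (by norm_num)]
    linarith
  have hai0 : 0 < a⁻¹ := inv_pos.2 ha0
  have hFi0 : 0 < F⁻¹ := inv_pos.2 hF0
  have hrr : |r| ≤ 2 * ρ := by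
    have h1 := abs_add_le (r - ρ) ρ
    rw [sub_add_cancel, abs_of_pos hρ] at h1
    nlinarith
  have hed : |(a - 1) - 2 * (rR - 1)| ≤ 9 * t := by
    rw [← ha] at he
    have h1 := abs_sub (a - 1) (2 * (rR - 1))
    rw [abs_mul 2, abs_of_pos (by norm_num : (0 : ℝ) < 2)] at h1
    linarith
  have e2 : r / 2 * (1 - 4 * (rT / 2 + rR / (2 * k)) * (-(rT / 2) + rR / (2 * k)) * F⁻¹) -
      1 / 2 * (ρ * (F * k ^ 2 - 1) - 2 * ρ * (rR - 1)) =
      (r - ρ) / 2 * ((a - 1) - 2 * (rR - 1)) * a⁻¹ - ρ / 2 * ((a - 1) - 2 * (rR - 1)) * ((a - 1) * a⁻¹)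
        - r / 2 * (rR - 1) ^ 2 * a⁻¹ + r / 2 * rT ^ 2 * F⁻¹ := by
    rw [ha]
    field_simp
    ring
  rw [e2]
  have b1 : |(r - ρ) / 2 * ((a - 1) - 2 * (rR - 1)) * a⁻¹| ≤ 9 * (t ^ 2 * ρ) := by
    rw [abs_mul, abs_mul, abs_div, abs_of_pos hai0, abs_of_pos (by norm_num : (0 : ℝ) < 2)]
    calc |r - ρ| / 2 * |(a - 1) - 2 * (rR - 1)| * a⁻¹ ≤ t * ρ / 2 * (9 * t) * 2 := by
          refine mul_le_mul (mul_le_mul (by linarith) hed (abs_nonneg _) (by positivity)) hai hai0.le (by positivity)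
      _ = 9 * (t ^ 2 * ρ) := by ring
  have b2 : |ρ / 2 * ((a - 1) - 2 * (rR - 1)) * ((a - 1) * a⁻¹)| ≤ 63 * (t ^ 2 * ρ) := by
    rw [← ha] at he
    rw [abs_mul, abs_mul, abs_mul (a - 1), abs_of_pos hai0, abs_of_pos (by positivity : (0 : ℝ) < ρ / 2)]
    calc ρ / 2 * |(a - 1) - 2 * (rR - 1)| * (|a - 1| * a⁻¹) ≤ ρ / 2 * (9 * t) * (7 * t * 2) := by
          refine mul_le_mul (mul_le_mul_of_nonneg_left hed (by positivity)) (mul_le_mul he hai hai0.le (by positivity))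
            (by positivity) (by positivity)
      _ = 63 * (t ^ 2 * ρ) := by ring
  have b3 : |r / 2 * (rR - 1) ^ 2 * a⁻¹| ≤ 2 * (t ^ 2 * ρ) := by
    rw [abs_mul, abs_mul, abs_div, abs_pow, abs_of_pos hai0, abs_of_pos (by norm_num : (0 : ℝ) < 2)]
    calc |r| / 2 * |rR - 1| ^ 2 * a⁻¹ ≤ 2 * ρ / 2 * t ^ 2 * 2 := by
          refine mul_le_mul (mul_le_mul (by linarith) (pow_le_pow_left₀ (abs_nonneg _) hR 2) (by positivity) (by positivity))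
            hai hai0.le (by positivity)
      _ = 2 * (t ^ 2 * ρ) := by ring
  have b4 : |r / 2 * rT ^ 2 * F⁻¹| ≤ 2 * (t ^ 2 * ρ) := by
    rw [abs_mul, abs_mul, abs_div, abs_pow, abs_of_pos hFi0, abs_of_pos (by norm_num : (0 : ℝ) < 2)]
    calc |r| / 2 * |rT| ^ 2 * F⁻¹ ≤ 2 * ρ / 2 * t ^ 2 * 2 := by
          refine mul_le_mul (mul_le_mul (by linarith) (pow_le_pow_left₀ (abs_nonneg _) hT 2) (by positivity) (by positivity))
            hFi hFi0.le (by positivity)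
      _ = 2 * (t ^ 2 * ρ) := by ring
  have c1 := abs_le.1 b1
  have c2 := abs_le.1 b2
  have c3 := abs_le.1 b3
  have c4 := abs_le.1 b4
  rw [abs_le]
  constructor
  · linarith [c1.1, c2.2, c3.2, c4.1]
  · linarith [c1.2, c2.1, c3.1, c4.2]

theorem f4_D {r : ℝ × ℝ → ℝ} {q : ℝ × ℝ} (a b : ℝ) :
    fderiv ℝ r q (a, b) = a * fderiv ℝ r q (1, 0) + b * fderiv ℝ r q (0, 1) := by
  have e4 : ((a, b) : ℝ × ℝ) = a • ((1, 0) : ℝ × ℝ) + b • ((0, 1) : ℝ × ℝ) := by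
    refine Prod.ext ?_ ?_
    · show a = a * 1 + b * 0
      ring
    · show b = a * 0 + b * 1
      ring
  rw [e4, map_add, map_smul, map_smul, smul_eq_mul, smul_eq_mul]

theorem mass_exp {F : E4 → ℝ} {k : ℝ → ℝ} {r : ℝ × ℝ → ℝ} {f : E3 → ℝ} (hS : Slice F k r f) {C R : ℝ}
    (hB : BD F k r f C R) :
    ∃ C' R' : ℝ, R ≤ R' ∧ ∀ q ∈ QQ f, R' ≤ q.2 →
      |mass F k r q - (4 * Real.pi)⁻¹ * ∫ n : S2,
        1 / 2 * (q.2 * (F (ev q n) * k q.2 ^ 2 - 1) - 2 * q.2 * (fderiv ℝ r q (0, 1) - 1)) ∂sm| ≤ C' / q.2 := by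
  have hC0 := hB.C_nonneg
  refine ⟨76 * C ^ 2, max R (14 * C), le_max_left _ _, fun q hq hqR => ?_⟩
  have h1 : R ≤ q.2 := (le_max_left _ _).trans hqR
  have h2 : 14 * C ≤ q.2 := (le_max_right _ _).trans hqR
  have hρ : 0 < q.2 := by linarith [hB.R_pos]
  obtain ⟨t, ht⟩ : ∃ t, t = C / q.2 := ⟨_, rfl⟩
  have ht0 : 0 ≤ t := by rw [ht]; positivity
  have ht1 : 14 * t ≤ 1 := by
    rw [ht, ← mul_div_assoc, div_le_one hρ]
    exact h2
  have htρ : C = t * q.2 := by rw [ht, div_mul_cancel₀ _ hρ.ne']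
  have hFs : ∀ n : S2, ContDiffAt ℝ ∞ F (ev q n) := fun n => hS.F_smooth _ (ev_near hq n).1
  have hFp : ∀ n : S2, 0 < F (ev q n) := fun n => hS.F_pos _ (ev_near hq n).1
  have hci := (mF_cont hFs hFp (0, 0)).2
  have hcF : Continuous fun n : S2 => F (ev q n) := by
    have a1 : Continuous fun n : S2 => ((F (ev q n))⁻¹)⁻¹ := hci.inv₀ (fun n => (inv_pos.2 (hFp n)).ne')
    simpa only [inv_inv] using a1
  obtain ⟨g1, hg1⟩ : ∃ g1 : S2 → ℝ, g1 = fun n : S2 => r q / 2 * (1 - 4 * (fderiv ℝ r q (1, 0) / 2 +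
      fderiv ℝ r q (0, 1) / (2 * k q.2)) * (-(fderiv ℝ r q (1, 0) / 2) + fderiv ℝ r q (0, 1) / (2 * k q.2)) *
      (F (ev q n))⁻¹) := ⟨_, rfl⟩
  obtain ⟨g2, hg2⟩ : ∃ g2 : S2 → ℝ, g2 = fun n : S2 =>
      1 / 2 * (q.2 * (F (ev q n) * k q.2 ^ 2 - 1) - 2 * q.2 * (fderiv ℝ r q (0, 1) - 1)) := ⟨_, rfl⟩
  have c1 : Continuous g1 := by
    rw [hg1]
    exact continuous_const.mul (continuous_const.sub (continuous_const.mul hci))
  have c2 : Continuous g2 := by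
    rw [hg2]
    exact continuous_const.mul ((continuous_const.mul ((hcF.mul continuous_const).sub continuous_const)).sub
      continuous_const)
  have hmass : mass F k r q = (4 * Real.pi)⁻¹ * ∫ n : S2, g1 n ∂sm := by
    have i1 : Integrable (fun n : S2 => (F (ev q n))⁻¹) sm := Pool.Agent.Lib.PenroseSph.integrable_S2 hci
    have e1 : ∀ n : S2, g1 n = r q / 2 - r q / 2 * (4 * (fderiv ℝ r q (1, 0) / 2 +
      fderiv ℝ r q (0, 1) / (2 * k q.2)) * (-(fderiv ℝ r q (1, 0) / 2) + fderiv ℝ r q (0, 1) / (2 * k q.2))) *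
      (F (ev q n))⁻¹ := by
      intro n
      rw [hg1]
      ring
    simp only [e1]
    rw [integral_sub (integrable_const _) (i1.const_mul _), integral_const, integral_const_mul, smul_eq_mul,
      Pool.Agent.Lib.PenroseSph.sm_univ]
    unfold mass mF Da Db
    rw [f4_D, f4_D (r := r) (q := q) (-(1 / 2))]
    have hpi : Real.pi ≠ 0 := Real.pi_ne_zero
    field_simp
  have hb : ∀ n : S2, ‖g1 n - g2 n‖ ≤ 76 * C ^ 2 / q.2 := by
    intro n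
    rw [Real.norm_eq_abs, hg1, hg2]
    have a1 := f4_pw (t := t) (r := r q) (ρ := q.2) (F := F (ev q n)) (k := k q.2) (rT := fderiv ℝ r q (1, 0))
      (rR := fderiv ℝ r q (0, 1)) ht0 ht1 hρ (by rw [ht]; exact hB.F0 q hq h1 n) (by rw [ht]; exact hB.k0 _ h1)
      (by rw [← htρ]; exact hB.r0 q hq h1) (by rw [ht]; exact hB.rT q hq h1) (by rw [ht]; exact hB.rR q hq h1)
    refine a1.trans (le_of_eq ?_)
    rw [htρ]
    field_simp
  have hint := norm_integral_le_of_norm_le_const (μ := sm) (Filter.Eventually.of_forall hb)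
  rw [Pool.Agent.Lib.PenroseSph.sm_univ] at hint
  have i1 : Integrable g1 sm := Pool.Agent.Lib.PenroseSph.integrable_S2 c1
  have i2 : Integrable g2 sm := Pool.Agent.Lib.PenroseSph.integrable_S2 c2
  rw [integral_sub i1 i2] at hint
  have e3 : mass F k r q - (4 * Real.pi)⁻¹ * ∫ n : S2,
        1 / 2 * (q.2 * (F (ev q n) * k q.2 ^ 2 - 1) - 2 * q.2 * (fderiv ℝ r q (0, 1) - 1)) ∂sm =
      (4 * Real.pi)⁻¹ * ((∫ n : S2, g1 n ∂sm) - ∫ n : S2, g2 n ∂sm) := by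
    rw [hmass, hg2]
    ring
  rw [e3, abs_mul, abs_of_pos (by positivity : (0 : ℝ) < (4 * Real.pi)⁻¹)]
  calc (4 * Real.pi)⁻¹ * |(∫ n : S2, g1 n ∂sm) - ∫ n : S2, g2 n ∂sm|
      ≤ (4 * Real.pi)⁻¹ * (76 * C ^ 2 / q.2 * (4 * Real.pi)) := mul_le_mul_of_nonneg_left hint (by positivity)
    _ = 76 * C ^ 2 / q.2 := by
        have hpi : Real.pi ≠ 0 := Real.pi_ne_zero
        field_simp

end H17T
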