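import Pool.Agent.Lib.H17T.F1
import Pool.Agent.Lib.H17T.F2
import Pool.Agent.Lib.H17T.F3
import Pool.Agent.Lib.H17T.F4

set_option autoImplicit false

/-!
# H17T, chunk F5 (M): the mass tends to the ADM energy

For `s ≥ R'`, `q = qq f (s • n)`: `admFlux g s = (1/(16π)) ∫ s² fluxDensity g (s • m)`; by `flux_exp` the integrand is
`2 s (F (ev (qq f (s • m)) m) k² - 1) - 4 s (r_ρ (qq f (s • m)) - 1) + O(1/s)` (`pt (f x) x = ev (qq f x) (x/‖x‖)`), and by `times` one
may replace `qq f (s • m)` by `q` with an error `O(1/s)`. Compare with `mass_exp`. So `|admFlux g s - mass (qq f (s • n))| ≤ C''/s`.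
(Continuity of the integrands: `dens_cont`; `F (ev q m)` is continuous in `m`.)
-/

open MeasureTheory Filter Topology Set
open scoped ContDiff

namespace H17T

open Pool.Agent.Lib.PenroseSph (E3 Tens S2 sm pd admFlux)

theorem mass_lim {F : E4 → ℝ} {k : ℝ → ℝ} {r : ℝ × ℝ → ℝ} {f : E3 → ℝ} (hS : Slice F k r f) {C R : ℝ}
    (hB : BD F k r f C R) {E : ℝ} (hE : Tendsto (admFlux (slice (stMetric F k r) f)) atTop (𝓝 E)) (n : S2) :
    Tendsto (fun s : ℝ => mass F k r (qq f (s • (n : E3)))) atTop (𝓝 E) := by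
  obtain ⟨C1, hC1⟩ := flux_exp hS hB
  obtain ⟨C2, hC2⟩ := times hS hB
  obtain ⟨C3, R', hR', hC3⟩ := mass_exp hS hB
  set g := slice (stMetric F k r) f with hg
  have hR1 := hB.R_pos
  have hn1 : ∀ m : S2, ‖(m : E3)‖ = 1 := fun m => by simp
  -- the estimate
  have key : ∀ s : ℝ, R' ≤ s → |admFlux g s - mass F k r (qq f (s • (n : E3)))|
      ≤ (C1 + (2 * C2 * (1 + C) ^ 2 + 4 * C2) + C3) / s := by
    intro s hs
    have hRs : R ≤ s := hR'.trans hs
    have hs1 : 1 ≤ s := hR1.trans hRs
    have hs0 : 0 < s := by linarith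
    have hnm : ∀ m : S2, ‖s • (m : E3)‖ = s := fun m => f1_norm m hs0
    have hne : ∀ m : S2, s • (m : E3) ≠ 0 := fun m => f1_ne m hs0
    set q := qq f (s • (n : E3)) with hq
    have hq2 : q.2 = s := hnm n
    have hqQ : q ∈ QQ f := ⟨_, hne n, rfl⟩
    have hk : |k s| ≤ 1 + C := by
      have h1 := abs_le.1 (hB.k0 s hRs)
      have h2 : C / s ≤ C := div_le_self hB.C_nonneg hs1
      rw [abs_le]
      constructor <;> linarith [h1.1, h1.2, hB.C_nonneg]
    have hk2 : k s ^ 2 ≤ (1 + C) ^ 2 := by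
      rw [← sq_abs]
      exact pow_le_pow_left₀ (abs_nonneg _) hk 2
    have hFs : ∀ m : S2, ContDiffAt ℝ ∞ F (ev q m) := fun m => hS.F_smooth _ (ev_near hqQ m).1
    have hcF : Continuous fun m : S2 => F (ev q m) := by
      rw [continuous_iff_continuousAt]
      intro m
      have h1 : Continuous fun m : S2 => ((q, (m : E3)) : (ℝ × ℝ) × E3) :=
        continuous_const.prodMk continuous_subtype_val
      exact ContinuousAt.comp (g := m1G F) (f := fun m : S2 => ((q, (m : E3)) : (ℝ × ℝ) × E3)) (x := m)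
        (m1_smooth hFs m).continuousAt h1.continuousAt
    set A : S2 → ℝ := fun m => s ^ 2 * Pool.Agent.Lib.PenroseSph.fluxDensity g (s • (m : E3)) with hA
    set D : S2 → ℝ := fun m => 2 * s * (F (ev q m) * k s ^ 2 - 1) - 4 * s * (fderiv ℝ r q (0, 1) - 1) with hD
    have hcA : Continuous A := by
      rw [continuous_iff_continuousAt]
      intro m
      have h0 : Continuous (fun m : S2 => s • (m : E3)) := by fun_prop
      have h1 := (dens_cont hS (hne m) 0).1
      exact continuousAt_const.mul (ContinuousAt.comp (f := fun m : S2 => s • (m : E3)) h1 h0.continuousAt)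
    have hcD : Continuous D :=
      (continuous_const.mul ((hcF.mul continuous_const).sub continuous_const)).sub continuous_const
    have hAD : ∀ m, ‖A m - D m‖ ≤ (C1 + (2 * C2 * (1 + C) ^ 2 + 4 * C2)) / s := by
      intro m
      have h1 := hC1 (s • (m : E3)) (by rw [hnm]; exact hRs)
      rw [hnm] at h1
      have h2 := hC2 (s • (m : E3)) (s • (n : E3)) (by rw [hnm]; exact hRs) (by rw [hnm, hnm])
      rw [hnm] at h2
      have h3 := h2.1 m
      have h4 := h2.2.1
      have hev : ev (qq f (s • (m : E3))) m = pt (f (s • (m : E3))) (s • (m : E3)) := by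
        unfold ev qq
        simp only
        rw [hnm]
      rw [hev] at h3
      set P := F (pt (f (s • (m : E3))) (s • (m : E3))) with hP
      have e1 : A m - D m = (A m - (2 * s * (P * k s ^ 2 - 1) - 4 * s * (fderiv ℝ r (qq f (s • (m : E3))) (0, 1) - 1)))
          + (2 * s * k s ^ 2 * (P - F (ev q m))
            - 4 * s * (fderiv ℝ r (qq f (s • (m : E3))) (0, 1) - fderiv ℝ r q (0, 1))) := by
        simp only [hD]
        ring
      rw [Real.norm_eq_abs, e1]
      refine (abs_add_le _ _).trans ?_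
      rw [add_div]
      refine add_le_add h1 ?_
      refine (abs_sub _ _).trans ?_
      rw [add_div]
      refine add_le_add ?_ ?_
      · rw [abs_mul, abs_of_nonneg (by positivity : 0 ≤ 2 * s * k s ^ 2)]
        have h5 : 0 ≤ C2 / s ^ 2 := (abs_nonneg _).trans h3
        calc 2 * s * k s ^ 2 * |P - F (ev q m)| ≤ 2 * s * (1 + C) ^ 2 * (C2 / s ^ 2) := by
              apply mul_le_mul _ h3 (abs_nonneg _) (by positivity)
              exact mul_le_mul_of_nonneg_left hk2 (by positivity)
          _ = 2 * C2 * (1 + C) ^ 2 / s := by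
              field_simp
      · rw [abs_mul, abs_of_nonneg (by positivity : 0 ≤ 4 * s)]
        calc 4 * s * |fderiv ℝ r (qq f (s • (m : E3))) (0, 1) - fderiv ℝ r q (0, 1)| ≤ 4 * s * (C2 / s ^ 2) :=
              mul_le_mul_of_nonneg_left h4 (by positivity)
          _ = 4 * C2 / s := by
              field_simp
    have hIA : Integrable A sm := Pool.Agent.Lib.PenroseSph.integrable_S2 hcA
    have hID : Integrable D sm := Pool.Agent.Lib.PenroseSph.integrable_S2 hcD
    have hint : |∫ m, A m ∂sm - ∫ m, D m ∂sm| ≤ (C1 + (2 * C2 * (1 + C) ^ 2 + 4 * C2)) / s * (4 * Real.pi) := by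
      rw [← integral_sub hIA hID, ← Real.norm_eq_abs, ← Pool.Agent.Lib.PenroseSph.sm_univ]
      exact norm_integral_le_of_norm_le_const (Filter.Eventually.of_forall hAD)
    have hmass := hC3 q hqQ (by rw [hq2]; exact hs)
    rw [hq2] at hmass
    have hD4 : (4 * Real.pi)⁻¹ * ∫ m : S2, 1 / 2 * (s * (F (ev q m) * k s ^ 2 - 1) - 2 * s * (fderiv ℝ r q (0, 1) - 1)) ∂sm
        = (1 / (16 * Real.pi)) * ∫ m, D m ∂sm := by
      have h1 : ∀ m : S2, 1 / 2 * (s * (F (ev q m) * k s ^ 2 - 1) - 2 * s * (fderiv ℝ r q (0, 1) - 1)) = 1 / 4 * D m := by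
        intro m
        simp only [hD]
        ring
      simp only [h1]
      rw [integral_const_mul]
      have := Real.pi_pos.ne'
      field_simp
      ring
    rw [hD4] at hmass
    have hfl : admFlux g s = (1 / (16 * Real.pi)) * ∫ m, A m ∂sm := rfl
    rw [hfl]
    have e2 : (1 / (16 * Real.pi)) * ∫ m, A m ∂sm - mass F k r q
        = (1 / (16 * Real.pi)) * (∫ m, A m ∂sm - ∫ m, D m ∂sm)
          - (mass F k r q - (1 / (16 * Real.pi)) * ∫ m, D m ∂sm) := by ring
    rw [e2]
    refine (abs_sub _ _).trans ?_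
    rw [add_div]
    refine add_le_add ?_ hmass
    rw [abs_mul, abs_of_nonneg (by positivity : 0 ≤ 1 / (16 * Real.pi))]
    have hpi := Real.pi_pos
    calc 1 / (16 * Real.pi) * |∫ m, A m ∂sm - ∫ m, D m ∂sm|
        ≤ 1 / (16 * Real.pi) * ((C1 + (2 * C2 * (1 + C) ^ 2 + 4 * C2)) / s * (4 * Real.pi)) :=
          mul_le_mul_of_nonneg_left hint (by positivity)
      _ = 1 / 4 * ((C1 + (2 * C2 * (1 + C) ^ 2 + 4 * C2)) / s) := by
          field_simp
          ring
      _ ≤ (C1 + (2 * C2 * (1 + C) ^ 2 + 4 * C2)) / s := by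
          have : 0 ≤ (C1 + (2 * C2 * (1 + C) ^ 2 + 4 * C2)) / s := (norm_nonneg _).trans (hAD n)
          linarith
  have hdiff : Tendsto (fun s : ℝ => admFlux g s - mass F k r (qq f (s • (n : E3)))) atTop (𝓝 0) := by
    refine squeeze_zero_norm' (a := fun s => (C1 + (2 * C2 * (1 + C) ^ 2 + 4 * C2) + C3) / s) ?_ ?_
    · filter_upwards [eventually_ge_atTop R'] with s hs
      rw [Real.norm_eq_abs]
      exact key s hs
    · exact tendsto_const_nhds.div_atTop tendsto_id
  have hfin := hE.sub hdiff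
  rw [sub_zero] at hfin
  refine hfin.congr fun s => ?_
  ring

theorem ends {F : E4 → ℝ} {k : ℝ → ℝ} {r : ℝ × ℝ → ℝ} {f : E3 → ℝ} (hS : Slice F k r f)
    (hA : AsympFlat F k r f) {E : ℝ} (hE : Tendsto (admFlux (slice (stMetric F k r) f)) atTop (𝓝 E)) :
    Ends F k r f E := by
  obtain ⟨C, R, hB⟩ := bounds hS hA
  exact ⟨ends_pos hS hB, ends_grow hS hB, mass_lim hS hB hE⟩

end H17T
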