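import Pool.Agent.Lib.H17T.F0
import Pool.Agent.Lib.H17T.FB
import Pool.Agent.Lib.H17T.T4B
import Pool.Agent.Lib.H17T.F3

set_option autoImplicit false

/-!
# H17T, chunk F6 (M/L): expansion of the second fundamental form

At `P = pt (f x) x`, `ρ = ‖x‖ ≥ R'`, all with constants depending only on the bounds `BD`:
(a) `|G_ab - η_ab| ≤ C'/ρ`, `|(G⁻¹)_ab - η_ab| ≤ C'/ρ` (`stInv`), `|∂_c G_ab| ≤ C'/ρ²` at `P` (`η = diag(-1,1,1,1)`; the entries are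
`F k² x̂ x̂ + (r/ρ)² (δ - x̂ x̂)`, `∂ x̂ = O(1/ρ)` multiplied by `F k² - (r/ρ)² = O(1/ρ)`). So `|Γ^c_ab| ≤ C'/ρ²`.
(b) `second = (f_ij + Σ Γ^c_ab τ_c e_i^a e_j^b)/√(-T)`; `-T = 1 + O(1/ρ)`; the terms with `c ≥ 1` (`τ_c = -f_c = O(1/ρ)`) or with `a = 0` or `b = 0`
(`e_i^0 = f_i = O(1/ρ)`) are `O(1/ρ³)`; the remaining one is `Γ^0_{i+1,j+1} = (1/(2F)) ∂_T G_{i+1,j+1}`, and
`∂_T G_{i+1,j+1} = F_T k² x̂_i x̂_j + 2 (r r_T/ρ²)(δ_ij - x̂_i x̂_j)`, so up to `O(1/ρ³)` it is `(1/2) F_T x̂_i x̂_j + (r_T/ρ) (δ_ij - x̂_i x̂_j)`.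
-/

open MeasureTheory Filter Topology Set
open scoped ContDiff

namespace H17T

open Pool.Agent.Lib.PenroseSph (E3 Tens S2 sm pd)

theorem f6_pt (x : E3) (t : ℝ) : HasDerivAt (fun t : ℝ => pt t x) (H31R.ebas 0 : E4) t := by
  have e : (fun t : ℝ => pt t x) = fun t => pt 0 x + t • (H31R.ebas 0 : E4) := by
    funext t
    ext a
    fin_cases a <;> simp [pt, H31R.ebas]
  rw [e]
  simpa using ((hasDerivAt_id t).smul_const (H31R.ebas 0 : E4)).const_add (pt 0 x)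

/-- the time derivative of the spatial entries -/
theorem f6_time {F : E4 → ℝ} {k : ℝ → ℝ} {r : ℝ × ℝ → ℝ} {T : ℝ} {x : E3}
    (hG : ∀ a b, DifferentiableAt ℝ (fun p => stMetric F k r p a b) (pt T x))
    (hF : DifferentiableAt ℝ F (pt T x)) (hr : DifferentiableAt ℝ r (T, ‖x‖)) (i j : Fin 3) :
    H31R.pd 0 (fun p => stMetric F k r p i.succ j.succ) (pt T x)
      = H31R.pd 0 F (pt T x) * k ‖x‖ ^ 2 * (x i / ‖x‖ * (x j / ‖x‖))
        + 2 * (r (T, ‖x‖) / ‖x‖) * (fderiv ℝ r (T, ‖x‖) (1, 0) / ‖x‖) * ((if i = j then 1 else 0) - x i / ‖x‖ * (x j / ‖x‖)) := by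
  have h1 : HasDerivAt (fun t => stMetric F k r (pt t x) i.succ j.succ)
      (H31R.pd 0 (fun p => stMetric F k r p i.succ j.succ) (pt T x)) T := by
    have h0 : HasFDerivAt (fun p => stMetric F k r p i.succ j.succ)
        (fderiv ℝ (fun p => stMetric F k r p i.succ j.succ) (pt T x)) (pt T x) := (hG i.succ j.succ).hasFDerivAt
    exact h0.comp_hasDerivAt T (f6_pt x T)
  have h2 : HasDerivAt (fun t => F (pt t x)) (H31R.pd 0 F (pt T x)) T :=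
    hF.hasFDerivAt.comp_hasDerivAt T (f6_pt x T)
  have h3 : HasDerivAt (fun t : ℝ => r (t, ‖x‖)) (fderiv ℝ r (T, ‖x‖) (1, 0)) T :=
    hr.hasFDerivAt.comp_hasDerivAt T ((hasDerivAt_id T).prodMk (hasDerivAt_const T ‖x‖))
  have e : (fun t => stMetric F k r (pt t x) i.succ j.succ) = fun t =>
      F (pt t x) * k ‖x‖ ^ 2 * (x i / ‖x‖ * (x j / ‖x‖)) +
        (r (t, ‖x‖) / ‖x‖) ^ 2 * ((if i = j then 1 else 0) - x i / ‖x‖ * (x j / ‖x‖)) := by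
    funext t
    simp only [stMetric, Matrix.of_apply, Fin.cases_succ, pos_pt, pt_zero]
  rw [e] at h1
  have h4 := (((h2.mul_const (k ‖x‖ ^ 2)).mul_const (x i / ‖x‖ * (x j / ‖x‖))).add
    (((h3.div_const ‖x‖).pow 2).mul_const ((if i = j then (1 : ℝ) else 0) - x i / ‖x‖ * (x j / ‖x‖))))
  rw [h1.unique h4]
  norm_num

theorem f6_chain {φ : E4 → ℝ} {T : ℝ} {x : E3} (h : DifferentiableAt ℝ φ (pt T x)) (m : Fin 3) :
    H31R.pd m.succ φ (pt T x) = pd m (fun y => φ (pt T y)) x := by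
  rw [t4b_chain (f := fun _ : E3 => T) h (differentiableAt_const T) m, Fin.sum_univ_succ,
    Finset.sum_eq_single m]
  · have h0 : tang (fun _ : E3 => T) x m 0 = 0 := by
      show pd m (fun _ : E3 => T) x = 0
      unfold pd
      rw [fderiv_const_apply]
      rfl
    have h1 : tang (fun _ : E3 => T) x m m.succ = 1 := by simp [tang]
    rw [h0, h1]
    ring
  · intro b _ hb
    simp [tang, hb]
  · simp

/-- the spatial derivatives of the spatial entries -/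
theorem f6_space {F : E4 → ℝ} {k : ℝ → ℝ} {r : ℝ × ℝ → ℝ} {T : ℝ} {x : E3} (hx : x ≠ 0)
    (hG : ∀ a b, DifferentiableAt ℝ (fun p => stMetric F k r p a b) (pt T x))
    (hF : DifferentiableAt ℝ F (pt T x)) (hk : DifferentiableAt ℝ k ‖x‖) (hr : DifferentiableAt ℝ r (T, ‖x‖)) (i j m : Fin 3) :
    H31R.pd m.succ (fun p => stMetric F k r p i.succ j.succ) (pt T x)
      = (H31R.pd m.succ F (pt T x) * k ‖x‖ ^ 2 + F (pt T x) * (2 * k ‖x‖ * (deriv k ‖x‖ * (x m / ‖x‖))))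
          * (x i / ‖x‖ * (x j / ‖x‖))
        + (F (pt T x) * k ‖x‖ ^ 2 - (r (T, ‖x‖) / ‖x‖) ^ 2)
          * (((if i = m then 1 else 0) - x i / ‖x‖ * (x m / ‖x‖)) / ‖x‖ * (x j / ‖x‖)
          + x i / ‖x‖ * (((if j = m then 1 else 0) - x j / ‖x‖ * (x m / ‖x‖)) / ‖x‖))
        + 2 * (r (T, ‖x‖) / ‖x‖) * ((fderiv ℝ r (T, ‖x‖) (0, 1) * (x m / ‖x‖)) / ‖x‖
          - r (T, ‖x‖) * (x m / ‖x‖) / ‖x‖ ^ 2) * ((if i = j then 1 else 0) - x i / ‖x‖ * (x j / ‖x‖)) := by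
  rw [f6_chain (hG i.succ j.succ) m]
  have hFy : DifferentiableAt ℝ (fun y => F (pt T y)) x :=
    DifferentiableAt.comp x (g := F) (f := fun y => pt T y) hF (t4b_io_diff (f := fun _ : E3 => T) (differentiableAt_const T))
  have hk1 : DifferentiableAt ℝ (fun y : E3 => k ‖y‖) x := Pool.Agent.Lib.PenroseSph.diff_radial (F := k) hx hk
  have hk2 : DifferentiableAt ℝ (fun y : E3 => k ‖y‖ * k ‖y‖) x := hk1.mul hk1
  have hB := fun m => f3_B (r := r) (f := fun _ : E3 => T) hx hr (differentiableAt_const T) m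
  have hc : ∀ m, pd m (fun _ : E3 => T) x = 0 := by
    intro m
    unfold pd
    rw [fderiv_const_apply]
    rfl
  have e : (fun y => stMetric F k r (pt T y) i.succ j.succ) = fun y =>
      (F (pt T y) * (k ‖y‖ * k ‖y‖)) * (y i / ‖y‖ * (y j / ‖y‖)) +
        (r (qq (fun _ => T) y) / ‖y‖) ^ 2 * ((if i = j then 1 else 0) - y i / ‖y‖ * (y j / ‖y‖)) - 0 * (0 * 0) := by
    funext y
    simp only [stMetric, Matrix.of_apply, Fin.cases_succ, pos_pt, pt_zero, qq]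
    ring
  have hpd := f3_pd (A := fun y => F (pt T y) * (k ‖y‖ * k ‖y‖)) (B := fun y => (r (qq (fun _ => T) y) / ‖y‖) ^ 2)
      (P := fun _ => 0) (D := fun _ _ => 0) hx (hFy.mul hk2) (hB 0).1 (differentiableAt_const 0)
      (fun _ => differentiableAt_const 0) i j m
  rw [e, hpd, (hB m).2, hc, Pool.Agent.Lib.PenroseSph.pd_mul m hFy hk2, Pool.Agent.Lib.PenroseSph.pd_mul m hk1 hk1,
    Pool.Agent.Lib.PenroseSph.pd_radial (F := k) hx hk, ← f6_chain hF m]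
  simp only [qq]
  ring


theorem f6_mul {a b α β : ℝ} (ha : |a| ≤ α) (hb : |b| ≤ β) : |a * b| ≤ α * β := by
  rw [abs_mul]
  exact mul_le_mul ha hb (abs_nonneg _) ((abs_nonneg _).trans ha)

theorem f6_add {a b α β : ℝ} (ha : |a| ≤ α) (hb : |b| ≤ β) : |a + b| ≤ α + β :=
  (abs_add_le a b).trans (add_le_add ha hb)

theorem f6_sub {a b α β : ℝ} (ha : |a| ≤ α) (hb : |b| ≤ β) : |a - b| ≤ α + β :=
  (abs_sub a b).trans (add_le_add ha hb)

theorem f6_two {a t : ℝ} (ht : t ≤ 1 / 100) (h : |a - 1| ≤ t) : |a| ≤ 2 ∧ |a ^ 2| ≤ 4 ∧ |a ^ 2 - 1| ≤ 3 * t ∧ 99 / 100 ≤ a := by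
  have h1 := abs_le.1 h
  have ht0 : 0 ≤ t := (abs_nonneg _).trans h
  have h2 : |a| ≤ 2 := by
    rw [abs_le]
    constructor <;> linarith [h1.1, h1.2]
  have h3 : |a + 1| ≤ 3 := by
    rw [abs_le]
    constructor <;> linarith [h1.1, h1.2]
  refine ⟨h2, ?_, ?_, by linarith [h1.1]⟩
  · rw [sq]
    exact (f6_mul h2 h2).trans (by norm_num)
  · have e : a ^ 2 - 1 = (a + 1) * (a - 1) := by ring
    rw [e]
    exact f6_mul h3 h

/-- bound for a time derivative -/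
theorem f6_b1 {t e k w F0 q uu d : ℝ} (ht : t ≤ 1 / 100) (he : 0 ≤ e) (hk : |k - 1| ≤ t) (hw : |w - 1| ≤ t) (hF0 : |F0| ≤ e)
    (hq : |q| ≤ e) (huu : |uu| ≤ 1) (hd : |d - uu| ≤ 2) : |F0 * k ^ 2 * uu + 2 * w * q * (d - uu)| ≤ 70 * e := by
  obtain ⟨-, k2, -, -⟩ := f6_two ht hk
  obtain ⟨w1, -, -, -⟩ := f6_two ht hw
  have h2 : |(2 : ℝ)| ≤ 2 := by norm_num
  have h := f6_add (f6_mul (f6_mul hF0 k2) huu) (f6_mul (f6_mul (f6_mul h2 w1) hq) hd)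
  linarith

/-- bound for a spatial derivative -/
theorem f6_b2 {t e s F k w Fm k' um uu Z V d : ℝ} (ht : t ≤ 1 / 100) (he : 0 ≤ e) (hs : t * s ≤ e) (hF : |F - 1| ≤ t)
    (hk : |k - 1| ≤ t) (hw : |w - 1| ≤ t) (hFm : |Fm| ≤ e) (hk' : |k'| ≤ e) (hum : |um| ≤ 1) (huu : |uu| ≤ 1)
    (hZ : |Z| ≤ 4 * s) (hV : |V| ≤ 2 * e) (hd : |d - uu| ≤ 2) :
    |(Fm * k ^ 2 + F * (2 * k * (k' * um))) * uu + (F * k ^ 2 - w ^ 2) * Z + 2 * w * V * (d - uu)| ≤ 70 * e := by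
  obtain ⟨k1, k2, k3, -⟩ := f6_two ht hk
  obtain ⟨w1, w2, w3, -⟩ := f6_two ht hw
  obtain ⟨F1, -, -, -⟩ := f6_two ht hF
  have h2 : |(2 : ℝ)| ≤ 2 := by norm_num
  have e1 : F * k ^ 2 - w ^ 2 = F * (k ^ 2 - 1) + (F - 1) - (w ^ 2 - 1) := by ring
  have h3 : |F * k ^ 2 - w ^ 2| ≤ 2 * (3 * t) + t + 3 * t := by
    rw [e1]
    exact f6_sub (f6_add (f6_mul F1 k3) hF) w3
  have h := f6_add (f6_add (f6_mul (f6_add (f6_mul hFm k2) (f6_mul F1 (f6_mul (f6_mul h2 k1) (f6_mul hk' hum)))) huu)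
    (f6_mul h3 hZ)) (f6_mul (f6_mul (f6_mul h2 w1) hV) hd)
  nlinarith

theorem f6_tang (f : E3 → ℝ) (x : E3) (i : Fin 3) (φ : Fin 4 → ℝ) :
    ∑ a, φ a * tang f x i a = φ i.succ + φ 0 * pd i f x := by
  rw [Fin.sum_univ_succ, Finset.sum_eq_single i]
  · simp [tang]
    ring
  · intro b _ hb
    simp [tang, hb]
  · simp

/-- rearrangement of the sum -/
theorem f6_rearr (Gi : Fin 4 → Fin 4 → ℝ) (Q : Fin 4 → Fin 4 → Fin 4 → ℝ) (τ e e' : Fin 4 → ℝ) :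
    ∑ c, ∑ a, ∑ b, (1 / 2 * ∑ l, Gi c l * Q a b l) * τ c * e a * e' b
      = 1 / 2 * ∑ l, (∑ c, Gi c l * τ c) * ∑ a, (∑ b, Q a b l * e' b) * e a := by
  simp only [Fin.sum_univ_four]
  ring

/-- bound for the sum of the Christoffel terms -/
theorem f6_S {W X : Fin 4 → ℝ} {Q : Fin 4 → Fin 4 → Fin 4 → ℝ} {D1 D2 t e : ℝ} {i j : Fin 3} (ht0 : 0 ≤ t)
    (ht : t ≤ 1 / 100) (he : 0 ≤ e) (hW0 : |W 0 + 1| ≤ 2 * t) (hW : ∀ l : Fin 3, |W l.succ| ≤ 18 * t)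
    (hQ : ∀ a b l, |Q a b l| ≤ 210 * e) (hD1 : |D1| ≤ t) (hD2 : |D2| ≤ t)
    (hX : ∀ l, X l = (Q i.succ j.succ l + Q i.succ 0 l * D2) + (Q 0 j.succ l + Q 0 0 l * D2) * D1) :
    |1 / 2 * (∑ l, W l * X l) + 1 / 2 * Q i.succ j.succ 0| ≤ 6475 * (t * e) := by
  have hte : 0 ≤ t * e := mul_nonneg ht0 he
  have h1 : ∀ l, |X l - Q i.succ j.succ l| ≤ 630 * (t * e) := by
    intro l
    have e1 : X l - Q i.succ j.succ l = Q i.succ 0 l * D2 + (Q 0 j.succ l + Q 0 0 l * D2) * D1 := by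
      rw [hX]
      ring
    rw [e1]
    have h := f6_add (f6_mul (hQ i.succ 0 l) hD2) (f6_mul (f6_add (hQ 0 j.succ l) (f6_mul (hQ 0 0 l) hD2)) hD1)
    nlinarith
  have h2 : ∀ l, |X l| ≤ 220 * e := by
    intro l
    have h := f6_add (h1 l) (hQ i.succ j.succ l)
    rw [sub_add_cancel] at h
    nlinarith
  have h3 : |∑ l : Fin 3, W l.succ * X l.succ| ≤ 3 * (18 * t * (220 * e)) :=
    f3_sum fun l => f6_mul (hW l) (h2 _)
  have e2 : 1 / 2 * (∑ l, W l * X l) + 1 / 2 * Q i.succ j.succ 0 =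
      1 / 2 * ((W 0 + 1) * X 0 - (X 0 - Q i.succ j.succ 0) + ∑ l : Fin 3, W l.succ * X l.succ) := by
    rw [Fin.sum_univ_succ]
    ring
  rw [e2]
  have h4 : |(1 / 2 : ℝ)| ≤ 1 / 2 := by norm_num
  have h := f6_mul h4 (f6_add (f6_sub (f6_mul hW0 (h2 0)) (h1 0)) h3)
  refine h.trans (le_of_eq ?_)
  ring

theorem f6_inv {t F k w uu d : ℝ} (ht : t ≤ 1 / 100) (hF : |F - 1| ≤ t) (hk : |k - 1| ≤ t) (hw : |w - 1| ≤ t)
    (huu : |uu| ≤ 1) (hd : |d - uu| ≤ 2) : |(F * k ^ 2)⁻¹ * uu + w⁻¹ ^ 2 * (d - uu)| ≤ 6 := by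
  obtain ⟨-, -, -, F1⟩ := f6_two ht hF
  obtain ⟨-, -, -, k1⟩ := f6_two ht hk
  obtain ⟨-, -, -, w1⟩ := f6_two ht hw
  have a1 : (1 : ℝ) / 2 ≤ F * k ^ 2 := by nlinarith
  have a2 : |(F * k ^ 2)⁻¹| ≤ 2 := by
    rw [abs_of_pos (by positivity)]
    have := inv_anti₀ (by norm_num : (0 : ℝ) < 1 / 2) a1
    linarith
  have a3 : |w⁻¹ ^ 2| ≤ 2 := by
    rw [abs_of_nonneg (by positivity)]
    have h1 : (1 : ℝ) / 2 ≤ w ^ 2 := by nlinarith
    have := inv_anti₀ (by norm_num : (0 : ℝ) < 1 / 2) h1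
    rw [inv_pow]
    linarith
  have h := f6_add (f6_mul a2 huu) (f6_mul a3 hd)
  linarith

theorem f6_sqrt {y t : ℝ} (ht : t ≤ 1 / 100) (hy : |y - 1| ≤ 3 * t) : 0 < √y ∧ |1 / √y - 1| ≤ 6 * t := by
  have h1 := abs_le.1 hy
  have h2 : (1 : ℝ) / 2 ≤ √y := by
    apply Real.le_sqrt_of_sq_le
    linarith [h1.1]
  have h3 : 0 < √y := by linarith
  refine ⟨h3, ?_⟩
  have h4 : √y * √y = y := Real.mul_self_sqrt (by linarith [h1.1])
  have e : 1 / √y - 1 = (1 / (√y * (1 + √y))) * (1 - y) := by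
    have h5 : (1 + √y) ≠ 0 := by positivity
    field_simp
    linear_combination (-1 : ℝ) * h4
  have h6 : |1 / (√y * (1 + √y))| ≤ 2 := by
    rw [abs_of_pos (by positivity), div_le_iff₀ (by positivity)]
    nlinarith
  rw [e]
  have h7 : |1 - y| ≤ 3 * t := by rwa [abs_sub_comm]
  have h := f6_mul h6 h7
  linarith

/-- the last step -/
theorem f6_fin {N M y t e : ℝ} (ht0 : 0 ≤ t) (ht : t ≤ 1 / 100) (he : 0 ≤ e) (hy : |y - 1| ≤ 3 * t) (hM : |M| ≤ 4 * e)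
    (hN : |N - M| ≤ 6500 * (t * e)) : |N / √y - M| ≤ 7000 * (t * e) := by
  obtain ⟨h1, h2⟩ := f6_sqrt ht hy
  have h3 : |N| ≤ 70 * e := by
    have h := f6_add hN hM
    rw [sub_add_cancel] at h
    nlinarith
  have e1 : N / √y - M = N * (1 / √y - 1) + (N - M) := by ring
  rw [e1]
  have h := f6_add (f6_mul h3 h2) hN
  nlinarith

theorem second_exp {F : E4 → ℝ} {k : ℝ → ℝ} {r : ℝ × ℝ → ℝ} {f : E3 → ℝ} (hS : Slice F k r f) {C R : ℝ}
    (hB : BD F k r f C R) :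
    ∃ C' R' : ℝ, R ≤ R' ∧ ∀ x : E3, R' ≤ ‖x‖ → ∀ i j,
      |second (stMetric F k r) f x i j - (pd i (pd j f) x
        + 1 / 2 * H31R.pd 0 F (pt (f x) x) * (x i / ‖x‖ * (x j / ‖x‖))
        + fderiv ℝ r (qq f x) (1, 0) / ‖x‖ * ((if i = j then 1 else 0) - x i / ‖x‖ * (x j / ‖x‖)))|
        ≤ C' / ‖x‖ ^ 3 := by
  have hC0 := hB.C_nonneg
  refine ⟨7000 * C ^ 2, max R (100 * C), le_max_left _ _, fun x hxR i j => ?_⟩
  have hx : R ≤ ‖x‖ := (le_max_left _ _).trans hxR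
  have hx2 : 100 * C ≤ ‖x‖ := (le_max_right _ _).trans hxR
  have hρ1 : 1 ≤ ‖x‖ := hB.R_pos.trans hx
  have hρ : 0 < ‖x‖ := by linarith
  have hx0 : x ≠ 0 := norm_pos_iff.1 hρ
  have hq : qq f x ∈ QQ f := ⟨x, hx0, rfl⟩
  obtain ⟨n, hn⟩ : ∃ n : S2, ‖x‖ • (n : E3) = x := by
    refine ⟨⟨‖x‖⁻¹ • x, ?_⟩, ?_⟩
    · rw [mem_sphere_zero_iff_norm, norm_smul, norm_inv, norm_norm, inv_mul_cancel₀ hρ.ne']
    · show ‖x‖ • (‖x‖⁻¹ • x) = x
      rw [smul_smul, mul_inv_cancel₀ hρ.ne', one_smul]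
  have hev : ev (qq f x) n = pt (f x) x := by
    show pt (f x) (‖x‖ • (n : E3)) = pt (f x) x
    rw [hn]
  have e2 : (qq f x).2 = ‖x‖ := rfl
  obtain ⟨t, ht⟩ : ∃ t, t = C / ‖x‖ := ⟨_, rfl⟩
  obtain ⟨e, he⟩ : ∃ e, e = C / ‖x‖ ^ 2 := ⟨_, rfl⟩
  have hF := hB.F0 (qq f x) hq hx n
  have hF1 := hB.F1 (qq f x) hq hx n
  have hk := hB.k0 ‖x‖ hx
  have hk1 := hB.k1 ‖x‖ hx
  have hr := hB.r0 (qq f x) hq hx
  have hrT := hB.rT (qq f x) hq hx
  have hrR := hB.rR (qq f x) hq hx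
  have hf1 := hB.f1 x hx
  have hf2 := hB.f2 x hx i j
  rw [hev, e2] at hF hF1
  rw [e2] at hr hrT hrR
  have hw : |r (qq f x) / ‖x‖ - 1| ≤ t := by
    have a1 : r (qq f x) / ‖x‖ - 1 = (r (qq f x) - ‖x‖) / ‖x‖ := by field_simp
    rw [a1, abs_div, abs_of_pos hρ, ht]
    exact div_le_div_of_nonneg_right hr hρ.le
  rw [← ht] at hF hk hrT hrR hf1
  rw [← he] at hF1 hk1 hf2
  have ht0 : 0 ≤ t := by rw [ht]; positivity
  have he0 : 0 ≤ e := by rw [he]; positivity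
  have ht100 : t ≤ 1 / 100 := by
    rw [ht, div_le_iff₀ hρ]
    linarith
  have hts : t * (1 / ‖x‖) = e := by
    rw [ht, he]
    field_simp
  have hte : t * e = C ^ 2 / ‖x‖ ^ 3 := by
    rw [ht, he]
    field_simp
  have hrTe : |fderiv ℝ r (qq f x) (1, 0) / ‖x‖| ≤ e := by
    rw [abs_div, abs_of_pos hρ, ← hts, mul_one_div]
    exact div_le_div_of_nonneg_right hrT hρ.le
  have hN := mem_near (f := f) hx0
  have hfs := hS.f_smooth x hx0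
  have hFs : ContDiffAt ℝ ∞ F (pt (f x) x) := hS.F_smooth _ hN
  have hrs : ContDiffAt ℝ ∞ r (qq f x) := by
    have h := hS.r_smooth _ hN
    rwa [pos_pt, pt_zero] at h
  have hks : ContDiffAt ℝ ∞ k ‖x‖ := hS.k_smooth _ hρ
  have hfd : DifferentiableAt ℝ f x := hfs.differentiableAt (by simp)
  have hFd : DifferentiableAt ℝ F (pt (f x) x) := hFs.differentiableAt (by simp)
  have hrd : DifferentiableAt ℝ r (f x, ‖x‖) := hrs.differentiableAt (by simp)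
  have hkd : DifferentiableAt ℝ k ‖x‖ := hks.differentiableAt (by simp)
  have hpos : pos (pt (f x) x) ≠ 0 := by rw [pos_pt]; exact hx0
  have hGd : ∀ a b, DifferentiableAt ℝ (fun p => stMetric F k r p a b) (pt (f x) x) := fun a b =>
    (stMetric_smooth hpos hFs (by rw [pos_pt]; exact hks) (by rw [pos_pt, pt_zero]; exact hrs) a b).differentiableAt (by simp)
  have hGi : (stMetric F k r (pt (f x) x))⁻¹ = stInv F k r (pt (f x) x) :=
    (stMetric_inv hpos (hS.F_pos _ hN) (by rw [pos_pt]; exact hS.k_pos _ hρ) (hS.r_pos _ hN)).1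
  have hu1 : ∀ i, |x i / ‖x‖| ≤ 1 := by
    intro i
    rw [abs_div, abs_of_pos hρ, div_le_one hρ]
    have h := PiLp.norm_apply_le x i
    rwa [Real.norm_eq_abs] at h
  have hdl : ∀ i j : Fin 3, |(if i = j then (1 : ℝ) else 0)| ≤ 1 := by
    intro i j
    split_ifs <;> simp
  have huu : ∀ i j, |x i / ‖x‖ * (x j / ‖x‖)| ≤ 1 := fun i j => (f6_mul (hu1 i) (hu1 j)).trans (by norm_num)
  have hdd : ∀ i j : Fin 3, |(if i = j then 1 else 0) - x i / ‖x‖ * (x j / ‖x‖)| ≤ 2 := fun i j =>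
    (f6_sub (hdl i j) (huu i j)).trans (by norm_num)
  -- the derivatives of the metric
  have hsp : ∀ (i j : Fin 3) (c : Fin 4), |H31R.pd c (fun p => stMetric F k r p i.succ j.succ) (pt (f x) x)| ≤ 70 * e := by
    intro i j c
    refine Fin.cases ?_ (fun m => ?_) c
    · rw [f6_time hGd hFd hrd]
      exact f6_b1 ht100 he0 hk hw (hF1 0) hrTe (huu i j) (hdd i j)
    · rw [f6_space hx0 hGd hFd hkd hrd]
      have hs1 : ‖x‖⁻¹ = 1 / ‖x‖ := (one_div _).symm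
      refine f6_b2 (t := t) (s := 1 / ‖x‖) ht100 he0 hts.le hF hk hw (hF1 m.succ) hk1 (hu1 m) (huu i j) ?_ ?_ (hdd i j)
      · have b1 : |((if i = m then 1 else 0) - x i / ‖x‖ * (x m / ‖x‖)) / ‖x‖| ≤ 2 * (1 / ‖x‖) := by
          rw [div_eq_mul_one_div]
          exact f6_mul (hdd i m) (by rw [abs_of_pos (by positivity)])
        have b2 : |((if j = m then 1 else 0) - x j / ‖x‖ * (x m / ‖x‖)) / ‖x‖| ≤ 2 * (1 / ‖x‖) := by
          rw [div_eq_mul_one_div]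
          exact f6_mul (hdd j m) (by rw [abs_of_pos (by positivity)])
        have b3 := f6_add (f6_mul b1 (hu1 j)) (f6_mul (hu1 i) b2)
        refine b3.trans (le_of_eq ?_)
        ring
      · have b4 : fderiv ℝ r (f x, ‖x‖) (0, 1) * (x m / ‖x‖) / ‖x‖ - r (f x, ‖x‖) * (x m / ‖x‖) / ‖x‖ ^ 2
            = ((fderiv ℝ r (qq f x) (0, 1) - 1) - (r (qq f x) / ‖x‖ - 1)) * (x m / ‖x‖ * (1 / ‖x‖)) := by
          show fderiv ℝ r (f x, ‖x‖) (0, 1) * (x m / ‖x‖) / ‖x‖ - r (f x, ‖x‖) * (x m / ‖x‖) / ‖x‖ ^ 2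
            = ((fderiv ℝ r (f x, ‖x‖) (0, 1) - 1) - (r (f x, ‖x‖) / ‖x‖ - 1)) * (x m / ‖x‖ * (1 / ‖x‖))
          field_simp
          ring
        rw [b4]
        have b5 : |(1 / ‖x‖ : ℝ)| ≤ 1 / ‖x‖ := by rw [abs_of_pos (by positivity)]
        have b6 := f6_mul (f6_sub hrR hw) (f6_mul (hu1 m) b5)
        refine b6.trans (le_of_eq ?_)
        rw [← hts]
        ring
  have h0 : ∀ c, H31R.pd c (fun _ : E4 => (0 : ℝ)) (pt (f x) x) = 0 := fun c => H31R.N_pd_const c 0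
  have hG : ∀ a b c, |H31R.pd c (fun p => stMetric F k r p a b) (pt (f x) x)| ≤ 70 * e := by
    intro a b c
    refine Fin.cases (Fin.cases ?_ (fun j' => ?_) b) (fun i' => Fin.cases ?_ (fun j' => ?_) b) a
    · show |H31R.pd c (fun p => -F p) (pt (f x) x)| ≤ _
      rw [H31R.N_pd_neg, abs_neg]
      linarith [hF1 c]
    · show |H31R.pd c (fun _ : E4 => (0 : ℝ)) (pt (f x) x)| ≤ _
      rw [h0, abs_zero]
      positivity
    · show |H31R.pd c (fun _ : E4 => (0 : ℝ)) (pt (f x) x)| ≤ _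
      rw [h0, abs_zero]
      positivity
    · exact hsp i' j' c
  -- names
  obtain ⟨Gi, hGid⟩ : ∃ Gi : Fin 4 → Fin 4 → ℝ, Gi = fun a b => (stMetric F k r (pt (f x) x))⁻¹ a b := ⟨_, rfl⟩
  obtain ⟨Q, hQd⟩ : ∃ Q : Fin 4 → Fin 4 → Fin 4 → ℝ, Q = fun a b l =>
    H31R.pd a (fun p => stMetric F k r p b l) (pt (f x) x) + H31R.pd b (fun p => stMetric F k r p a l) (pt (f x) x)
      - H31R.pd l (fun p => stMetric F k r p a b) (pt (f x) x) := ⟨_, rfl⟩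
  obtain ⟨W, hWd⟩ : ∃ W : Fin 4 → ℝ, W = fun l => ∑ c, Gi c l * conorm f x c := ⟨_, rfl⟩
  obtain ⟨X, hXd⟩ : ∃ X : Fin 4 → ℝ, X = fun l => ∑ a, (∑ b, Q a b l * tang f x j b) * tang f x i a := ⟨_, rfl⟩
  obtain ⟨y, hyd⟩ : ∃ y : ℝ, y = -∑ a, ∑ b, (stMetric F k r (pt (f x) x))⁻¹ a b * conorm f x a * conorm f x b := ⟨_, rfl⟩
  have hsec : second (stMetric F k r) f x i j = (pd i (pd j f) x + 1 / 2 * ∑ l, W l * X l) / √y := by
    have h := f6_rearr Gi Q (conorm f x) (tang f x i) (tang f x j)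
    show (pd i (pd j f) x + ∑ c, ∑ a, ∑ b, H31R.chr (stMetric F k r) c a b (pt (f x) x) * conorm f x c * tang f x i a
      * tang f x j b) / √(-∑ a, ∑ b, (stMetric F k r (pt (f x) x))⁻¹ a b * conorm f x a * conorm f x b) = _
    rw [← hyd]
    congr 2
    rw [hWd, hXd, ← h, hGid, hQd]
    rfl
  have hX : ∀ l, X l = (Q i.succ j.succ l + Q i.succ 0 l * pd j f x) + (Q 0 j.succ l + Q 0 0 l * pd j f x) * pd i f x := by
    intro l
    rw [hXd]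
    simp only [f6_tang]
  have hQ : ∀ a b l, |Q a b l| ≤ 210 * e := by
    intro a b l
    rw [hQd]
    refine (f6_sub (f6_add (hG b l a) (hG a l b)) (hG a b l)).trans (le_of_eq ?_)
    ring
  have hGi0 : Gi 0 0 = -(F (pt (f x) x))⁻¹ := by
    rw [hGid, hGi]
    rfl
  have hGi1 : ∀ m : Fin 3, Gi m.succ 0 = 0 := by
    intro m
    rw [hGid, hGi]
    rfl
  have hGi2 : ∀ m : Fin 3, Gi 0 m.succ = 0 := by
    intro m
    rw [hGid, hGi]
    rfl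
  have hGi3 : ∀ m l : Fin 3, |Gi m.succ l.succ| ≤ 6 := by
    intro m l
    have h1 : Gi m.succ l.succ = (F (pt (f x) x) * k ‖x‖ ^ 2)⁻¹ * (x m / ‖x‖ * (x l / ‖x‖)) +
        (r (qq f x) / ‖x‖)⁻¹ ^ 2 * ((if m = l then 1 else 0) - x m / ‖x‖ * (x l / ‖x‖)) := by
      rw [hGid, hGi]
      simp only [stInv, Matrix.of_apply, Fin.cases_succ, pos_pt, pt_zero, inv_div]
      rfl
    rw [h1]
    exact f6_inv ht100 hF hk hw (huu m l) (hdd m l)
  have hFi : |(F (pt (f x) x))⁻¹ - 1| ≤ 2 * t := by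
    obtain ⟨-, -, -, F1⟩ := f6_two ht100 hF
    have h1 : (F (pt (f x) x))⁻¹ - 1 = -((F (pt (f x) x))⁻¹ * (F (pt (f x) x) - 1)) := by
      have : F (pt (f x) x) ≠ 0 := by linarith
      field_simp
      ring
    rw [h1, abs_neg]
    refine f6_mul ?_ hF
    rw [abs_of_pos (by positivity)]
    have := inv_anti₀ (by norm_num : (0 : ℝ) < 1 / 2) (by linarith : (1 : ℝ) / 2 ≤ F (pt (f x) x))
    linarith
  have hW0 : W 0 = -(F (pt (f x) x))⁻¹ := by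
    rw [hWd]
    show ∑ c, Gi c 0 * conorm f x c = _
    rw [Fin.sum_univ_succ, hGi0]
    simp only [hGi1]
    simp [conorm]
  have hWl : ∀ l : Fin 3, W l.succ = -∑ m : Fin 3, Gi m.succ l.succ * pd m f x := by
    intro l
    rw [hWd]
    show ∑ c, Gi c l.succ * conorm f x c = _
    rw [Fin.sum_univ_succ, hGi2]
    simp [conorm]
  have hWb : ∀ l : Fin 3, |W l.succ| ≤ 18 * t := by
    intro l
    rw [hWl, abs_neg]
    refine (f3_sum fun m => f6_mul (hGi3 m l) (hf1 m)).trans (le_of_eq ?_)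
    ring
  have hW0b : |W 0 + 1| ≤ 2 * t := by
    rw [hW0]
    have : -(F (pt (f x) x))⁻¹ + 1 = -((F (pt (f x) x))⁻¹ - 1) := by ring
    rw [this, abs_neg]
    exact hFi
  have hy : |y - 1| ≤ 3 * t := by
    have h1 : y = -(∑ l, W l * conorm f x l) := by
      rw [hyd, Finset.sum_comm, hWd]
      congr 1
      refine Finset.sum_congr rfl fun l _ => ?_
      rw [Finset.sum_mul, hGid]
    have h2 : y - 1 = -(W 0 + 1) + ∑ l : Fin 3, W l.succ * pd l f x := by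
      rw [h1, Fin.sum_univ_succ]
      have h3 : ∀ l : Fin 3, W l.succ * conorm f x l.succ = -(W l.succ * pd l f x) := by
        intro l
        show W l.succ * (-pd l f x) = _
        ring
      simp only [h3, Finset.sum_neg_distrib]
      show -(W 0 * 1 + _) - 1 = _
      ring
    rw [h2]
    have h4 : |-(W 0 + 1)| ≤ 2 * t := by rwa [abs_neg]
    have h5 := f6_add h4 (f3_sum fun l => f6_mul (hWb l) (hf1 l))
    nlinarith
  have hQ0 : Q i.succ j.succ 0 = -(H31R.pd 0 F (pt (f x) x) * k ‖x‖ ^ 2 * (x i / ‖x‖ * (x j / ‖x‖))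
        + 2 * (r (qq f x) / ‖x‖) * (fderiv ℝ r (qq f x) (1, 0) / ‖x‖) * ((if i = j then 1 else 0) - x i / ‖x‖ * (x j / ‖x‖))) := by
    rw [hQd]
    show H31R.pd i.succ (fun _ : E4 => (0 : ℝ)) (pt (f x) x) + H31R.pd j.succ (fun _ : E4 => (0 : ℝ)) (pt (f x) x)
      - H31R.pd 0 (fun p => stMetric F k r p i.succ j.succ) (pt (f x) x) = _
    rw [h0, h0, f6_time hGd hFd hrd]
    simp only [qq]
    ring
  have hS1 := f6_S (W := W) (X := X) (Q := Q) (i := i) (j := j) ht0 ht100 he0 hW0b hWb hQ (hf1 i) (hf1 j) hX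
  rw [hsec]
  obtain ⟨-, -, k3, -⟩ := f6_two ht100 hk
  have hte' : 7000 * C ^ 2 / ‖x‖ ^ 3 = 7000 * (t * e) := by
    rw [hte]
    ring
  rw [hte']
  have c2 : |(1 / 2 : ℝ)| ≤ 1 / 2 := by norm_num
  refine f6_fin ht0 ht100 he0 hy ?_ ?_
  · have h := f6_add (f6_add hf2 (f6_mul (f6_mul c2 (hF1 0)) (huu i j))) (f6_mul hrTe (hdd i j))
    linarith
  · have h1 : (pd i (pd j f) x + 1 / 2 * ∑ l, W l * X l) - (pd i (pd j f) x
        + 1 / 2 * H31R.pd 0 F (pt (f x) x) * (x i / ‖x‖ * (x j / ‖x‖))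
        + fderiv ℝ r (qq f x) (1, 0) / ‖x‖ * ((if i = j then 1 else 0) - x i / ‖x‖ * (x j / ‖x‖)))
        = (1 / 2 * (∑ l, W l * X l) + 1 / 2 * Q i.succ j.succ 0)
          + (1 / 2 * H31R.pd 0 F (pt (f x) x) * (x i / ‖x‖ * (x j / ‖x‖)) * (k ‖x‖ ^ 2 - 1)
          + fderiv ℝ r (qq f x) (1, 0) / ‖x‖ * ((if i = j then 1 else 0) - x i / ‖x‖ * (x j / ‖x‖))
            * (r (qq f x) / ‖x‖ - 1)) := by
      rw [hQ0]
      ring
    rw [h1]
    have h2 := f6_add hS1 (f6_add (f6_mul (f6_mul (f6_mul c2 (hF1 0)) (huu i j)) k3) (f6_mul (f6_mul hrTe (hdd i j)) hw))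
    have hte0 : 0 ≤ t * e := mul_nonneg ht0 he0
    nlinarith

end H17T
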