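import Pool.Agent.Lib.H17T.Defs

set_option autoImplicit false

/-!
# H17T, chunk T3 (M): the trace over a plane

`g` symmetric positive definite, `l ≠ 0`, `Y = g⁻¹ l`, `M = l Y = |l|² > 0`, `P = g⁻¹ - Y Yᵀ/M`.
(1) `P = Σ_c v_c v_cᵀ` with `l(v_c) = 0`: let `g⁻¹ = S Sᵀ` (for instance the positive square root `S`, or Cholesky), `m = Sᵀ l`,
`|m|² = M`, `Π = 1 - m mᵀ/M` (a symmetric projection, `Π² = Π`); `P = S Π Sᵀ = (S Π)(S Π)ᵀ`, `v_c` = column `c` of `S Π`, and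
`lᵀ S Π = mᵀ Π = 0`.
(2) the trace of `P g` is `3 - 1 = 2`.
-/

open MeasureTheory Filter Topology Set
open scoped ContDiff

namespace H17T

theorem t3_pd {g : Matrix (Fin 3) (Fin 3) ℝ} (hsym : ∀ i j, g i j = g j i)
    (hpos : ∀ ξ : Fin 3 → ℝ, ξ ≠ 0 → 0 < ∑ i, ∑ j, g i j * ξ i * ξ j) : g.PosDef := by
  refine Matrix.PosDef.of_dotProduct_mulVec_pos ?_ ?_
  · refine Matrix.ext fun i j => ?_
    rw [Matrix.conjTranspose_apply, star_trivial]
    exact hsym j i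
  · intro x hx
    have h := hpos x hx
    have e : star x ⬝ᵥ (Matrix.mulVec g x) = ∑ i, ∑ j, g i j * x i * x j := by
      simp only [dotProduct, Matrix.mulVec, Pi.star_apply, star_trivial, Finset.mul_sum]
      exact Finset.sum_congr rfl fun i _ => Finset.sum_congr rfl fun j _ => by ring
    rw [e]
    exact h

theorem t3_form (H : Matrix (Fin 3) (Fin 3) ℝ) (x : Fin 3 → ℝ) :
    star x ⬝ᵥ (Matrix.mulVec H x) = ∑ i, ∑ j, H i j * x i * x j := by
  simp only [dotProduct, Matrix.mulVec, Pi.star_apply, star_trivial, Finset.mul_sum]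
  exact Finset.sum_congr rfl fun i _ => Finset.sum_congr rfl fun j _ => by ring

open scoped MatrixOrder Matrix.Norms.L2Operator in
theorem t3_root {P : Matrix (Fin 3) (Fin 3) ℝ} (h : P.PosSemidef) :
    ∃ B : Matrix (Fin 3) (Fin 3) ℝ, P = B.conjTranspose * B := by
  obtain ⟨B, hB⟩ := CStarAlgebra.nonneg_iff_eq_star_mul_self.mp h.nonneg
  exact ⟨B, hB⟩

theorem plane_pos {g : Matrix (Fin 3) (Fin 3) ℝ} (hsym : ∀ i j, g i j = g j i)
    (hpos : ∀ ξ : Fin 3 → ℝ, ξ ≠ 0 → 0 < ∑ i, ∑ j, g i j * ξ i * ξ j) {l : Fin 3 → ℝ} (hl : l ≠ 0) :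
    g.det ≠ 0 ∧ (∀ i j, g⁻¹ i j = g⁻¹ j i) ∧ 0 < ∑ i, ∑ j, g⁻¹ i j * l i * l j := by
  have h1 := t3_pd hsym hpos
  have h2 : g⁻¹.PosDef := h1.inv
  refine ⟨h1.det_pos.ne', fun i j => ?_, ?_⟩
  · have h3 := h2.1.apply j i
    rw [star_trivial] at h3
    exact h3
  · rw [← t3_form]
    exact h2.dotProduct_mulVec_pos hl

theorem plane_decomp {g : Matrix (Fin 3) (Fin 3) ℝ} (hsym : ∀ i j, g i j = g j i)
    (hpos : ∀ ξ : Fin 3 → ℝ, ξ ≠ 0 → 0 < ∑ i, ∑ j, g i j * ξ i * ξ j) {l : Fin 3 → ℝ} (hl : l ≠ 0) :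
    ∃ v : Fin 3 → Fin 3 → ℝ, (∀ c, ∑ i, v c i * l i = 0) ∧
      ∀ i j, g⁻¹ i j - (∑ a, g⁻¹ i a * l a) * (∑ a, g⁻¹ j a * l a) / (∑ a, ∑ b, g⁻¹ a b * l a * l b)
        = ∑ c, v c i * v c j := by
  obtain ⟨hdet, hs, hM⟩ := plane_pos hsym hpos hl
  have h2 : g⁻¹.PosDef := (t3_pd hsym hpos).inv
  obtain ⟨H, hH⟩ : ∃ H, H = g⁻¹ := ⟨_, rfl⟩
  rw [← hH] at hs hM h2 ⊢
  obtain ⟨M, hMd⟩ : ∃ M, M = ∑ i, ∑ j, H i j * l i * l j := ⟨_, rfl⟩
  rw [← hMd] at hM ⊢
  obtain ⟨P, hP⟩ : ∃ P : Matrix (Fin 3) (Fin 3) ℝ, P = Matrix.of fun i j =>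
      H i j - (∑ a, H i a * l a) * (∑ a, H j a * l a) / M := ⟨_, rfl⟩
  have hPa : ∀ i j, P i j = H i j - (∑ a, H i a * l a) * (∑ a, H j a * l a) / M := by
    intro i j
    rw [hP]
    rfl
  have hPx : ∀ x : Fin 3 → ℝ, ∑ i, ∑ j, P i j * x i * x j =
      (∑ i, ∑ j, H i j * x i * x j) - (∑ i, ∑ a, H i a * x i * l a) ^ 2 / M := by
    intro x
    have e1 : (∑ i, ∑ a, H i a * x i * l a) ^ 2 / M =
        ∑ i, ∑ j, (∑ a, H i a * l a) * (∑ a, H j a * l a) / M * x i * x j := by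
      have e2 : (∑ i, ∑ a, H i a * x i * l a) = ∑ i, (∑ a, H i a * l a) * x i := by
        refine Finset.sum_congr rfl fun i _ => ?_
        rw [Finset.sum_mul]
        exact Finset.sum_congr rfl fun a _ => by ring
      rw [e2, sq, Finset.sum_mul_sum, Finset.sum_div]
      refine Finset.sum_congr rfl fun i _ => ?_
      rw [Finset.sum_div]
      exact Finset.sum_congr rfl fun j _ => by ring
    rw [e1, ← Finset.sum_sub_distrib]
    refine Finset.sum_congr rfl fun i _ => ?_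
    rw [← Finset.sum_sub_distrib]
    exact Finset.sum_congr rfl fun j _ => by rw [hPa]; ring
  have hPs : P.PosSemidef := by
    refine Matrix.PosSemidef.of_dotProduct_mulVec_nonneg ?_ ?_
    · refine Matrix.ext fun i j => ?_
      rw [Matrix.conjTranspose_apply, star_trivial, hPa, hPa, hs j i]
      ring
    · intro x
      rw [t3_form, hPx, sub_nonneg, div_le_iff₀ hM]
      obtain ⟨c, hc⟩ : ∃ c, c = ∑ i, ∑ a, H i a * x i * l a := ⟨_, rfl⟩
      rw [← hc]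
      have h3 := h2.posSemidef.dotProduct_mulVec_nonneg (fun i => M * x i - c * l i)
      rw [t3_form] at h3
      have e3 : ∑ i, ∑ j, H i j * (M * x i - c * l i) * (M * x j - c * l j) =
          M ^ 2 * (∑ i, ∑ j, H i j * x i * x j) - M * c * (∑ i, ∑ j, H i j * x i * l j)
            - M * c * (∑ i, ∑ j, H j i * x j * l i) + c ^ 2 * (∑ i, ∑ j, H i j * l i * l j) := by
        simp only [Finset.mul_sum, ← Finset.sum_sub_distrib, ← Finset.sum_add_distrib]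
        refine Finset.sum_congr rfl fun i _ => Finset.sum_congr rfl fun j _ => ?_
        rw [hs j i]
        ring
      have e4 : ∑ i, ∑ j, H j i * x j * l i = c := by
        rw [Finset.sum_comm, hc]
      rw [e3, e4, ← hc, ← hMd] at h3
      have h4 : 0 ≤ M * ((∑ i, ∑ j, H i j * x i * x j) * M - c ^ 2) := by
        linarith [h3]
      exact sub_nonneg.1 (nonneg_of_mul_nonneg_right h4 hM)
  obtain ⟨B, hB⟩ := t3_root hPs
  have hBP : ∀ i j, P i j = ∑ c, B c i * B c j := by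
    intro i j
    rw [hB, Matrix.mul_apply]
    exact Finset.sum_congr rfl fun c _ => by rw [Matrix.conjTranspose_apply, star_trivial]
  refine ⟨fun c i => B c i, ?_, fun i j => by rw [← hPa]; exact hBP i j⟩
  have h5 : ∑ i, ∑ j, P i j * l i * l j = 0 := by
    rw [hPx, ← hMd]
    field_simp
    ring
  have h6 : ∑ i, ∑ j, P i j * l i * l j = ∑ c, (∑ i, B c i * l i) ^ 2 := by
    have e5 : ∀ c, (∑ i, B c i * l i) ^ 2 = ∑ i, ∑ j, B c i * B c j * l i * l j := by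
      intro c
      rw [sq, Finset.sum_mul_sum]
      exact Finset.sum_congr rfl fun i _ => Finset.sum_congr rfl fun j _ => by ring
    have e6 : ∀ i j, P i j * l i * l j = ∑ c, B c i * B c j * l i * l j := by
      intro i j
      rw [hBP, Finset.sum_mul, Finset.sum_mul]
    symm
    rw [Finset.sum_congr rfl fun c _ => e5 c, Finset.sum_comm]
    refine Finset.sum_congr rfl fun i _ => ?_
    rw [Finset.sum_comm]
    exact Finset.sum_congr rfl fun j _ => (e6 i j).symm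
  rw [h6] at h5
  intro c
  have h7 := (Finset.sum_eq_zero_iff_of_nonneg (fun c _ => sq_nonneg (∑ i, B c i * l i))).1 h5 c (Finset.mem_univ c)
  exact pow_eq_zero_iff (two_ne_zero) |>.1 h7

theorem plane_trace {g : Matrix (Fin 3) (Fin 3) ℝ} (hsym : ∀ i j, g i j = g j i)
    (hpos : ∀ ξ : Fin 3 → ℝ, ξ ≠ 0 → 0 < ∑ i, ∑ j, g i j * ξ i * ξ j) {l : Fin 3 → ℝ} (hl : l ≠ 0) :
    ∑ i, ∑ j, (g⁻¹ i j - (∑ a, g⁻¹ i a * l a) * (∑ a, g⁻¹ j a * l a) / (∑ a, ∑ b, g⁻¹ a b * l a * l b)) * g i j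
      = 2 := by
  obtain ⟨hdet, hs, hM⟩ := plane_pos hsym hpos hl
  have hu : IsUnit g.det := isUnit_iff_ne_zero.2 hdet
  have hm1 : g * g⁻¹ = 1 := Matrix.mul_nonsing_inv g hu
  have hm2 : g⁻¹ * g = 1 := Matrix.nonsing_inv_mul g hu
  obtain ⟨H, hH⟩ : ∃ H, H = g⁻¹ := ⟨_, rfl⟩
  rw [← hH] at hs hM hm1 hm2 ⊢
  obtain ⟨M, hMd⟩ : ∃ M, M = ∑ i, ∑ j, H i j * l i * l j := ⟨_, rfl⟩
  rw [← hMd] at hM ⊢
  have h1 : ∑ i, ∑ j, H i j * g i j = 3 := by
    have e1 : ∀ i, ∑ j, H i j * g i j = 1 := by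
      intro i
      have h3 := congrFun (congrFun hm2 i) i
      rw [Matrix.mul_apply, Matrix.one_apply_eq] at h3
      rw [← h3]
      exact Finset.sum_congr rfl fun j _ => by rw [hsym i j]
    rw [Finset.sum_congr rfl fun i _ => e1 i]
    simp
  have h2 : ∀ i, ∑ j, g i j * (∑ a, H j a * l a) = l i := by
    intro i
    have e2 : ∑ j, g i j * (∑ a, H j a * l a) = ∑ a, (∑ j, g i j * H j a) * l a := by
      simp only [Finset.mul_sum, Finset.sum_mul]
      rw [Finset.sum_comm]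
      exact Finset.sum_congr rfl fun a _ => Finset.sum_congr rfl fun j _ => by ring
    have e3 : ∀ a, ∑ j, g i j * H j a = (1 : Matrix (Fin 3) (Fin 3) ℝ) i a := by
      intro a
      rw [← hm1, Matrix.mul_apply]
    rw [e2, Finset.sum_congr rfl fun a _ => by rw [e3 a]]
    simp [Matrix.one_apply]
  have h4 : ∑ i, ∑ j, (∑ a, H i a * l a) * (∑ a, H j a * l a) * g i j = M := by
    have e4 : ∀ i, ∑ j, (∑ a, H i a * l a) * (∑ a, H j a * l a) * g i j = (∑ a, H i a * l a) * l i := by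
      intro i
      rw [← h2 i, Finset.mul_sum]
      exact Finset.sum_congr rfl fun j _ => by ring
    rw [Finset.sum_congr rfl fun i _ => e4 i, hMd]
    refine Finset.sum_congr rfl fun i _ => ?_
    rw [Finset.sum_mul]
    exact Finset.sum_congr rfl fun j _ => by ring
  have h5 : ∑ i, ∑ j, (H i j - (∑ a, H i a * l a) * (∑ a, H j a * l a) / M) * g i j =
      (∑ i, ∑ j, H i j * g i j) - (∑ i, ∑ j, (∑ a, H i a * l a) * (∑ a, H j a * l a) * g i j) / M := by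
    rw [Finset.sum_div, ← Finset.sum_sub_distrib]
    refine Finset.sum_congr rfl fun i _ => ?_
    rw [Finset.sum_div, ← Finset.sum_sub_distrib]
    exact Finset.sum_congr rfl fun j _ => by ring
  rw [h5, h1, h4, div_self hM.ne']
  norm_num

end H17T
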