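import Pool.Agent.Lib.H17T.F6
import Pool.Agent.Lib.H17T.T3

set_option autoImplicit false

/-!
# H17T, chunk F7 (M): expansion of the momentum density

`momDensity g h i x = Σ_j (h_ij - (tr_g h) g_ij) x̂_j`; `g_ij = δ_ij + O(1/ρ)` (`slice_eq` and the bounds), so `g⁻¹ = δ + O(1/ρ)`;
`h = second = O(1/ρ²)` by `second_exp`. Hence up to `O(1/ρ³)`: `Σ_j h_ij x̂_j - (Σ_j h_jj) x̂_i`, and with `second_exp`
`Σ_j h_ij x̂_j = Σ_j f_ij x̂_j + (1/2) F_T x̂_i`, `Σ_j h_jj = Δ f + (1/2) F_T + 2 r_T/ρ`.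
-/

open MeasureTheory Filter Topology Set
open scoped ContDiff

namespace H17T

open Pool.Agent.Lib.PenroseSph (E3 Tens S2 sm pd momDensity)

theorem f7_sum3 {f : Fin 3 → ℝ} {b : ℝ} (h : ∀ i, |f i| ≤ b) : |∑ i, f i| ≤ 3 * b := by
  calc |∑ i, f i| ≤ ∑ i, |f i| := Finset.abs_sum_le_sum_abs _ _
    _ ≤ ∑ _i : Fin 3, b := Finset.sum_le_sum fun i _ => h i
    _ = 3 * b := by simp

/-- The inverse of a matrix which is close to the identity. -/
theorem f7_inv {A : Matrix (Fin 3) (Fin 3) ℝ} (hA : A.det ≠ 0) {a : ℝ} (ha : 6 * a ≤ 1)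
    (h : ∀ i j, |A i j - (if i = j then 1 else 0)| ≤ a) (i j : Fin 3) :
    |A⁻¹ i j - (if i = j then 1 else 0)| ≤ 6 * a := by
  have ha0 : 0 ≤ a := (abs_nonneg _).trans (h 0 0)
  obtain ⟨H, hH⟩ : ∃ H, H = A⁻¹ := ⟨_, rfl⟩
  have hm : A * H = 1 := by rw [hH]; exact Matrix.mul_nonsing_inv A (isUnit_iff_ne_zero.2 hA)
  rw [← hH]
  have e1 : ∀ i j, H i j - (if i = j then 1 else 0) = -∑ k, (A i k - (if i = k then 1 else 0)) * H k j := by
    intro i j
    have h1 := congrFun (congrFun hm i) j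
    rw [Matrix.mul_apply, Matrix.one_apply] at h1
    have h2 : ∑ k, (A i k - (if i = k then 1 else 0)) * H k j = (∑ k, A i k * H k j) - H i j := by
      simp only [sub_mul, Finset.sum_sub_distrib, ite_mul, one_mul, zero_mul, Finset.sum_ite_eq, Finset.mem_univ, if_true]
    rw [h2, h1]
    ring
  obtain ⟨p, -, hp⟩ := Finset.exists_max_image (Finset.univ : Finset (Fin 3 × Fin 3)) (fun p => |H p.1 p.2|)
    Finset.univ_nonempty
  obtain ⟨m, hmd⟩ : ∃ m, m = |H p.1 p.2| := ⟨_, rfl⟩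
  have hmx : ∀ i j, |H i j| ≤ m := fun i j => by rw [hmd]; exact hp (i, j) (Finset.mem_univ _)
  have e2 : ∀ i j, |H i j - (if i = j then 1 else 0)| ≤ 3 * (a * m) := by
    intro i j
    rw [e1, abs_neg]
    refine f7_sum3 fun k => ?_
    rw [abs_mul]
    exact mul_le_mul (h i k) (hmx k j) (abs_nonneg _) ha0
  have hm2 : m ≤ 2 := by
    have h3 := e2 p.1 p.2
    have h4 : |H p.1 p.2| ≤ |H p.1 p.2 - (if p.1 = p.2 then 1 else 0)| + |(if p.1 = p.2 then (1 : ℝ) else 0)| := by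
      have h5 := abs_add_le (H p.1 p.2 - (if p.1 = p.2 then 1 else 0)) (if p.1 = p.2 then (1 : ℝ) else 0)
      rwa [sub_add_cancel] at h5
    have h6 : |(if p.1 = p.2 then (1 : ℝ) else 0)| ≤ 1 := by
      split_ifs <;> simp
    rw [← hmd] at h4
    have hm0 : 0 ≤ m := by rw [hmd]; exact abs_nonneg _
    nlinarith
  calc |H i j - (if i = j then 1 else 0)| ≤ 3 * (a * m) := e2 i j
    _ ≤ 3 * (a * 2) := by nlinarith
    _ = 6 * a := by ring

/-- The algebra of the momentum density. -/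
theorem f7_alg {g H h S : Matrix (Fin 3) (Fin 3) ℝ} {u : Fin 3 → ℝ} {a b c : ℝ} (ha1 : a ≤ 1)
    (hg : ∀ i j, |g i j - (if i = j then 1 else 0)| ≤ a) (hH : ∀ i j, |H i j - (if i = j then 1 else 0)| ≤ a)
    (hh : ∀ i j, |h i j| ≤ b) (hS : ∀ i j, |h i j - S i j| ≤ c) (hu : ∀ i, |u i| ≤ 1) (i : Fin 3) :
    |(∑ j, (h i j - (∑ p, ∑ q, H p q * h p q) * g i j) * u j) - ((∑ j, S i j * u j) - (∑ p, S p p) * u i)| ≤
      45 * (a * b) + 6 * c := by
  have ha0 : 0 ≤ a := (abs_nonneg _).trans (hg 0 0)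
  have hb0 : 0 ≤ b := (abs_nonneg _).trans (hh 0 0)
  have hc0 : 0 ≤ c := (abs_nonneg _).trans (hS 0 0)
  obtain ⟨tr, htr⟩ : ∃ tr, tr = ∑ p, ∑ q, H p q * h p q := ⟨_, rfl⟩
  rw [← htr]
  have e1 : tr - ∑ p, h p p = ∑ p, ∑ q, (H p q - (if p = q then 1 else 0)) * h p q := by
    rw [htr]
    simp only [sub_mul, Finset.sum_sub_distrib, ite_mul, one_mul, zero_mul, Finset.sum_ite_eq, Finset.mem_univ, if_true]
  have b1 : |tr - ∑ p, h p p| ≤ 9 * (a * b) := by
    rw [e1]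
    have h1 : |∑ p, ∑ q, (H p q - (if p = q then 1 else 0)) * h p q| ≤ 3 * (3 * (a * b)) :=
      f7_sum3 fun p => f7_sum3 fun q => by
        rw [abs_mul]
        exact mul_le_mul (hH p q) (hh p q) (abs_nonneg _) ha0
    linarith
  have b2 : |∑ p, h p p| ≤ 3 * b := f7_sum3 fun p => hh p p
  have b3 : |tr| ≤ 12 * b := by
    have h1 := abs_add_le (tr - ∑ p, h p p) (∑ p, h p p)
    rw [sub_add_cancel] at h1
    have h2 : a * b ≤ 1 * b := mul_le_mul_of_nonneg_right ha1 hb0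
    linarith
  have b4 : |(∑ p, h p p) - ∑ p, S p p| ≤ 3 * c := by
    rw [← Finset.sum_sub_distrib]
    exact f7_sum3 fun p => hS p p
  have b5 : |∑ j, (h i j - S i j) * u j| ≤ 3 * c := f7_sum3 fun j => by
    rw [abs_mul]
    calc |h i j - S i j| * |u j| ≤ c * 1 := mul_le_mul (hS i j) (hu j) (abs_nonneg _) hc0
      _ = c := mul_one c
  have b6 : |∑ j, (g i j - (if i = j then 1 else 0)) * u j| ≤ 3 * a := f7_sum3 fun j => by
    rw [abs_mul]
    calc |g i j - (if i = j then 1 else 0)| * |u j| ≤ a * 1 := mul_le_mul (hg i j) (hu j) (abs_nonneg _) ha0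
      _ = a := mul_one a
  have e2 : (∑ j, (h i j - tr * g i j) * u j) - ((∑ j, S i j * u j) - (∑ p, S p p) * u i) =
      (∑ j, (h i j - S i j) * u j) - tr * (∑ j, (g i j - (if i = j then 1 else 0)) * u j)
        - ((tr - ∑ p, h p p) + ((∑ p, h p p) - ∑ p, S p p)) * u i := by
    have e3 : ∑ j, (g i j - (if i = j then 1 else 0)) * u j = (∑ j, g i j * u j) - u i := by
      simp only [sub_mul, Finset.sum_sub_distrib, ite_mul, one_mul, zero_mul, Finset.sum_ite_eq, Finset.mem_univ, if_true]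
    have e4 : ∑ j, (h i j - tr * g i j) * u j = (∑ j, h i j * u j) - tr * ∑ j, g i j * u j := by
      rw [Finset.mul_sum, ← Finset.sum_sub_distrib]
      exact Finset.sum_congr rfl fun j _ => by ring
    have e5 : ∑ j, (h i j - S i j) * u j = (∑ j, h i j * u j) - ∑ j, S i j * u j := by
      rw [← Finset.sum_sub_distrib]
      exact Finset.sum_congr rfl fun j _ => by ring
    rw [e3, e4, e5]
    ring
  rw [e2]
  have b7 : |tr * (∑ j, (g i j - (if i = j then 1 else 0)) * u j)| ≤ 12 * b * (3 * a) := by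
    rw [abs_mul]
    exact mul_le_mul b3 b6 (abs_nonneg _) (by linarith)
  have b8 : |((tr - ∑ p, h p p) + ((∑ p, h p p) - ∑ p, S p p)) * u i| ≤ 9 * (a * b) + 3 * c := by
    rw [abs_mul]
    have h1 := abs_add_le (tr - ∑ p, h p p) ((∑ p, h p p) - ∑ p, S p p)
    have h2 : |(tr - ∑ p, h p p) + ((∑ p, h p p) - ∑ p, S p p)| ≤ 9 * (a * b) + 3 * c := by linarith
    calc |(tr - ∑ p, h p p) + ((∑ p, h p p) - ∑ p, S p p)| * |u i| ≤ (9 * (a * b) + 3 * c) * 1 :=
          mul_le_mul h2 (hu i) (abs_nonneg _) (by positivity)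
      _ = 9 * (a * b) + 3 * c := mul_one _
  calc _ ≤ |(∑ j, (h i j - S i j) * u j) - tr * (∑ j, (g i j - (if i = j then 1 else 0)) * u j)| +
        |((tr - ∑ p, h p p) + ((∑ p, h p p) - ∑ p, S p p)) * u i| := abs_sub _ _
    _ ≤ (|∑ j, (h i j - S i j) * u j| + |tr * (∑ j, (g i j - (if i = j then 1 else 0)) * u j)|) +
        |((tr - ∑ p, h p p) + ((∑ p, h p p) - ∑ p, S p p)) * u i| := by
        have := abs_sub (∑ j, (h i j - S i j) * u j) (tr * (∑ j, (g i j - (if i = j then 1 else 0)) * u j))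
        linarith
    _ ≤ (3 * c + 12 * b * (3 * a)) + (9 * (a * b) + 3 * c) := by linarith
    _ = 45 * (a * b) + 6 * c := by ring

theorem f7_unit {x : E3} (hx : x ≠ 0) : (∀ i, |x i / ‖x‖| ≤ 1) ∧ ∑ i, x i / ‖x‖ * (x i / ‖x‖) = 1 := by
  have hx0 : 0 < ‖x‖ := norm_pos_iff.2 hx
  constructor
  · intro i
    rw [abs_div, abs_of_pos hx0, div_le_one hx0]
    have h := PiLp.norm_apply_le x i
    rwa [Real.norm_eq_abs] at h
  · have h1 : ‖x‖ ^ 2 = ∑ i, x i ^ 2 := by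
      rw [EuclideanSpace.norm_sq_eq]
      simp
    have h2 : ∑ i, x i / ‖x‖ * (x i / ‖x‖) = (∑ i, x i ^ 2) / ‖x‖ ^ 2 := by
      rw [Finset.sum_div]
      exact Finset.sum_congr rfl fun i _ => by ring
    rw [h2, ← h1, div_self (by positivity)]

/-- One entry of the metric. -/
theorem f7_entry {t F k w p q u d : ℝ} (ht0 : 0 ≤ t) (ht : t ≤ 1) (hF : |F - 1| ≤ t) (hk : |k - 1| ≤ t)
    (hw : |w - 1| ≤ t) (hp : |p| ≤ t) (hq : |q| ≤ t) (hu : |u| ≤ 1) (hd : |d - u| ≤ 2) :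
    |F * k ^ 2 * u + w ^ 2 * (d - u) - F * (p * q) - d| ≤ 15 * t := by
  have hF' : |F| ≤ 2 := by
    have := abs_sub_abs_le_abs_sub F 1
    rw [abs_one] at this
    linarith
  have hk' : |k + 1| ≤ 3 := by
    have h1 := abs_le.1 hk
    rw [abs_le]
    constructor <;> linarith [h1.1, h1.2]
  have hw' : |w + 1| ≤ 3 := by
    have h1 := abs_le.1 hw
    rw [abs_le]
    constructor <;> linarith [h1.1, h1.2]
  have e1 : F * k ^ 2 * u + w ^ 2 * (d - u) - F * (p * q) - d =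
      (F * ((k - 1) * (k + 1)) + (F - 1)) * u + ((w - 1) * (w + 1)) * (d - u) - F * (p * q) := by ring
  have b1 : |F * ((k - 1) * (k + 1)) + (F - 1)| ≤ 7 * t := by
    calc |F * ((k - 1) * (k + 1)) + (F - 1)| ≤ |F * ((k - 1) * (k + 1))| + |F - 1| := abs_add_le _ _
      _ ≤ 2 * (t * 3) + t := by
        rw [abs_mul, abs_mul]
        have : |F| * (|k - 1| * |k + 1|) ≤ 2 * (t * 3) :=
          mul_le_mul hF' (mul_le_mul hk hk' (abs_nonneg _) ht0) (by positivity) (by norm_num)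
        linarith
      _ = 7 * t := by ring
  have b2 : |(w - 1) * (w + 1)| ≤ 3 * t := by
    rw [abs_mul]
    calc |w - 1| * |w + 1| ≤ t * 3 := mul_le_mul hw hw' (abs_nonneg _) ht0
      _ = 3 * t := by ring
  have b3 : |F * (p * q)| ≤ 2 * t := by
    rw [abs_mul, abs_mul]
    calc |F| * (|p| * |q|) ≤ 2 * (t * t) := mul_le_mul hF' (mul_le_mul hp hq (abs_nonneg _) ht0) (by positivity) (by norm_num)
      _ ≤ 2 * t := by nlinarith
  rw [e1]
  calc |(F * ((k - 1) * (k + 1)) + (F - 1)) * u + ((w - 1) * (w + 1)) * (d - u) - F * (p * q)|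
      ≤ |(F * ((k - 1) * (k + 1)) + (F - 1)) * u + ((w - 1) * (w + 1)) * (d - u)| + |F * (p * q)| := abs_sub _ _
    _ ≤ |(F * ((k - 1) * (k + 1)) + (F - 1)) * u| + |((w - 1) * (w + 1)) * (d - u)| + |F * (p * q)| := by
        have := abs_add_le ((F * ((k - 1) * (k + 1)) + (F - 1)) * u) (((w - 1) * (w + 1)) * (d - u))
        linarith
    _ ≤ 7 * t * 1 + 3 * t * 2 + 2 * t := by
        rw [abs_mul, abs_mul]
        have c1 := mul_le_mul b1 hu (abs_nonneg _) (by linarith : (0 : ℝ) ≤ 7 * t)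
        have c2 := mul_le_mul b2 hd (abs_nonneg _) (by linarith : (0 : ℝ) ≤ 3 * t)
        linarith
    _ = 15 * t := by ring

theorem mom_exp {F : E4 → ℝ} {k : ℝ → ℝ} {r : ℝ × ℝ → ℝ} {f : E3 → ℝ} (hS : Slice F k r f) {C R : ℝ}
    (hB : BD F k r f C R) :
    ∃ C' R' : ℝ, R ≤ R' ∧ ∀ x : E3, R' ≤ ‖x‖ → ∀ i,
      |momDensity (slice (stMetric F k r) f) (second (stMetric F k r) f) i x
        - ((∑ j, (pd j (pd i f) x * (x j / ‖x‖) - pd j (pd j f) x * (x i / ‖x‖)))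
          - 2 * (fderiv ℝ r (qq f x) (1, 0) / ‖x‖) * (x i / ‖x‖))| ≤ C' / ‖x‖ ^ 3 := by
  obtain ⟨C1, R1, hR1, h1⟩ := second_exp hS hB
  have hC0 := hB.C_nonneg
  refine ⟨45 * (90 * C * (4 * C + |C1|)) + 6 * |C1|, max R1 (90 * C), hR1.trans (le_max_left _ _), fun x hx i => ?_⟩
  have hx1 : R1 ≤ ‖x‖ := (le_max_left _ _).trans hx
  have hx2 : 90 * C ≤ ‖x‖ := (le_max_right _ _).trans hx
  have hxR : R ≤ ‖x‖ := hR1.trans hx1
  have hρ1 : 1 ≤ ‖x‖ := hB.R_pos.trans hxR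
  have hρ : 0 < ‖x‖ := by linarith
  have hx0 : x ≠ 0 := norm_pos_iff.1 hρ
  obtain ⟨ρ, hρd⟩ : ∃ ρ, ρ = ‖x‖ := ⟨_, rfl⟩
  obtain ⟨t, ht⟩ : ∃ t, t = C / ρ := ⟨_, rfl⟩
  have hq : qq f x ∈ QQ f := ⟨x, hx0, rfl⟩
  obtain ⟨n, hn⟩ : ∃ n : S2, ‖x‖ • (n : E3) = x := by
    refine ⟨⟨‖x‖⁻¹ • x, ?_⟩, ?_⟩
    · rw [mem_sphere_zero_iff_norm, norm_smul, norm_inv, norm_norm, inv_mul_cancel₀ hρ.ne']
    · show ‖x‖ • (‖x‖⁻¹ • x) = x
      rw [smul_smul, mul_inv_cancel₀ hρ.ne', one_smul]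
  have hev : ev (qq f x) n = pt (f x) x := by
    show pt (f x) (‖x‖ • (n : E3)) = pt (f x) x
    rw [hn]
  have e2 : (qq f x).2 = ‖x‖ := rfl
  have hF := hB.F0 (qq f x) hq hxR n
  have hF1 := hB.F1 (qq f x) hq hxR n 0
  have hk := hB.k0 ‖x‖ hxR
  have hr := hB.r0 (qq f x) hq hxR
  have hrT := hB.rT (qq f x) hq hxR
  have hf1 := hB.f1 x hxR
  have hf2 := hB.f2 x hxR
  have hsec := h1 x hx1
  obtain ⟨hu1, hu2⟩ := f7_unit hx0
  rw [hev, e2] at hF hF1
  rw [e2] at hr hrT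
  simp only [← hρd] at hF hF1 hk hr hrT hf1 hf2 hsec hu1 hu2 hρ hρ1 hx2 ⊢
  rw [← ht] at hF hk hf1 hrT
  have ht0 : 0 ≤ t := by rw [ht]; positivity
  have ht90 : 90 * t ≤ 1 := by
    rw [ht, ← mul_div_assoc, div_le_one hρ]
    exact hx2
  have hw : |r (qq f x) / ρ - 1| ≤ t := by
    have a1 : r (qq f x) / ρ - 1 = (r (qq f x) - ρ) / ρ := by field_simp
    rw [a1, abs_div, abs_of_pos hρ, ht]
    exact div_le_div_of_nonneg_right hr hρ.le
  have hg : ∀ i j, |slice (stMetric F k r) f x i j - (if i = j then 1 else 0)| ≤ 15 * t := by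
    intro i j
    rw [slice_eq, ← hρd]
    have b1 : |x i / ρ * (x j / ρ)| ≤ 1 := by
      rw [abs_mul]
      exact mul_le_one₀ (hu1 i) (abs_nonneg _) (hu1 j)
    have b2 : |(if i = j then (1 : ℝ) else 0) - x i / ρ * (x j / ρ)| ≤ 2 := by
      have b3 := abs_sub (if i = j then (1 : ℝ) else 0) (x i / ρ * (x j / ρ))
      have b4 : |(if i = j then (1 : ℝ) else 0)| ≤ 1 := by split_ifs <;> simp
      linarith
    exact f7_entry ht0 (by linarith) hF hk hw (hf1 i) (hf1 j) b1 b2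
  have hdet : (slice (stMetric F k r) f x).det ≠ 0 :=
    (plane_pos (g := slice (stMetric F k r) f x) (l := fun _ => 1) (fun i j => slice_symm F k r f x i j)
      (fun ξ hξ => hS.spacelike x hx0 ξ hξ) (by
        intro h
        exact one_ne_zero (congrFun h 0))).1
  have hinv := f7_inv hdet (a := 15 * t) (by linarith) hg
  obtain ⟨S, hSd⟩ : ∃ S : Matrix (Fin 3) (Fin 3) ℝ, S = Matrix.of fun i j => pd i (pd j f) x
        + 1 / 2 * H31R.pd 0 F (pt (f x) x) * (x i / ρ * (x j / ρ))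
        + fderiv ℝ r (qq f x) (1, 0) / ρ * ((if i = j then 1 else 0) - x i / ρ * (x j / ρ)) := ⟨_, rfl⟩
  have hSa : ∀ i j, S i j = pd i (pd j f) x
        + 1 / 2 * H31R.pd 0 F (pt (f x) x) * (x i / ρ * (x j / ρ))
        + fderiv ℝ r (qq f x) (1, 0) / ρ * ((if i = j then 1 else 0) - x i / ρ * (x j / ρ)) := by
    intro i j
    rw [hSd]
    rfl
  have hc : ∀ i j, |second (stMetric F k r) f x i j - S i j| ≤ |C1| / ρ ^ 3 := by
    intro i j
    rw [hSa]
    exact (hsec i j).trans (div_le_div_of_nonneg_right (le_abs_self C1) (by positivity))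
  have hSb : ∀ i j, |S i j| ≤ 4 * C / ρ ^ 2 := by
    intro i j
    rw [hSa]
    have b1 : |x i / ρ * (x j / ρ)| ≤ 1 := by
      rw [abs_mul]
      exact mul_le_one₀ (hu1 i) (abs_nonneg _) (hu1 j)
    have b2 : |(if i = j then (1 : ℝ) else 0) - x i / ρ * (x j / ρ)| ≤ 2 := by
      have b3 := abs_sub (if i = j then (1 : ℝ) else 0) (x i / ρ * (x j / ρ))
      have b4 : |(if i = j then (1 : ℝ) else 0)| ≤ 1 := by split_ifs <;> simp
      linarith
    have c1 : |1 / 2 * H31R.pd 0 F (pt (f x) x) * (x i / ρ * (x j / ρ))| ≤ C / ρ ^ 2 := by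
      rw [abs_mul, abs_mul]
      have d1 : |(1 / 2 : ℝ)| ≤ 1 := by rw [abs_of_pos (by norm_num)]; norm_num
      calc |(1 / 2 : ℝ)| * |H31R.pd 0 F (pt (f x) x)| * |x i / ρ * (x j / ρ)|
          ≤ 1 * (C / ρ ^ 2) * 1 := mul_le_mul (mul_le_mul d1 hF1 (abs_nonneg _) zero_le_one) b1 (abs_nonneg _)
            (by positivity)
        _ = C / ρ ^ 2 := by ring
    have c2 : |fderiv ℝ r (qq f x) (1, 0) / ρ * ((if i = j then 1 else 0) - x i / ρ * (x j / ρ))| ≤ 2 * (C / ρ ^ 2) := by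
      rw [abs_mul, abs_div, abs_of_pos hρ]
      have d1 : |fderiv ℝ r (qq f x) (1, 0)| / ρ ≤ C / ρ ^ 2 := by
        rw [div_le_iff₀ hρ]
        refine hrT.trans (le_of_eq ?_)
        rw [ht]
        field_simp
      calc |fderiv ℝ r (qq f x) (1, 0)| / ρ * |(if i = j then (1 : ℝ) else 0) - x i / ρ * (x j / ρ)|
          ≤ C / ρ ^ 2 * 2 := mul_le_mul d1 b2 (abs_nonneg _) (by positivity)
        _ = 2 * (C / ρ ^ 2) := by ring
    have c3 := abs_add_le (pd i (pd j f) x + 1 / 2 * H31R.pd 0 F (pt (f x) x) * (x i / ρ * (x j / ρ)))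
      (fderiv ℝ r (qq f x) (1, 0) / ρ * ((if i = j then 1 else 0) - x i / ρ * (x j / ρ)))
    have c4 := abs_add_le (pd i (pd j f) x) (1 / 2 * H31R.pd 0 F (pt (f x) x) * (x i / ρ * (x j / ρ)))
    have c5 := hf2 i j
    have c6 : 4 * C / ρ ^ 2 = C / ρ ^ 2 + C / ρ ^ 2 + 2 * (C / ρ ^ 2) := by ring
    linarith
  have hh : ∀ i j, |second (stMetric F k r) f x i j| ≤ (4 * C + |C1|) / ρ ^ 2 := by
    intro i j
    have b1 := abs_add_le (second (stMetric F k r) f x i j - S i j) (S i j)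
    rw [sub_add_cancel] at b1
    have b2 : |C1| / ρ ^ 3 ≤ |C1| / ρ ^ 2 :=
      div_le_div_of_nonneg_left (abs_nonneg _) (by positivity) (pow_le_pow_right₀ hρ1 (by norm_num))
    have b3 : (4 * C + |C1|) / ρ ^ 2 = 4 * C / ρ ^ 2 + |C1| / ρ ^ 2 := by ring
    linarith [hc i j, hSb i j]
  have halg := f7_alg (g := slice (stMetric F k r) f x) (H := (slice (stMetric F k r) f x)⁻¹)
    (h := second (stMetric F k r) f x) (S := S) (u := fun j => x j / ρ) (a := 90 * t) (b := (4 * C + |C1|) / ρ ^ 2)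
    (c := |C1| / ρ ^ 3) ht90 (fun i j => (hg i j).trans (by linarith)) (fun i j => (hinv i j).trans (by linarith))
    hh hc hu1 i
  have e3 : momDensity (slice (stMetric F k r) f) (second (stMetric F k r) f) i x =
      ∑ j, (second (stMetric F k r) f x i j - (∑ p, ∑ q, (slice (stMetric F k r) f x)⁻¹ p q *
        second (stMetric F k r) f x p q) * slice (stMetric F k r) f x i j) * (x j / ρ) := by
    rw [hρd]
    rfl
  have e4 : (∑ j, S i j * (x j / ρ)) - (∑ p, S p p) * (x i / ρ) =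
      (∑ j, (pd j (pd i f) x * (x j / ρ) - pd j (pd j f) x * (x i / ρ)))
          - 2 * (fderiv ℝ r (qq f x) (1, 0) / ρ) * (x i / ρ) := by
    have hsy : ∀ i j, pd i (pd j f) x = pd j (pd i f) x := by
      have hfx := hS.f_smooth x hx0
      have hs : IsSymmSndFDerivAt ℝ f x := hfx.isSymmSndFDerivAt (by simp; norm_cast)
      have hd : DifferentiableAt ℝ (fderiv ℝ f) x :=
        (hfx.fderiv_right (m := ∞) (by simp)).differentiableAt (by simp)
      have key : ∀ i j : Fin 3, pd i (pd j f) x =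
          fderiv ℝ (fderiv ℝ f) x (EuclideanSpace.single i 1) (EuclideanSpace.single j 1) := by
        intro i j
        unfold pd
        rw [fderiv_clm_apply hd (differentiableAt_const _)]
        simp
      intro i j
      rw [key, key]
      exact hs _ _
    have s1 : ∑ j, S i j * (x j / ρ) = (∑ j, pd j (pd i f) x * (x j / ρ)) +
        1 / 2 * H31R.pd 0 F (pt (f x) x) * (x i / ρ) * (∑ j, x j / ρ * (x j / ρ)) +
        fderiv ℝ r (qq f x) (1, 0) / ρ * (x i / ρ - x i / ρ * ∑ j, x j / ρ * (x j / ρ)) := by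
      have s2 : ∑ j, (if i = j then 1 else 0) * (x j / ρ) = x i / ρ := by
        simp
      have s5 : ∀ j, S i j * (x j / ρ) = pd j (pd i f) x * (x j / ρ) +
          1 / 2 * H31R.pd 0 F (pt (f x) x) * (x i / ρ) * (x j / ρ * (x j / ρ)) +
          fderiv ℝ r (qq f x) (1, 0) / ρ * ((if i = j then 1 else 0) * (x j / ρ) - x i / ρ * (x j / ρ * (x j / ρ))) := by
        intro j
        rw [hSa, hsy i j]
        ring
      rw [Finset.sum_congr rfl fun j _ => s5 j, Finset.sum_add_distrib, Finset.sum_add_distrib, ← Finset.mul_sum,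
        ← Finset.mul_sum, Finset.sum_sub_distrib, ← Finset.mul_sum, s2]
    have s3 : ∑ p, S p p = (∑ j, pd j (pd j f) x) +
        1 / 2 * H31R.pd 0 F (pt (f x) x) * (∑ j, x j / ρ * (x j / ρ)) +
        fderiv ℝ r (qq f x) (1, 0) / ρ * (3 - ∑ j, x j / ρ * (x j / ρ)) := by
      have s4 : ∑ _j : Fin 3, (1 : ℝ) = 3 := by simp
      have s5 : ∀ j, S j j = pd j (pd j f) x + 1 / 2 * H31R.pd 0 F (pt (f x) x) * (x j / ρ * (x j / ρ)) +
          fderiv ℝ r (qq f x) (1, 0) / ρ * (1 - x j / ρ * (x j / ρ)) := by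
        intro j
        rw [hSa, if_pos rfl]
      rw [Finset.sum_congr rfl fun j _ => s5 j, Finset.sum_add_distrib, Finset.sum_add_distrib, ← Finset.mul_sum,
        ← Finset.mul_sum, Finset.sum_sub_distrib, s4]
    rw [s1, s3, hu2, Finset.sum_sub_distrib, ← Finset.sum_mul]
    ring
  rw [e3, ← e4]
  refine halg.trans (le_of_eq ?_)
  rw [ht]
  field_simp

end H17T
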