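import Pool.Agent.Lib.H17T.F7
import Pool.Agent.Lib.H17T.F2

set_option autoImplicit false

/-!
# H17T, chunks F8A (S/M) and F8B (M): the linear momentum vanishes

F8A (`flux_zero`): `Σ_j (x_j ∂_j ∂_i f - x_i ∂_j ∂_j f) = Σ_j (x_j ∂_i - x_i ∂_j)(∂_j f)`, and the mean over the sphere of each rotational derivative
vanishes (`Pool.Agent.Lib.PenroseSph.avg_rot`, `f` is smooth off the origin; the term `j = i` is zero).
F8B (`mom_lim`): `admMom g h i s = (1/(8π)) ∫ s² momDensity g h i (s • n)`; by `mom_exp` and `flux_zero` this is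
`-(1/(8π)) ∫ 2 s r_T (qq f (s • n)) n_i + O(1/s)`, by `times` `r_T (qq f (s • n)) = r_T (qq f (s • n0)) + O(1/s²)` for a fixed `n0`, and `∫ n_i = 0`
(`Pool.Agent.Lib.PenroseSph.avg_coord`). (Continuity of the integrand: `dens_cont`.)
-/

open MeasureTheory Filter Topology Set
open scoped ContDiff

namespace H17T

open Pool.Agent.Lib.PenroseSph (E3 Tens S2 sm pd momDensity admMom)

theorem f8a_sm {φ : E3 → ℝ} {x : E3} (h : ContDiffAt ℝ ∞ φ x) (i : Fin 3) : ContDiffAt ℝ ∞ (pd i φ) x := by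
  unfold pd
  exact (h.fderiv_right (m := ∞) (by simp)).clm_apply contDiffAt_const

theorem f8a_symm {φ : E3 → ℝ} {x : E3} (h : ContDiffAt ℝ ∞ φ x) (i j : Fin 3) :
    pd i (pd j φ) x = pd j (pd i φ) x := by
  have hs : IsSymmSndFDerivAt ℝ φ x := h.isSymmSndFDerivAt (by simp; norm_cast)
  have hd : DifferentiableAt ℝ (fderiv ℝ φ) x :=
    (h.fderiv_right (m := ∞) (by simp)).differentiableAt (by simp)
  have key : ∀ i j : Fin 3, pd i (pd j φ) x =
      fderiv ℝ (fderiv ℝ φ) x (EuclideanSpace.single i 1) (EuclideanSpace.single j 1) := by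
    intro i j
    unfold pd
    rw [fderiv_clm_apply hd (differentiableAt_const _)]
    simp
  rw [key, key]
  exact hs _ _

theorem f8a_cont {φ : E3 → ℝ} (h : ∀ x : E3, x ≠ 0 → ContDiffAt ℝ ∞ φ x) {s : ℝ} (hs : 0 < s) :
    Continuous fun n : S2 => φ (s • (n : E3)) := by
  refine Pool.Agent.Lib.PenroseSph.cont_ray (a := s / 2) (by linarith) (fun x hx => ?_) (by linarith)
  have hx0 : x ≠ 0 := by
    rintro rfl
    have h1 : s / 2 < ‖(0 : E3)‖ := hx
    rw [norm_zero] at h1
    linarith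
  exact (h x hx0).continuousAt.continuousWithinAt

/-- chunk F8A -/
theorem flux_zero {f : E3 → ℝ} (hf : ∀ x : E3, x ≠ 0 → ContDiffAt ℝ ∞ f x) {s : ℝ} (hs : 0 < s) (i : Fin 3) :
    ∫ n : S2, (∑ j, (pd j (pd i f) (s • (n : E3)) * (n : E3) j - pd j (pd j f) (s • (n : E3)) * (n : E3) i)) ∂sm
      = 0 := by
  have h1 : ∀ j, ∀ x : E3, x ≠ 0 → ContDiffAt ℝ ∞ (pd j f) x := fun j x hx => f8a_sm (hf x hx) j
  have h2 : ∀ i j, ∀ x : E3, x ≠ 0 → ContDiffAt ℝ ∞ (pd i (pd j f)) x := fun i j x hx => f8a_sm (h1 j x hx) i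
  have hcoord : ∀ j : Fin 3, Continuous fun n : S2 => (n : E3) j := fun j => by fun_prop
  have hi : ∀ j, Integrable (fun n : S2 => pd j (pd i f) (s • (n : E3)) * (n : E3) j -
      pd j (pd j f) (s • (n : E3)) * (n : E3) i) sm := fun j => Pool.Agent.Lib.PenroseSph.integrable_S2
    (((f8a_cont (h2 j i) hs).mul (hcoord j)).sub ((f8a_cont (h2 j j) hs).mul (hcoord i)))
  rw [integral_finsetSum _ fun j _ => hi j]
  refine Finset.sum_eq_zero fun j _ => ?_
  by_cases hij : i = j
  · rw [hij]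
    simp
  · have h3 := Pool.Agent.Lib.PenroseSph.avg_rot (a := s / 2) (t := s) (by linarith) (by linarith) (f := pd j f)
      (fun x hx => by
        have hx0 : x ≠ 0 := by
          rintro rfl
          have h4 : s / 2 < ‖(0 : E3)‖ := hx
          rw [norm_zero] at h4
          linarith
        exact ((h1 j x hx0).of_le (by simp)).contDiffWithinAt) hij
    unfold Pool.Agent.Lib.PenroseSph.avg at h3
    have hpi : (4 * Real.pi)⁻¹ ≠ 0 := by positivity
    have h5 := (mul_eq_zero.1 h3).resolve_left hpi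
    have h6 : ∀ n : S2, pd j (pd i f) (s • (n : E3)) * (n : E3) j - pd j (pd j f) (s • (n : E3)) * (n : E3) i =
        (-s⁻¹) * ((s • (n : E3)) i * pd j (pd j f) (s • (n : E3)) - (s • (n : E3)) j * pd i (pd j f) (s • (n : E3))) := by
      intro n
      have hn0 : s • (n : E3) ≠ 0 := by
        intro h
        have h7 := Pool.Agent.Lib.PenroseSph.norm_ray hs n
        rw [h, norm_zero] at h7
        exact hs.ne h7
      rw [f8a_symm (hf _ hn0) i j]
      simp only [PiLp.smul_apply, smul_eq_mul]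
      field_simp
      ring
    simp only [h6]
    rw [integral_const_mul, h5, mul_zero]

/-- chunk F8B -/
theorem mom_lim {F : E4 → ℝ} {k : ℝ → ℝ} {r : ℝ × ℝ → ℝ} {f : E3 → ℝ} (hS : Slice F k r f) {C R : ℝ}
    (hB : BD F k r f C R) (i : Fin 3) :
    Tendsto (admMom (slice (stMetric F k r) f) (second (stMetric F k r) f) i) atTop (𝓝 0) := by
  obtain ⟨C1, R1, hR1, h1⟩ := mom_exp hS hB
  obtain ⟨C2, h2⟩ := times hS hB
  obtain ⟨n0⟩ : Nonempty S2 := ⟨⟨EuclideanSpace.single 0 1, by simp⟩⟩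
  have hcoord : ∀ j : Fin 3, Continuous fun n : S2 => (n : E3) j := fun j => by fun_prop
  have hci : ∫ n : S2, (n : E3) i ∂sm = 0 := by
    have a1 := Pool.Agent.Lib.PenroseSph.avg_coord (t := 1) one_pos i
    unfold Pool.Agent.Lib.PenroseSph.avg at a1
    have hpi : (4 * Real.pi)⁻¹ ≠ 0 := by positivity
    have a2 := (mul_eq_zero.1 a1).resolve_left hpi
    simp only [one_smul] at a2
    exact a2
  have hmain : ∀ s : ℝ, R1 ≤ s → ‖admMom (slice (stMetric F k r) f) (second (stMetric F k r) f) i s‖ ≤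
      (|C1| + 2 * |C2|) / 2 / s := by
    intro s hs
    have hs1 : 1 ≤ s := by linarith [hB.R_pos]
    have hs0 : 0 < s := by linarith
    have hpi := Real.pi_pos
    obtain ⟨q0, hq0⟩ : ∃ q0, q0 = fderiv ℝ r (qq f (s • (n0 : E3))) (1, 0) := ⟨_, rfl⟩
    obtain ⟨mo, hmo⟩ : ∃ mo : S2 → ℝ, mo = fun n : S2 => momDensity (slice (stMetric F k r) f)
      (second (stMetric F k r) f) i (s • (n : E3)) := ⟨_, rfl⟩
    obtain ⟨D, hD⟩ : ∃ D : S2 → ℝ, D = fun n : S2 => ∑ j, (pd j (pd i f) (s • (n : E3)) * (n : E3) j -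
      pd j (pd j f) (s • (n : E3)) * (n : E3) i) := ⟨_, rfl⟩
    have hnn : ∀ n : S2, ‖s • (n : E3)‖ = s := Pool.Agent.Lib.PenroseSph.norm_ray hs0
    have hne : ∀ n : S2, s • (n : E3) ≠ 0 := by
      intro n h
      have a1 := hnn n
      rw [h, norm_zero] at a1
      exact hs0.ne a1
    have cmo : Continuous mo := by
      rw [hmo, continuous_iff_continuousAt]
      intro n
      have a1 : ContinuousAt (fun n : S2 => s • (n : E3)) n := by fun_prop
      exact ContinuousAt.comp (f := fun n : S2 => s • (n : E3)) (dens_cont hS (hne n) i).2 a1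
    have cD : Continuous D := by
      have b1 : ∀ j, ∀ x : E3, x ≠ 0 → ContDiffAt ℝ ∞ (pd j f) x := fun j x hx => f8a_sm (hS.f_smooth x hx) j
      have b2 : ∀ i j, ∀ x : E3, x ≠ 0 → ContDiffAt ℝ ∞ (pd i (pd j f)) x := fun i j x hx => f8a_sm (b1 j x hx) i
      rw [hD]
      exact continuous_finsetSum _ fun j _ =>
        ((f8a_cont (b2 j i) hs0).mul (hcoord j)).sub ((f8a_cont (b2 j j) hs0).mul (hcoord i))
    have hDz : ∫ n : S2, D n ∂sm = 0 := by
      rw [hD]
      exact flux_zero hS.f_smooth hs0 i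
    have hb : ∀ n : S2, ‖s ^ 2 * mo n - s ^ 2 * D n + 2 * s * q0 * (n : E3) i‖ ≤ (|C1| + 2 * |C2|) / s := by
      intro n
      have a1 := h1 (s • (n : E3)) (by rw [hnn n]; exact hs) i
      rw [hnn n] at a1
      have a2 := (h2 (s • (n : E3)) (s • (n0 : E3)) (by rw [hnn n]; linarith) (by rw [hnn n, hnn n0])).2.2
      rw [hnn n, ← hq0] at a2
      obtain ⟨qn, hqn⟩ : ∃ qn, qn = fderiv ℝ r (qq f (s • (n : E3))) (1, 0) := ⟨_, rfl⟩
      rw [← hqn] at a1 a2
      have e1 : ∀ j, (s • (n : E3)) j / s = (n : E3) j := by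
        intro j
        simp only [PiLp.smul_apply, smul_eq_mul]
        field_simp
      simp only [e1] at a1
      have e2 : momDensity (slice (stMetric F k r) f) (second (stMetric F k r) f) i (s • (n : E3)) = mo n := by
        rw [hmo]
      have e3 : (∑ j, (pd j (pd i f) (s • (n : E3)) * (n : E3) j - pd j (pd j f) (s • (n : E3)) * (n : E3) i)) = D n := by
        rw [hD]
      rw [e2, e3] at a1
      have hni : |(n : E3) i| ≤ 1 := by
        have b1 := f2_coord (n : E3) i
        have b2 : ‖(n : E3)‖ = 1 := by simp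
        rwa [b2] at b1
      have e4 : s ^ 2 * mo n - s ^ 2 * D n + 2 * s * q0 * (n : E3) i =
          s ^ 2 * (mo n - (D n - 2 * (qn / s) * (n : E3) i)) - 2 * s * (qn - q0) * (n : E3) i := by
        field_simp
        ring
      rw [Real.norm_eq_abs, e4]
      have c1 : |s ^ 2 * (mo n - (D n - 2 * (qn / s) * (n : E3) i))| ≤ |C1| / s := by
        rw [abs_mul, abs_of_pos (by positivity : (0 : ℝ) < s ^ 2)]
        calc s ^ 2 * |mo n - (D n - 2 * (qn / s) * (n : E3) i)| ≤ s ^ 2 * (C1 / s ^ 3) :=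
              mul_le_mul_of_nonneg_left a1 (by positivity)
          _ = C1 / s := by field_simp
          _ ≤ |C1| / s := div_le_div_of_nonneg_right (le_abs_self C1) hs0.le
      have c2 : |2 * s * (qn - q0) * (n : E3) i| ≤ 2 * |C2| / s := by
        rw [abs_mul, abs_mul, abs_of_pos (by positivity : (0 : ℝ) < 2 * s)]
        calc 2 * s * |qn - q0| * |(n : E3) i| ≤ 2 * s * |qn - q0| * 1 :=
              mul_le_mul_of_nonneg_left hni (by positivity)
          _ ≤ 2 * s * (C2 / s ^ 2) * 1 := by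
              refine mul_le_mul_of_nonneg_right (mul_le_mul_of_nonneg_left a2 (by positivity)) zero_le_one
          _ = 2 * C2 / s := by field_simp
          _ ≤ 2 * |C2| / s := div_le_div_of_nonneg_right (by linarith [le_abs_self C2]) hs0.le
      calc |s ^ 2 * (mo n - (D n - 2 * (qn / s) * (n : E3) i)) - 2 * s * (qn - q0) * (n : E3) i|
          ≤ |s ^ 2 * (mo n - (D n - 2 * (qn / s) * (n : E3) i))| + |2 * s * (qn - q0) * (n : E3) i| := abs_sub _ _
        _ ≤ |C1| / s + 2 * |C2| / s := add_le_add c1 c2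
        _ = (|C1| + 2 * |C2|) / s := by ring
    have hint := norm_integral_le_of_norm_le_const (μ := sm) (Filter.Eventually.of_forall hb)
    rw [Pool.Agent.Lib.PenroseSph.sm_univ] at hint
    have i1 : Integrable (fun n : S2 => s ^ 2 * mo n) sm :=
      Pool.Agent.Lib.PenroseSph.integrable_S2 (continuous_const.mul cmo)
    have i2 : Integrable (fun n : S2 => s ^ 2 * D n) sm :=
      Pool.Agent.Lib.PenroseSph.integrable_S2 (continuous_const.mul cD)
    have i3 : Integrable (fun n : S2 => 2 * s * q0 * (n : E3) i) sm :=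
      Pool.Agent.Lib.PenroseSph.integrable_S2 (continuous_const.mul (hcoord i))
    have e5 : ∫ n : S2, (s ^ 2 * mo n - s ^ 2 * D n + 2 * s * q0 * (n : E3) i) ∂sm = ∫ n : S2, s ^ 2 * mo n ∂sm := by
      have i12 : Integrable (fun n : S2 => s ^ 2 * mo n - s ^ 2 * D n) sm := i1.sub i2
      rw [integral_add i12 i3, integral_sub i1 i2, integral_const_mul (s ^ 2) D, hDz,
        integral_const_mul (2 * s * q0), hci]
      ring
    rw [e5] at hint
    have e6 : admMom (slice (stMetric F k r) f) (second (stMetric F k r) f) i s =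
        1 / (8 * Real.pi) * ∫ n : S2, s ^ 2 * mo n ∂sm := by
      rw [hmo]
      rfl
    rw [e6, norm_mul, Real.norm_eq_abs, abs_of_pos (by positivity : (0 : ℝ) < 1 / (8 * Real.pi))]
    calc 1 / (8 * Real.pi) * ‖∫ n : S2, s ^ 2 * mo n ∂sm‖
        ≤ 1 / (8 * Real.pi) * ((|C1| + 2 * |C2|) / s * (4 * Real.pi)) :=
          mul_le_mul_of_nonneg_left hint (by positivity)
      _ = (|C1| + 2 * |C2|) / 2 / s := by
          field_simp
          ring
  refine squeeze_zero_norm' (Filter.eventually_atTop.2 ⟨R1, hmain⟩) ?_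
  exact tendsto_const_nhds.div_atTop tendsto_id

end H17T
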