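import Pool.Agent.Lib.H17T.Red

set_option autoImplicit false

/-!
# H17T, chunk G1 (M/L): a level set which is met once by every ray is a smooth radial graph

For `x ≠ 0` there is exactly one `t > 0` with `(t/‖x‖) • x ∈ U` and `Ψ((t/‖x‖) • x) = δ` (uniqueness: `U` is star-shaped outwards and
`t ↦ Ψ((t/‖x‖) • x)` is strictly increasing there by `hrad`); let `s x` be this `t` (and `s 0 = 1`). Positivity and homogeneity are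
clear. Smoothness at `x0 ≠ 0`: the function `(t, x) ↦ Ψ((t/‖x‖) • x)` is smooth near `(s x0, x0)` with positive `t`-derivative
`fderiv Ψ (..) (x0/‖x0‖)`; the implicit function theorem (for instance the local inverse, `ContDiffAt.to_localInverse`, of
`(t, x) ↦ (Ψ((t/‖x‖) • x), x)` on `ℝ × E3`) gives a smooth `t(x)` near `x0` with `t(x0) = s x0`, `(t(x)/‖x‖) • x ∈ U` (open),
`t(x) > 0` and value `δ`, hence `t(x) = s x` near `x0`. The first lemma deals with `ContDiffAt ℝ ∞`.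
-/

open MeasureTheory Filter Topology Set
open scoped ContDiff

namespace H17T

open Pool.Agent.Lib.PenroseSph (E3 Tens S2 sm)

theorem g1_mem {U : Set E3} (hstar : ∀ x ∈ U, ∀ c : ℝ, 1 ≤ c → c • x ∈ U) {u : E3} {t1 t : ℝ} (h1 : 0 < t1)
    (ht : t1 ≤ t) (hm : t1 • u ∈ U) : t • u ∈ U := by
  have h2 := hstar _ hm (t / t1) ((one_le_div h1).2 ht)
  rwa [smul_smul, div_mul_cancel₀ _ h1.ne'] at h2

theorem g1_der {Ψ : E3 → ℝ} {u : E3} {t : ℝ} (hd : DifferentiableAt ℝ Ψ (t • u)) :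
    HasDerivAt (fun t : ℝ => Ψ (t • u)) (fderiv ℝ Ψ (t • u) u) t := by
  have hs : HasDerivAt (fun t : ℝ => t • u) u t := by
    have h := (hasDerivAt_id t).smul_const u
    rw [one_smul] at h
    exact h
  exact hd.hasFDerivAt.comp_hasDerivAt t hs

theorem g1_pos {Ψ : E3 → ℝ} {u : E3} {t : ℝ} (ht : 0 < t) (h : 0 < fderiv ℝ Ψ (t • u) (t • u)) :
    0 < fderiv ℝ Ψ (t • u) u := by
  rw [map_smul, smul_eq_mul] at h
  exact (mul_pos_iff_of_pos_left ht).1 h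

theorem g1_mono {Ψ : E3 → ℝ} {U : Set E3}
    (hstar : ∀ x ∈ U, ∀ c : ℝ, 1 ≤ c → c • x ∈ U) (hΨ : ∀ x ∈ U, ContDiffAt ℝ ∞ Ψ x)
    (hrad : ∀ x ∈ U, 0 < fderiv ℝ Ψ x x) {u : E3} {t1 t2 : ℝ} (h1 : 0 < t1) (h12 : t1 < t2)
    (hm : t1 • u ∈ U) : Ψ (t1 • u) < Ψ (t2 • u) := by
  have hmem : ∀ t, t1 ≤ t → t • u ∈ U := fun t ht => g1_mem hstar h1 ht hm
  have hder : ∀ t, t1 ≤ t → HasDerivAt (fun t : ℝ => Ψ (t • u)) (fderiv ℝ Ψ (t • u) u) t := fun t ht =>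
    g1_der ((hΨ _ (hmem t ht)).differentiableAt (by simp))
  have hsm : StrictMonoOn (fun t : ℝ => Ψ (t • u)) (Set.Ici t1) :=
    strictMonoOn_of_deriv_pos (convex_Ici t1)
      (fun t ht => (hder t ht).continuousAt.continuousWithinAt) (fun t ht => by
        rw [interior_Ici] at ht
        have ht' : t1 ≤ t := le_of_lt ht
        rw [(hder t ht').deriv]
        exact g1_pos (h1.trans_le ht') (hrad _ (hmem t ht')))
  exact hsm (Set.mem_Ici.2 le_rfl) (Set.mem_Ici.2 h12.le) h12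

theorem g1_uniq {Ψ : E3 → ℝ} {U : Set E3}
    (hstar : ∀ x ∈ U, ∀ c : ℝ, 1 ≤ c → c • x ∈ U) (hΨ : ∀ x ∈ U, ContDiffAt ℝ ∞ Ψ x)
    (hrad : ∀ x ∈ U, 0 < fderiv ℝ Ψ x x) {u : E3} {t1 t2 δ : ℝ} (h1 : 0 < t1) (h2 : 0 < t2)
    (hm1 : t1 • u ∈ U) (hm2 : t2 • u ∈ U) (e1 : Ψ (t1 • u) = δ) (e2 : Ψ (t2 • u) = δ) : t1 = t2 := by
  rcases lt_trichotomy t1 t2 with h | h | h
  · have h3 := g1_mono hstar hΨ hrad h1 h hm1
    rw [e1, e2] at h3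
    exact absurd h3 (lt_irrefl _)
  · exact h
  · have h3 := g1_mono hstar hΨ hrad h2 h hm2
    rw [e1, e2] at h3
    exact absurd h3 (lt_irrefl _)

theorem g1_equiv (L : (ℝ × E3) →L[ℝ] ℝ) (ha : L (1, 0) ≠ 0) : ∃ e : (ℝ × E3) ≃L[ℝ] (ℝ × E3),
    (e : (ℝ × E3) →L[ℝ] (ℝ × E3)) = L.prod (ContinuousLinearMap.snd ℝ ℝ E3) := by
  have hL : ∀ (τ : ℝ) (v : E3), L (τ, v) = τ * L (1, 0) + L (0, v) := by
    intro τ v
    have h : (τ, v) = τ • ((1 : ℝ), (0 : E3)) + (0, v) := by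
      ext <;> simp
    rw [h, map_add, map_smul, smul_eq_mul]
  refine ⟨ContinuousLinearEquiv.equivOfInverse (L.prod (ContinuousLinearMap.snd ℝ ℝ E3))
    (((L (1, 0))⁻¹ • (ContinuousLinearMap.fst ℝ ℝ E3 -
      L.comp ((0 : (ℝ × E3) →L[ℝ] ℝ).prod (ContinuousLinearMap.snd ℝ ℝ E3)))).prod (ContinuousLinearMap.snd ℝ ℝ E3))
    ?_ ?_, rfl⟩
  · rintro ⟨τ, v⟩
    refine Prod.ext ?_ rfl
    show (L (1, 0))⁻¹ * (L (τ, v) - L (0, v)) = τ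
    rw [hL τ v]
    field_simp
    ring
  · rintro ⟨τ, v⟩
    refine Prod.ext ?_ rfl
    show L ((L (1, 0))⁻¹ * (τ - L (0, v)), v) = τ
    rw [hL]
    field_simp
    ring

theorem g1_smooth {Ψ : E3 → ℝ} {U : Set E3} (hU : IsOpen U)
    (hstar : ∀ x ∈ U, ∀ c : ℝ, 1 ≤ c → c • x ∈ U) (hΨ : ∀ x ∈ U, ContDiffAt ℝ ∞ Ψ x)
    (hrad : ∀ x ∈ U, 0 < fderiv ℝ Ψ x x) {δ : ℝ} {s : E3 → ℝ}
    (hs : ∀ x : E3, x ≠ 0 → 0 < s x ∧ s x • (‖x‖⁻¹ • x) ∈ U ∧ Ψ (s x • (‖x‖⁻¹ • x)) = δ) {x0 : E3} (hx0 : x0 ≠ 0) :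
    ContDiffAt ℝ ∞ s x0 := by
  obtain ⟨ht0, hm0, hv0⟩ := hs x0 hx0
  obtain ⟨p0, hp0⟩ : ∃ p0 : ℝ × E3, p0 = (s x0, x0) := ⟨_, rfl⟩
  obtain ⟨J, hJ⟩ : ∃ J : ℝ × E3 → E3, J = fun p => p.1 • (‖p.2‖⁻¹ • p.2) := ⟨_, rfl⟩
  obtain ⟨H, hH⟩ : ∃ H : ℝ × E3 → ℝ, H = fun p => Ψ (J p) := ⟨_, rfl⟩
  have hJp : J p0 = s x0 • (‖x0‖⁻¹ • x0) := by rw [hJ, hp0]
  have hp2 : p0.2 ≠ 0 := by
    rw [hp0]
    exact hx0
  have hJc : ContDiffAt ℝ ∞ J p0 := by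
    rw [hJ]
    have h1 : ContDiffAt ℝ ∞ (fun p : ℝ × E3 => ‖p.2‖) p0 := contDiffAt_snd.norm ℝ hp2
    exact contDiffAt_fst.smul ((h1.inv (norm_ne_zero_iff.2 hp2)).smul contDiffAt_snd)
  have hHc : ContDiffAt ℝ ∞ H p0 := by
    rw [hH]
    have h1 : ContDiffAt ℝ ∞ Ψ (J p0) := by
      rw [hJp]
      exact hΨ _ hm0
    exact h1.comp p0 hJc
  have hL : HasFDerivAt H (fderiv ℝ H p0) p0 := (hHc.differentiableAt (by simp)).hasFDerivAt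
  have ha : 0 < fderiv ℝ H p0 (1, 0) := by
    have h1 : HasDerivAt (fun t : ℝ => H (t, x0)) (fderiv ℝ H p0 (1, 0)) (s x0) := by
      have h2 : HasDerivAt (fun t : ℝ => ((t, x0) : ℝ × E3)) (1, 0) (s x0) :=
        (hasDerivAt_id (s x0)).prodMk (hasDerivAt_const (s x0) x0)
      rw [hp0] at hL ⊢
      exact hL.comp_hasDerivAt (s x0) h2
    have h3 : HasDerivAt (fun t : ℝ => H (t, x0)) (fderiv ℝ Ψ (s x0 • (‖x0‖⁻¹ • x0)) (‖x0‖⁻¹ • x0)) (s x0) := by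
      rw [hH, hJ]
      exact g1_der ((hΨ _ hm0).differentiableAt (by simp))
    rw [h1.unique h3]
    exact g1_pos ht0 (hrad _ hm0)
  obtain ⟨e, he⟩ := g1_equiv (fderiv ℝ H p0) ha.ne'
  obtain ⟨F, hF⟩ : ∃ F : ℝ × E3 → ℝ × E3, F = fun p => (H p, p.2) := ⟨_, rfl⟩
  have hFc : ContDiffAt ℝ ∞ F p0 := by
    rw [hF]
    exact hHc.prodMk contDiffAt_snd
  have hFd : HasFDerivAt F (e : (ℝ × E3) →L[ℝ] (ℝ × E3)) p0 := by
    rw [he, hF]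
    exact hL.prodMk hasFDerivAt_snd
  have hn : (∞ : WithTop ℕ∞) ≠ 0 := by simp
  have hFp : F p0 = (δ, x0) := by
    rw [hF]
    show (H p0, p0.2) = (δ, x0)
    rw [hH]
    show (Ψ (J p0), p0.2) = (δ, x0)
    rw [hJp, hv0, hp0]
  have hG := hFc.to_localInverse hFd hn
  have hGp := hFc.localInverse_apply_image hFd hn
  have hr := (hFc.hasStrictFDerivAt' hFd hn).eventually_right_inverse
  obtain ⟨G, hGdef⟩ : ∃ G : ℝ × E3 → ℝ × E3, G = hFc.localInverse hFd hn := ⟨_, rfl⟩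
  have hr' : ∀ᶠ y in 𝓝 (F p0), F (G y) = y := by
    rw [hGdef]
    exact hr
  rw [← hGdef] at hG hGp
  rw [hFp] at hG hGp hr'
  have hin : ContDiffAt ℝ ∞ (fun x : E3 => ((δ, x) : ℝ × E3)) x0 := contDiffAt_const.prodMk contDiffAt_id
  have hin' : Filter.Tendsto (fun x : E3 => ((δ, x) : ℝ × E3)) (𝓝 x0) (𝓝 (δ, x0)) := hin.continuousAt
  have ht : ContDiffAt ℝ ∞ (fun x : E3 => (G (δ, x)).1) x0 := (ContDiffAt.comp x0 hG hin).fst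
  have hGt : Filter.Tendsto (fun x : E3 => G (δ, x)) (𝓝 x0) (𝓝 p0) := by
    have h1 : ContinuousAt G (δ, x0) := hG.continuousAt
    have h2 : Filter.Tendsto G (𝓝 (δ, x0)) (𝓝 p0) := by
      have h3 := h1.tendsto
      rwa [hGp] at h3
    exact h2.comp hin'
  have e1 : ∀ᶠ x in 𝓝 x0, F (G (δ, x)) = (δ, x) := hin'.eventually hr'
  have e2 : ∀ᶠ x in 𝓝 x0, 0 < (G (δ, x)).1 := by
    have h1 : ∀ᶠ p : ℝ × E3 in 𝓝 p0, 0 < p.1 := by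
      have h2 : (0 : ℝ) < p0.1 := by
        rw [hp0]
        exact ht0
      exact continuousAt_fst.eventually_const_lt h2
    exact hGt.eventually h1
  have e3 : ∀ᶠ x in 𝓝 x0, J (G (δ, x)) ∈ U := by
    have h1 : ∀ᶠ p : ℝ × E3 in 𝓝 p0, J p ∈ U := by
      have h2 : U ∈ 𝓝 (J p0) := hU.mem_nhds (by rw [hJp]; exact hm0)
      exact hJc.continuousAt.eventually h2
    exact hGt.eventually h1
  have e4 : ∀ᶠ x : E3 in 𝓝 x0, x ≠ 0 := isOpen_ne.mem_nhds hx0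
  refine ht.congr_of_eventuallyEq ?_
  filter_upwards [e1, e2, e3, e4] with x h1 h2 h3 h4
  have h5 : (G (δ, x)).2 = x := by
    have h := congrArg Prod.snd h1
    rw [hF] at h
    exact h
  have h6 : Ψ (J (G (δ, x))) = δ := by
    have h := congrArg Prod.fst h1
    rw [hF] at h
    change H (G (δ, x)) = δ at h
    rw [hH] at h
    exact h
  have h7 : J (G (δ, x)) = (G (δ, x)).1 • (‖x‖⁻¹ • x) := by
    rw [hJ]
    show (G (δ, x)).1 • (‖(G (δ, x)).2‖⁻¹ • (G (δ, x)).2) = _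
    rw [h5]
  rw [h7] at h3 h6
  obtain ⟨g1, g2, g3⟩ := hs x h4
  exact g1_uniq hstar hΨ hrad g1 h2 g2 h3 g3 h6

theorem graph_of_level {Ψ : E3 → ℝ} {U : Set E3} (hU : IsOpen U) (h0 : ∀ x ∈ U, x ≠ 0)
    (hstar : ∀ x ∈ U, ∀ c : ℝ, 1 ≤ c → c • x ∈ U) (hΨ : ∀ x ∈ U, ContDiffAt ℝ ∞ Ψ x)
    (hrad : ∀ x ∈ U, 0 < fderiv ℝ Ψ x x) {δ : ℝ}
    (hex : ∀ n : S2, ∃ t : ℝ, 0 < t ∧ t • (n : E3) ∈ U ∧ Ψ (t • (n : E3)) = δ) :
    ∃ s : E3 → ℝ, RadialGraph s ∧ ∀ n : S2, s n • (n : E3) ∈ U ∧ Ψ (s n • (n : E3)) = δ := by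
  classical
  have hex' : ∀ x : E3, ∃ t : ℝ, x ≠ 0 → 0 < t ∧ t • (‖x‖⁻¹ • x) ∈ U ∧ Ψ (t • (‖x‖⁻¹ • x)) = δ := by
    intro x
    by_cases hx : x = 0
    · exact ⟨0, fun h => absurd hx h⟩
    · have hn : ‖(‖x‖⁻¹ • x)‖ = 1 := by
        rw [norm_smul, norm_inv, norm_norm, inv_mul_cancel₀ (norm_ne_zero_iff.2 hx)]
      obtain ⟨t, h1, h2, h3⟩ := hex ⟨‖x‖⁻¹ • x, by rw [mem_sphere_zero_iff_norm]; exact hn⟩
      exact ⟨t, fun _ => ⟨h1, h2, h3⟩⟩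
  choose s hs using hex'
  have hn1 : ∀ n : S2, (n : E3) ≠ 0 ∧ ‖(n : E3)‖⁻¹ • (n : E3) = n := by
    intro n
    have h1 : ‖(n : E3)‖ = 1 := mem_sphere_zero_iff_norm.1 n.2
    refine ⟨?_, by rw [h1, inv_one, one_smul]⟩
    intro h
    rw [h, norm_zero] at h1
    exact zero_ne_one h1
  refine ⟨s, ⟨fun x hx => g1_smooth hU hstar hΨ hrad hs hx, fun x hx => (hs x hx).1, ?_⟩, ?_⟩
  · intro x c hc
    by_cases hx : x = 0
    · rw [hx, smul_zero]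
    · have hcx : c • x ≠ 0 := smul_ne_zero hc.ne' hx
      have hu : ‖c • x‖⁻¹ • (c • x) = ‖x‖⁻¹ • x := by
        rw [norm_smul, Real.norm_of_nonneg hc.le, smul_smul, mul_inv, mul_comm c⁻¹, mul_assoc, inv_mul_cancel₀ hc.ne', mul_one]
      obtain ⟨g1, g2, g3⟩ := hs (c • x) hcx
      obtain ⟨k1, k2, k3⟩ := hs x hx
      rw [hu] at g2 g3
      exact g1_uniq hstar hΨ hrad g1 k1 g2 k2 g3 k3
  · intro n
    obtain ⟨g1, g2, g3⟩ := hs n (hn1 n).1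
    rw [(hn1 n).2] at g2 g3
    exact ⟨g2, g3⟩

end H17T
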