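import Pool.Agent.Lib.H17T.C1
import Pool.Agent.Lib.H17T.G1

set_option autoImplicit false

/-!
# H17T, chunk G2 (M): the approximate envelopes

Apply `graph_of_level` with `Ψ x = (NN 1 x - a0) * (c NN (-1) x + d)`, `U = {x ≠ 0, a0 < NN 1 x, 0 < c NN (-1) x + d}` (open since
`NN ε` is continuous off the origin; star-shaped by `NN_mono`; the radial derivative is
`fderiv (NN 1) x x * (c NN (-1) x + d) + (NN 1 x - a0) * c * fderiv (NN (-1)) x x > 0` by `NN_radial`).
Existence on the ray of `n`: for small `t` (`hin`) one has `NN 1 < a0`, for large `t` (`hg`) `NN 1 > a0 + δ + 1` and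
`c NN (-1) + d ≥ 1`. Let `t1` be the zero of `NN 1 - a0` on the ray. If `c NN (-1) + d ≥ 0` at `t1` (in particular if `c = 0`) let
`t* = t1`, otherwise `c = 1` and let `t* > t1` be the zero of `NN (-1) + d`. At `t*` the product vanishes, both factors are `≥ 0`, and
beyond `t*` both are positive; for large `t` the product is `> δ`: intermediate value theorem.
-/

open MeasureTheory Filter Topology Set
open scoped ContDiff

namespace H17T

open Pool.Agent.Lib.PenroseSph (E3 Tens S2 sm)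

theorem exists_graph {F : E4 → ℝ} {k : ℝ → ℝ} {r : ℝ × ℝ → ℝ} {f : E3 → ℝ} {a0 c d : ℝ} (hR : Red F k r f)
    (hg : ∀ M : ℝ, ∃ R : ℝ, ∀ x : E3, R ≤ ‖x‖ → M ≤ NN 1 k f x ∧ M ≤ NN (-1) k f x)
    (hc : (c = 0 ∧ d = 1) ∨ c = 1) {ρ0 : ℝ} (hρ0 : 0 < ρ0)
    (hin : ∀ x : E3, x ≠ 0 → ‖x‖ < ρ0 → NN 1 k f x < a0) {δ : ℝ} (hδ : 0 < δ) :
    ∃ s : E3 → ℝ, RadialGraph s ∧ ∀ n : S2, a0 < NN 1 k f (s n • (n : E3)) ∧
      0 < c * NN (-1) k f (s n • (n : E3)) + d ∧
      (NN 1 k f (s n • (n : E3)) - a0) * (c * NN (-1) k f (s n • (n : E3)) + d) = δ := by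
  have hk := hR.k_smooth
  have hf := hR.f_smooth
  have hsl := hR.slope
  have hc0 : 0 ≤ c := by
    rcases hc with h | h
    · rw [h.1]
    · rw [h]
      exact zero_le_one
  have hcont : ∀ (ε : ℝ) (x : E3), x ≠ 0 → ContinuousAt (NN ε k f) x := fun ε x hx =>
    (NN_smooth (ε := ε) hk hf hx).continuousAt
  obtain ⟨U, hUdef⟩ : ∃ U : Set E3, U = {x | x ≠ 0 ∧ a0 < NN 1 k f x ∧ 0 < c * NN (-1) k f x + d} := ⟨_, rfl⟩
  have hmem : ∀ x, x ∈ U ↔ x ≠ 0 ∧ a0 < NN 1 k f x ∧ 0 < c * NN (-1) k f x + d := by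
    intro x
    rw [hUdef]
    rfl
  have hU : IsOpen U := by
    rw [isOpen_iff_mem_nhds]
    intro x hx
    obtain ⟨h1, h2, h3⟩ := (hmem x).1 hx
    have e1 : ∀ᶠ y : E3 in 𝓝 x, y ≠ 0 := isOpen_ne.mem_nhds h1
    have e2 : ∀ᶠ y : E3 in 𝓝 x, a0 < NN 1 k f y := (hcont 1 x h1).eventually_const_lt h2
    have e3 : ∀ᶠ y : E3 in 𝓝 x, 0 < c * NN (-1) k f y + d :=
      ((continuousAt_const.mul (hcont (-1) x h1)).add continuousAt_const).eventually_const_lt h3
    filter_upwards [e1, e2, e3] with y g1 g2 g3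
    exact (hmem y).2 ⟨g1, g2, g3⟩
  have hstar : ∀ x ∈ U, ∀ c' : ℝ, 1 ≤ c' → c' • x ∈ U := by
    intro x hx c' hc'
    obtain ⟨h1, h2, h3⟩ := (hmem x).1 hx
    rcases eq_or_lt_of_le hc' with h | h
    · rw [← h, one_smul]
      exact hx
    · have m1 := NN_mono (ε := 1) (Or.inl rfl) hk hf hsl h1 h
      have m2 := NN_mono (ε := -1) (Or.inr rfl) hk hf hsl h1 h
      refine (hmem _).2 ⟨smul_ne_zero (by linarith) h1, h2.trans m1, ?_⟩
      have m3 := mul_le_mul_of_nonneg_left m2.le hc0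
      linarith
  have hΨ : ∀ x ∈ U, ContDiffAt ℝ ∞ (fun x => (NN 1 k f x - a0) * (c * NN (-1) k f x + d)) x := by
    intro x hx
    have h1 := ((hmem x).1 hx).1
    exact ((NN_smooth (ε := 1) hk hf h1).sub contDiffAt_const).mul
      ((contDiffAt_const.mul (NN_smooth (ε := -1) hk hf h1)).add contDiffAt_const)
  have hrad : ∀ x ∈ U, 0 < fderiv ℝ (fun x => (NN 1 k f x - a0) * (c * NN (-1) k f x + d)) x x := by
    intro x hx
    obtain ⟨h1, h2, h3⟩ := (hmem x).1 hx
    have d1 : HasFDerivAt (NN 1 k f) (fderiv ℝ (NN 1 k f) x) x :=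
      ((NN_smooth (ε := 1) hk hf h1).differentiableAt (by simp)).hasFDerivAt
    have d2 : HasFDerivAt (NN (-1) k f) (fderiv ℝ (NN (-1) k f) x) x :=
      ((NN_smooth (ε := -1) hk hf h1).differentiableAt (by simp)).hasFDerivAt
    have d3 := (d1.sub_const a0).mul ((d2.const_mul c).add_const d)
    have d4 := d3.fderiv
    change fderiv ℝ (fun x => (NN 1 k f x - a0) * (c * NN (-1) k f x + d)) x = _ at d4
    rw [d4]
    have p1 := NN_radial (ε := 1) (Or.inl rfl) hk hf hsl h1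
    have p2 := NN_radial (ε := -1) (Or.inr rfl) hk hf hsl h1
    show 0 < (NN 1 k f x - a0) * (c * fderiv ℝ (NN (-1) k f) x x) +
      (c * NN (-1) k f x + d) * fderiv ℝ (NN 1 k f) x x
    have p3 : 0 ≤ (NN 1 k f x - a0) * (c * fderiv ℝ (NN (-1) k f) x x) :=
      mul_nonneg (by linarith) (mul_nonneg hc0 p2.le)
    have p4 : 0 < (c * NN (-1) k f x + d) * fderiv ℝ (NN 1 k f) x x := mul_pos h3 p1
    linarith
  have h00 : ∀ x ∈ U, x ≠ 0 := fun x hx => ((hmem x).1 hx).1
  have hex : ∀ n : S2, ∃ t : ℝ, 0 < t ∧ t • (n : E3) ∈ U ∧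
      (fun x => (NN 1 k f x - a0) * (c * NN (-1) k f x + d)) (t • (n : E3)) = δ := by
    intro n
    have hn : ‖(n : E3)‖ = 1 := mem_sphere_zero_iff_norm.1 n.2
    have hn0 : (n : E3) ≠ 0 := by
      intro h
      rw [h, norm_zero] at hn
      exact zero_ne_one hn
    have htn : ∀ t : ℝ, 0 < t → t • (n : E3) ≠ 0 ∧ ‖t • (n : E3)‖ = t := by
      intro t ht
      refine ⟨smul_ne_zero ht.ne' hn0, ?_⟩
      rw [norm_smul, hn, mul_one, Real.norm_of_nonneg ht.le]
    obtain ⟨R, hRR⟩ := hg (max (a0 + δ + 1) (1 + |d|))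
    obtain ⟨T, hT⟩ : ∃ T : ℝ, T = max R ρ0 := ⟨_, rfl⟩
    have hT0 : 0 < T := by
      rw [hT]
      exact lt_max_of_lt_right hρ0
    have hTn := hRR (T • (n : E3)) (by
      rw [(htn T hT0).2, hT]
      exact le_max_left _ _)
    have hA : a0 + δ + 1 ≤ NN 1 k f (T • (n : E3)) := (le_max_left _ _).trans hTn.1
    have hB : 1 + |d| ≤ NN (-1) k f (T • (n : E3)) := (le_max_right _ _).trans hTn.2
    have hB' : 1 ≤ c * NN (-1) k f (T • (n : E3)) + d := by
      rcases hc with h | h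
      · rw [h.1, h.2]
        linarith
      · rw [h]
        have := neg_abs_le d
        linarith
    have hs0 : 0 < ρ0 / 2 := by linarith
    have hsm := hin ((ρ0 / 2) • (n : E3)) (htn _ hs0).1 (by
      rw [(htn _ hs0).2]
      linarith)
    have hle : ρ0 / 2 ≤ T := by
      have h1 : ρ0 ≤ T := by
        rw [hT]
        exact le_max_right _ _
      linarith
    have hNc : ∀ ε : ℝ, ContinuousOn (fun t : ℝ => NN ε k f (t • (n : E3))) (Set.Icc (ρ0 / 2) T) := by
      intro ε t ht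
      have ht0 : 0 < t := hs0.trans_le ht.1
      have h1 : ContinuousAt (fun t : ℝ => NN ε k f (t • (n : E3))) t :=
        ContinuousAt.comp (f := fun t : ℝ => t • (n : E3)) (hcont ε _ (htn t ht0).1)
          (continuousAt_id.smul continuousAt_const)
      exact h1.continuousWithinAt
    have hφ : ContinuousOn (fun t : ℝ => max (NN 1 k f (t • (n : E3)) - a0) 0 *
        max (c * NN (-1) k f (t • (n : E3)) + d) 0) (Set.Icc (ρ0 / 2) T) :=
      (((hNc 1).sub continuousOn_const).sup continuousOn_const).mul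
        (((continuousOn_const.mul (hNc (-1))).add continuousOn_const).sup continuousOn_const)
    have hiv := intermediate_value_Icc hle hφ
    have hδm : δ ∈ Set.Icc (max (NN 1 k f ((ρ0 / 2) • (n : E3)) - a0) 0 *
        max (c * NN (-1) k f ((ρ0 / 2) • (n : E3)) + d) 0)
        (max (NN 1 k f (T • (n : E3)) - a0) 0 * max (c * NN (-1) k f (T • (n : E3)) + d) 0) := by
      constructor
      · rw [max_eq_right (by linarith), zero_mul]
        exact hδ.le
      · rw [max_eq_left (by linarith), max_eq_left (by linarith)]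
        nlinarith
    obtain ⟨t, ht, hval⟩ := hiv hδm
    have ht0 : 0 < t := hs0.trans_le ht.1
    have hval' : max (NN 1 k f (t • (n : E3)) - a0) 0 * max (c * NN (-1) k f (t • (n : E3)) + d) 0 = δ := hval
    have q1 : 0 < NN 1 k f (t • (n : E3)) - a0 := by
      by_contra h
      rw [max_eq_right (not_lt.1 h), zero_mul] at hval'
      exact hδ.ne hval'
    have q2 : 0 < c * NN (-1) k f (t • (n : E3)) + d := by
      by_contra h
      rw [max_eq_right (not_lt.1 h), mul_zero] at hval'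
      exact hδ.ne hval'
    rw [max_eq_left q1.le, max_eq_left q2.le] at hval'
    exact ⟨t, ht0, (hmem _).2 ⟨(htn t ht0).1, by linarith, q2⟩, hval'⟩
  obtain ⟨s, hs, hsn⟩ := graph_of_level hU h00 hstar hΨ hrad hex
  refine ⟨s, hs, fun n => ?_⟩
  obtain ⟨g1, g2⟩ := hsn n
  obtain ⟨_, g3, g4⟩ := (hmem _).1 g1
  exact ⟨g3, g4, g2⟩

end H17T
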