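import Pool.Agent.Lib.H17T.C3

set_option autoImplicit false

/-!
# H17T, chunk REV (M): time reversal

The map `ρ(T, ρ) = (-T, ρ)` exchanges `a` and `b`. `fderiv (revr r) q (s, t) = fderiv r (-q.1, q.2) (-s, t)` (chain rule; this
holds without assumptions as `q ↦ (-q.1, q.2)` is a linear equivalence), hence `Da k (revr r) q = Db k r (-q.1, q.2)` and
`Db k (revr r) q = Da k r (-q.1, q.2)`; `ev q n` is mapped to `ev (-q.1, q.2) n`, `QQ (revf f) = {q | (-q.1, q.2) ∈ QQ f}`,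
`mF (revF F) q = mF F (-q.1, q.2)`, `mass` is invariant, `NN 1 k (revf f) = NN (-1) k f`. `Da (Db r) = Db (Da r)` (first lemma:
both are `(1/4) (-r_TT + (1/k) (r_ρ/k)_ρ)`; symmetry of the second derivative) is needed for `rc`.
-/

open MeasureTheory Filter Topology Set
open scoped ContDiff

namespace H17T

open Pool.Agent.Lib.PenroseSph (E3 Tens S2 sm)

/-- The derivative of `q ↦ fderiv φ q (c, 1/(2 k))`. -/
theorem rev_aux {k : ℝ → ℝ} {φ : ℝ × ℝ → ℝ} {q : ℝ × ℝ} (hk : ContDiffAt ℝ ∞ k q.2) (hk0 : 0 < k q.2)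
    (hφ : ContDiffAt ℝ ∞ φ q) : ∃ w : ℝ, ∀ c : ℝ,
    (∀ v : ℝ × ℝ, fderiv ℝ (fun q => fderiv ℝ φ q (c, 1 / (2 * k q.2))) q v
      = fderiv ℝ (fderiv ℝ φ) q v (c, 1 / (2 * k q.2)) + fderiv ℝ φ q (0, w * v.2)) := by
  have h1 : DifferentiableAt ℝ (fun t : ℝ => 1 / (2 * k t)) q.2 := by
    have h3 : ContDiffAt ℝ ∞ (fun t : ℝ => 1 / (2 * k t)) q.2 :=
      contDiffAt_const.div (contDiffAt_const.mul hk) (by positivity)
    exact h3.differentiableAt (by simp)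
  refine ⟨deriv (fun t : ℝ => 1 / (2 * k t)) q.2, fun c v => ?_⟩
  have h2 : HasFDerivAt (fun q : ℝ × ℝ => 1 / (2 * k q.2))
      (deriv (fun t : ℝ => 1 / (2 * k t)) q.2 • ContinuousLinearMap.snd ℝ ℝ ℝ) q :=
    h1.hasDerivAt.comp_hasFDerivAt q hasFDerivAt_snd
  have h4 : HasFDerivAt (fun q : ℝ × ℝ => ((c, 1 / (2 * k q.2)) : ℝ × ℝ))
      ((0 : ℝ × ℝ →L[ℝ] ℝ).prod (deriv (fun t : ℝ => 1 / (2 * k t)) q.2 • ContinuousLinearMap.snd ℝ ℝ ℝ)) q :=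
    (hasFDerivAt_const c q).prodMk h2
  have h5 : DifferentiableAt ℝ (fderiv ℝ φ) q := by
    have h6 : ContDiffAt ℝ 1 (fderiv ℝ φ) q := hφ.fderiv_right (m := 1) (by norm_cast)
    exact h6.differentiableAt (by simp)
  rw [(h5.hasFDerivAt.clm_apply h4).fderiv]
  simp [add_comm]

/-- `Da` and `Db` commute. -/
theorem D_comm {k : ℝ → ℝ} {φ : ℝ × ℝ → ℝ} {q : ℝ × ℝ} (hk : ContDiffAt ℝ ∞ k q.2) (hk0 : 0 < k q.2)
    (hφ : ContDiffAt ℝ ∞ φ q) : Da k (Db k φ) q = Db k (Da k φ) q := by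
  obtain ⟨w, hW⟩ := rev_aux hk hk0 hφ
  have hs : IsSymmSndFDerivAt ℝ φ q := hφ.isSymmSndFDerivAt (by
    rw [minSmoothness_of_isRCLikeNormedField]
    have h : ((2 : ℕ∞) : WithTop ℕ∞) ≤ ((⊤ : ℕ∞) : WithTop ℕ∞) := WithTop.coe_le_coe.mpr le_top
    exact h)
  have h1 := hW (-(1 / 2)) (1 / 2, 1 / (2 * k q.2))
  have h2 := hW (1 / 2) (-(1 / 2), 1 / (2 * k q.2))
  unfold Da Db
  rw [h1, h2, hs.eq]

noncomputable def revF (F : E4 → ℝ) (p : E4) : ℝ := F (pt (-p 0) (pos p))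

noncomputable def revr (r : ℝ × ℝ → ℝ) (q : ℝ × ℝ) : ℝ := r (-q.1, q.2)

noncomputable def revf (f : E3 → ℝ) (x : E3) : ℝ := -f x

theorem rev_pos_pt (t : ℝ) (x : E3) : pos (pt t x) = x := by
  ext i
  fin_cases i <;> rfl

theorem revF_ev (F : E4 → ℝ) (q : ℝ × ℝ) (n : E3) : revF F (ev q n) = F (ev (-q.1, q.2) n) := by
  unfold revF ev
  rw [rev_pos_pt]
  rfl

theorem rev_mem {f : E3 → ℝ} {q : ℝ × ℝ} (h : q ∈ QQ (revf f)) : ((-q.1, q.2) : ℝ × ℝ) ∈ QQ f := by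
  obtain ⟨y, hy, hq⟩ := h
  refine ⟨y, hy, ?_⟩
  rw [← hq]
  simp [qq, revf]

theorem mF_rev (F : E4 → ℝ) (q : ℝ × ℝ) : mF (revF F) q = mF F (-q.1, q.2) := by
  unfold mF
  simp_rw [revF_ev]

theorem rev_smooth : ContDiff ℝ ∞ fun p : E4 => pt (-p 0) (pos p) := by
  rw [contDiff_euclidean]
  have hp : ∀ j : Fin 4, ContDiff ℝ ∞ fun p : E4 => p j := fun j =>
    (EuclideanSpace.proj (j : Fin 4) : E4 →L[ℝ] ℝ).contDiff
  intro i
  fin_cases i
  · exact (hp 0).neg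
  · exact hp 1
  · exact hp 2
  · exact hp 3

theorem rev_comp (φ : ℝ × ℝ → ℝ) (q v : ℝ × ℝ) : fderiv ℝ (revr φ) q v = fderiv ℝ φ (-q.1, q.2) (-v.1, v.2) := by
  have e : revr φ = φ ∘ ((ContinuousLinearEquiv.neg ℝ (M := ℝ)).prodCongr (ContinuousLinearEquiv.refl ℝ ℝ)) := rfl
  rw [e, ContinuousLinearEquiv.comp_right_fderiv]
  rfl

theorem Da_rev (k : ℝ → ℝ) (φ : ℝ × ℝ → ℝ) (q : ℝ × ℝ) : Da k (revr φ) q = Db k φ (-q.1, q.2) := by
  unfold Da Db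
  rw [rev_comp]

theorem Db_rev (k : ℝ → ℝ) (φ : ℝ × ℝ → ℝ) (q : ℝ × ℝ) : Db k (revr φ) q = Da k φ (-q.1, q.2) := by
  unfold Da Db
  rw [rev_comp]
  simp

theorem NN_rev (ε : ℝ) (k : ℝ → ℝ) (f : E3 → ℝ) : NN ε k (revf f) = NN (-ε) k f := by
  funext x
  unfold NN revf
  ring

theorem Red.rev {F : E4 → ℝ} {k : ℝ → ℝ} {r : ℝ × ℝ → ℝ} {f : E3 → ℝ} (hR : Red F k r f) :
    Red (revF F) k (revr r) (revf f) := by
  have ea : ∀ φ : ℝ × ℝ → ℝ, Da k (revr φ) = revr (Db k φ) := fun φ => funext fun q => Da_rev k φ q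
  have eb : ∀ φ : ℝ × ℝ → ℝ, Db k (revr φ) = revr (Da k φ) := fun φ => funext fun q => Db_rev k φ q
  have eF : ∀ n : E3, (fun q => revF F (ev q n)) = revr fun q => F (ev q n) := fun n => funext fun q => revF_ev F q n
  refine ⟨?_, ?_, hR.k_smooth, hR.k_pos, ?_, ?_, ?_, ?_, ?_, ?_, ?_⟩
  · intro q hq n
    have h := hR.F_smooth _ (rev_mem hq) n
    have h2 : ContDiffAt ℝ ∞ F (pt (-(ev q n) 0) (pos (ev q n))) := by
      unfold ev at h ⊢
      rw [rev_pos_pt]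
      exact h
    exact ContDiffAt.comp (ev q n) h2 rev_smooth.contDiffAt
  · intro q hq n
    rw [revF_ev]
    exact hR.F_pos _ (rev_mem hq) n
  · intro q hq
    have h := hR.r_smooth _ (rev_mem hq)
    exact ContDiffAt.comp q (g := r) (f := fun q : ℝ × ℝ => (-q.1, q.2)) h
      (contDiffAt_fst.neg.prodMk contDiffAt_snd)
  · intro q hq
    exact hR.r_pos _ (rev_mem hq)
  · intro x hx
    exact (hR.f_smooth x hx).neg
  · intro x hx
    have e : fderiv ℝ (revf f) x = -fderiv ℝ f x := by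
      unfold revf
      exact fderiv_fun_neg
    rw [e]
    simpa using hR.slope x hx
  · intro q hq n
    rw [ea, ea, eF, ea, revF_ev]
    exact hR.rb _ (rev_mem hq) n
  · intro q hq n
    rw [eb, eb, eF, eb, revF_ev]
    exact hR.ra _ (rev_mem hq) n
  · intro q hq
    have hq' := rev_mem hq
    have hpos : 0 < q.2 := by
      obtain ⟨y, hy, hqy⟩ := hq
      rw [← hqy]
      exact norm_pos_iff.mpr hy
    have h := hR.rc _ hq'
    rw [eb, ea, ea, mF_rev]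
    have hc := D_comm (q := ((-q.1, q.2) : ℝ × ℝ)) (hR.k_smooth q.2 hpos) (hR.k_pos q.2 hpos) (hR.r_smooth _ hq')
    rw [hc] at h
    unfold revr
    linarith [mul_comm (Da k r (-q.1, q.2)) (Db k r (-q.1, q.2)), h]

theorem Ends.rev {F : E4 → ℝ} {k : ℝ → ℝ} {r : ℝ × ℝ → ℝ} {f : E3 → ℝ} {E : ℝ} (hE : Ends F k r f E) :
    Ends (revF F) k (revr r) (revf f) E := by
  have eq : ∀ x : E3, ((-(qq (revf f) x).1, (qq (revf f) x).2) : ℝ × ℝ) = qq f x := by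
    intro x
    simp [qq, revf]
  refine ⟨?_, ?_, ?_⟩
  · obtain ⟨R, h⟩ := hE.pos
    refine ⟨R, fun x hx => ?_⟩
    rw [Da_rev, Db_rev, eq]
    exact ⟨(h x hx).2, (h x hx).1⟩
  · intro M
    obtain ⟨R, h⟩ := hE.grow M
    refine ⟨R, fun x hx => ?_⟩
    rw [NN_rev, NN_rev, neg_neg]
    exact ⟨(h x hx).2, (h x hx).1⟩
  · intro n
    have e : ∀ x : E3, mass (revF F) k (revr r) (qq (revf f) x) = mass F k r (qq f x) := by
      intro x
      unfold mass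
      rw [Da_rev, Db_rev, mF_rev, eq]
      have e2 : revr r (qq (revf f) x) = r (qq f x) := by
        unfold revr
        rw [eq]
      rw [e2]
      ring
    simp_rw [e]
    exact hE.lim n

theorem Env.rev {k : ℝ → ℝ} {r : ℝ × ℝ → ℝ} {f : E3 → ℝ} {Om : Set E3} {E δ : ℝ}
    (h : Env k (revr r) (revf f) Om E δ) : Env k r f Om E δ := by
  obtain ⟨s, hs, hΩ, h⟩ := h
  refine ⟨s, hs, hΩ, fun n => ?_⟩
  obtain ⟨h1, l, m, hl, hm, hlm, h2⟩ := h n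
  refine ⟨?_, m, l, hm, hl, by linarith, fun i => ?_⟩
  · have e2 : ∀ x : E3, revr r (qq (revf f) x) = r (qq f x) := by
      intro x
      simp [revr, qq, revf]
    rw [e2] at h1
    exact h1
  · have h3 := h2 i
    rw [NN_rev, NN_rev, neg_neg] at h3
    linarith

end H17T
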