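import Pool.Agent.Lib.H17T.M1
import Pool.Agent.Lib.H17T.Rev

set_option autoImplicit false

/-!
# H17T, chunk M2 (M): monotonicity of the mass in the direction `a`

Write `r_a = Da k r q`, `r_b`, `r_aa = Da (Da r)`, `r_ab = Da (Db r) = Db (Da r)` (`D_comm`), `Φ = mF F q`,
`Φ_a = Da k (mF F) q = -(4π)⁻¹ ∫ F_a/F²` (`mF_deriv`). By the product rule
`m_a = (r_a/2) (1 - 4 Φ (r r_ab + r_a r_b)) - 2 r r_b (r_aa Φ + r_a Φ_a)`
and `r_aa Φ + r_a Φ_a = (4π)⁻¹ ∫ (r_aa F - F_a r_a)/F² ≤ 0` by `ra`. With `rc` and `r_a, r_b ≥ 0` both terms are `≥ 0`.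
-/

open MeasureTheory Filter Topology Set
open scoped ContDiff

namespace H17T

open Pool.Agent.Lib.PenroseSph (E3 Tens S2 sm)

private theorem q2_pos {f : E3 → ℝ} {q : ℝ × ℝ} (hq : q ∈ QQ f) : 0 < q.2 := by
  obtain ⟨y, hy, rfl⟩ := hq
  exact norm_pos_iff.2 hy

private theorem mF_pos {F : E4 → ℝ} {q : ℝ × ℝ} (hF : ∀ n : S2, ContDiffAt ℝ ∞ F (ev q n))
    (hF0 : ∀ n : S2, 0 < F (ev q n)) (X A : ℝ) (v : ℝ × ℝ)
    (h : ∀ n : S2, X * F (ev q n) ≤ fderiv ℝ (fun q => F (ev q n)) q v * A) :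
    X * mF F q + A * fderiv ℝ (mF F) q v ≤ 0 := by
  obtain ⟨h1, h2⟩ := mF_cont hF hF0 v
  have i1 := Pool.Agent.Lib.PenroseSph.integrable_S2 h1
  have i2 := Pool.Agent.Lib.PenroseSph.integrable_S2 h2
  rw [(mF_deriv hF hF0).2 v, mF]
  have e : X * ((4 * Real.pi)⁻¹ * ∫ n : S2, (F (ev q n))⁻¹ ∂sm)
      + A * -((4 * Real.pi)⁻¹ * ∫ n : S2, fderiv ℝ (fun q => F (ev q n)) q v / F (ev q n) ^ 2 ∂sm)
      = (4 * Real.pi)⁻¹ * ∫ n : S2, (X * (F (ev q n))⁻¹
          - A * (fderiv ℝ (fun q => F (ev q n)) q v / F (ev q n) ^ 2)) ∂sm := by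
    rw [integral_sub (i2.const_mul X) (i1.const_mul A), integral_const_mul, integral_const_mul]
    ring
  rw [e]
  have h3 : ∫ n : S2, (X * (F (ev q n))⁻¹
          - A * (fderiv ℝ (fun q => F (ev q n)) q v / F (ev q n) ^ 2)) ∂sm ≤ 0 := by
    refine integral_nonpos fun n => ?_
    have hn := h n
    have hp := hF0 n
    have e2 : X * (F (ev q n))⁻¹ - A * (fderiv ℝ (fun q => F (ev q n)) q v / F (ev q n) ^ 2)
        = (X * F (ev q n) - fderiv ℝ (fun q => F (ev q n)) q v * A) / F (ev q n) ^ 2 := by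
      field_simp
    show X * (F (ev q n))⁻¹ - A * (fderiv ℝ (fun q => F (ev q n)) q v / F (ev q n) ^ 2) ≤ 0
    rw [e2]
    exact div_nonpos_of_nonpos_of_nonneg (by linarith) (by positivity)
  exact mul_nonpos_of_nonneg_of_nonpos (by positivity) h3

private theorem mass_has {F : E4 → ℝ} {k : ℝ → ℝ} {r : ℝ × ℝ → ℝ} {f : E3 → ℝ} (hR : Red F k r f) {q : ℝ × ℝ}
    (hq : q ∈ QQ f) : DifferentiableAt ℝ (mass F k r) q ∧ ∀ v : ℝ × ℝ, fderiv ℝ (mass F k r) q v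
      = fderiv ℝ r q v / 2 * (1 - 4 * Da k r q * Db k r q * mF F q)
        - 2 * r q * (fderiv ℝ (Da k r) q v * Db k r q * mF F q + Da k r q * fderiv ℝ (Db k r) q v * mF F q
          + Da k r q * Db k r q * fderiv ℝ (mF F) q v) := by
  have hq2 := q2_pos hq
  have hr := (((hR.r_smooth q hq)).differentiableAt (by simp)).hasFDerivAt
  have hA := (((D_smooth (hR.k_smooth _ hq2) (hR.k_pos _ hq2) (hR.r_smooth q hq)).1).differentiableAt
    (by simp)).hasFDerivAt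
  have hB := (((D_smooth (hR.k_smooth _ hq2) (hR.k_pos _ hq2) (hR.r_smooth q hq)).2).differentiableAt
    (by simp)).hasFDerivAt
  have hM := (mF_deriv (hR.F_smooth q hq) (hR.F_pos q hq)).1.hasFDerivAt
  have hABM : HasFDerivAt (fun q => Da k r q * Db k r q * mF F q) _ q := (hA.mul hB).mul hM
  have h4 : HasFDerivAt (fun q => 1 - 4 * (Da k r q * Db k r q * mF F q)) _ q := (hABM.const_mul (4 : ℝ)).const_sub 1
  have h2 : HasFDerivAt (fun q => r q * (1 / 2)) _ q := hr.mul_const (1 / 2 : ℝ)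
  have hm : HasFDerivAt (fun q => r q * (1 / 2) * (1 - 4 * (Da k r q * Db k r q * mF F q))) _ q := h2.mul h4
  have hm' := hm.congr_of_eventuallyEq (f₁ := mass F k r) (Eventually.of_forall fun q' => by
    simp only [mass]
    ring)
  refine ⟨hm'.differentiableAt, fun v => ?_⟩
  rw [hm'.fderiv]
  simp
  ring

theorem mass_diff {F : E4 → ℝ} {k : ℝ → ℝ} {r : ℝ × ℝ → ℝ} {f : E3 → ℝ} (hR : Red F k r f) {q : ℝ × ℝ}
    (hq : q ∈ QQ f) : DifferentiableAt ℝ (mass F k r) q := (mass_has hR hq).1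

theorem mass_a {F : E4 → ℝ} {k : ℝ → ℝ} {r : ℝ × ℝ → ℝ} {f : E3 → ℝ} (hR : Red F k r f) {q : ℝ × ℝ}
    (hq : q ∈ QQ f) (ha : 0 ≤ Da k r q) (hb : 0 ≤ Db k r q) : 0 ≤ Da k (mass F k r) q := by
  have h1 := mF_pos (hR.F_smooth q hq) (hR.F_pos q hq) (Da k (Da k r) q) (Da k r q) _ (hR.ra q hq)
  have h2 := hR.rc q hq
  have h3 := hR.r_pos q hq
  have e : Da k (mass F k r) q = Da k r q / 2 * (1 - 4 * mF F q * (r q * Da k (Db k r) q + Da k r q * Db k r q))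
      - 2 * r q * Db k r q * (Da k (Da k r) q * mF F q + Da k r q * fderiv ℝ (mF F) q (1 / 2, 1 / (2 * k q.2))) := by
    have := (mass_has hR hq).2 (1 / 2, 1 / (2 * k q.2))
    change Da k (mass F k r) q = Da k r q / 2 * _ - 2 * r q * (Da k (Da k r) q * _ * _ + _ * Da k (Db k r) q * _ + _) at this
    rw [this]
    ring
  rw [e]
  have p1 : 0 ≤ Da k r q / 2 * (1 - 4 * mF F q * (r q * Da k (Db k r) q + Da k r q * Db k r q)) :=
    mul_nonneg (by positivity) (by linarith)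
  have p2 : 2 * r q * Db k r q * (Da k (Da k r) q * mF F q + Da k r q * fderiv ℝ (mF F) q (1 / 2, 1 / (2 * k q.2))) ≤ 0 :=
    mul_nonpos_of_nonneg_of_nonpos (by positivity) h1
  linarith

/-- by time reversal (`Red.rev`, `Da_rev`, `mass (revF F) k (revr r) = revr (mass F k r)`) or by the same computation -/
theorem mass_b {F : E4 → ℝ} {k : ℝ → ℝ} {r : ℝ × ℝ → ℝ} {f : E3 → ℝ} (hR : Red F k r f) {q : ℝ × ℝ}
    (hq : q ∈ QQ f) (ha : 0 ≤ Da k r q) (hb : 0 ≤ Db k r q) : 0 ≤ Db k (mass F k r) q := by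
  have hq2 := q2_pos hq
  have h1 := mF_pos (hR.F_smooth q hq) (hR.F_pos q hq) (Db k (Db k r) q) (Db k r q) _ (hR.rb q hq)
  have h2 := hR.rc q hq
  have h3 := hR.r_pos q hq
  have hc := D_comm (hR.k_smooth _ hq2) (hR.k_pos _ hq2) (hR.r_smooth q hq)
  have e : Db k (mass F k r) q = Db k r q / 2 * (1 - 4 * mF F q * (r q * Da k (Db k r) q + Da k r q * Db k r q))
      - 2 * r q * Da k r q * (Db k (Db k r) q * mF F q + Db k r q * fderiv ℝ (mF F) q (-(1 / 2), 1 / (2 * k q.2))) := by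
    have := (mass_has hR hq).2 (-(1 / 2), 1 / (2 * k q.2))
    change Db k (mass F k r) q = Db k r q / 2 * _ - 2 * r q * (Db k (Da k r) q * _ * _ + _ * Db k (Db k r) q * _ + _) at this
    rw [this, hc]
    ring
  rw [e]
  have p1 : 0 ≤ Db k r q / 2 * (1 - 4 * mF F q * (r q * Da k (Db k r) q + Da k r q * Db k r q)) :=
    mul_nonneg (by positivity) (by linarith)
  have p2 : 2 * r q * Da k r q * (Db k (Db k r) q * mF F q + Db k r q * fderiv ℝ (mF F) q (-(1 / 2), 1 / (2 * k q.2))) ≤ 0 :=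
    mul_nonpos_of_nonneg_of_nonpos (by positivity) h1
  linarith

end H17T
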