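import Pool.Agent.Lib.H17T.M2

set_option autoImplicit false

/-!
# H17T, chunk M3 (S/M): monotonicity of the mass along the rays of the slice

For `φ` differentiable at `qq f (s • n)`: `d/ds φ(f(s n), s) = fderiv φ (..) (f', 1)` with `f' = fderiv f (s n) n`, and
`(f', 1) = (k + f') (1/2, 1/(2k)) + (k - f') (-(1/2), 1/(2k))`, `k = k s`; `|f'| < k s` by `hR.slope` (apply it to `x = s • n`).
Then `monotoneOn_of_deriv_nonneg` with `mass_a`, `mass_b`.
-/

open MeasureTheory Filter Topology Set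
open scoped ContDiff

namespace H17T

open Pool.Agent.Lib.PenroseSph (E3 Tens S2 sm)

theorem m3_norm (n : S2) {s : ℝ} (hs : 0 < s) : ‖s • (n : E3)‖ = s := by
  rw [norm_smul, Real.norm_eq_abs, abs_of_pos hs]
  simp

theorem m3_ne (n : S2) {s : ℝ} (hs : 0 < s) : s • (n : E3) ≠ 0 := by
  intro h
  have h1 := m3_norm n hs
  rw [h, norm_zero] at h1
  exact hs.ne h1

theorem m3_curve {f : E3 → ℝ} (n : S2) {s : ℝ} (hs : 0 < s) (hf : DifferentiableAt ℝ f (s • (n : E3))) :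
    HasDerivAt (fun s : ℝ => qq f (s • (n : E3))) (fderiv ℝ f (s • (n : E3)) n, 1) s := by
  have d1 : HasDerivAt (fun s : ℝ => s • (n : E3)) (n : E3) s := by
    have a1 := (hasDerivAt_id s).smul_const (n : E3)
    simpa using a1
  have d2 : HasDerivAt (fun s : ℝ => f (s • (n : E3))) (fderiv ℝ f (s • (n : E3)) n) s :=
    hf.hasFDerivAt.comp_hasDerivAt s d1
  have d3 : HasDerivAt (fun s : ℝ => ‖s • (n : E3)‖) 1 s := by
    refine (hasDerivAt_id s).congr_of_eventuallyEq ?_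
    filter_upwards [eventually_gt_nhds hs] with u hu
    exact m3_norm n hu
  exact d2.prodMk d3

theorem m3_slope {F : E4 → ℝ} {k : ℝ → ℝ} {r : ℝ × ℝ → ℝ} {f : E3 → ℝ} (hR : Red F k r f) (n : S2) {s : ℝ}
    (hs : 0 < s) : |fderiv ℝ f (s • (n : E3)) n| < k s := by
  have h1 := hR.slope (s • (n : E3)) (m3_ne n hs)
  rw [m3_norm n hs, map_smul, smul_eq_mul, abs_mul, abs_of_pos hs, mul_comm] at h1
  exact lt_of_mul_lt_mul_right h1 hs.le

theorem ray_deriv {F : E4 → ℝ} {k : ℝ → ℝ} {r : ℝ × ℝ → ℝ} {f : E3 → ℝ} (hR : Red F k r f) {φ : ℝ × ℝ → ℝ}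
    {s : ℝ} (hs : 0 < s) (n : S2) (hφ : DifferentiableAt ℝ φ (qq f (s • (n : E3)))) :
    HasDerivAt (fun s : ℝ => φ (qq f (s • (n : E3))))
      ((k s + fderiv ℝ f (s • (n : E3)) n) * Da k φ (qq f (s • (n : E3)))
        + (k s - fderiv ℝ f (s • (n : E3)) n) * Db k φ (qq f (s • (n : E3)))) s := by
  have hk : k s ≠ 0 := (hR.k_pos s hs).ne'
  have d1 := m3_curve (f := f) n hs ((hR.f_smooth _ (m3_ne n hs)).differentiableAt (by simp))
  have d2 := hφ.hasFDerivAt.comp_hasDerivAt s d1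
  refine HasDerivAt.congr_deriv d2 ?_
  obtain ⟨D, hD⟩ : ∃ D, D = fderiv ℝ f (s • (n : E3)) n := ⟨_, rfl⟩
  rw [← hD]
  unfold Da Db
  have h2 : (qq f (s • (n : E3))).2 = s := m3_norm n hs
  have e1 : ((D, 1) : ℝ × ℝ) = (k s + D) • ((1 / 2, 1 / (2 * k s)) : ℝ × ℝ) +
      (k s - D) • ((-(1 / 2), 1 / (2 * k s)) : ℝ × ℝ) := by
    refine Prod.ext ?_ ?_
    · show D = (k s + D) * (1 / 2) + (k s - D) * (-(1 / 2))
      ring
    · show 1 = (k s + D) * (1 / (2 * k s)) + (k s - D) * (1 / (2 * k s))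
      field_simp
      ring
  rw [h2, e1, map_add, map_smul, map_smul, smul_eq_mul, smul_eq_mul]

theorem mass_ray {F : E4 → ℝ} {k : ℝ → ℝ} {r : ℝ × ℝ → ℝ} {f : E3 → ℝ} (hR : Red F k r f) (n : S2) {s t : ℝ}
    (hs : 0 < s) (hst : s ≤ t)
    (h : ∀ u ∈ Icc s t, 0 ≤ Da k r (qq f (u • (n : E3))) ∧ 0 ≤ Db k r (qq f (u • (n : E3)))) :
    mass F k r (qq f (s • (n : E3))) ≤ mass F k r (qq f (t • (n : E3))) := by
  have hd : ∀ u ∈ Icc s t, HasDerivAt (fun u : ℝ => mass F k r (qq f (u • (n : E3))))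
      ((k u + fderiv ℝ f (u • (n : E3)) n) * Da k (mass F k r) (qq f (u • (n : E3)))
        + (k u - fderiv ℝ f (u • (n : E3)) n) * Db k (mass F k r) (qq f (u • (n : E3)))) u := by
    intro u hu
    have hu0 : 0 < u := hs.trans_le hu.1
    exact ray_deriv hR hu0 n (mass_diff hR ⟨u • (n : E3), m3_ne n hu0, rfl⟩)
  refine monotoneOn_of_deriv_nonneg (convex_Icc s t) (fun u hu => (hd u hu).continuousAt.continuousWithinAt)
    (fun u hu => (hd u (interior_subset hu)).differentiableAt.differentiableWithinAt) (fun u hu => ?_)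
    (left_mem_Icc.2 hst) (right_mem_Icc.2 hst) hst
  have hu' := interior_subset hu
  have hu0 : 0 < u := hs.trans_le hu'.1
  rw [(hd u hu').deriv]
  have hq : qq f (u • (n : E3)) ∈ QQ f := ⟨u • (n : E3), m3_ne n hu0, rfl⟩
  have h1 := abs_lt.1 (m3_slope hR n hu0)
  obtain ⟨ha, hb⟩ := h u hu'
  have h2 := mass_a hR hq ha hb
  have h3 := mass_b hR hq ha hb
  have h4 : 0 ≤ k u + fderiv ℝ f (u • (n : E3)) n := by linarith [h1.1]
  have h5 : 0 ≤ k u - fderiv ℝ f (u • (n : E3)) n := by linarith [h1.2]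
  exact add_nonneg (mul_nonneg h4 h2) (mul_nonneg h5 h3)

/-- With the limit at infinity. -/
theorem mass_le {F : E4 → ℝ} {k : ℝ → ℝ} {r : ℝ × ℝ → ℝ} {f : E3 → ℝ} {E : ℝ} (hR : Red F k r f)
    (hE : Ends F k r f E) {x : E3} (hx : x ≠ 0)
    (h : ∀ c : ℝ, 1 ≤ c → 0 ≤ Da k r (qq f (c • x)) ∧ 0 ≤ Db k r (qq f (c • x))) :
    mass F k r (qq f x) ≤ E := by
  have hx0 : 0 < ‖x‖ := norm_pos_iff.2 hx
  obtain ⟨n, hn⟩ : ∃ n : S2, ‖x‖ • (n : E3) = x := by
    refine ⟨⟨‖x‖⁻¹ • x, ?_⟩, ?_⟩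
    · rw [mem_sphere_zero_iff_norm, norm_smul, norm_inv, norm_norm, inv_mul_cancel₀ hx0.ne']
    · show ‖x‖ • (‖x‖⁻¹ • x) = x
      rw [smul_smul, mul_inv_cancel₀ hx0.ne', one_smul]
  refine ge_of_tendsto (hE.lim n) ?_
  filter_upwards [eventually_ge_atTop ‖x‖] with t ht
  have h1 := mass_ray hR n hx0 ht fun u hu => by
    have h2 := h (u / ‖x‖) ((one_le_div hx0).2 hu.1)
    have h3 : (u / ‖x‖) • x = u • (n : E3) := by
      conv_lhs => rw [← hn]
      rw [smul_smul, norm_smul, norm_norm]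
      simp [hx0.ne']
    rw [h3] at h2
    exact h2
  rw [hn] at h1
  exact h1

end H17T
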