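import Pool.Agent.Lib.H17T.C1

set_option autoImplicit false

/-!
# H17T, chunk T0 (M): algebra and smoothness of `stMetric`

`pos (pt t x) = x`, `pt t x 0 = t`, `pt (p 0) (pos p) = p`. The matrix `stMetric F k r p` is block diagonal: `-F` and
`F k² x̂ x̂ + (r/ρ)² (1 - x̂ x̂)`, `x̂ = pos p / ρ`, `|x̂| = 1`; its inverse has the blocks `-1/F` and
`x̂ x̂/(F k²) + (ρ/r)² (1 - x̂ x̂)` (`stInv`): check `stMetric * stInv = 1` entrywise using `Σ x̂_i² = 1`, then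
`Matrix.inv_eq_right_inv` and `det ≠ 0`. All entries are smooth at `p` if `pos p ≠ 0` and `F`, `k`, `r` are smooth there.
-/

open MeasureTheory Filter Topology Set
open scoped ContDiff

namespace H17T

open Pool.Agent.Lib.PenroseSph (E3 Tens S2 sm)

/-- The inverse metric. -/
noncomputable def stInv (F : E4 → ℝ) (k : ℝ → ℝ) (r : ℝ × ℝ → ℝ) (p : E4) : Matrix (Fin 4) (Fin 4) ℝ :=
  Matrix.of fun a b =>
    Fin.cases (Fin.cases (-(F p)⁻¹) (fun _ => 0) b)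
      (fun i => Fin.cases 0 (fun j =>
        (F p * k ‖pos p‖ ^ 2)⁻¹ * (pos p i / ‖pos p‖ * (pos p j / ‖pos p‖))
          + (‖pos p‖ / r (p 0, ‖pos p‖)) ^ 2 *
            ((if i = j then 1 else 0) - pos p i / ‖pos p‖ * (pos p j / ‖pos p‖))) b) a

theorem t0_norm_sq (x : E3) : ‖x‖ ^ 2 = x 0 ^ 2 + x 1 ^ 2 + x 2 ^ 2 := by
  rw [EuclideanSpace.norm_sq_eq]
  simp [Fin.sum_univ_three]

theorem t0_unit {x : E3} (hx : x ≠ 0) :
    (x 0 / ‖x‖) * (x 0 / ‖x‖) + (x 1 / ‖x‖) * (x 1 / ‖x‖) + (x 2 / ‖x‖) * (x 2 / ‖x‖) = 1 := by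
  have h := t0_norm_sq x
  have hn : ‖x‖ ≠ 0 := norm_ne_zero_iff.mpr hx
  field_simp
  linarith

theorem t0_alg (α β α' β' : ℝ) (n : Fin 3 → ℝ) (h1 : α * α' = 1) (h2 : β * β' = 1)
    (hu : n 0 * n 0 + n 1 * n 1 + n 2 * n 2 = 1) (i j : Fin 3) :
    ∑ l, (α * (n i * n l) + β * ((if i = l then 1 else 0) - n i * n l))
      * (α' * (n l * n j) + β' * ((if l = j then 1 else 0) - n l * n j)) = if i = j then 1 else 0 := by
  rw [Fin.sum_univ_three]
  fin_cases i <;> fin_cases j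
  · simp
    linear_combination (α - β) * (α' - β') * (n 0 * n 0) * hu + n 0 * n 0 * h1 + (1 - n 0 * n 0) * h2
  · simp
    linear_combination (α - β) * (α' - β') * (n 0 * n 1) * hu + n 0 * n 1 * h1 + (0 - n 0 * n 1) * h2
  · simp
    linear_combination (α - β) * (α' - β') * (n 0 * n 2) * hu + n 0 * n 2 * h1 + (0 - n 0 * n 2) * h2
  · simp
    linear_combination (α - β) * (α' - β') * (n 1 * n 0) * hu + n 1 * n 0 * h1 + (0 - n 1 * n 0) * h2
  · simp
    linear_combination (α - β) * (α' - β') * (n 1 * n 1) * hu + n 1 * n 1 * h1 + (1 - n 1 * n 1) * h2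
  · simp
    linear_combination (α - β) * (α' - β') * (n 1 * n 2) * hu + n 1 * n 2 * h1 + (0 - n 1 * n 2) * h2
  · simp
    linear_combination (α - β) * (α' - β') * (n 2 * n 0) * hu + n 2 * n 0 * h1 + (0 - n 2 * n 0) * h2
  · simp
    linear_combination (α - β) * (α' - β') * (n 2 * n 1) * hu + n 2 * n 1 * h1 + (0 - n 2 * n 1) * h2
  · simp
    linear_combination (α - β) * (α' - β') * (n 2 * n 2) * hu + n 2 * n 2 * h1 + (1 - n 2 * n 2) * h2

theorem t0_sum (G : Matrix (Fin 4) (Fin 4) ℝ) (d x : Fin 3 → ℝ) :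
    ∑ i, ∑ j, (∑ a, ∑ b, G a b * (Fin.cons (d i) (fun l : Fin 3 => if l = i then (1 : ℝ) else 0) : Fin 4 → ℝ) a
      * (Fin.cons (d j) (fun l : Fin 3 => if l = j then (1 : ℝ) else 0) : Fin 4 → ℝ) b) * x i * x j
      = ∑ a, ∑ b, G a b * (Fin.cons (x 0 * d 0 + x 1 * d 1 + x 2 * d 2) x : Fin 4 → ℝ) a
        * (Fin.cons (x 0 * d 0 + x 1 * d 1 + x 2 * d 2) x : Fin 4 → ℝ) b := by
  simp only [Fin.sum_univ_succ, Fin.sum_univ_zero, Fin.cons_zero, Fin.cons_succ]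
  simp [Fin.ext_iff]
  ring

theorem t0_pos_apply (p : E4) (i : Fin 3) : pos p i = p i.succ := by
  fin_cases i <;> rfl

theorem pos_pt (t : ℝ) (x : E3) : pos (pt t x) = x := by
  ext i
  fin_cases i <;> rfl

theorem pt_zero (t : ℝ) (x : E3) : pt t x 0 = t := by
  rfl

theorem pt_succ (t : ℝ) (x : E3) (i : Fin 3) : pt t x i.succ = x i := by
  fin_cases i <;> rfl

theorem pt_pos (p : E4) : pt (p 0) (pos p) = p := by
  ext i
  fin_cases i <;> rfl

theorem pt_smooth : ContDiff ℝ ∞ fun q : ℝ × E3 => pt q.1 q.2 := by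
  rw [contDiff_euclidean]
  intro i
  fin_cases i
  · exact contDiff_fst
  · have : ContDiff ℝ ∞ fun q : ℝ × E3 => (EuclideanSpace.proj (0 : Fin 3) : E3 →L[ℝ] ℝ) q.2 :=
      (EuclideanSpace.proj (0 : Fin 3) : E3 →L[ℝ] ℝ).contDiff.comp contDiff_snd
    exact this
  · have : ContDiff ℝ ∞ fun q : ℝ × E3 => (EuclideanSpace.proj (1 : Fin 3) : E3 →L[ℝ] ℝ) q.2 :=
      (EuclideanSpace.proj (1 : Fin 3) : E3 →L[ℝ] ℝ).contDiff.comp contDiff_snd
    exact this
  · have : ContDiff ℝ ∞ fun q : ℝ × E3 => (EuclideanSpace.proj (2 : Fin 3) : E3 →L[ℝ] ℝ) q.2 :=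
      (EuclideanSpace.proj (2 : Fin 3) : E3 →L[ℝ] ℝ).contDiff.comp contDiff_snd
    exact this

theorem pos_smooth : ContDiff ℝ ∞ pos := by
  rw [contDiff_euclidean]
  intro i
  have : ContDiff ℝ ∞ fun p : E4 => (EuclideanSpace.proj (i.succ : Fin 4) : E4 →L[ℝ] ℝ) p :=
    (EuclideanSpace.proj (i.succ : Fin 4) : E4 →L[ℝ] ℝ).contDiff
  have e : (fun p : E4 => pos p i) = fun p : E4 => (EuclideanSpace.proj (i.succ : Fin 4) : E4 →L[ℝ] ℝ) p := by
    funext p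
    rw [t0_pos_apply]
    rfl
  rw [e]
  exact this

theorem stMetric_symm (F : E4 → ℝ) (k : ℝ → ℝ) (r : ℝ × ℝ → ℝ) (p : E4) (a b : Fin 4) :
    stMetric F k r p a b = stMetric F k r p b a := by
  refine Fin.cases ?_ (fun i => ?_) a
  · refine Fin.cases rfl (fun j => ?_) b
    simp [stMetric]
  · refine Fin.cases ?_ (fun j => ?_) b
    · simp [stMetric]
    · have h : (if i = j then (1 : ℝ) else 0) = if j = i then 1 else 0 := by
        by_cases h : i = j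
        · simp [h]
        · have h2 : ¬ j = i := fun h3 => h h3.symm
          simp [h, h2]
      simp only [stMetric, Matrix.of_apply, Fin.cases_succ, h]
      ring

theorem stMetric_inv {F : E4 → ℝ} {k : ℝ → ℝ} {r : ℝ × ℝ → ℝ} {p : E4} (hp : pos p ≠ 0) (hF : 0 < F p)
    (hk : 0 < k ‖pos p‖) (hr : 0 < r (p 0, ‖pos p‖)) :
    (stMetric F k r p)⁻¹ = stInv F k r p ∧ (stMetric F k r p).det ≠ 0 := by
  have hn : ‖pos p‖ ≠ 0 := norm_ne_zero_iff.mpr hp
  have hu := t0_unit hp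
  have hF0 : F p ≠ 0 := hF.ne'
  have hk0 : k ‖pos p‖ ≠ 0 := hk.ne'
  have hr0 : r (p 0, ‖pos p‖) ≠ 0 := hr.ne'
  have hmul : stMetric F k r p * stInv F k r p = 1 := by
    ext a b
    rw [Matrix.mul_apply, Fin.sum_univ_succ]
    refine Fin.cases ?_ (fun i => ?_) a
    · refine Fin.cases ?_ (fun j => ?_) b
      · simp [stMetric, stInv, hF0]
      · have h0 : (1 : Matrix (Fin 4) (Fin 4) ℝ) 0 j.succ = 0 := Matrix.one_apply_ne (Fin.succ_ne_zero j).symm
        rw [h0]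
        simp [stMetric, stInv]
    · refine Fin.cases ?_ (fun j => ?_) b
      · simp [stMetric, stInv]
      · have h := t0_alg (F p * k ‖pos p‖ ^ 2) ((r (p 0, ‖pos p‖) / ‖pos p‖) ^ 2) (F p * k ‖pos p‖ ^ 2)⁻¹
          ((‖pos p‖ / r (p 0, ‖pos p‖)) ^ 2) (fun l => pos p l / ‖pos p‖) (by field_simp) (by field_simp) hu i j
        have e1 : stMetric F k r p i.succ 0 = 0 := rfl
        have e2 : (1 : Matrix (Fin 4) (Fin 4) ℝ) i.succ j.succ = if i = j then 1 else 0 := by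
          simp [Matrix.one_apply]
        rw [e1, zero_mul, zero_add, e2]
        exact h
  refine ⟨Matrix.inv_eq_right_inv hmul, ?_⟩
  have h := congrArg Matrix.det hmul
  rw [Matrix.det_mul, Matrix.det_one] at h
  intro h0
  rw [h0, zero_mul] at h
  exact zero_ne_one h

theorem stMetric_smooth {F : E4 → ℝ} {k : ℝ → ℝ} {r : ℝ × ℝ → ℝ} {p : E4} (hp : pos p ≠ 0)
    (hF : ContDiffAt ℝ ∞ F p) (hk : ContDiffAt ℝ ∞ k ‖pos p‖) (hr : ContDiffAt ℝ ∞ r (p 0, ‖pos p‖)) (a b : Fin 4) :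
    ContDiffAt ℝ ∞ (fun p => stMetric F k r p a b) p := by
  have hpos : ContDiffAt ℝ ∞ pos p := pos_smooth.contDiffAt
  have hnorm : ContDiffAt ℝ ∞ (fun p : E4 => ‖pos p‖) p := hpos.norm ℝ hp
  have hn : ‖pos p‖ ≠ 0 := norm_ne_zero_iff.mpr hp
  have hp0 : ContDiffAt ℝ ∞ (fun p : E4 => p 0) p := by
    have : ContDiffAt ℝ ∞ (fun p : E4 => (EuclideanSpace.proj (0 : Fin 4) : E4 →L[ℝ] ℝ) p) p :=
      (EuclideanSpace.proj (0 : Fin 4) : E4 →L[ℝ] ℝ).contDiff.contDiffAt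
    exact this
  have hk' : ContDiffAt ℝ ∞ (fun p : E4 => k ‖pos p‖) p := hk.comp p hnorm
  have hr' : ContDiffAt ℝ ∞ (fun p : E4 => r (p 0, ‖pos p‖)) p := by
    have h1 : ContDiffAt ℝ ∞ (fun p : E4 => (p 0, ‖pos p‖)) p := hp0.prodMk hnorm
    exact ContDiffAt.comp p (g := r) hr h1
  have hc : ∀ i : Fin 3, ContDiffAt ℝ ∞ (fun p : E4 => pos p i / ‖pos p‖) p := by
    intro i
    have h1 : ContDiffAt ℝ ∞ (fun p : E4 => pos p i) p := (contDiffAt_euclidean.mp hpos) i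
    exact h1.div hnorm hn
  refine Fin.cases ?_ (fun i => ?_) a
  · refine Fin.cases ?_ (fun j => ?_) b
    · simp only [stMetric, Matrix.of_apply, Fin.cases_zero]
      exact hF.neg
    · simp only [stMetric, Matrix.of_apply, Fin.cases_zero, Fin.cases_succ]
      exact contDiffAt_const
  · refine Fin.cases ?_ (fun j => ?_) b
    · simp only [stMetric, Matrix.of_apply, Fin.cases_zero, Fin.cases_succ]
      exact contDiffAt_const
    · simp only [stMetric, Matrix.of_apply, Fin.cases_succ]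
      exact ((hF.mul (hk'.pow 2)).mul ((hc i).mul (hc j))).add
        (((hr'.div hnorm hn).pow 2).mul (contDiffAt_const.sub ((hc i).mul (hc j))))

/-- The quadratic form of the metric. -/
theorem stMetric_quad (F : E4 → ℝ) (k : ℝ → ℝ) (r : ℝ × ℝ → ℝ) (p : E4) (e : Fin 4 → ℝ) :
    ∑ a, ∑ b, stMetric F k r p a b * e a * e b
      = -F p * e 0 ^ 2 + F p * k ‖pos p‖ ^ 2 * (∑ i : Fin 3, pos p i / ‖pos p‖ * e i.succ) ^ 2
        + (r (p 0, ‖pos p‖) / ‖pos p‖) ^ 2 *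
          (∑ i : Fin 3, e i.succ ^ 2 - (∑ i : Fin 3, pos p i / ‖pos p‖ * e i.succ) ^ 2) := by
  simp only [Fin.sum_univ_succ, Fin.sum_univ_zero, stMetric, Matrix.of_apply, Fin.cases_zero, Fin.cases_succ]
  simp [Fin.ext_iff]
  ring

/-- The slice passes through its own events. -/
theorem mem_near {f : E3 → ℝ} {x : E3} (hx : x ≠ 0) : pt (f x) x ∈ Near f := by
  refine ⟨?_, x, ?_, ?_⟩
  · rw [pos_pt]
    exact hx
  · rw [pos_pt]
  · rw [pt_zero]

theorem ev_near {f : E3 → ℝ} {q : ℝ × ℝ} (hq : q ∈ QQ f) (n : S2) :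
    ev q n ∈ Near f ∧ pos (ev q n) = q.2 • (n : E3) ∧ ‖pos (ev q n)‖ = q.2 ∧ ev q n 0 = q.1 := by
  obtain ⟨y, hy, hq⟩ := hq
  have hn : ‖(n : E3)‖ = 1 := by
    have := n.2
    rwa [mem_sphere_zero_iff_norm] at this
  have h1 : pos (ev q n) = q.2 • (n : E3) := pos_pt _ _
  have h2 : q.2 = ‖y‖ := by rw [← hq]; rfl
  have h2' : 0 < q.2 := by rw [h2]; exact norm_pos_iff.mpr hy
  have h3 : ‖pos (ev q n)‖ = q.2 := by
    rw [h1, norm_smul, hn, mul_one, Real.norm_of_nonneg h2'.le]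
  have h4 : ev q n 0 = q.1 := pt_zero _ _
  refine ⟨⟨?_, y, ?_, ?_⟩, h1, h3, h4⟩
  · intro h0
    rw [h0, norm_zero] at h3
    exact h2'.ne h3
  · rw [h3, h2]
  · rw [h4, ← hq]
    rfl

/-- The slope condition follows from spacelikeness, by the vector `ξ = x`. -/
theorem slope_of_spacelike {F : E4 → ℝ} {k : ℝ → ℝ} {r : ℝ × ℝ → ℝ} {f : E3 → ℝ} (hS : Slice F k r f) {x : E3}
    (hx : x ≠ 0) : |fderiv ℝ f x x| < k ‖x‖ * ‖x‖ := by
  have hξ : (fun i : Fin 3 => x i) ≠ 0 := by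
    intro h
    apply hx
    ext i
    exact congrFun h i
  have h := hS.spacelike x hx (fun i => x i) hξ
  have hlin : fderiv ℝ f x x = x 0 * Pool.Agent.Lib.PenroseSph.pd 0 f x + x 1 * Pool.Agent.Lib.PenroseSph.pd 1 f x
      + x 2 * Pool.Agent.Lib.PenroseSph.pd 2 f x := by
    have e : x = x 0 • EuclideanSpace.single (0 : Fin 3) (1 : ℝ) + x 1 • EuclideanSpace.single (1 : Fin 3) (1 : ℝ)
        + x 2 • EuclideanSpace.single (2 : Fin 3) (1 : ℝ) := by
      ext i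
      fin_cases i <;> simp
    have h2 : ∀ v : E3, v = x → fderiv ℝ f x v = x 0 * Pool.Agent.Lib.PenroseSph.pd 0 f x + x 1 * Pool.Agent.Lib.PenroseSph.pd 1 f x
      + x 2 * Pool.Agent.Lib.PenroseSph.pd 2 f x := by
      intro v hv
      rw [← hv] at e
      rw [e, map_add, map_add, map_smul, map_smul, map_smul]
      rw [hv]
      rfl
    exact h2 x rfl
  have key : ∑ i, ∑ j, slice (stMetric F k r) f x i j * x i * x j
      = ∑ a, ∑ b, stMetric F k r (pt (f x) x) a b * (Fin.cons (fderiv ℝ f x x) (fun i => x i) : Fin 4 → ℝ) a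
        * (Fin.cons (fderiv ℝ f x x) (fun i => x i) : Fin 4 → ℝ) b := by
    rw [hlin]
    exact t0_sum (stMetric F k r (pt (f x) x)) (fun i => Pool.Agent.Lib.PenroseSph.pd i f x) (fun i => x i)
  rw [key, stMetric_quad, pos_pt, pt_zero] at h
  have hnear := mem_near (f := f) hx
  have hF := hS.F_pos _ hnear
  have hk := hS.k_pos ‖x‖ (norm_pos_iff.mpr hx)
  have hn : 0 < ‖x‖ := norm_pos_iff.mpr hx
  have hsq := t0_norm_sq x
  have h1 : ∑ i : Fin 3, x i / ‖x‖ * (Fin.cons (fderiv ℝ f x x) (fun i => x i) : Fin 4 → ℝ) i.succ = ‖x‖ := by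
    simp only [Fin.cons_succ, Fin.sum_univ_three]
    field_simp
    linarith
  have h2 : ∑ i : Fin 3, (Fin.cons (fderiv ℝ f x x) (fun i => x i) : Fin 4 → ℝ) i.succ ^ 2 = ‖x‖ ^ 2 := by
    simp only [Fin.cons_succ, Fin.sum_univ_three]
    linarith
  rw [h1, h2, sub_self, mul_zero, add_zero, Fin.cons_zero] at h
  have h3 : fderiv ℝ f x x ^ 2 < (k ‖x‖ * ‖x‖) ^ 2 := by
    have h4 : 0 < F (pt (f x) x) * ((k ‖x‖ * ‖x‖) ^ 2 - fderiv ℝ f x x ^ 2) := by nlinarith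
    have := (mul_pos_iff_of_pos_left hF).mp h4
    linarith
  exact abs_lt_of_sq_lt_sq h3 (by positivity)

end H17T
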