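import Pool.Agent.Lib.H31R.N4
import Pool.Agent.Lib.H17T.T0

set_option autoImplicit false

/-!
# H17T, chunk N1 (M): stereographic coordinates centred at `n`

`stn n e1 e2 y1 y2 = 2 s (n + y1 e1 + y2 e2) - n`, `s = 1/(1 + y1² + y2²)`, has length one:
`|n + y1 e1 + y2 e2|² = 1/s` and `n · (n + y1 e1 + y2 e2) = 1`. `SM (T, ρ, y1, y2) = (T, ρ stn)`. Existence of a frame: complete `n` to an
orthonormal basis, or take `e1` orthogonal to `n` of length one and `e2` the cross product.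
-/

open MeasureTheory Filter Topology Set
open scoped ContDiff

namespace H17T

open Pool.Agent.Lib.PenroseSph (E3 Tens S2 sm)

/-- An orthonormal frame. -/
structure Frame (n e1 e2 : E3) : Prop where
  nn : ∑ i, n i * n i = 1
  aa : ∑ i, e1 i * e1 i = 1
  bb : ∑ i, e2 i * e2 i = 1
  na : ∑ i, n i * e1 i = 0
  nb : ∑ i, n i * e2 i = 0
  ab : ∑ i, e1 i * e2 i = 0

/-- Stereographic parametrisation of the unit sphere with centre `n`. -/
noncomputable def stn (n e1 e2 : E3) (y1 y2 : ℝ) : E3 :=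
  (2 * (1 + y1 ^ 2 + y2 ^ 2)⁻¹) • (n + y1 • e1 + y2 • e2) - n

/-- The map `(T, ρ, y1, y2) ↦ (T, ρ stn)`. -/
noncomputable def SM (n e1 e2 : E3) (q : E4) : E4 := pt (q 0) (q 1 • stn n e1 e2 (q 2) (q 3))

/-- The base point over `q = (T, ρ)`. -/
noncomputable def bp (q : ℝ × ℝ) : E4 := !₂[q.1, q.2, 0, 0]

theorem exists_frame (n : S2) : ∃ e1 e2 : E3, Frame n e1 e2 := by
  have hn : ‖(n : E3)‖ = 1 := by
    have := n.2
    rwa [mem_sphere_zero_iff_norm] at this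
  have hv : Orthonormal ℝ (({0} : Set (Fin 3)).domRestrict fun _ : Fin 3 => (n : E3)) := by
    constructor
    · intro i
      exact hn
    · rintro ⟨i, hi⟩ ⟨j, hj⟩ hij
      exfalso
      apply hij
      rw [Set.mem_singleton_iff] at hi hj
      exact Subtype.ext (hi.trans hj.symm)
  obtain ⟨b, hb⟩ := hv.exists_orthonormalBasis_extension_of_card_eq (by simp)
  have hb0 : b 0 = (n : E3) := hb 0 rfl
  have hin : ∀ i j : Fin 3, ∑ l, b i l * b j l = if i = j then 1 else 0 := by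
    intro i j
    have h := orthonormal_iff_ite.mp b.orthonormal i j
    rw [PiLp.inner_apply] at h
    rw [← h]
    refine Finset.sum_congr rfl fun l _ => ?_
    simp [mul_comm]
  refine ⟨b 1, b 2, ?_, ?_, ?_, ?_, ?_, ?_⟩
  · have h := hin 0 0
    rw [hb0] at h
    simpa using h
  · simpa using hin 1 1
  · simpa using hin 2 2
  · have h := hin 0 1
    rw [hb0] at h
    simpa using h
  · have h := hin 0 2
    rw [hb0] at h
    simpa using h
  · simpa using hin 1 2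

theorem stn_norm {n e1 e2 : E3} (h : Frame n e1 e2) (y1 y2 : ℝ) : ‖stn n e1 e2 y1 y2‖ = 1 := by
  have hs : (1 + y1 ^ 2 + y2 ^ 2)⁻¹ * (1 + y1 ^ 2 + y2 ^ 2) = 1 := inv_mul_cancel₀ (by positivity)
  obtain ⟨h1, h2, h3, h4, h5, h6⟩ := h
  rw [Fin.sum_univ_three] at h1 h2 h3 h4 h5 h6
  have hsq : ‖stn n e1 e2 y1 y2‖ ^ 2 = 1 := by
    rw [EuclideanSpace.norm_sq_eq, Fin.sum_univ_three]
    simp only [stn, PiLp.sub_apply, PiLp.smul_apply, PiLp.add_apply, smul_eq_mul, Real.norm_eq_abs, sq_abs]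
    set s := (1 + y1 ^ 2 + y2 ^ 2)⁻¹
    linear_combination (4 * s ^ 2 - 4 * s + 1) * h1 + 4 * s ^ 2 * y1 ^ 2 * h2 + 4 * s ^ 2 * y2 ^ 2 * h3
      + (8 * s ^ 2 * y1 - 4 * s * y1) * h4 + (8 * s ^ 2 * y2 - 4 * s * y2) * h5 + 8 * s ^ 2 * y1 * y2 * h6
      + 4 * s * hs
  have h0 : 0 ≤ ‖stn n e1 e2 y1 y2‖ := norm_nonneg _
  nlinarith

theorem SM_smooth (n e1 e2 : E3) : ContDiff ℝ ∞ (SM n e1 e2) := by
  have hp : ∀ j : Fin 4, ContDiff ℝ ∞ fun q : E4 => q j := fun j =>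
    (EuclideanSpace.proj (j : Fin 4) : E4 →L[ℝ] ℝ).contDiff
  have h2 : ContDiff ℝ ∞ fun q : E4 => 2 * (1 + q 2 ^ 2 + q 3 ^ 2)⁻¹ := by
    refine contDiff_const.mul (ContDiff.inv ?_ ?_)
    · exact (contDiff_const.add ((hp 2).pow 2)).add ((hp 3).pow 2)
    · intro q
      positivity
  have h3 : ContDiff ℝ ∞ fun q : E4 => n + q 2 • e1 + q 3 • e2 :=
    (contDiff_const.add ((hp 2).smul contDiff_const)).add ((hp 3).smul contDiff_const)
  have h4 : ContDiff ℝ ∞ fun q : E4 => stn n e1 e2 (q 2) (q 3) := by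
    unfold stn
    exact (h2.smul h3).sub contDiff_const
  have h1 : ContDiff ℝ ∞ fun q : E4 => q 1 • stn n e1 e2 (q 2) (q 3) := (hp 1).smul h4
  exact pt_smooth.comp ((hp 0).prodMk h1)

theorem SM_bp (n e1 e2 : E3) (q : ℝ × ℝ) : SM n e1 e2 (bp q) = ev q n := by
  unfold SM ev
  have e0 : bp q 0 = q.1 := rfl
  have e1' : bp q 1 = q.2 := rfl
  have e2' : bp q 2 = 0 := rfl
  have e3' : bp q 3 = 0 := rfl
  have h : stn n e1 e2 0 0 = n := by
    unfold stn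
    simp
    rw [two_smul]
    simp
  rw [e0, e1', e2', e3', h]

theorem SM_pos {n e1 e2 : E3} (h : Frame n e1 e2) {q : E4} (hq : 0 < q 1) :
    SM n e1 e2 q 0 = q 0 ∧ ‖pos (SM n e1 e2 q)‖ = q 1 ∧ pos (SM n e1 e2 q) ≠ 0 ∧
      ∀ i, pos (SM n e1 e2 q) i / ‖pos (SM n e1 e2 q)‖ = stn n e1 e2 (q 2) (q 3) i := by
  have hn := stn_norm h (q 2) (q 3)
  have h1 : pos (SM n e1 e2 q) = q 1 • stn n e1 e2 (q 2) (q 3) := pos_pt _ _
  have h2 : ‖pos (SM n e1 e2 q)‖ = q 1 := by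
    rw [h1, norm_smul, hn, mul_one, Real.norm_of_nonneg hq.le]
  refine ⟨pt_zero _ _, h2, ?_, fun i => ?_⟩
  · intro h0
    rw [h0, norm_zero] at h2
    exact hq.ne h2
  · rw [h2, h1, PiLp.smul_apply, smul_eq_mul]
    field_simp

end H17T
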