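import Pool.Agent.Lib.H17T.N1

set_option autoImplicit false

/-!
# H17T, chunk N2 (M/L): the metric in the coordinates `(T, ρ, y1, y2)` is diagonal

The columns of the Jacobian `H31R.jac (SM n e1 e2) q` (entries `pd i (fun z => SM .. z a) q`) are `(1, 0)`, `(0, stn)`,
`(0, ρ ∂_1 stn)`, `(0, ρ ∂_2 stn)`, where `∂_A stn = 2 s e_A - 4 s² y_A w`, `w = n + y1 e1 + y2 e2`, `s = 1/(1 + y1² + y2²)`; `stn · ∂_A stn = 0`,
`∂_A stn · ∂_B stn = 4 s² δ_AB` (from `w · w = 1/s`, `w · e_A = y_A`). As `x̂ = stn`, the matrix `Jᵀ G J` has the entries `-F`, `F k²`,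
`(r/ρ)² ρ² 4 s²` on the diagonal and `0` elsewhere.
-/

open MeasureTheory Filter Topology Set
open scoped ContDiff

namespace H17T

open Pool.Agent.Lib.PenroseSph (E3 Tens S2 sm)

/-- The diagonal entries of the metric in the coordinates `(T, ρ, y1, y2)`. -/
noncomputable def dd (F : E4 → ℝ) (k : ℝ → ℝ) (r : ℝ × ℝ → ℝ) (n e1 e2 : E3) (q : E4) : Fin 4 → ℝ :=
  ![-F (SM n e1 e2 q), F (SM n e1 e2 q) * k (q 1) ^ 2, r (q 0, q 1) ^ 2 * (4 * (1 + q 2 ^ 2 + q 3 ^ 2)⁻¹ ^ 2),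
    r (q 0, q 1) ^ 2 * (4 * (1 + q 2 ^ 2 + q 3 ^ 2)⁻¹ ^ 2)]

/-- The metric in the coordinates `(T, ρ, y1, y2)`. -/
noncomputable def dm (F : E4 → ℝ) (k : ℝ → ℝ) (r : ℝ × ℝ → ℝ) (n e1 e2 : E3) (q : E4) : Matrix (Fin 4) (Fin 4) ℝ :=
  Matrix.diagonal (dd F k r n e1 e2 q)

theorem n2_dot {n e1 e2 : E3} (h : Frame n e1 e2) (a b c a' b' c' : ℝ) :
    (a * n 0 + b * e1 0 + c * e2 0) * (a' * n 0 + b' * e1 0 + c' * e2 0)
      + (a * n 1 + b * e1 1 + c * e2 1) * (a' * n 1 + b' * e1 1 + c' * e2 1)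
      + (a * n 2 + b * e1 2 + c * e2 2) * (a' * n 2 + b' * e1 2 + c' * e2 2) = a * a' + b * b' + c * c' := by
  obtain ⟨h1, h2, h3, h4, h5, h6⟩ := h
  rw [Fin.sum_univ_three] at h1 h2 h3 h4 h5 h6
  linear_combination a * a' * h1 + b * b' * h2 + c * c' * h3 + (a * b' + b * a') * h4 + (a * c' + c * a') * h5
    + (b * c' + c * b') * h6

/-- Quadratic expression of the metric in an orthogonal decomposition. -/
theorem n2_form (F : E4 → ℝ) (k : ℝ → ℝ) (r : ℝ × ℝ → ℝ) (p : E4) (J : Matrix (Fin 4) (Fin 4) ℝ) (x : Fin 3 → ℝ)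
    (hx : ∀ i, pos p i / ‖pos p‖ = x i) (a b : Fin 4) :
    (J.transpose * stMetric F k r p * J) a b
      = -F p * (J 0 a * J 0 b) + F p * k ‖pos p‖ ^ 2 * ((x 0 * J 1 a + x 1 * J 2 a + x 2 * J 3 a)
          * (x 0 * J 1 b + x 1 * J 2 b + x 2 * J 3 b))
        + (r (p 0, ‖pos p‖) / ‖pos p‖) ^ 2 * ((J 1 a * J 1 b + J 2 a * J 2 b + J 3 a * J 3 b)
          - (x 0 * J 1 a + x 1 * J 2 a + x 2 * J 3 a) * (x 0 * J 1 b + x 1 * J 2 b + x 2 * J 3 b)) := by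
  have h00 : stMetric F k r p 0 0 = -F p := rfl
  have h01 : stMetric F k r p 0 1 = 0 := rfl
  have h02 : stMetric F k r p 0 2 = 0 := rfl
  have h03 : stMetric F k r p 0 3 = 0 := rfl
  have h10 : stMetric F k r p 1 0 = 0 := rfl
  have h20 : stMetric F k r p 2 0 = 0 := rfl
  have h30 : stMetric F k r p 3 0 = 0 := rfl
  have hs : ∀ i j : Fin 3, stMetric F k r p i.succ j.succ = F p * k ‖pos p‖ ^ 2 * (x i * x j)
      + (r (p 0, ‖pos p‖) / ‖pos p‖) ^ 2 * ((if i = j then 1 else 0) - x i * x j) := by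
    intro i j
    rw [← hx i, ← hx j]
    rfl
  have h11 := hs 0 0
  have h12 := hs 0 1
  have h13 := hs 0 2
  have h21 := hs 1 0
  have h22 := hs 1 1
  have h23 := hs 1 2
  have h31 := hs 2 0
  have h32 := hs 2 1
  have h33 := hs 2 2
  simp only [Fin.succ_zero_eq_one, Fin.succ_one_eq_two] at h11 h12 h13 h21 h22 h23 h31 h32 h33
  have e3 : (Fin.succ 2 : Fin 4) = 3 := rfl
  rw [e3] at h13 h23 h31 h32 h33
  simp only [Matrix.mul_apply, Matrix.transpose_apply, Fin.sum_univ_four]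
  rw [h00, h01, h02, h03, h10, h20, h30, h11, h12, h13, h21, h22, h23, h31, h32, h33]
  simp [Fin.ext_iff]
  ring

/-- The derivatives of the spatial components. -/
theorem n2_deriv (c a b : ℝ) (q : E4) :
    HasFDerivAt (fun q : E4 => q 1 * (2 * (1 + q 2 ^ 2 + q 3 ^ 2)⁻¹ * (c + q 2 * a + q 3 * b) - c))
      ((2 * (1 + q 2 ^ 2 + q 3 ^ 2)⁻¹ * (c + q 2 * a + q 3 * b) - c) • (EuclideanSpace.proj (1 : Fin 4) : E4 →L[ℝ] ℝ)
        + (q 1 * (2 * (1 + q 2 ^ 2 + q 3 ^ 2)⁻¹ * a - 4 * (1 + q 2 ^ 2 + q 3 ^ 2)⁻¹ ^ 2 * q 2 * (c + q 2 * a + q 3 * b)))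
          • (EuclideanSpace.proj (2 : Fin 4) : E4 →L[ℝ] ℝ)
        + (q 1 * (2 * (1 + q 2 ^ 2 + q 3 ^ 2)⁻¹ * b - 4 * (1 + q 2 ^ 2 + q 3 ^ 2)⁻¹ ^ 2 * q 3 * (c + q 2 * a + q 3 * b)))
          • (EuclideanSpace.proj (3 : Fin 4) : E4 →L[ℝ] ℝ)) q := by
  have h1 : HasFDerivAt (fun q : E4 => q 1) (EuclideanSpace.proj (1 : Fin 4) : E4 →L[ℝ] ℝ) q :=
    (EuclideanSpace.proj (1 : Fin 4) : E4 →L[ℝ] ℝ).hasFDerivAt
  have h2 : HasFDerivAt (fun q : E4 => q 2) (EuclideanSpace.proj (2 : Fin 4) : E4 →L[ℝ] ℝ) q :=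
    (EuclideanSpace.proj (2 : Fin 4) : E4 →L[ℝ] ℝ).hasFDerivAt
  have h3 : HasFDerivAt (fun q : E4 => q 3) (EuclideanSpace.proj (3 : Fin 4) : E4 →L[ℝ] ℝ) q :=
    (EuclideanSpace.proj (3 : Fin 4) : E4 →L[ℝ] ℝ).hasFDerivAt
  have hu0 : 1 + q 2 ^ 2 + q 3 ^ 2 ≠ 0 := by positivity
  have hu : HasFDerivAt (fun q : E4 => 1 + q 2 ^ 2 + q 3 ^ 2)
      ((2 * q 2) • (EuclideanSpace.proj (2 : Fin 4) : E4 →L[ℝ] ℝ)
        + (2 * q 3) • (EuclideanSpace.proj (3 : Fin 4) : E4 →L[ℝ] ℝ)) q := by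
    have := ((h2.pow 2).const_add 1).add (h3.pow 2)
    refine this.congr_fderiv ?_
    ext v
    simp
  have hs := (hasDerivAt_inv hu0).comp_hasFDerivAt q hu
  have hw : HasFDerivAt (fun q : E4 => c + q 2 * a + q 3 * b)
      (a • (EuclideanSpace.proj (2 : Fin 4) : E4 →L[ℝ] ℝ) + b • (EuclideanSpace.proj (3 : Fin 4) : E4 →L[ℝ] ℝ)) q :=
    ((h2.mul_const a).const_add c).add (h3.mul_const b)
  have hall := h1.mul (((hs.const_mul 2).mul hw).sub_const c)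
  refine hall.congr_fderiv ?_
  ext v
  simp
  field_simp
  ring

/-- The Jacobian. -/
theorem n2_jac (n e1 e2 : E3) (q : E4) :
    (∀ b, H31R.jac (SM n e1 e2) q 0 b = if b = 0 then 1 else 0) ∧
    ∀ i : Fin 3, H31R.jac (SM n e1 e2) q i.succ 0 = 0 ∧
      H31R.jac (SM n e1 e2) q i.succ 1 = stn n e1 e2 (q 2) (q 3) i ∧
      H31R.jac (SM n e1 e2) q i.succ 2 = q 1 * (2 * (1 + q 2 ^ 2 + q 3 ^ 2)⁻¹ * e1 i
        - 4 * (1 + q 2 ^ 2 + q 3 ^ 2)⁻¹ ^ 2 * q 2 * (n i + q 2 * e1 i + q 3 * e2 i)) ∧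
      H31R.jac (SM n e1 e2) q i.succ 3 = q 1 * (2 * (1 + q 2 ^ 2 + q 3 ^ 2)⁻¹ * e2 i
        - 4 * (1 + q 2 ^ 2 + q 3 ^ 2)⁻¹ ^ 2 * q 3 * (n i + q 2 * e1 i + q 3 * e2 i)) := by
  constructor
  · intro b
    have h : HasFDerivAt (fun z : E4 => SM n e1 e2 z 0) (EuclideanSpace.proj (0 : Fin 4) : E4 →L[ℝ] ℝ) q :=
      (EuclideanSpace.proj (0 : Fin 4) : E4 →L[ℝ] ℝ).hasFDerivAt
    unfold H31R.jac H31R.pd
    rw [h.fderiv]
    simp [eq_comm]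
  · intro i
    have h0 := n2_deriv (n i) (e1 i) (e2 i) q
    have e : (fun z : E4 => SM n e1 e2 z i.succ)
        = fun q : E4 => q 1 * (2 * (1 + q 2 ^ 2 + q 3 ^ 2)⁻¹ * (n i + q 2 * e1 i + q 3 * e2 i) - n i) := by
      funext z
      unfold SM
      rw [pt_succ]
      simp only [stn, PiLp.sub_apply, PiLp.smul_apply, PiLp.add_apply, smul_eq_mul]
    unfold H31R.jac H31R.pd
    rw [e, h0.fderiv]
    refine ⟨?_, ?_, ?_, ?_⟩
    · simp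
    · simp [stn]
      ring
    · simp
    · simp

theorem pull_metric {F : E4 → ℝ} {k : ℝ → ℝ} {r : ℝ × ℝ → ℝ} {n e1 e2 : E3} (h : Frame n e1 e2) {q : E4}
    (hq : 0 < q 1) :
    dm F k r n e1 e2 q = (H31R.jac (SM n e1 e2) q).transpose * stMetric F k r (SM n e1 e2 q) *
      H31R.jac (SM n e1 e2) q := by
  obtain ⟨hJ0, hJ⟩ := n2_jac n e1 e2 q
  obtain ⟨hp0, hpn, hpne, hpx⟩ := SM_pos h hq
  set J := H31R.jac (SM n e1 e2) q with hJdef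
  have hs : (1 + q 2 ^ 2 + q 3 ^ 2)⁻¹ * (1 + q 2 ^ 2 + q 3 ^ 2) = 1 := inv_mul_cancel₀ (by positivity)
  set s := (1 + q 2 ^ 2 + q 3 ^ 2)⁻¹ with hsdef
  set y1 := q 2 with hy1
  set y2 := q 3 with hy2
  set ρ := q 1 with hρ
  have hx : ∀ i : Fin 3, stn n e1 e2 y1 y2 i = (2 * s - 1) * n i + 2 * s * y1 * e1 i + 2 * s * y2 * e2 i := by
    intro i
    simp only [stn, PiLp.sub_apply, PiLp.smul_apply, PiLp.add_apply, smul_eq_mul]
    ring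
  have j00 : J 0 0 = 1 := by rw [hJ0]; simp
  have j01 : J 0 1 = 0 := by rw [hJ0]; simp
  have j02 : J 0 2 = 0 := by rw [hJ0]; simp [Fin.ext_iff]
  have j03 : J 0 3 = 0 := by rw [hJ0]; simp [Fin.ext_iff]
  have j10 : J 1 0 = 0 := (hJ 0).1
  have j11 : J 1 1 = (2 * s - 1) * n 0 + 2 * s * y1 * e1 0 + 2 * s * y2 * e2 0 := ((hJ 0).2.1).trans (hx 0)
  have j12 : J 1 2 = ρ * (-(4 * s ^ 2 * y1) * n 0 + (2 * s - 4 * s ^ 2 * y1 ^ 2) * e1 0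
      + -(4 * s ^ 2 * y1 * y2) * e2 0) := ((hJ 0).2.2.1).trans (by ring)
  have j13 : J 1 3 = ρ * (-(4 * s ^ 2 * y2) * n 0 + -(4 * s ^ 2 * y1 * y2) * e1 0
      + (2 * s - 4 * s ^ 2 * y2 ^ 2) * e2 0) := ((hJ 0).2.2.2).trans (by ring)
  have j20 : J 2 0 = 0 := (hJ 1).1
  have j21 : J 2 1 = (2 * s - 1) * n 1 + 2 * s * y1 * e1 1 + 2 * s * y2 * e2 1 := ((hJ 1).2.1).trans (hx 1)
  have j22 : J 2 2 = ρ * (-(4 * s ^ 2 * y1) * n 1 + (2 * s - 4 * s ^ 2 * y1 ^ 2) * e1 1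
      + -(4 * s ^ 2 * y1 * y2) * e2 1) := ((hJ 1).2.2.1).trans (by ring)
  have j23 : J 2 3 = ρ * (-(4 * s ^ 2 * y2) * n 1 + -(4 * s ^ 2 * y1 * y2) * e1 1
      + (2 * s - 4 * s ^ 2 * y2 ^ 2) * e2 1) := ((hJ 1).2.2.2).trans (by ring)
  have j30 : J 3 0 = 0 := (hJ 2).1
  have j31 : J 3 1 = (2 * s - 1) * n 2 + 2 * s * y1 * e1 2 + 2 * s * y2 * e2 2 := ((hJ 2).2.1).trans (hx 2)
  have j32 : J 3 2 = ρ * (-(4 * s ^ 2 * y1) * n 2 + (2 * s - 4 * s ^ 2 * y1 ^ 2) * e1 2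
      + -(4 * s ^ 2 * y1 * y2) * e2 2) := ((hJ 2).2.2.1).trans (by ring)
  have j33 : J 3 3 = ρ * (-(4 * s ^ 2 * y2) * n 2 + -(4 * s ^ 2 * y1 * y2) * e1 2
      + (2 * s - 4 * s ^ 2 * y2 ^ 2) * e2 2) := ((hJ 2).2.2.2).trans (by ring)
  have dxx := n2_dot h (2 * s - 1) (2 * s * y1) (2 * s * y2) (2 * s - 1) (2 * s * y1) (2 * s * y2)
  have dx1 := n2_dot h (2 * s - 1) (2 * s * y1) (2 * s * y2) (-(4 * s ^ 2 * y1)) (2 * s - 4 * s ^ 2 * y1 ^ 2)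
    (-(4 * s ^ 2 * y1 * y2))
  have dx2 := n2_dot h (2 * s - 1) (2 * s * y1) (2 * s * y2) (-(4 * s ^ 2 * y2)) (-(4 * s ^ 2 * y1 * y2))
    (2 * s - 4 * s ^ 2 * y2 ^ 2)
  have d11 := n2_dot h (-(4 * s ^ 2 * y1)) (2 * s - 4 * s ^ 2 * y1 ^ 2) (-(4 * s ^ 2 * y1 * y2))
    (-(4 * s ^ 2 * y1)) (2 * s - 4 * s ^ 2 * y1 ^ 2) (-(4 * s ^ 2 * y1 * y2))
  have d12 := n2_dot h (-(4 * s ^ 2 * y1)) (2 * s - 4 * s ^ 2 * y1 ^ 2) (-(4 * s ^ 2 * y1 * y2))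
    (-(4 * s ^ 2 * y2)) (-(4 * s ^ 2 * y1 * y2)) (2 * s - 4 * s ^ 2 * y2 ^ 2)
  have d22 := n2_dot h (-(4 * s ^ 2 * y2)) (-(4 * s ^ 2 * y1 * y2)) (2 * s - 4 * s ^ 2 * y2 ^ 2)
    (-(4 * s ^ 2 * y2)) (-(4 * s ^ 2 * y1 * y2)) (2 * s - 4 * s ^ 2 * y2 ^ 2)
  replace dxx := dxx.trans (show _ = (1 : ℝ) by linear_combination 4 * s * hs)
  replace dx1 := dx1.trans (show _ = (0 : ℝ) by linear_combination -(8 * s ^ 2 * y1) * hs)
  replace dx2 := dx2.trans (show _ = (0 : ℝ) by linear_combination -(8 * s ^ 2 * y2) * hs)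
  replace d11 := d11.trans (show _ = 4 * s ^ 2 by linear_combination (16 * s ^ 3 * y1 ^ 2) * hs)
  replace d12 := d12.trans (show _ = (0 : ℝ) by linear_combination (16 * s ^ 3 * y1 * y2) * hs)
  replace d22 := d22.trans (show _ = 4 * s ^ 2 by linear_combination (16 * s ^ 3 * y2 ^ 2) * hs)
  ext a b
  rw [n2_form F k r (SM n e1 e2 q) J (fun i => (2 * s - 1) * n i + 2 * s * y1 * e1 i + 2 * s * y2 * e2 i)
    (fun i => (hpx i).trans (hx i)), hp0, hpn]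
  have hρ0 : ρ ≠ 0 := hq.ne'
  have hX : ∀ a, (fun i => (2 * s - 1) * n i + 2 * s * y1 * e1 i + 2 * s * y2 * e2 i : Fin 3 → ℝ) 0 * J 1 a
      + (fun i => (2 * s - 1) * n i + 2 * s * y1 * e1 i + 2 * s * y2 * e2 i : Fin 3 → ℝ) 1 * J 2 a
      + (fun i => (2 * s - 1) * n i + 2 * s * y1 * e1 i + 2 * s * y2 * e2 i : Fin 3 → ℝ) 2 * J 3 a
      = if a = 1 then 1 else 0 := by
    have c0 : ((2 * s - 1) * n 0 + 2 * s * y1 * e1 0 + 2 * s * y2 * e2 0) * J 1 0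
      + ((2 * s - 1) * n 1 + 2 * s * y1 * e1 1 + 2 * s * y2 * e2 1) * J 2 0
      + ((2 * s - 1) * n 2 + 2 * s * y1 * e1 2 + 2 * s * y2 * e2 2) * J 3 0 = 0 := by
      rw [j10, j20, j30]
      ring
    have c1 : ((2 * s - 1) * n 0 + 2 * s * y1 * e1 0 + 2 * s * y2 * e2 0) * J 1 1
      + ((2 * s - 1) * n 1 + 2 * s * y1 * e1 1 + 2 * s * y2 * e2 1) * J 2 1
      + ((2 * s - 1) * n 2 + 2 * s * y1 * e1 2 + 2 * s * y2 * e2 2) * J 3 1 = 1 := by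
      rw [j11, j21, j31]
      exact dxx
    have c2 : ((2 * s - 1) * n 0 + 2 * s * y1 * e1 0 + 2 * s * y2 * e2 0) * J 1 2
      + ((2 * s - 1) * n 1 + 2 * s * y1 * e1 1 + 2 * s * y2 * e2 1) * J 2 2
      + ((2 * s - 1) * n 2 + 2 * s * y1 * e1 2 + 2 * s * y2 * e2 2) * J 3 2 = 0 := by
      rw [j12, j22, j32]
      linear_combination ρ * dx1
    have c3 : ((2 * s - 1) * n 0 + 2 * s * y1 * e1 0 + 2 * s * y2 * e2 0) * J 1 3
      + ((2 * s - 1) * n 1 + 2 * s * y1 * e1 1 + 2 * s * y2 * e2 1) * J 2 3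
      + ((2 * s - 1) * n 2 + 2 * s * y1 * e1 2 + 2 * s * y2 * e2 2) * J 3 3 = 0 := by
      rw [j13, j23, j33]
      linear_combination ρ * dx2
    intro a
    fin_cases a
    · exact c0
    · exact c1
    · exact c2
    · exact c3
  have hV : ∀ a b, J 1 a * J 1 b + J 2 a * J 2 b + J 3 a * J 3 b
      = (![![0, 0, 0, 0], ![0, 1, 0, 0], ![0, 0, ρ ^ 2 * (4 * s ^ 2), 0], ![0, 0, 0, ρ ^ 2 * (4 * s ^ 2)]] :
        Fin 4 → Fin 4 → ℝ) a b := by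
    have v0 : ∀ b, J 1 0 * J 1 b + J 2 0 * J 2 b + J 3 0 * J 3 b = 0 := by
      intro b
      rw [j10, j20, j30]
      ring
    have v0' : ∀ b, J 1 b * J 1 0 + J 2 b * J 2 0 + J 3 b * J 3 0 = 0 := by
      intro b
      rw [j10, j20, j30]
      ring
    have v11 : J 1 1 * J 1 1 + J 2 1 * J 2 1 + J 3 1 * J 3 1 = 1 := by
      rw [j11, j21, j31]
      exact dxx
    have v12 : J 1 1 * J 1 2 + J 2 1 * J 2 2 + J 3 1 * J 3 2 = 0 := by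
      rw [j11, j21, j31, j12, j22, j32]
      linear_combination ρ * dx1
    have v13 : J 1 1 * J 1 3 + J 2 1 * J 2 3 + J 3 1 * J 3 3 = 0 := by
      rw [j11, j21, j31, j13, j23, j33]
      linear_combination ρ * dx2
    have v22 : J 1 2 * J 1 2 + J 2 2 * J 2 2 + J 3 2 * J 3 2 = ρ ^ 2 * (4 * s ^ 2) := by
      rw [j12, j22, j32]
      linear_combination ρ ^ 2 * d11
    have v23 : J 1 2 * J 1 3 + J 2 2 * J 2 3 + J 3 2 * J 3 3 = 0 := by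
      rw [j12, j22, j32, j13, j23, j33]
      linear_combination ρ ^ 2 * d12
    have v33 : J 1 3 * J 1 3 + J 2 3 * J 2 3 + J 3 3 * J 3 3 = ρ ^ 2 * (4 * s ^ 2) := by
      rw [j13, j23, j33]
      linear_combination ρ ^ 2 * d22
    intro a b
    fin_cases a <;> fin_cases b
    · exact v0 0
    · exact v0 1
    · exact v0 2
    · exact v0 3
    · exact v0' 1
    · exact v11
    · exact v12
    · exact v13
    · exact v0' 2
    · refine Eq.trans ?_ v12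
      simp only [Fin.mk_one, Fin.reduceFinMk]
      ring
    · exact v22
    · exact v23
    · exact v0' 3
    · refine Eq.trans ?_ v13
      simp only [Fin.mk_one, Fin.reduceFinMk]
      ring
    · refine Eq.trans ?_ v23
      simp only [Fin.mk_one, Fin.reduceFinMk]
      ring
    · exact v33
  rw [hX a, hX b, hV a b, hJ0 a, hJ0 b]
  have hdd : dd F k r n e1 e2 q = ![-F (SM n e1 e2 q), F (SM n e1 e2 q) * k ρ ^ 2, r (q 0, ρ) ^ 2 * (4 * s ^ 2),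
    r (q 0, ρ) ^ 2 * (4 * s ^ 2)] := rfl
  rw [dm, hdd]
  fin_cases a <;> fin_cases b <;> simp <;> field_simp

end H17T
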