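import Pool.Agent.Lib.H31R.N4
import Pool.Agent.Lib.H17T.Defs

set_option autoImplicit false

/-!
# H17T, chunk N4 (M/L): the Ricci tensor of a diagonal metric in dimension four

Use `H31R.N_ric_jet` (the Ricci tensor in terms of the inverse matrix, here `diagonal (1/d)`, and of the first and second partial
derivatives of the entries, `H31R.pdM`): the entries off the diagonal vanish identically. Then a finite computation
(`Fin.sum_univ_four`, `fin_cases i <;> fin_cases j`, `simp`, `field_simp`, `ring`). The formulas have been checked by computer with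
random exact jets. Second derivatives are symmetric (`H31R.N_pd_symm`).
With `φ_i = (1/2) log |d_i|`: `p1 i k = ∂_k φ_i`, `p2 i k = ∂_k² φ_i`.
-/

open MeasureTheory Filter Topology Set
open scoped ContDiff

namespace H17T

/-- `∂_k φ_i`, `φ_i = (1/2) log |d_i|`. -/
noncomputable def p1 (d : E4 → Fin 4 → ℝ) (x : E4) (i k : Fin 4) : ℝ := H31R.pd k (fun q => d q i) x / (2 * d x i)

/-- `∂_k² φ_i`. -/
noncomputable def p2 (d : E4 → Fin 4 → ℝ) (x : E4) (i k : Fin 4) : ℝ :=
  H31R.pd k (H31R.pd k fun q => d q i) x / (2 * d x i) - H31R.pd k (fun q => d q i) x ^ 2 / (2 * d x i ^ 2)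

theorem n4_ch (E : Fin 4 → ℝ) (P : Fin 4 → Fin 4 → ℝ) (k i j : Fin 4) :
    H31R.chJ (1 / 2 : ℝ) (Matrix.diagonal E) (fun m => Matrix.diagonal (P m)) k i j =
      1 / 2 * (E k * ((if j = k then P i k else 0) + (if i = k then P j k else 0) - (if i = j then P k i else 0))) := by
  unfold H31R.chJ
  rw [Finset.sum_eq_single k]
  · simp only [Matrix.diagonal_apply, if_true]
    by_cases h1 : j = k <;> by_cases h2 : i = k <;> simp [h1, h2]
  · intro l _ hl
    rw [Matrix.diagonal_apply_ne _ (Ne.symm hl), zero_mul]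
  · intro h
    exact absurd (Finset.mem_univ _) h

theorem n4_mid (E : Fin 4 → ℝ) (p : Fin 4 → ℝ) (k l : Fin 4) :
    ∑ a, ∑ b, Matrix.diagonal E k a * Matrix.diagonal p a b * Matrix.diagonal E b l =
      if k = l then E k * p k * E k else 0 := by
  rw [Finset.sum_eq_single k]
  · rw [Finset.sum_eq_single k]
    · rw [Matrix.diagonal_apply_eq, Matrix.diagonal_apply_eq, Matrix.diagonal_apply]
      split_ifs <;> simp
    · intro b _ hb
      rw [Matrix.diagonal_apply_ne p (Ne.symm hb), mul_zero, zero_mul]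
    · intro h
      exact absurd (Finset.mem_univ _) h
  · intro a _ ha
    refine Finset.sum_eq_zero fun b _ => ?_
    rw [Matrix.diagonal_apply_ne E (Ne.symm ha), zero_mul, zero_mul]
  · intro h
    exact absurd (Finset.mem_univ _) h

theorem n4_dch (E : Fin 4 → ℝ) (P : Fin 4 → Fin 4 → ℝ) (Q : Fin 4 → Fin 4 → Fin 4 → ℝ) (m k i j : Fin 4) :
    H31R.dchJ (1 / 2 : ℝ) (Matrix.diagonal E) (fun m => Matrix.diagonal (P m))
      (fun m l => Matrix.diagonal (Q m l)) m k i j =
      1 / 2 * (-(E k * P m k * E k) * ((if j = k then P i k else 0) + (if i = k then P j k else 0) - (if i = j then P k i else 0))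
        + E k * ((if j = k then Q m i k else 0) + (if i = k then Q m j k else 0) - (if i = j then Q m k i else 0))) := by
  unfold H31R.dchJ
  simp only [n4_mid]
  rw [Finset.sum_eq_single k]
  · simp only [Matrix.diagonal_apply, if_true]
    by_cases h1 : j = k <;> by_cases h2 : i = k <;> simp [h1, h2]
  · intro l _ hl
    rw [Matrix.diagonal_apply_ne _ (Ne.symm hl), zero_mul, if_neg (Ne.symm hl), neg_zero, zero_mul, zero_add]
  · intro h
    exact absurd (Finset.mem_univ _) h

theorem n4_erase (f : Fin 4 → ℝ) (i : Fin 4) :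
    ∑ k ∈ Finset.univ.erase i, f k = ∑ k, if k = i then 0 else f k := by
  rw [← Finset.filter_ne', Finset.sum_filter]
  refine Finset.sum_congr rfl fun k _ => ?_
  by_cases h : k = i <;> simp [h]

theorem n4_erase2 (f : Fin 4 → ℝ) (i j : Fin 4) :
    ∑ k ∈ (Finset.univ.erase i).erase j, f k = ∑ k, if k = i ∨ k = j then 0 else f k := by
  have h : (Finset.univ.erase i).erase j = Finset.univ.filter (fun k => ¬ (k = i ∨ k = j)) := by
    ext k
    simp only [Finset.mem_erase, Finset.mem_univ, and_true, Finset.mem_filter, true_and, not_or]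
    exact and_comm
  rw [h, Finset.sum_filter]
  refine Finset.sum_congr rfl fun k _ => ?_
  by_cases h : k = i ∨ k = j <;> simp [h]

theorem n4_off (E : Fin 4 → ℝ) (P : Fin 4 → Fin 4 → ℝ) (Q : Fin 4 → Fin 4 → Fin 4 → ℝ)
    (hQ : ∀ m l i, Q m l i = Q l m i) (i j : Fin 4) (hij : i ≠ j) :
    H31R.ricJ (1 / 2 : ℝ) (Matrix.diagonal E) (fun m => Matrix.diagonal (P m))
      (fun m l => Matrix.diagonal (Q m l)) i j =
      ∑ k ∈ (Finset.univ.erase i).erase j, (-(Q i j k * E k / 2) + P i k * E k / 2 * (P j k * E k / 2)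
        + P j i * E i / 2 * (P i k * E k / 2) + P i j * E j / 2 * (P j k * E k / 2)) := by
  unfold H31R.ricJ
  simp only [n4_ch, n4_dch, n4_erase2]
  fin_cases i <;> fin_cases j
  all_goals first | exact absurd rfl hij | skip
  all_goals
    simp [Fin.sum_univ_four]
    simp only [hQ 1 0, hQ 2 0, hQ 3 0, hQ 2 1, hQ 3 1, hQ 3 2]
    ring


theorem n4_on (E : Fin 4 → ℝ) (P : Fin 4 → Fin 4 → ℝ) (Q : Fin 4 → Fin 4 → Fin 4 → ℝ)
    (i : Fin 4) :
    H31R.ricJ (1 / 2 : ℝ) (Matrix.diagonal E) (fun m => Matrix.diagonal (P m))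
      (fun m l => Matrix.diagonal (Q m l)) i i =
      (∑ k ∈ Finset.univ.erase i, (P i i * E i / 2 * (P i k * E k / 2) - (Q i i k * E k / 2 - P i k ^ 2 * E k ^ 2 / 2)
        - (P i k * E k / 2) ^ 2))
      - ∑ k ∈ Finset.univ.erase i, E k * (Q k k i / 2 - P k i ^ 2 * E i / 2 + P k i / 2 * (P k i * E i / 2 - P k k * E k / 2
            + ∑ l ∈ (Finset.univ.erase i).erase k, P k l * E l / 2)) := by
  unfold H31R.ricJ
  simp only [n4_ch, n4_dch, n4_erase2, n4_erase]
  fin_cases i
  all_goals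
    simp [Fin.sum_univ_four]
    ring


theorem n4_cd {d : E4 → Fin 4 → ℝ} {x : E4} (hd : ∀ i, ContDiffAt ℝ 2 (fun q => d q i) x) (i j : Fin 4) :
    ContDiffAt ℝ 2 (fun q => Matrix.diagonal (d q) i j) x := by
  by_cases h : i = j
  · subst h
    simp only [Matrix.diagonal_apply_eq]
    exact hd i
  · simp only [Matrix.diagonal_apply_ne _ h]
    exact contDiffAt_const

theorem n4_det {v : Fin 4 → ℝ} (h0 : ∀ i, v i ≠ 0) : (Matrix.diagonal v).det ≠ 0 := by
  rw [Matrix.det_diagonal]
  exact Finset.prod_ne_zero_iff.2 fun i _ => h0 i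

theorem n4_inv {v : Fin 4 → ℝ} (h0 : ∀ i, v i ≠ 0) :
    (Matrix.diagonal v)⁻¹ = Matrix.diagonal fun i => (v i)⁻¹ := by
  apply Matrix.inv_eq_right_inv
  rw [Matrix.diagonal_mul_diagonal, ← Matrix.diagonal_one]
  congr 1
  funext i
  exact mul_inv_cancel₀ (h0 i)

theorem n4_pdM (d : E4 → Fin 4 → ℝ) (m : Fin 4) (y : E4) :
    H31R.pdM m (fun q => Matrix.diagonal (d q)) y = Matrix.diagonal fun k => H31R.pd m (fun q => d q k) y := by
  ext a b
  show H31R.pd m (fun q => Matrix.diagonal (d q) a b) y = _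
  by_cases h : a = b
  · subst h
    simp only [Matrix.diagonal_apply_eq]
  · simp only [Matrix.diagonal_apply_ne _ h]
    exact H31R.N_pd_const m 0

theorem n4_symm {f : E4 → ℝ} {x : E4} (hc : ContDiffAt ℝ 2 f x) (i j : Fin 4) :
    H31R.pd i (H31R.pd j f) x = H31R.pd j (H31R.pd i f) x := by
  have hs : IsSymmSndFDerivAt ℝ f x := hc.isSymmSndFDerivAt (by
    rw [minSmoothness_of_isRCLikeNormedField])
  have hd : DifferentiableAt ℝ (fderiv ℝ f) x :=
    (hc.fderiv_right (m := 1) (by norm_cast)).differentiableAt (by simp)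
  have key : ∀ i j : Fin 4, H31R.pd i (H31R.pd j f) x = fderiv ℝ (fderiv ℝ f) x (H31R.ebas i) (H31R.ebas j) := by
    intro i j
    unfold H31R.pd
    rw [fderiv_clm_apply hd (by fun_prop)]
    simp
  rw [key, key]
  exact hs _ _

theorem n4_jet {d : E4 → Fin 4 → ℝ} {x : E4} (hd : ∀ i, ContDiffAt ℝ 2 (fun q => d q i) x)
    (h0 : ∀ i, d x i ≠ 0) (i j : Fin 4) :
    H31R.ric (fun q => Matrix.diagonal (d q)) i j x =
      H31R.ricJ (1 / 2 : ℝ) (Matrix.diagonal fun k => (d x k)⁻¹)
        (fun m => Matrix.diagonal fun k => H31R.pd m (fun q => d q k) x)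
        (fun m l => Matrix.diagonal fun k => H31R.pd m (H31R.pd l fun q => d q k) x) i j := by
  rw [H31R.N_ric_jet (n4_cd hd) (n4_det h0), n4_inv h0]
  have e1 : (fun m => H31R.pdM m (fun q => Matrix.diagonal (d q)) x) =
      fun m => Matrix.diagonal fun k => H31R.pd m (fun q => d q k) x := by
    funext m
    exact n4_pdM d m x
  have e2 : (fun m l => H31R.pdM m (H31R.pdM l (fun q => Matrix.diagonal (d q))) x) =
      fun m l => Matrix.diagonal fun k => H31R.pd m (H31R.pd l fun q => d q k) x := by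
    funext m l
    have e3 : H31R.pdM l (fun q => Matrix.diagonal (d q)) =
        fun y => Matrix.diagonal fun k => H31R.pd l (fun q => d q k) y := by
      funext y
      exact n4_pdM d l y
    rw [e3]
    exact n4_pdM (fun y k => H31R.pd l (fun q => d q k) y) m x
  rw [e1, e2]

theorem ric_diag_off {d : E4 → Fin 4 → ℝ} {x : E4} (hd : ∀ i, ContDiffAt ℝ 2 (fun q => d q i) x)
    (h0 : ∀ i, d x i ≠ 0) {i j : Fin 4} (hij : i ≠ j) :
    H31R.ric (fun q => Matrix.diagonal (d q)) i j x
      = ∑ k ∈ (Finset.univ.erase i).erase j,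
          (-(H31R.pd i (H31R.pd j fun q => d q k) x) / (2 * d x k) + p1 d x k i * p1 d x k j
            + p1 d x i j * p1 d x k i + p1 d x j i * p1 d x k j) := by
  rw [n4_jet hd h0, n4_off _ _ (fun m l k => H31R.pd m (H31R.pd l fun q => d q k) x)
    (fun m l k => n4_symm (hd k) m l) i j hij]
  refine Finset.sum_congr rfl fun k _ => ?_
  unfold p1
  have h1 := h0 i
  have h2 := h0 j
  have h3 := h0 k
  field_simp

theorem ric_diag {d : E4 → Fin 4 → ℝ} {x : E4} (hd : ∀ i, ContDiffAt ℝ 2 (fun q => d q i) x)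
    (h0 : ∀ i, d x i ≠ 0) (i : Fin 4) :
    H31R.ric (fun q => Matrix.diagonal (d q)) i i x
      = (∑ k ∈ Finset.univ.erase i, (p1 d x i i * p1 d x k i - p2 d x k i - p1 d x k i ^ 2))
        - ∑ k ∈ Finset.univ.erase i, d x i / d x k * (p2 d x i k + p1 d x i k * (p1 d x i k - p1 d x k k
            + ∑ l ∈ (Finset.univ.erase i).erase k, p1 d x l k)) := by
  rw [n4_jet hd h0, n4_on _ _ (fun m l k => H31R.pd m (H31R.pd l fun q => d q k) x) i]
  have h1 := h0 i
  congr 1
  · refine Finset.sum_congr rfl fun k _ => ?_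
    unfold p1 p2
    have h3 := h0 k
    field_simp
  · refine Finset.sum_congr rfl fun k _ => ?_
    have h3 := h0 k
    have e : ∑ l ∈ (Finset.univ.erase i).erase k, H31R.pd k (fun q => d q l) x * (d x l)⁻¹ / 2 =
        ∑ l ∈ (Finset.univ.erase i).erase k, p1 d x l k := by
      refine Finset.sum_congr rfl fun l _ => ?_
      unfold p1
      have h4 := h0 l
      field_simp
    rw [e]
    unfold p1 p2
    field_simp

end H17T
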