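import Pool.Agent.Lib.H17T.N3
import Pool.Agent.Lib.H17T.N4
import Pool.Agent.Lib.H17T.C3

set_option autoImplicit false

/-!
# H17T, chunks N5A (M/L) and N5B (M/L): the three components of the Einstein tensor

At `B = bp q`, with `Fh q' = F (SM n e1 e2 q')`, `k = k q.2`, `r = r q`. The entries `d = dd ..` have the partial derivatives (first lemma,
chunk N5A): `d_0 = -Fh`; `d_1 = Fh k(ρ)²`; `d_2 = d_3 = W = 4 r² s²`: `W = 4 r²`, `∂_0 W = 8 r r_T`, `∂_1 W = 8 r r_ρ`, `∂_2 W = ∂_3 W = 0`,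
`∂_0∂_0 W = 8 (r_T² + r r_TT)`, `∂_0∂_1 W = 8 (r_T r_ρ + r r_Tρ)`, `∂_1∂_1 W = 8 (r_ρ² + r r_ρρ)`, `∂_2∂_2 W = ∂_3∂_3 W = -16 r²`.
Then (chunk N5B) `ein_aa`, `ein_bb`, `ein_ab` follow from `ric_diag_off`, `ric_diag` by algebra. The three identities have been checked by
computer with random exact jets: for `ξ = (1/2, ±1/(2k), 0, 0)`:
`Σ ein ξ ξ = -(2/r) (Da (Da r) - (Da F/F) Da r)` (`+`) and the same with `Db` (`-`; `Db φ = (-φ_T + φ_ρ/k)/2`), and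
`(2 r²/F) Σ ein ξ₊ ξ₋ = 1 - (4/F) (r Da (Db r) + Da r Db r) - (1/8) (L_22 + L_33) - (1/16) (L_2² + L_3²)`, `L = log Fh`.
-/

open MeasureTheory Filter Topology Set
open scoped ContDiff

namespace H17T

open Pool.Agent.Lib.PenroseSph (E3 Tens S2 sm)

/-- second derivatives of a product -/
theorem n5_mul2 {A B : E4 → ℝ} {x : E4} (hA : ContDiffAt ℝ 2 A x) (hB : ContDiffAt ℝ 2 B x) (a b : Fin 4) :
    H31R.pd a (H31R.pd b fun y => A y * B y) x = H31R.pd a (H31R.pd b A) x * B x + H31R.pd b A x * H31R.pd a B x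
      + (H31R.pd a A x * H31R.pd b B x + A x * H31R.pd a (H31R.pd b B) x) := by
  have hA' : ∀ᶠ y in 𝓝 x, ContDiffAt ℝ 2 A y := hA.eventually (by simp)
  have hB' : ∀ᶠ y in 𝓝 x, ContDiffAt ℝ 2 B y := hB.eventually (by simp)
  have e : H31R.pd b (fun y => A y * B y) =ᶠ[𝓝 x] fun y => H31R.pd b A y * B y + A y * H31R.pd b B y := by
    filter_upwards [hA', hB'] with y h1 h2
    exact H31R.N_pd_mul (h1.differentiableAt (by simp)) (h2.differentiableAt (by simp)) b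
  rw [H31R.N_pd_congr a e]
  have dA := hA.differentiableAt (by simp : (2 : WithTop ℕ∞) ≠ 0)
  have dB := hB.differentiableAt (by simp : (2 : WithTop ℕ∞) ≠ 0)
  have dA1 := H31R.N_pd_diff hA b
  have dB1 := H31R.N_pd_diff hB b
  rw [H31R.N_pd_add (f := fun y => H31R.pd b A y * B y) (g := fun y => A y * H31R.pd b B y)
    (dA1.mul dB) (dA.mul dB1) a, H31R.N_pd_mul dA1 dB a, H31R.N_pd_mul dA dB1 a]

/-- functions which do not depend on a coordinate -/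
theorem n5_zero {g : E4 → ℝ} {b : Fin 4} (h : ∀ (y : E4) (t : ℝ), g (y + t • H31R.ebas b) = g y) :
    H31R.pd b g = fun _ => 0 := by
  funext y
  by_cases hd : DifferentiableAt ℝ g y
  · show fderiv ℝ g y (H31R.ebas b) = 0
    rw [← hd.lineDeriv_eq_fderiv]
    unfold lineDeriv
    have e : (fun t : ℝ => g (y + t • H31R.ebas b)) = fun _ => g y := funext fun t => h y t
    rw [e, deriv_const]
  · show fderiv ℝ g y (H31R.ebas b) = 0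
    rw [fderiv_zero_of_not_differentiableAt hd]
    rfl

theorem n5_zero2 {g : E4 → ℝ} {b : Fin 4} (h : ∀ (y : E4) (t : ℝ), g (y + t • H31R.ebas b) = g y) (a : Fin 4)
    (x : E4) : H31R.pd a (H31R.pd b g) x = 0 := by
  rw [n5_zero h]
  exact H31R.N_pd_const a 0

theorem n5_co (i : Fin 4) : ContDiff ℝ ∞ (fun y : E4 => y i) :=
  (EuclideanSpace.proj i : E4 →L[ℝ] ℝ).contDiff

theorem n5_line (y : E4) (a i : Fin 4) (t : ℝ) : (y + t • H31R.ebas a : E4) i = y i + (if i = a then t else 0) := by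
  rw [PiLp.add_apply, PiLp.smul_apply, PiLp.single_apply]
  split_ifs <;> simp

/-- functions of the first two coordinates -/
theorem n5_two {ψ : ℝ × ℝ → ℝ} {y : E4} (h : DifferentiableAt ℝ ψ (y 0, y 1)) :
    H31R.pd 0 (fun q' : E4 => ψ (q' 0, q' 1)) y = fderiv ℝ ψ (y 0, y 1) (1, 0) ∧
    H31R.pd 1 (fun q' : E4 => ψ (q' 0, q' 1)) y = fderiv ℝ ψ (y 0, y 1) (0, 1) := by
  have h1 : HasFDerivAt (fun q' : E4 => ((q' 0, q' 1) : ℝ × ℝ))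
      ((EuclideanSpace.proj 0 : E4 →L[ℝ] ℝ).prod (EuclideanSpace.proj 1 : E4 →L[ℝ] ℝ)) y :=
    ((EuclideanSpace.proj 0 : E4 →L[ℝ] ℝ).hasFDerivAt).prodMk ((EuclideanSpace.proj 1 : E4 →L[ℝ] ℝ).hasFDerivAt)
  have h2 : HasFDerivAt (fun q' : E4 => ψ (q' 0, q' 1)) ((fderiv ℝ ψ (y 0, y 1)).comp
      ((EuclideanSpace.proj 0 : E4 →L[ℝ] ℝ).prod (EuclideanSpace.proj 1 : E4 →L[ℝ] ℝ))) y :=
    HasFDerivAt.comp (g := ψ) y h.hasFDerivAt h1
  constructor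
  · show fderiv ℝ (fun q' : E4 => ψ (q' 0, q' 1)) y (H31R.ebas 0) = _
    rw [h2.fderiv]
    show fderiv ℝ ψ (y 0, y 1) ((H31R.ebas 0 : E4) 0, (H31R.ebas 0 : E4) 1) = _
    simp
  · show fderiv ℝ (fun q' : E4 => ψ (q' 0, q' 1)) y (H31R.ebas 1) = _
    rw [h2.fderiv]
    show fderiv ℝ ψ (y 0, y 1) ((H31R.ebas 1 : E4) 0, (H31R.ebas 1 : E4) 1) = _
    simp

theorem n5_one {φ : ℝ → ℝ} {y : E4} (h : DifferentiableAt ℝ φ (y 1)) :
    H31R.pd 1 (fun q' : E4 => φ (q' 1)) y = deriv φ (y 1) := by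
  have h2 : HasFDerivAt (fun q' : E4 => φ (q' 1)) (deriv φ (y 1) • (EuclideanSpace.proj 1 : E4 →L[ℝ] ℝ)) y :=
    h.hasDerivAt.comp_hasFDerivAt y ((EuclideanSpace.proj 1 : E4 →L[ℝ] ℝ).hasFDerivAt)
  show fderiv ℝ (fun q' : E4 => φ (q' 1)) y (H31R.ebas 1) = _
  rw [h2.fderiv]
  show deriv φ (y 1) * (H31R.ebas 1 : E4) 1 = _
  simp

/-- mixed second derivatives of `r` -/
theorem n5_symm {r : ℝ × ℝ → ℝ} {q : ℝ × ℝ} (hr : ContDiffAt ℝ ∞ r q) (v w : ℝ × ℝ) :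
    fderiv ℝ (fun q => fderiv ℝ r q v) q w = fderiv ℝ (fun q => fderiv ℝ r q w) q v := by
  have hs : IsSymmSndFDerivAt ℝ r q := hr.isSymmSndFDerivAt (by
    rw [minSmoothness_of_isRCLikeNormedField]
    exact WithTop.coe_le_coe.2 le_top)
  have hd : DifferentiableAt ℝ (fderiv ℝ r) q :=
    (hr.fderiv_right (m := 1) (by norm_cast)).differentiableAt (by simp)
  have key : ∀ v w : ℝ × ℝ, fderiv ℝ (fun q => fderiv ℝ r q v) q w = fderiv ℝ (fderiv ℝ r) q w v := by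
    intro v w
    rw [fderiv_clm_apply hd (by fun_prop)]
    simp
  rw [key, key]
  exact hs _ _

theorem n5_smd {r : ℝ × ℝ → ℝ} {q : ℝ × ℝ} (hr : ContDiffAt ℝ ∞ r q) (v : ℝ × ℝ) :
    ContDiffAt ℝ ∞ (fun q => fderiv ℝ r q v) q :=
  (hr.fderiv_right (m := ∞) (by simp)).clm_apply contDiffAt_const

/-- jets of `R = r (q 0, q 1)` -/
theorem n5_R {r : ℝ × ℝ → ℝ} {y : E4} (hr : ContDiffAt ℝ ∞ r (y 0, y 1)) :
    H31R.pd 0 (H31R.pd 0 fun q' : E4 => r (q' 0, q' 1)) y = fderiv ℝ (fun q => fderiv ℝ r q (1, 0)) (y 0, y 1) (1, 0) ∧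
    H31R.pd 0 (H31R.pd 1 fun q' : E4 => r (q' 0, q' 1)) y = fderiv ℝ (fun q => fderiv ℝ r q (1, 0)) (y 0, y 1) (0, 1) ∧
    H31R.pd 1 (H31R.pd 1 fun q' : E4 => r (q' 0, q' 1)) y = fderiv ℝ (fun q => fderiv ℝ r q (0, 1)) (y 0, y 1) (0, 1) := by
  have hc : ContinuousAt (fun q' : E4 => ((q' 0, q' 1) : ℝ × ℝ)) y :=
    ((n5_co 0).continuous.prodMk (n5_co 1).continuous).continuousAt
  have hev : ∀ᶠ y' : E4 in 𝓝 y, DifferentiableAt ℝ r (y' 0, y' 1) := by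
    have h1 : ContDiffAt ℝ 2 r (y 0, y 1) := hr.of_le (WithTop.coe_le_coe.2 le_top)
    have h2 : ∀ᶠ q in 𝓝 ((y 0, y 1) : ℝ × ℝ), ContDiffAt ℝ 2 r q := h1.eventually (by simp)
    exact (hc.eventually h2).mono fun y' h => h.differentiableAt (by simp)
  have e0 : H31R.pd 0 (fun q' : E4 => r (q' 0, q' 1)) =ᶠ[𝓝 y] fun y' => fderiv ℝ r (y' 0, y' 1) (1, 0) :=
    hev.mono fun y' h => (n5_two h).1
  have e1 : H31R.pd 1 (fun q' : E4 => r (q' 0, q' 1)) =ᶠ[𝓝 y] fun y' => fderiv ℝ r (y' 0, y' 1) (0, 1) :=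
    hev.mono fun y' h => (n5_two h).2
  have d0 : DifferentiableAt ℝ (fun q => fderiv ℝ r q (1, 0)) (y 0, y 1) := (n5_smd hr _).differentiableAt (by simp)
  have d1 : DifferentiableAt ℝ (fun q => fderiv ℝ r q (0, 1)) (y 0, y 1) := (n5_smd hr _).differentiableAt (by simp)
  refine ⟨?_, ?_, ?_⟩
  · rw [H31R.N_pd_congr 0 e0]
    exact (n5_two d0).1
  · rw [H31R.N_pd_congr 0 e1, n5_symm hr]
    exact (n5_two d1).1
  · rw [H31R.N_pd_congr 1 e1]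
    exact (n5_two d1).2

/-- the conformal factor of the sphere -/
noncomputable def n5_s (y : E4) : ℝ := 4 * (1 + y 2 ^ 2 + y 3 ^ 2)⁻¹ ^ 2

theorem n5_w (y : E4) : 0 < 1 + y 2 ^ 2 + y 3 ^ 2 := by positivity

theorem n5_s_cd : ContDiff ℝ ∞ n5_s := by
  rw [contDiff_iff_contDiffAt]
  intro y
  have h : ContDiffAt ℝ ∞ (fun y : E4 => 1 + y 2 ^ 2 + y 3 ^ 2) y :=
    (contDiffAt_const.add ((n5_co 2).contDiffAt.pow 2)).add ((n5_co 3).contDiffAt.pow 2)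
  exact contDiffAt_const.mul ((h.inv (n5_w y).ne').pow 2)

theorem n5_pdline {g : E4 → ℝ} {y : E4} (hg : DifferentiableAt ℝ g y) (a : Fin 4) {g' : ℝ}
    (h : HasDerivAt (fun t : ℝ => g (y + t • H31R.ebas a)) g' 0) : H31R.pd a g y = g' := by
  show fderiv ℝ g y (H31R.ebas a) = g'
  rw [← hg.lineDeriv_eq_fderiv]
  exact h.deriv

theorem n5_calc (c u t0 : ℝ) (hc : 0 < c + u ^ 2) (e : ℝ → ℝ) (h0 : e t0 = u) (he : HasDerivAt e 1 t0) :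
    HasDerivAt (fun t => 4 * (c + e t ^ 2)⁻¹ ^ 2) (-(16 * u * (c + u ^ 2)⁻¹ ^ 3)) t0 := by
  have h1 : HasDerivAt (fun t => c + e t ^ 2) (2 * u) t0 := by
    have h := (he.pow 2).const_add c
    rw [h0] at h
    convert! h using 1
    simp
  have h2 : c + e t0 ^ 2 ≠ 0 := by
    rw [h0]
    exact hc.ne'
  have h3 := ((h1.inv h2).pow 2).const_mul 4
  rw [h0] at h3
  convert! h3 using 1
  have h4 : c + u ^ 2 ≠ 0 := hc.ne'
  simp [h0]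
  field_simp
  ring

theorem n5_s2 (y : E4) : H31R.pd 2 n5_s y = -(16 * y 2 * (1 + y 2 ^ 2 + y 3 ^ 2)⁻¹ ^ 3) := by
  refine n5_pdline (n5_s_cd.contDiffAt.differentiableAt (by simp)) 2 ?_
  have h := n5_calc (1 + y 3 ^ 2) (y 2) 0 (by positivity) (fun t => y 2 + t) (by simp)
    ((hasDerivAt_id 0).const_add (y 2))
  convert! h using 1
  · funext t
    unfold n5_s
    rw [n5_line, n5_line]
    simp
    ring
  · congr 3
    ring

theorem n5_s3 (y : E4) : H31R.pd 3 n5_s y = -(16 * y 3 * (1 + y 2 ^ 2 + y 3 ^ 2)⁻¹ ^ 3) := by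
  refine n5_pdline (n5_s_cd.contDiffAt.differentiableAt (by simp)) 3 ?_
  have h := n5_calc (1 + y 2 ^ 2) (y 3) 0 (by positivity) (fun t => y 3 + t) (by simp)
    ((hasDerivAt_id 0).const_add (y 3))
  convert! h using 1
  funext t
  unfold n5_s
  rw [n5_line, n5_line]
  simp


/-- the coordinates of the base point -/
theorem n5_bp (q : ℝ × ℝ) : bp q 0 = q.1 ∧ bp q 1 = q.2 ∧ bp q 2 = 0 ∧ bp q 3 = 0 := ⟨rfl, rfl, rfl, rfl⟩

theorem n5_sb (q : ℝ × ℝ) : n5_s (bp q) = 4 ∧ H31R.pd 2 n5_s (bp q) = 0 ∧ H31R.pd 3 n5_s (bp q) = 0 ∧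
    H31R.pd 2 (H31R.pd 2 n5_s) (bp q) = -16 ∧ H31R.pd 3 (H31R.pd 3 n5_s) (bp q) = -16 := by
  obtain ⟨h0, h1, h2, h3⟩ := n5_bp q
  have hw : DifferentiableAt ℝ (fun y : E4 => (1 + y 2 ^ 2 + y 3 ^ 2)⁻¹ ^ 3) (bp q) := by
    have h : ContDiffAt ℝ ∞ (fun y : E4 => 1 + y 2 ^ 2 + y 3 ^ 2) (bp q) :=
      (contDiffAt_const.add ((n5_co 2).contDiffAt.pow 2)).add ((n5_co 3).contDiffAt.pow 2)
    exact ((h.inv (n5_w _).ne').pow 3).differentiableAt (by simp)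
  have key : ∀ a : Fin 4, bp q a = 0 →
      H31R.pd a (fun y : E4 => -(16 * y a * (1 + y 2 ^ 2 + y 3 ^ 2)⁻¹ ^ 3)) (bp q) = -16 := by
    intro a ha
    have hd : DifferentiableAt ℝ (fun y : E4 => y a) (bp q) := (n5_co a).contDiffAt.differentiableAt (by simp)
    have h4 : H31R.pd a (fun y : E4 => y a) (bp q) = 1 := by
      refine n5_pdline hd a ?_
      have h5 : HasDerivAt (fun t : ℝ => bp q a + t) 1 0 := (hasDerivAt_id 0).const_add _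
      convert! h5 using 1
      funext t
      rw [n5_line, if_pos rfl]
    have e : (fun y : E4 => -(16 * y a * (1 + y 2 ^ 2 + y 3 ^ 2)⁻¹ ^ 3)) =
        fun y : E4 => (-16 * y a) * (1 + y 2 ^ 2 + y 3 ^ 2)⁻¹ ^ 3 := by
      funext y
      ring
    rw [e, H31R.N_pd_mul (hd.const_mul (-16)) hw, H31R.N_pd_cmul hd, h4, ha, h2, h3]
    norm_num
  refine ⟨?_, ?_, ?_, ?_, ?_⟩
  · unfold n5_s
    rw [h2, h3]
    norm_num
  · rw [n5_s2, h2]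
    ring
  · rw [n5_s3, h3]
    ring
  · rw [funext n5_s2]
    exact key 2 h2
  · rw [funext n5_s3]
    exact key 3 h3

theorem n5_sz (y : E4) (t : ℝ) : n5_s (y + t • H31R.ebas 0) = n5_s y ∧ n5_s (y + t • H31R.ebas 1) = n5_s y := by
  constructor <;>
  · unfold n5_s
    rw [n5_line, n5_line]
    simp

/-- jets of the third diagonal entry -/
theorem n5_W {r : ℝ × ℝ → ℝ} {q : ℝ × ℝ} (hr : ContDiffAt ℝ ∞ r q) :
    ContDiffAt ℝ 2 (fun y : E4 => r (y 0, y 1) ^ 2 * n5_s y) (bp q) ∧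
    (∀ a, H31R.pd a (fun y : E4 => r (y 0, y 1) ^ 2 * n5_s y) (bp q)
      = if a = 0 then 8 * r q * fderiv ℝ r q (1, 0) else if a = 1 then 8 * r q * fderiv ℝ r q (0, 1) else 0) ∧
    H31R.pd 0 (H31R.pd 0 fun y : E4 => r (y 0, y 1) ^ 2 * n5_s y) (bp q)
      = 8 * (fderiv ℝ r q (1, 0) ^ 2 + r q * fderiv ℝ (fun q => fderiv ℝ r q (1, 0)) q (1, 0)) ∧
    H31R.pd 0 (H31R.pd 1 fun y : E4 => r (y 0, y 1) ^ 2 * n5_s y) (bp q)
      = 8 * (fderiv ℝ r q (1, 0) * fderiv ℝ r q (0, 1)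
          + r q * fderiv ℝ (fun q => fderiv ℝ r q (1, 0)) q (0, 1)) ∧
    H31R.pd 1 (H31R.pd 1 fun y : E4 => r (y 0, y 1) ^ 2 * n5_s y) (bp q)
      = 8 * (fderiv ℝ r q (0, 1) ^ 2 + r q * fderiv ℝ (fun q => fderiv ℝ r q (0, 1)) q (0, 1)) ∧
    H31R.pd 2 (H31R.pd 2 fun y : E4 => r (y 0, y 1) ^ 2 * n5_s y) (bp q) = -(16 * r q ^ 2) ∧
    H31R.pd 3 (H31R.pd 3 fun y : E4 => r (y 0, y 1) ^ 2 * n5_s y) (bp q) = -(16 * r q ^ 2) := by
  obtain ⟨s0, s2, s3, s22, s33⟩ := n5_sb q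
  have hr' : ContDiffAt ℝ ∞ r (bp q 0, bp q 1) := hr
  have hR : ContDiffAt ℝ ∞ (fun y : E4 => r (y 0, y 1)) (bp q) :=
    ContDiffAt.comp (bp q) (g := r) hr' ((n5_co 0).prodMk (n5_co 1)).contDiffAt
  have hR2 : ContDiffAt ℝ 2 (fun y : E4 => r (y 0, y 1)) (bp q) := hR.of_le (WithTop.coe_le_coe.2 le_top)
  have hS2 : ContDiffAt ℝ 2 (fun y : E4 => r (y 0, y 1) * r (y 0, y 1)) (bp q) := hR2.mul hR2
  have hs2 : ContDiffAt ℝ 2 n5_s (bp q) := n5_s_cd.contDiffAt.of_le (WithTop.coe_le_coe.2 le_top)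
  have dR := hR2.differentiableAt (by simp : (2 : WithTop ℕ∞) ≠ 0)
  have dS := hS2.differentiableAt (by simp : (2 : WithTop ℕ∞) ≠ 0)
  have ds := hs2.differentiableAt (by simp : (2 : WithTop ℕ∞) ≠ 0)
  have e : (fun y : E4 => r (y 0, y 1) ^ 2 * n5_s y) = fun y : E4 => (r (y 0, y 1) * r (y 0, y 1)) * n5_s y := by
    funext y
    ring
  obtain ⟨R0, R1⟩ := n5_two (ψ := r) (y := bp q) (hr.differentiableAt (by simp))
  obtain ⟨R00, R01, R11⟩ := n5_R (y := bp q) hr'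
  change H31R.pd 0 (fun q' : E4 => r (q' 0, q' 1)) (bp q) = fderiv ℝ r q (1, 0) at R0
  change H31R.pd 1 (fun q' : E4 => r (q' 0, q' 1)) (bp q) = fderiv ℝ r q (0, 1) at R1
  change _ = fderiv ℝ (fun q => fderiv ℝ r q (1, 0)) q (1, 0) at R00
  change _ = fderiv ℝ (fun q => fderiv ℝ r q (1, 0)) q (0, 1) at R01
  change _ = fderiv ℝ (fun q => fderiv ℝ r q (0, 1)) q (0, 1) at R11
  have Rz2 : ∀ (y : E4) (t : ℝ), (fun y : E4 => r (y 0, y 1)) (y + t • H31R.ebas 2) = (fun y : E4 => r (y 0, y 1)) y := by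
    intro y t
    show r ((y + t • H31R.ebas 2 : E4) 0, (y + t • H31R.ebas 2 : E4) 1) = _
    rw [n5_line, n5_line]
    simp
  have Rz3 : ∀ (y : E4) (t : ℝ), (fun y : E4 => r (y 0, y 1)) (y + t • H31R.ebas 3) = (fun y : E4 => r (y 0, y 1)) y := by
    intro y t
    show r ((y + t • H31R.ebas 3 : E4) 0, (y + t • H31R.ebas 3 : E4) 1) = _
    rw [n5_line, n5_line]
    simp
  have R2 : H31R.pd 2 (fun y : E4 => r (y 0, y 1)) (bp q) = 0 := congrFun (n5_zero (g := fun y : E4 => r (y 0, y 1)) Rz2) _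
  have R3 : H31R.pd 3 (fun y : E4 => r (y 0, y 1)) (bp q) = 0 := congrFun (n5_zero (g := fun y : E4 => r (y 0, y 1)) Rz3) _
  have R22 := n5_zero2 (g := fun y : E4 => r (y 0, y 1)) Rz2 2 (bp q)
  have R33 := n5_zero2 (g := fun y : E4 => r (y 0, y 1)) Rz3 3 (bp q)
  have hs0z := fun y t => (n5_sz y t).1
  have hs1z := fun y t => (n5_sz y t).2
  have z0 : H31R.pd 0 n5_s (bp q) = 0 := congrFun (n5_zero (g := n5_s) hs0z) _
  have z1 : H31R.pd 1 n5_s (bp q) = 0 := congrFun (n5_zero (g := n5_s) hs1z) _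
  have z00 := n5_zero2 (g := n5_s) hs0z 0 (bp q)
  have z01 := n5_zero2 (g := n5_s) hs1z 0 (bp q)
  have z11 := n5_zero2 (g := n5_s) hs1z 1 (bp q)
  have hRq : (fun y : E4 => r (y 0, y 1)) (bp q) = r q := rfl
  have hRq' : r (bp q 0, bp q 1) = r q := rfl
  rw [e]
  refine ⟨hS2.mul hs2, ?_, ?_, ?_, ?_, ?_, ?_⟩
  · intro a
    rw [H31R.N_pd_mul dS ds a, H31R.N_pd_mul dR dR a]
    fin_cases a
    · simp [R0, z0, s0, hRq']
      ring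
    · simp [R1, z1, s0, hRq']
      ring
    · simp [R2, s2, s0, hRq']
    · simp [R3, s3, s0, hRq']
  · rw [n5_mul2 hS2 hs2, n5_mul2 hR2 hR2, H31R.N_pd_mul dR dR 0, R0, R00, z0, z00, s0, hRq']
    ring
  · rw [n5_mul2 hS2 hs2, n5_mul2 hR2 hR2, H31R.N_pd_mul dR dR 0, H31R.N_pd_mul dR dR 1, R0, R1, R01, z0, z1, z01, s0, hRq']
    ring
  · rw [n5_mul2 hS2 hs2, n5_mul2 hR2 hR2, H31R.N_pd_mul dR dR 1, R1, R11, z1, z11, s0, hRq']
    ring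
  · rw [n5_mul2 hS2 hs2, n5_mul2 hR2 hR2, H31R.N_pd_mul dR dR 2, R2, R22, s2, s22, s0, hRq']
    ring
  · rw [n5_mul2 hS2 hs2, n5_mul2 hR2 hR2, H31R.N_pd_mul dR dR 3, R3, R33, s3, s33, s0, hRq']
    ring


theorem n5_q2 {f : E3 → ℝ} {q : ℝ × ℝ} (hq : q ∈ QQ f) : 0 < q.2 := by
  obtain ⟨y, hy, rfl⟩ := hq
  exact norm_pos_iff.2 hy

theorem n5_r {F : E4 → ℝ} {k : ℝ → ℝ} {r : ℝ × ℝ → ℝ} {f : E3 → ℝ} (hS : Slice F k r f) {q : ℝ × ℝ}
    (hq : q ∈ QQ f) : ContDiffAt ℝ ∞ r q ∧ 0 < r q := by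
  obtain ⟨y, hy, rfl⟩ := hq
  have h1 := hS.r_smooth _ (mem_near (f := f) hy)
  have h2 := hS.r_pos _ (mem_near (f := f) hy)
  rw [pos_pt] at h1 h2
  exact ⟨h1, h2⟩

theorem n5_Fh {F : E4 → ℝ} {k : ℝ → ℝ} {r : ℝ × ℝ → ℝ} {f : E3 → ℝ} (hS : Slice F k r f) {q : ℝ × ℝ}
    (hq : q ∈ QQ f) (n : S2) (e1 e2 : E3) : ContDiffAt ℝ ∞ (fun q' => F (SM n e1 e2 q')) (bp q) := by
  have h1 : ContDiffAt ℝ ∞ F (SM n e1 e2 (bp q)) := by
    rw [SM_bp]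
    exact hS.F_smooth _ (ev_near hq n).1
  exact h1.comp (bp q) (SM_smooth n e1 e2).contDiffAt

theorem n5_K {k : ℝ → ℝ} {q : ℝ × ℝ} (hk : ContDiffAt ℝ ∞ k q.2) :
    ContDiffAt ℝ 2 (fun y : E4 => k (y 1) ^ 2) (bp q) ∧
    (∀ a, H31R.pd a (fun y : E4 => k (y 1) ^ 2) (bp q) = if a = 1 then 2 * k q.2 * deriv k q.2 else 0) ∧
    (∀ a, a ≠ 1 → H31R.pd a (H31R.pd a fun y : E4 => k (y 1) ^ 2) (bp q) = 0) := by
  have hk1 : ContDiffAt ℝ ∞ k (bp q 1) := hk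
  have hc : ContDiffAt ℝ ∞ (fun y : E4 => k (y 1)) (bp q) :=
    ContDiffAt.comp (bp q) (g := k) hk1 (n5_co 1).contDiffAt
  have hc2 : ContDiffAt ℝ 2 (fun y : E4 => k (y 1)) (bp q) := hc.of_le (WithTop.coe_le_coe.2 le_top)
  have dR := hc2.differentiableAt (by simp : (2 : WithTop ℕ∞) ≠ 0)
  have hz : ∀ a : Fin 4, a ≠ 1 → ∀ (y : E4) (t : ℝ),
      (fun y : E4 => k (y 1) ^ 2) (y + t • H31R.ebas a) = (fun y : E4 => k (y 1) ^ 2) y := by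
    intro a ha y t
    show k ((y + t • H31R.ebas a : E4) 1) ^ 2 = _
    rw [n5_line, if_neg (Ne.symm ha), add_zero]
  have e : (fun y : E4 => k (y 1) ^ 2) = fun y : E4 => k (y 1) * k (y 1) := by
    funext y
    ring
  refine ⟨hc2.pow 2, ?_, ?_⟩
  · intro a
    by_cases ha : a = 1
    · subst ha
      rw [if_pos rfl, e, H31R.N_pd_mul dR dR 1, n5_one (φ := k) (y := bp q) (hk.differentiableAt (by simp))]
      show deriv k q.2 * k q.2 + k q.2 * deriv k q.2 = _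
      ring
    · rw [if_neg ha]
      exact congrFun (n5_zero (g := fun y : E4 => k (y 1) ^ 2) (hz a ha)) _
  · intro a ha
    exact n5_zero2 (g := fun y : E4 => k (y 1) ^ 2) (hz a ha) a (bp q)

/-- chunk N5A: partial derivatives of the diagonal entries at the base point -/
theorem dd_jet {F : E4 → ℝ} {k : ℝ → ℝ} {r : ℝ × ℝ → ℝ} {f : E3 → ℝ} (hS : Slice F k r f) {q : ℝ × ℝ}
    (hq : q ∈ QQ f) (n : S2) {e1 e2 : E3} (h : Frame n e1 e2) :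
    (∀ i, ContDiffAt ℝ 2 (fun q' => dd F k r n e1 e2 q' i) (bp q)) ∧
    (∀ a, H31R.pd a (fun q' => dd F k r n e1 e2 q' 1) (bp q)
      = H31R.pd a (fun q' => F (SM n e1 e2 q')) (bp q) * k q.2 ^ 2
        + (if a = 1 then F (ev q n) * (2 * k q.2 * deriv k q.2) else 0)) ∧
    (∀ a, H31R.pd a (fun q' => dd F k r n e1 e2 q' 2) (bp q)
      = if a = 0 then 8 * r q * fderiv ℝ r q (1, 0) else if a = 1 then 8 * r q * fderiv ℝ r q (0, 1) else 0) ∧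
    H31R.pd 0 (H31R.pd 0 fun q' => dd F k r n e1 e2 q' 1) (bp q)
      = H31R.pd 0 (H31R.pd 0 fun q' => F (SM n e1 e2 q')) (bp q) * k q.2 ^ 2 ∧
    H31R.pd 2 (H31R.pd 2 fun q' => dd F k r n e1 e2 q' 1) (bp q)
      = H31R.pd 2 (H31R.pd 2 fun q' => F (SM n e1 e2 q')) (bp q) * k q.2 ^ 2 ∧
    H31R.pd 3 (H31R.pd 3 fun q' => dd F k r n e1 e2 q' 1) (bp q)
      = H31R.pd 3 (H31R.pd 3 fun q' => F (SM n e1 e2 q')) (bp q) * k q.2 ^ 2 ∧
    H31R.pd 0 (H31R.pd 0 fun q' => dd F k r n e1 e2 q' 2) (bp q)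
      = 8 * (fderiv ℝ r q (1, 0) ^ 2 + r q * fderiv ℝ (fun q => fderiv ℝ r q (1, 0)) q (1, 0)) ∧
    H31R.pd 0 (H31R.pd 1 fun q' => dd F k r n e1 e2 q' 2) (bp q)
      = 8 * (fderiv ℝ r q (1, 0) * fderiv ℝ r q (0, 1)
          + r q * fderiv ℝ (fun q => fderiv ℝ r q (1, 0)) q (0, 1)) ∧
    H31R.pd 1 (H31R.pd 1 fun q' => dd F k r n e1 e2 q' 2) (bp q)
      = 8 * (fderiv ℝ r q (0, 1) ^ 2 + r q * fderiv ℝ (fun q => fderiv ℝ r q (0, 1)) q (0, 1)) ∧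
    H31R.pd 2 (H31R.pd 2 fun q' => dd F k r n e1 e2 q' 2) (bp q) = -(16 * r q ^ 2) ∧
    H31R.pd 3 (H31R.pd 3 fun q' => dd F k r n e1 e2 q' 2) (bp q) = -(16 * r q ^ 2) ∧
    H31R.pd 3 (H31R.pd 3 fun q' => dd F k r n e1 e2 q' 3) (bp q) = -(16 * r q ^ 2) := by
  have hF := n5_Fh hS hq n e1 e2
  have hF2 : ContDiffAt ℝ 2 (fun q' => F (SM n e1 e2 q')) (bp q) := hF.of_le (WithTop.coe_le_coe.2 le_top)
  have dF := hF2.differentiableAt (by simp : (2 : WithTop ℕ∞) ≠ 0)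
  have hk := hS.k_smooth q.2 (n5_q2 hq)
  obtain ⟨K1, K2, K3⟩ := n5_K hk
  have dK := K1.differentiableAt (by simp : (2 : WithTop ℕ∞) ≠ 0)
  obtain ⟨W1, W2, W3, W4, W5, W6, W7⟩ := n5_W (n5_r hS hq).1
  have hb : (fun y : E4 => k (y 1) ^ 2) (bp q) = k q.2 ^ 2 := rfl
  have hFb : (fun q' => F (SM n e1 e2 q')) (bp q) = F (ev q n) := by
    show F (SM n e1 e2 (bp q)) = _
    rw [SM_bp]
  have E1 : (fun q' => dd F k r n e1 e2 q' 1) = fun y => (fun q' => F (SM n e1 e2 q')) y * (fun y : E4 => k (y 1) ^ 2) y := rfl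
  have E2 : (fun q' => dd F k r n e1 e2 q' 2) = fun y : E4 => r (y 0, y 1) ^ 2 * n5_s y := rfl
  have E3' : (fun q' => dd F k r n e1 e2 q' 3) = fun y : E4 => r (y 0, y 1) ^ 2 * n5_s y := rfl
  have hdd : ∀ a : Fin 4, a ≠ 1 → H31R.pd a (H31R.pd a fun q' => dd F k r n e1 e2 q' 1) (bp q)
      = H31R.pd a (H31R.pd a fun q' => F (SM n e1 e2 q')) (bp q) * k q.2 ^ 2 := by
    intro a ha
    rw [E1, n5_mul2 hF2 K1, K3 a ha, K2 a, if_neg ha]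
    have hb' : k ((bp q) 1) = k q.2 := rfl
    simp only [hb']
    ring
  refine ⟨?_, ?_, ?_, hdd 0 (by decide), hdd 2 (by decide), hdd 3 (by decide), ?_, ?_, ?_, ?_, ?_, ?_⟩
  · intro i
    fin_cases i
    · exact hF2.neg
    · exact hF2.mul K1
    · exact W1
    · exact W1
  · intro a
    rw [E1, H31R.N_pd_mul dF dK a, K2 a]
    have hb' : k ((bp q) 1) = k q.2 := rfl
    simp only [hb', SM_bp]
    split_ifs <;> ring
  · intro a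
    rw [E2]
    exact W2 a
  · rw [E2]
    exact W3
  · rw [E2]
    exact W4
  · rw [E2]
    exact W5
  · rw [E2]
    exact W6
  · rw [E2]
    exact W7
  · rw [E3']
    exact W7

theorem n5_split {φ : ℝ × ℝ → ℝ} {q : ℝ × ℝ} (a b : ℝ) :
    fderiv ℝ φ q (a, b) = a * fderiv ℝ φ q (1, 0) + b * fderiv ℝ φ q (0, 1) := by
  have h : ((a, b) : ℝ × ℝ) = a • (1, 0) + b • (0, 1) := by
    ext <;> simp
  rw [h, map_add, map_smul, map_smul, smul_eq_mul, smul_eq_mul]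

/-- derivatives of `c r_T + r_ρ / (2 k)` -/
theorem n5_D {k : ℝ → ℝ} {r : ℝ × ℝ → ℝ} {q : ℝ × ℝ} (hk : ContDiffAt ℝ ∞ k q.2) (hk0 : 0 < k q.2)
    (hr : ContDiffAt ℝ ∞ r q) (c : ℝ) :
    fderiv ℝ (fun q' => fderiv ℝ r q' (c, 1 / (2 * k q'.2))) q (1, 0) =
      c * fderiv ℝ (fun q => fderiv ℝ r q (1, 0)) q (1, 0) +
        1 / (2 * k q.2) * fderiv ℝ (fun q => fderiv ℝ r q (1, 0)) q (0, 1) ∧
    fderiv ℝ (fun q' => fderiv ℝ r q' (c, 1 / (2 * k q'.2))) q (0, 1) =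
      c * fderiv ℝ (fun q => fderiv ℝ r q (1, 0)) q (0, 1) +
        1 / (2 * k q.2) * fderiv ℝ (fun q => fderiv ℝ r q (0, 1)) q (0, 1)
        - deriv k q.2 / (2 * k q.2 ^ 2) * fderiv ℝ r q (0, 1) := by
  have d0 : DifferentiableAt ℝ (fun q => fderiv ℝ r q (1, 0)) q := (n5_smd hr _).differentiableAt (by simp)
  have d1 : DifferentiableAt ℝ (fun q => fderiv ℝ r q (0, 1)) q := (n5_smd hr _).differentiableAt (by simp)
  have hkd : HasFDerivAt (fun q' : ℝ × ℝ => k q'.2) (deriv k q.2 • ContinuousLinearMap.snd ℝ ℝ ℝ) q :=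
    (hk.differentiableAt (by simp)).hasDerivAt.comp_hasFDerivAt q hasFDerivAt_snd
  have hk2 : (2 * k q.2) ≠ 0 := by positivity
  have hu : HasFDerivAt (fun q' : ℝ × ℝ => (2 * k q'.2)⁻¹)
      ((-((2 * k q.2) ^ 2)⁻¹) • ((2 : ℝ) • (deriv k q.2 • ContinuousLinearMap.snd ℝ ℝ ℝ))) q :=
    (hasDerivAt_inv hk2).comp_hasFDerivAt q (hkd.const_mul 2)
  have e : (fun q' : ℝ × ℝ => fderiv ℝ r q' (c, 1 / (2 * k q'.2))) =
      fun q' => c * fderiv ℝ r q' (1, 0) + (2 * k q'.2)⁻¹ * fderiv ℝ r q' (0, 1) := by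
    funext q'
    rw [n5_split c, one_div]
  have hD := (d0.hasFDerivAt.const_mul c).add (hu.mul d1.hasFDerivAt)
  have hD' : fderiv ℝ (fun q' : ℝ × ℝ => c * fderiv ℝ r q' (1, 0) + (2 * k q'.2)⁻¹ * fderiv ℝ r q' (0, 1)) q = _ := hD.fderiv
  have hs := n5_symm hr (0, 1) (1, 0)
  rw [e, hD']
  constructor
  · show c * fderiv ℝ (fun q => fderiv ℝ r q (1, 0)) q (1, 0) +
      ((2 * k q.2)⁻¹ * fderiv ℝ (fun q => fderiv ℝ r q (0, 1)) q (1, 0) +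
        fderiv ℝ r q (0, 1) * (-((2 * k q.2) ^ 2)⁻¹ * (2 * (deriv k q.2 * 0)))) = _
    rw [hs]
    ring
  · show c * fderiv ℝ (fun q => fderiv ℝ r q (1, 0)) q (0, 1) +
      ((2 * k q.2)⁻¹ * fderiv ℝ (fun q => fderiv ℝ r q (0, 1)) q (0, 1) +
        fderiv ℝ r q (0, 1) * (-((2 * k q.2) ^ 2)⁻¹ * (2 * (deriv k q.2 * 1)))) = _
    have h0 := hk0.ne'
    field_simp
    ring

/-- `Da (Da r)`, `Db (Db r)`, `Da (Db r)` in terms of the partial derivatives (part of chunk N5A) -/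
theorem DD_jet {k : ℝ → ℝ} {r : ℝ × ℝ → ℝ} {q : ℝ × ℝ} (hk : ContDiffAt ℝ ∞ k q.2) (hk0 : 0 < k q.2)
    (hr : ContDiffAt ℝ ∞ r q) :
    Da k (Da k r) q = (fderiv ℝ (fun q => fderiv ℝ r q (1, 0)) q (1, 0)
      + 2 * fderiv ℝ (fun q => fderiv ℝ r q (1, 0)) q (0, 1) / k q.2
      + fderiv ℝ (fun q => fderiv ℝ r q (0, 1)) q (0, 1) / k q.2 ^ 2
      - fderiv ℝ r q (0, 1) * deriv k q.2 / k q.2 ^ 3) / 4 ∧
    Db k (Db k r) q = (fderiv ℝ (fun q => fderiv ℝ r q (1, 0)) q (1, 0)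
      - 2 * fderiv ℝ (fun q => fderiv ℝ r q (1, 0)) q (0, 1) / k q.2
      + fderiv ℝ (fun q => fderiv ℝ r q (0, 1)) q (0, 1) / k q.2 ^ 2
      - fderiv ℝ r q (0, 1) * deriv k q.2 / k q.2 ^ 3) / 4 ∧
    Da k (Db k r) q = (-fderiv ℝ (fun q => fderiv ℝ r q (1, 0)) q (1, 0)
      + fderiv ℝ (fun q => fderiv ℝ r q (0, 1)) q (0, 1) / k q.2 ^ 2
      - fderiv ℝ r q (0, 1) * deriv k q.2 / k q.2 ^ 3) / 4 := by
  have h0 := hk0.ne'
  obtain ⟨a1, a2⟩ := n5_D hk hk0 hr (1 / 2)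
  obtain ⟨b1, b2⟩ := n5_D hk hk0 hr (-(1 / 2))
  refine ⟨?_, ?_, ?_⟩
  · show fderiv ℝ (fun q' => fderiv ℝ r q' (1 / 2, 1 / (2 * k q'.2))) q (1 / 2, 1 / (2 * k q.2)) = _
    rw [n5_split (1 / 2), a1, a2]
    field_simp
    ring
  · show fderiv ℝ (fun q' => fderiv ℝ r q' (-(1 / 2), 1 / (2 * k q'.2))) q (-(1 / 2), 1 / (2 * k q.2)) = _
    rw [n5_split (-(1 / 2)), b1, b2]
    field_simp
    ring
  · show fderiv ℝ (fun q' => fderiv ℝ r q' (-(1 / 2), 1 / (2 * k q'.2))) q (1 / 2, 1 / (2 * k q.2)) = _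
    rw [n5_split (1 / 2), b1, b2]
    field_simp
    ring


/-! ### chunk N5B -/

theorem n5_scal {d : E4 → Fin 4 → ℝ} {x : E4} (h0 : ∀ i, d x i ≠ 0) (R : Fin 4 → Fin 4 → ℝ) :
    ∑ c, ∑ e, (Matrix.diagonal (d x))⁻¹ c e * R c e
      = R 0 0 / d x 0 + R 1 1 / d x 1 + R 2 2 / d x 2 + R 3 3 / d x 3 := by
  rw [n4_inv h0]
  simp [Fin.sum_univ_four, Matrix.diagonal_apply]
  ring

theorem n5_ein {d : E4 → Fin 4 → ℝ} {x : E4} (h0 : ∀ i, d x i ≠ 0) (u0 u1 v0 v1 : ℝ) :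
    ∑ a, ∑ b, ein (fun q => Matrix.diagonal (d q)) a b x * ![u0, u1, 0, 0] a * ![v0, v1, 0, 0] b
      = H31R.ric (fun q => Matrix.diagonal (d q)) 0 0 x * u0 * v0
        + H31R.ric (fun q => Matrix.diagonal (d q)) 0 1 x * u0 * v1
        + H31R.ric (fun q => Matrix.diagonal (d q)) 1 0 x * u1 * v0
        + H31R.ric (fun q => Matrix.diagonal (d q)) 1 1 x * u1 * v1
        - 1 / 2 * (H31R.ric (fun q => Matrix.diagonal (d q)) 0 0 x / d x 0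
          + H31R.ric (fun q => Matrix.diagonal (d q)) 1 1 x / d x 1
          + H31R.ric (fun q => Matrix.diagonal (d q)) 2 2 x / d x 2
          + H31R.ric (fun q => Matrix.diagonal (d q)) 3 3 x / d x 3) * (d x 0 * u0 * v0 + d x 1 * u1 * v1) := by
  unfold ein
  rw [n5_scal h0 (fun c e => H31R.ric (fun q => Matrix.diagonal (d q)) c e x)]
  simp [Fin.sum_univ_four, Matrix.diagonal_apply]
  ring

theorem n5_e (g : Fin 4 → ℝ) :
    ∑ k ∈ Finset.univ.erase 0, g k = g 1 + g 2 + g 3 ∧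
    ∑ k ∈ Finset.univ.erase 1, g k = g 0 + g 2 + g 3 ∧
    ∑ k ∈ Finset.univ.erase 2, g k = g 0 + g 1 + g 3 ∧
    ∑ k ∈ Finset.univ.erase 3, g k = g 0 + g 1 + g 2 := by
  simp only [n4_erase]
  simp [Fin.sum_univ_four]

theorem n5_ee (g : Fin 4 → ℝ) :
    ∑ k ∈ (Finset.univ.erase 0).erase 1, g k = g 2 + g 3 ∧
    ∑ k ∈ (Finset.univ.erase 0).erase 2, g k = g 1 + g 3 ∧
    ∑ k ∈ (Finset.univ.erase 0).erase 3, g k = g 1 + g 2 ∧
    ∑ k ∈ (Finset.univ.erase 1).erase 0, g k = g 2 + g 3 ∧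
    ∑ k ∈ (Finset.univ.erase 1).erase 2, g k = g 0 + g 3 ∧
    ∑ k ∈ (Finset.univ.erase 1).erase 3, g k = g 0 + g 2 ∧
    ∑ k ∈ (Finset.univ.erase 2).erase 0, g k = g 1 + g 3 ∧
    ∑ k ∈ (Finset.univ.erase 2).erase 1, g k = g 0 + g 3 ∧
    ∑ k ∈ (Finset.univ.erase 2).erase 3, g k = g 0 + g 1 ∧
    ∑ k ∈ (Finset.univ.erase 3).erase 0, g k = g 1 + g 2 ∧
    ∑ k ∈ (Finset.univ.erase 3).erase 1, g k = g 0 + g 2 ∧
    ∑ k ∈ (Finset.univ.erase 3).erase 2, g k = g 0 + g 1 := by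
  simp only [n4_erase2]
  simp [Fin.sum_univ_four]

/-- the relevant components of the Ricci tensor at the base point -/
theorem n5_ric {d : E4 → Fin 4 → ℝ} {x : E4} (hd : ∀ i, ContDiffAt ℝ 2 (fun q => d q i) x)
    (P S : Fin 4 → ℝ) (f κ κ' ρ a b A M B : ℝ) (hf : f ≠ 0) (hκ : κ ≠ 0) (hρ : ρ ≠ 0)
    (d0 : d x 0 = -f) (d1 : d x 1 = f * κ ^ 2) (d2 : d x 2 = 4 * ρ ^ 2) (d3 : d x 3 = 4 * ρ ^ 2)
    (u0 : ∀ i, H31R.pd i (fun q => d q 0) x = -P i)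
    (u1 : ∀ i, H31R.pd i (fun q => d q 1) x = P i * κ ^ 2 + (if i = 1 then f * (2 * κ * κ') else 0))
    (u2 : ∀ i, H31R.pd i (fun q => d q 2) x = if i = 0 then 8 * ρ * a else if i = 1 then 8 * ρ * b else 0)
    (u3 : ∀ i, H31R.pd i (fun q => d q 3) x = if i = 0 then 8 * ρ * a else if i = 1 then 8 * ρ * b else 0)
    (s0 : ∀ i, H31R.pd i (H31R.pd i fun q => d q 0) x = -S i)
    (s10 : H31R.pd 0 (H31R.pd 0 fun q => d q 1) x = S 0 * κ ^ 2)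
    (s12 : H31R.pd 2 (H31R.pd 2 fun q => d q 1) x = S 2 * κ ^ 2)
    (s13 : H31R.pd 3 (H31R.pd 3 fun q => d q 1) x = S 3 * κ ^ 2)
    (s20 : H31R.pd 0 (H31R.pd 0 fun q => d q 2) x = 8 * (a ^ 2 + ρ * A))
    (s201 : H31R.pd 0 (H31R.pd 1 fun q => d q 2) x = 8 * (a * b + ρ * M))
    (s210 : H31R.pd 1 (H31R.pd 0 fun q => d q 2) x = 8 * (a * b + ρ * M))
    (s21 : H31R.pd 1 (H31R.pd 1 fun q => d q 2) x = 8 * (b ^ 2 + ρ * B))
    (s23 : H31R.pd 3 (H31R.pd 3 fun q => d q 2) x = -(16 * ρ ^ 2))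
    (s30 : H31R.pd 0 (H31R.pd 0 fun q => d q 3) x = 8 * (a ^ 2 + ρ * A))
    (s301 : H31R.pd 0 (H31R.pd 1 fun q => d q 3) x = 8 * (a * b + ρ * M))
    (s310 : H31R.pd 1 (H31R.pd 0 fun q => d q 3) x = 8 * (a * b + ρ * M))
    (s31 : H31R.pd 1 (H31R.pd 1 fun q => d q 3) x = 8 * (b ^ 2 + ρ * B))
    (s32 : H31R.pd 2 (H31R.pd 2 fun q => d q 3) x = -(16 * ρ ^ 2)) :
    (∀ i, d x i ≠ 0) ∧
    H31R.ric (fun q => Matrix.diagonal (d q)) 0 1 x = H31R.ric (fun q => Matrix.diagonal (d q)) 1 0 x ∧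
    H31R.ric (fun q => Matrix.diagonal (d q)) 0 0 x / 4
      + H31R.ric (fun q => Matrix.diagonal (d q)) 0 1 x / (2 * κ)
      + H31R.ric (fun q => Matrix.diagonal (d q)) 1 1 x / (4 * κ ^ 2) =
      -(2 / ρ) * ((A + 2 * M / κ + B / κ ^ 2 - b * κ' / κ ^ 3) / 4 - (P 0 + P 1 / κ) / 2 / f * (a / 2 + b / (2 * κ))) ∧
    H31R.ric (fun q => Matrix.diagonal (d q)) 0 0 x / 4
      - H31R.ric (fun q => Matrix.diagonal (d q)) 0 1 x / (2 * κ)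
      + H31R.ric (fun q => Matrix.diagonal (d q)) 1 1 x / (4 * κ ^ 2) =
      -(2 / ρ) * ((A - 2 * M / κ + B / κ ^ 2 - b * κ' / κ ^ 3) / 4
        - (-P 0 + P 1 / κ) / 2 / f * (-(a / 2) + b / (2 * κ))) ∧
    (H31R.ric (fun q => Matrix.diagonal (d q)) 2 2 x + H31R.ric (fun q => Matrix.diagonal (d q)) 3 3 x) / 8 =
      1 - 4 / f * (ρ * ((-A + B / κ ^ 2 - b * κ' / κ ^ 3) / 4) + (a / 2 + b / (2 * κ)) * (-(a / 2) + b / (2 * κ)))
        - 1 / 8 * (S 2 / f - (P 2 / f) ^ 2 + S 3 / f - (P 3 / f) ^ 2) - 1 / 16 * ((P 2 / f) ^ 2 + (P 3 / f) ^ 2) := by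
  have h0 : ∀ i, d x i ≠ 0 := by
    intro i
    fin_cases i
    · show d x 0 ≠ 0
      rw [d0]
      exact neg_ne_zero.2 hf
    · show d x 1 ≠ 0
      rw [d1]
      positivity
    · show d x 2 ≠ 0
      rw [d2]
      positivity
    · show d x 3 ≠ 0
      rw [d3]
      positivity
  have P0 : ∀ k, p1 d x 0 k = P k / (2 * f) := by
    intro k
    unfold p1
    rw [u0, d0]
    field_simp
  have P1 : ∀ k, p1 d x 1 k = P k / (2 * f) + (if k = 1 then κ' / κ else 0) := by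
    intro k
    unfold p1
    rw [u1, d1]
    split_ifs
    · field_simp
    · field_simp
      ring
  have P2 : ∀ k, p1 d x 2 k = if k = 0 then a / ρ else if k = 1 then b / ρ else 0 := by
    intro k
    unfold p1
    rw [u2, d2]
    split_ifs
    · field_simp
      ring
    · field_simp
      ring
    · simp
  have P3 : ∀ k, p1 d x 3 k = if k = 0 then a / ρ else if k = 1 then b / ρ else 0 := by
    intro k
    unfold p1
    rw [u3, d3]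
    split_ifs
    · field_simp
      ring
    · field_simp
      ring
    · simp
  have Q0 : ∀ k, p2 d x 0 k = S k / (2 * f) - P k ^ 2 / (2 * f ^ 2) := by
    intro k
    unfold p2
    rw [u0, s0, d0]
    field_simp
  have Q10 : p2 d x 1 0 = S 0 / (2 * f) - P 0 ^ 2 / (2 * f ^ 2) := by
    unfold p2
    rw [u1, s10, d1, if_neg (by decide)]
    field_simp
    ring
  have Q12 : p2 d x 1 2 = S 2 / (2 * f) - P 2 ^ 2 / (2 * f ^ 2) := by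
    unfold p2
    rw [u1, s12, d1, if_neg (by decide)]
    field_simp
    ring
  have Q13 : p2 d x 1 3 = S 3 / (2 * f) - P 3 ^ 2 / (2 * f ^ 2) := by
    unfold p2
    rw [u1, s13, d1, if_neg (by decide)]
    field_simp
    ring
  have Q20 : p2 d x 2 0 = A / ρ - a ^ 2 / ρ ^ 2 := by
    unfold p2
    rw [u2, s20, d2, if_pos rfl]
    field_simp
    ring
  have Q21 : p2 d x 2 1 = B / ρ - b ^ 2 / ρ ^ 2 := by
    unfold p2
    rw [u2, s21, d2, if_neg (by decide), if_pos rfl]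
    field_simp
    ring
  have Q23 : p2 d x 2 3 = -2 := by
    unfold p2
    rw [u2, s23, d2, if_neg (by decide), if_neg (by decide)]
    field_simp
    ring
  have Q30 : p2 d x 3 0 = A / ρ - a ^ 2 / ρ ^ 2 := by
    unfold p2
    rw [u3, s30, d3, if_pos rfl]
    field_simp
    ring
  have Q31 : p2 d x 3 1 = B / ρ - b ^ 2 / ρ ^ 2 := by
    unfold p2
    rw [u3, s31, d3, if_neg (by decide), if_pos rfl]
    field_simp
    ring
  have Q32 : p2 d x 3 2 = -2 := by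
    unfold p2
    rw [u3, s32, d3, if_neg (by decide), if_neg (by decide)]
    field_simp
    ring
  have n10 : (1 : Fin 4) ≠ 0 := by decide
  have n20 : (2 : Fin 4) ≠ 0 := by decide
  have n30 : (3 : Fin 4) ≠ 0 := by decide
  have n01 : (0 : Fin 4) ≠ 1 := by decide
  have n21 : (2 : Fin 4) ≠ 1 := by decide
  have n31 : (3 : Fin 4) ≠ 1 := by decide
  have R00 : H31R.ric (fun q => Matrix.diagonal (d q)) 0 0 x = 
      (P 0 / (2 * f) * (P 0 / (2 * f)) - (S 0 / (2 * f) - P 0 ^ 2 / (2 * f ^ 2)) - (P 0 / (2 * f)) ^ 2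
        + 2 * (P 0 / (2 * f) * (a / ρ) - (A / ρ - a ^ 2 / ρ ^ 2) - (a / ρ) ^ 2))
        - (-f / (f * κ ^ 2) * (S 1 / (2 * f) - P 1 ^ 2 / (2 * f ^ 2)
            + P 1 / (2 * f) * (P 1 / (2 * f) - (P 1 / (2 * f) + κ' / κ) + 2 * (b / ρ)))
          + -f / (4 * ρ ^ 2) * (S 2 / (2 * f) - P 2 ^ 2 / (2 * f ^ 2) + P 2 / (2 * f) * (P 2 / (2 * f) + P 2 / (2 * f)))
          + -f / (4 * ρ ^ 2) * (S 3 / (2 * f) - P 3 ^ 2 / (2 * f ^ 2) + P 3 / (2 * f) * (P 3 / (2 * f) + P 3 / (2 * f)))) := by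
    rw [ric_diag hd h0 0, (n5_e _).1, (n5_e _).1, (n5_ee _).1, (n5_ee _).2.1, (n5_ee _).2.2.1]
    simp only [P0, P1, P2, P3, Q0, Q10, Q12, Q13, Q20, Q21, Q23, Q30, Q31, Q32, d0, d1, d2, d3, n10, n20, n30, n01, n21, n31,
      if_true, if_false]
    ring
  have R11 : H31R.ric (fun q => Matrix.diagonal (d q)) 1 1 x =
      ((P 1 / (2 * f) + κ' / κ) * (P 1 / (2 * f)) - (S 1 / (2 * f) - P 1 ^ 2 / (2 * f ^ 2)) - (P 1 / (2 * f)) ^ 2
        + 2 * ((P 1 / (2 * f) + κ' / κ) * (b / ρ) - (B / ρ - b ^ 2 / ρ ^ 2) - (b / ρ) ^ 2))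
        - (f * κ ^ 2 / -f * (S 0 / (2 * f) - P 0 ^ 2 / (2 * f ^ 2)
            + P 0 / (2 * f) * (2 * (a / ρ)))
          + f * κ ^ 2 / (4 * ρ ^ 2) * (S 2 / (2 * f) - P 2 ^ 2 / (2 * f ^ 2) + P 2 / (2 * f) * (P 2 / (2 * f) + P 2 / (2 * f)))
          + f * κ ^ 2 / (4 * ρ ^ 2) * (S 3 / (2 * f) - P 3 ^ 2 / (2 * f ^ 2)
            + P 3 / (2 * f) * (P 3 / (2 * f) + P 3 / (2 * f)))) := by
    rw [ric_diag hd h0 1, (n5_e _).2.1, (n5_e _).2.1, (n5_ee _).2.2.2.1, (n5_ee _).2.2.2.2.1, (n5_ee _).2.2.2.2.2.1]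
    simp only [P0, P1, P2, P3, Q0, Q10, Q12, Q13, Q20, Q21, Q23, Q30, Q31, Q32, d0, d1, d2, d3, n10, n20, n30, n01, n21, n31,
      if_true, if_false]
    ring
  have R01 : H31R.ric (fun q => Matrix.diagonal (d q)) 0 1 x =
      2 * (-(8 * (a * b + ρ * M)) / (2 * (4 * ρ ^ 2)) + a / ρ * (b / ρ) + P 1 / (2 * f) * (a / ρ)
        + P 0 / (2 * f) * (b / ρ)) := by
    rw [ric_diag_off hd h0 n01, (n5_ee _).1, s201, s301]
    simp only [P0, P1, P2, P3, Q0, Q10, Q12, Q13, Q20, Q21, Q23, Q30, Q31, Q32, d0, d1, d2, d3, n10, n20, n30, n01, n21, n31,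
      if_true, if_false]
    ring
  have R10 : H31R.ric (fun q => Matrix.diagonal (d q)) 1 0 x =
      2 * (-(8 * (a * b + ρ * M)) / (2 * (4 * ρ ^ 2)) + a / ρ * (b / ρ) + P 1 / (2 * f) * (a / ρ)
        + P 0 / (2 * f) * (b / ρ)) := by
    rw [ric_diag_off hd h0 n10, (n5_ee _).2.2.2.1, s210, s310]
    simp only [P0, P1, P2, P3, Q0, Q10, Q12, Q13, Q20, Q21, Q23, Q30, Q31, Q32, d0, d1, d2, d3, n10, n20, n30, n01, n21, n31,
      if_true, if_false]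
    ring
  have R22 : H31R.ric (fun q => Matrix.diagonal (d q)) 2 2 x =
      (-(S 2 / (2 * f) - P 2 ^ 2 / (2 * f ^ 2)) - (P 2 / (2 * f)) ^ 2) * 2 + 2
        - (4 * ρ ^ 2 / -f * (A / ρ - a ^ 2 / ρ ^ 2 + a / ρ * (a / ρ + a / ρ))
          + 4 * ρ ^ 2 / (f * κ ^ 2) * (B / ρ - b ^ 2 / ρ ^ 2 + b / ρ * (b / ρ - κ' / κ + b / ρ))
          + 4 * ρ ^ 2 / (4 * ρ ^ 2) * (-2)) := by
    rw [ric_diag hd h0 2, (n5_e _).2.2.1, (n5_e _).2.2.1, (n5_ee _).2.2.2.2.2.2.1, (n5_ee _).2.2.2.2.2.2.2.1,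
      (n5_ee _).2.2.2.2.2.2.2.2.1]
    simp only [P0, P1, P2, P3, Q0, Q10, Q12, Q13, Q20, Q21, Q23, Q30, Q31, Q32, d0, d1, d2, d3, n10, n20, n30, n01, n21, n31,
      if_true, if_false]
    ring
  have R33 : H31R.ric (fun q => Matrix.diagonal (d q)) 3 3 x =
      (-(S 3 / (2 * f) - P 3 ^ 2 / (2 * f ^ 2)) - (P 3 / (2 * f)) ^ 2) * 2 + 2
        - (4 * ρ ^ 2 / -f * (A / ρ - a ^ 2 / ρ ^ 2 + a / ρ * (a / ρ + a / ρ))
          + 4 * ρ ^ 2 / (f * κ ^ 2) * (B / ρ - b ^ 2 / ρ ^ 2 + b / ρ * (b / ρ - κ' / κ + b / ρ))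
          + 4 * ρ ^ 2 / (4 * ρ ^ 2) * (-2)) := by
    rw [ric_diag hd h0 3, (n5_e _).2.2.2, (n5_e _).2.2.2, (n5_ee _).2.2.2.2.2.2.2.2.2.1,
      (n5_ee _).2.2.2.2.2.2.2.2.2.2.1, (n5_ee _).2.2.2.2.2.2.2.2.2.2.2]
    simp only [P0, P1, P2, P3, Q0, Q10, Q12, Q13, Q20, Q21, Q23, Q30, Q31, Q32, d0, d1, d2, d3, n10, n20, n30, n01, n21, n31,
      if_true, if_false]
    ring
  refine ⟨h0, R01.trans R10.symm, ?_, ?_, ?_⟩
  · rw [R00, R01, R11]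
    field_simp
    ring
  · rw [R00, R01, R11]
    field_simp
    ring
  · rw [R22, R33]
    field_simp
    ring

/-- chunk N5B: the Einstein tensor on the null vectors -/
theorem ein_null {F : E4 → ℝ} {k : ℝ → ℝ} {r : ℝ × ℝ → ℝ} {f : E3 → ℝ} (hS : Slice F k r f) {q : ℝ × ℝ}
    (hq : q ∈ QQ f) (n : S2) {e1 e2 : E3} (h : Frame n e1 e2) :
    ∑ a, ∑ b, ein (dm F k r n e1 e2) a b (bp q) * ![1 / 2, 1 / (2 * k q.2), 0, 0] a
        * ![1 / 2, 1 / (2 * k q.2), 0, 0] b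
      = -(2 / r q) * (Da k (Da k r) q
        - (H31R.pd 0 (fun q' => F (SM n e1 e2 q')) (bp q) + H31R.pd 1 (fun q' => F (SM n e1 e2 q')) (bp q) / k q.2)
          / 2 / F (ev q n) * Da k r q) ∧
    ∑ a, ∑ b, ein (dm F k r n e1 e2) a b (bp q) * ![1 / 2, -(1 / (2 * k q.2)), 0, 0] a
        * ![1 / 2, -(1 / (2 * k q.2)), 0, 0] b
      = -(2 / r q) * (Db k (Db k r) q
        - (-(H31R.pd 0 (fun q' => F (SM n e1 e2 q')) (bp q)) + H31R.pd 1 (fun q' => F (SM n e1 e2 q')) (bp q) / k q.2)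
          / 2 / F (ev q n) * Db k r q) ∧
    2 * r q ^ 2 / F (ev q n) * ∑ a, ∑ b, ein (dm F k r n e1 e2) a b (bp q) * ![1 / 2, 1 / (2 * k q.2), 0, 0] a
        * ![1 / 2, -(1 / (2 * k q.2)), 0, 0] b
      = 1 - 4 / F (ev q n) * (r q * Da k (Db k r) q + Da k r q * Db k r q)
        - 1 / 8 * (H31R.pd 2 (H31R.pd 2 fun q' => F (SM n e1 e2 q')) (bp q) / F (ev q n)
            - (H31R.pd 2 (fun q' => F (SM n e1 e2 q')) (bp q) / F (ev q n)) ^ 2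
          + H31R.pd 3 (H31R.pd 3 fun q' => F (SM n e1 e2 q')) (bp q) / F (ev q n)
            - (H31R.pd 3 (fun q' => F (SM n e1 e2 q')) (bp q) / F (ev q n)) ^ 2)
        - 1 / 16 * ((H31R.pd 2 (fun q' => F (SM n e1 e2 q')) (bp q) / F (ev q n)) ^ 2
          + (H31R.pd 3 (fun q' => F (SM n e1 e2 q')) (bp q) / F (ev q n)) ^ 2) := by
  obtain ⟨J1, J2, J3, J4, J5, J6, J7, J8, J9, J10, J11, J12⟩ := dd_jet hS hq n h
  have hk0 := hS.k_pos q.2 (n5_q2 hq)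
  obtain ⟨hr, hr0⟩ := n5_r hS hq
  obtain ⟨D1, D2, D3⟩ := DD_jet (hS.k_smooth q.2 (n5_q2 hq)) hk0 hr
  have hf0 : 0 < F (ev q n) := hS.F_pos _ (ev_near hq n).1
  have hu0 : ∀ i, H31R.pd i (fun q' => dd F k r n e1 e2 q' 0) (bp q) = -H31R.pd i (fun q' => F (SM n e1 e2 q')) (bp q) :=
    fun i => H31R.N_pd_neg i
  have hs0 : ∀ i, H31R.pd i (H31R.pd i fun q' => dd F k r n e1 e2 q' 0) (bp q) =
      -H31R.pd i (H31R.pd i fun q' => F (SM n e1 e2 q')) (bp q) := by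
    intro i
    have e : (H31R.pd i fun q' => dd F k r n e1 e2 q' 0) = fun y => -H31R.pd i (fun q' => F (SM n e1 e2 q')) y :=
      funext fun y => H31R.N_pd_neg i
    rw [e]
    exact H31R.N_pd_neg i
  have hdd : dd F k r n e1 e2 (bp q) 0 = -F (ev q n) := by
    show -F (SM n e1 e2 (bp q)) = _
    rw [SM_bp]
  have hd1 : dd F k r n e1 e2 (bp q) 1 = F (ev q n) * k q.2 ^ 2 := by
    show F (SM n e1 e2 (bp q)) * k q.2 ^ 2 = _
    rw [SM_bp]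
  have hd2 : dd F k r n e1 e2 (bp q) 2 = 4 * r q ^ 2 := by
    show r (q.1, q.2) ^ 2 * (4 * (1 + (0:ℝ) ^ 2 + (0:ℝ) ^ 2)⁻¹ ^ 2) = _
    norm_num
    ring
  have hs := n4_symm (J1 2) 1 0
  obtain ⟨K0, K1, K2, K3, K4⟩ := n5_ric J1 (fun i => H31R.pd i (fun q' => F (SM n e1 e2 q')) (bp q))
    (fun i => H31R.pd i (H31R.pd i fun q' => F (SM n e1 e2 q')) (bp q)) (F (ev q n)) (k q.2) (deriv k q.2) (r q)
    (fderiv ℝ r q (1, 0)) (fderiv ℝ r q (0, 1)) (fderiv ℝ (fun q => fderiv ℝ r q (1, 0)) q (1, 0))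
    (fderiv ℝ (fun q => fderiv ℝ r q (1, 0)) q (0, 1)) (fderiv ℝ (fun q => fderiv ℝ r q (0, 1)) q (0, 1))
    hf0.ne' hk0.ne' hr0.ne' hdd hd1 hd2 hd2 hu0 J2 J3 J3 hs0 J4 J5 J6 J7 J8 (hs.trans J8) J9 J11 J7 J8 (hs.trans J8) J9 J10
  have hDa : Da k r q = fderiv ℝ r q (1, 0) / 2 + fderiv ℝ r q (0, 1) / (2 * k q.2) := by
    show fderiv ℝ r q (1 / 2, 1 / (2 * k q.2)) = _
    rw [n5_split (1 / 2)]
    ring
  have hDb : Db k r q = -(fderiv ℝ r q (1, 0) / 2) + fderiv ℝ r q (0, 1) / (2 * k q.2) := by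
    show fderiv ℝ r q (-(1 / 2), 1 / (2 * k q.2)) = _
    rw [n5_split (-(1 / 2))]
    ring
  have hk2 := hk0.ne'
  have hf2 := hf0.ne'
  have hr2 := hr0.ne'
  have hE := n5_ein (d := dd F k r n e1 e2) (x := bp q) K0
  have hdm : dm F k r n e1 e2 = fun q => Matrix.diagonal (dd F k r n e1 e2 q) := rfl
  rw [hdm, hE, hE, hE, D1, D2, D3, hDa, hDb, hdd, hd1, hd2, show dd F k r n e1 e2 (bp q) 3 = 4 * r q ^ 2 from hd2]
  refine ⟨?_, ?_, ?_⟩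
  · rw [← K2, ← K1]
    field_simp
    ring
  · rw [← K3, ← K1]
    field_simp
    ring
  · rw [← K4, ← K1]
    field_simp
    ring

end H17T
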