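import Pool.Agent.Lib.H17T.Defs

set_option autoImplicit false

/-!
# H17T: the reduced problem

`a = T + X(ρ)`, `b = X(ρ) - T`; `Da`, `Db` are the derivatives with respect to `a` and `b` in the `(T, ρ)` plane.
-/

open MeasureTheory Filter Topology Set
open scoped ContDiff

namespace H17T

open Pool.Agent.Lib.PenroseSph (E3 Tens S2 sm pd chr gradNorm normal meanCurv trLevel admFlux admMom DefFun)

/-- Time and radius of a point of the slice. -/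
noncomputable def qq (f : E3 → ℝ) (x : E3) : ℝ × ℝ := (f x, ‖x‖)

/-- The points of the `(T, ρ)` plane which are met by the slice. -/
def QQ (f : E3 → ℝ) : Set (ℝ × ℝ) := {q | ∃ y : E3, y ≠ 0 ∧ qq f y = q}

/-- The event over `q = (T, ρ)` in the direction `n`. -/
noncomputable def ev (q : ℝ × ℝ) (n : E3) : E4 := pt q.1 (q.2 • n)

/-- Derivative with respect to `a = T + X(ρ)`. -/
noncomputable def Da (k : ℝ → ℝ) (φ : ℝ × ℝ → ℝ) (q : ℝ × ℝ) : ℝ := fderiv ℝ φ q (1 / 2, 1 / (2 * k q.2))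

/-- Derivative with respect to `b = X(ρ) - T`. -/
noncomputable def Db (k : ℝ → ℝ) (φ : ℝ × ℝ → ℝ) (q : ℝ × ℝ) : ℝ := fderiv ℝ φ q (-(1 / 2), 1 / (2 * k q.2))

/-- Mean of `1 / F` over the sphere `q`. -/
noncomputable def mF (F : E4 → ℝ) (q : ℝ × ℝ) : ℝ := (4 * Real.pi)⁻¹ * ∫ n : S2, (F (ev q n))⁻¹ ∂sm

/-- The mass function `(r/2) (1 - 4 r_a r_b <1/F>)`. -/
noncomputable def mass (F : E4 → ℝ) (k : ℝ → ℝ) (r : ℝ × ℝ → ℝ) (q : ℝ × ℝ) : ℝ :=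
  r q / 2 * (1 - 4 * Da k r q * Db k r q * mF F q)

/-- The function `X`, a primitive of `k`. -/
noncomputable def XX (k : ℝ → ℝ) (ρ : ℝ) : ℝ := ∫ t in (1 : ℝ)..ρ, k t

/-- `NN 1 = a = T + X` and `NN (-1) = b = X - T` on the slice. -/
noncomputable def NN (ε : ℝ) (k : ℝ → ℝ) (f : E3 → ℝ) (x : E3) : ℝ := ε * f x + XX k ‖x‖

/-- The reduced inequalities. -/
structure Red (F : E4 → ℝ) (k : ℝ → ℝ) (r : ℝ × ℝ → ℝ) (f : E3 → ℝ) : Prop where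
  F_smooth : ∀ q ∈ QQ f, ∀ n : S2, ContDiffAt ℝ ∞ F (ev q n)
  F_pos : ∀ q ∈ QQ f, ∀ n : S2, 0 < F (ev q n)
  k_smooth : ∀ t : ℝ, 0 < t → ContDiffAt ℝ ∞ k t
  k_pos : ∀ t : ℝ, 0 < t → 0 < k t
  r_smooth : ∀ q ∈ QQ f, ContDiffAt ℝ ∞ r q
  r_pos : ∀ q ∈ QQ f, 0 < r q
  f_smooth : ∀ x : E3, x ≠ 0 → ContDiffAt ℝ ∞ f x
  slope : ∀ x : E3, x ≠ 0 → |fderiv ℝ f x x| < k ‖x‖ * ‖x‖
  ra : ∀ q ∈ QQ f, ∀ n : S2, Da k (Da k r) q * F (ev q n) ≤ Da k (fun q => F (ev q n)) q * Da k r q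
  rb : ∀ q ∈ QQ f, ∀ n : S2, Db k (Db k r) q * F (ev q n) ≤ Db k (fun q => F (ev q n)) q * Db k r q
  rc : ∀ q ∈ QQ f, 4 * mF F q * (r q * Da k (Db k r) q + Da k r q * Db k r q) ≤ 1

/-- Behaviour at infinity. -/
structure Ends (F : E4 → ℝ) (k : ℝ → ℝ) (r : ℝ × ℝ → ℝ) (f : E3 → ℝ) (E : ℝ) : Prop where
  pos : ∃ R : ℝ, ∀ x : E3, R ≤ ‖x‖ → 0 < Da k r (qq f x) ∧ 0 < Db k r (qq f x)
  grow : ∀ M : ℝ, ∃ R : ℝ, ∀ x : E3, R ≤ ‖x‖ → M ≤ NN 1 k f x ∧ M ≤ NN (-1) k f x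
  lim : ∀ n : S2, Tendsto (fun s : ℝ => mass F k r (qq f (s • (n : E3)))) atTop (𝓝 E)

/-- There is a smooth radial graph which encloses `Ω`, with `r ≤ 2 E + δ` and with induced metric at most `r² σ`. -/
def Env (k : ℝ → ℝ) (r : ℝ × ℝ → ℝ) (f : E3 → ℝ) (Ω : Set E3) (E δ : ℝ) : Prop :=
  ∃ s : E3 → ℝ, RadialGraph s ∧ (∀ x ∈ Ω, x ≠ 0 → ‖x‖ < s x) ∧ ∀ n : S2, r (qq f (s n • (n : E3))) ≤ 2 * E + δ ∧
    ∃ l m : ℝ, 0 ≤ l ∧ 0 ≤ m ∧ 0 < l + m ∧ ∀ i,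
      l * fderiv ℝ (NN 1 k f) (s n • (n : E3)) (gtan s n i) + m * fderiv ℝ (NN (-1) k f) (s n • (n : E3)) (gtan s n i) = 0

end H17T
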