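import Pool.Agent.Lib.H17T.N1
import Pool.Agent.Lib.H17T.Red

set_option autoImplicit false

/-!
# H17T, chunk N6 (M): from stereographic derivatives to radial and rotational derivatives

`Fh q' = F (SM n e1 e2 q')`, `B = bp q`, `P = ev q n = pt q.1 (q.2 • n)`, `ρ = q.2 > 0`, `F` is smooth near `P`.
`SM (B + (t, t', 0, 0)) = ev (q + (t, t')) n`, which gives `fh_rad`. For `fh_rot` let `ψ x = F (pt q.1 x)`, smooth near `x0 = ρ n`.
Along `t ↦ B + t e_2`: `x(t) = ρ stn(t, 0)`, `x'(0) = 2 ρ e1`, `x''(0) = -4 ρ n`. So `∂_2 Fh = 2 ρ dψ(e1)`,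
`∂_2∂_2 Fh = 4 ρ² D²ψ(e1,e1) - 4 ρ dψ(n)`, same for `3`, `e2`. On the other hand, with `rotd i ψ x = fderiv ψ x (rotv i x)` (`rotv i x = e_i × x`):
`Σ_i (rotd i ψ)² = ρ² (dψ(e1)² + dψ(e2)²)` (`Σ_i (e_i × x)(e_i × x)ᵀ = |x|² 1 - x xᵀ`) and
`Σ_i rotd i (rotd i ψ) = Σ_i (D²ψ(e_i × x, e_i × x) + dψ(e_i × (e_i × x))) = ρ² (D²ψ(e1,e1) + D²ψ(e2,e2)) - 2 ρ dψ(n)` at `x0`
(`Σ_i e_i × (e_i × x) = -2 x`). Finally `L = log ψ`: `rotd i L = rotd i ψ/ψ` near `x0`, etc.
-/

open MeasureTheory Filter Topology Set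
open scoped ContDiff

namespace H17T

open Pool.Agent.Lib.PenroseSph (E3 Tens S2 sm)

/-- Derivative along the rotation field `e_i × x`. -/
noncomputable def rotd (i : Fin 3) (φ : E3 → ℝ) (x : E3) : ℝ := fderiv ℝ φ x (rotv i x)

theorem n6_curve {E : Type*} [NormedAddCommGroup E] [NormedSpace ℝ E] {φ : E → ℝ} {x x' : ℝ → E} {x'' : E}
    (hφ : ContDiffAt ℝ 2 φ (x 0)) (hx : ∀ s, HasDerivAt x (x' s) s) (hx' : HasDerivAt x' x'' 0) :
    (∀ᶠ s in 𝓝 (0 : ℝ), HasDerivAt (fun s => φ (x s)) (fderiv ℝ φ (x s) (x' s)) s) ∧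
      deriv (fun s => φ (x s)) 0 = fderiv ℝ φ (x 0) (x' 0) ∧
      HasDerivAt (deriv fun s => φ (x s))
        (fderiv ℝ (fderiv ℝ φ) (x 0) (x' 0) (x' 0) + fderiv ℝ φ (x 0) x'') 0 := by
  have hev : ∀ᶠ y in 𝓝 (x 0), DifferentiableAt ℝ φ y := by
    filter_upwards [hφ.eventually (by norm_num)] with y hy
    exact hy.differentiableAt (by norm_num)
  have h1 : ∀ᶠ s in 𝓝 (0 : ℝ), HasDerivAt (fun s => φ (x s)) (fderiv ℝ φ (x s) (x' s)) s := by
    filter_upwards [(hx 0).continuousAt.eventually hev] with s hs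
    exact hs.hasFDerivAt.comp_hasDerivAt s (hx s)
  refine ⟨h1, h1.self_of_nhds.deriv, ?_⟩
  have hd : DifferentiableAt ℝ (fderiv ℝ φ) (x 0) :=
    (hφ.fderiv_right (m := 1) (by norm_num)).differentiableAt (by norm_num)
  have h2 : HasDerivAt (fun s => fderiv ℝ φ (x s)) (fderiv ℝ (fderiv ℝ φ) (x 0) (x' 0)) 0 :=
    hd.hasFDerivAt.comp_hasDerivAt 0 (hx 0)
  have h3 := h2.clm_apply hx'
  refine h3.congr_of_eventuallyEq ?_
  filter_upwards [h1] with s hs
  exact hs.deriv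

theorem n6_log {g : ℝ → ℝ} {B : ℝ} (h1 : ∀ᶠ s in 𝓝 (0 : ℝ), DifferentiableAt ℝ g s) (h0 : 0 < g 0)
    (h2 : HasDerivAt (deriv g) B 0) :
    HasDerivAt (deriv fun s => Real.log (g s)) (B / g 0 - (deriv g 0 / g 0) ^ 2) 0 := by
  have hg := h1.self_of_nhds
  have hpos : ∀ᶠ s in 𝓝 (0 : ℝ), 0 < g s := hg.continuousAt.eventually (lt_mem_nhds h0)
  have h3 : (deriv fun s => Real.log (g s)) =ᶠ[𝓝 0] fun s => deriv g s / g s := by
    filter_upwards [h1, hpos] with s hs1 hs2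
    exact (hs1.hasDerivAt.log hs2.ne').deriv
  have h4 := h2.div hg.hasDerivAt h0.ne'
  have h5 : (B * g 0 - deriv g 0 * deriv g 0) / g 0 ^ 2 = B / g 0 - (deriv g 0 / g 0) ^ 2 := by
    field_simp
  rw [h5] at h4
  exact h4.congr_of_eventuallyEq h3

/-- `bp` as a linear map. -/
noncomputable def n6_bp : ℝ × ℝ →L[ℝ] E4 :=
  (ContinuousLinearMap.fst ℝ ℝ ℝ).smulRight (EuclideanSpace.single 0 1)
    + (ContinuousLinearMap.snd ℝ ℝ ℝ).smulRight (EuclideanSpace.single 1 1)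

theorem n6_bp_eq (q : ℝ × ℝ) : bp q = n6_bp q := by
  ext i
  fin_cases i <;> simp [bp, n6_bp, EuclideanSpace.single]

theorem n6_rad {F : E4 → ℝ} {n e1 e2 : E3} {q : ℝ × ℝ} (hF : ContDiffAt ℝ ∞ F (ev q n)) (v : ℝ × ℝ) :
    fderiv ℝ (fun q => F (ev q n)) q v
      = v.1 * H31R.pd 0 (fun q' => F (SM n e1 e2 q')) (bp q)
        + v.2 * H31R.pd 1 (fun q' => F (SM n e1 e2 q')) (bp q) := by
  have h1 : DifferentiableAt ℝ (fun q' => F (SM n e1 e2 q')) (bp q) := by
    have h2 : DifferentiableAt ℝ F (SM n e1 e2 (bp q)) := by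
      rw [SM_bp]
      exact hF.differentiableAt (by simp)
    exact DifferentiableAt.comp (f := SM n e1 e2) (bp q) h2
      ((SM_smooth n e1 e2).contDiffAt.differentiableAt (by simp))
  have h2 : (fun q => F (ev q n)) = fun q => (fun q' => F (SM n e1 e2 q')) (n6_bp q) := by
    funext q
    simp only
    rw [← n6_bp_eq, SM_bp]
  have h3 : HasFDerivAt (fun q => (fun q' => F (SM n e1 e2 q')) (n6_bp q))
      ((fderiv ℝ (fun q' => F (SM n e1 e2 q')) (bp q)).comp n6_bp) q := by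
    have h4 : HasFDerivAt (fun q' => F (SM n e1 e2 q')) (fderiv ℝ (fun q' => F (SM n e1 e2 q')) (bp q)) (n6_bp q) := by
      rw [← n6_bp_eq]
      exact h1.hasFDerivAt
    exact h4.comp q n6_bp.hasFDerivAt
  rw [h2, h3.fderiv, ContinuousLinearMap.comp_apply]
  have h5 : n6_bp v = v.1 • EuclideanSpace.single 0 1 + v.2 • EuclideanSpace.single 1 1 := rfl
  rw [h5, map_add, map_smul, map_smul]
  rfl

/-- The rotation field as a linear map. -/
noncomputable def n6_R (i : Fin 3) : E3 →L[ℝ] E3 :=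
  (EuclideanSpace.proj (i + 1) : E3 →L[ℝ] ℝ).smulRight (EuclideanSpace.single (i + 2) (1 : ℝ))
    - (EuclideanSpace.proj (i + 2) : E3 →L[ℝ] ℝ).smulRight (EuclideanSpace.single (i + 1) (1 : ℝ))

theorem n6_R_eq (i : Fin 3) (x : E3) : rotv i x = n6_R i x := rfl

theorem n6_rotd {L : E3 → ℝ} {x : E3} (hL : ContDiffAt ℝ 2 L x) (i : Fin 3) :
    rotd i (rotd i L) x = fderiv ℝ (fderiv ℝ L) x (n6_R i x) (n6_R i x) + fderiv ℝ L x (n6_R i (n6_R i x)) := by
  have hd : DifferentiableAt ℝ (fderiv ℝ L) x :=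
    (hL.fderiv_right (m := 1) (by norm_num)).differentiableAt (by norm_num)
  have h1 : rotd i L = fun x => fderiv ℝ L x (n6_R i x) := rfl
  have h2 : rotd i (rotd i L) x = fderiv ℝ (fun x => fderiv ℝ L x (n6_R i x)) x (n6_R i x) := by
    rw [← h1]
    rfl
  rw [h2, fderiv_clm_apply hd (n6_R i).differentiableAt]
  simp only [ContinuousLinearMap.fderiv, ContinuousLinearMap.add_apply, ContinuousLinearMap.comp_apply,
    ContinuousLinearMap.flip_apply]
  ring

theorem n6_basis (v : E3) : v = ∑ a, v a • EuclideanSpace.single a (1 : ℝ) := by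
  ext i
  simp [Finset.sum_apply, Pi.single_apply]

theorem n6_bil (B : E3 →L[ℝ] E3 →L[ℝ] ℝ) (u v : E3) :
    B u v = ∑ a, ∑ b, u a * v b * B (EuclideanSpace.single a 1) (EuclideanSpace.single b 1) := by
  conv_lhs => rw [n6_basis u, n6_basis v]
  simp only [map_sum, map_smul, ContinuousLinearMap.sum_apply, ContinuousLinearMap.smul_apply, smul_eq_mul,
    Finset.mul_sum]
  rw [Finset.sum_comm]
  refine Finset.sum_congr rfl fun a _ => Finset.sum_congr rfl fun b _ => ?_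
  ring

theorem n6_lin (B : E3 →L[ℝ] ℝ) (u : E3) :
    B u = ∑ a, u a * B (EuclideanSpace.single a 1) := by
  conv_lhs => rw [n6_basis u]
  simp only [map_sum, map_smul, smul_eq_mul]

theorem n6_complete {n e1 e2 : E3} (h : Frame n e1 e2) (a b : Fin 3) :
    n a * n b + e1 a * e1 b + e2 a * e2 b = if a = b then 1 else 0 := by
  set Q : Matrix (Fin 3) (Fin 3) ℝ := Matrix.of ![fun i => n i, fun i => e1 i, fun i => e2 i] with hQ
  have h1 : Q * Q.transpose = 1 := by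
    ext i j
    rw [Matrix.mul_apply]
    simp only [Matrix.transpose_apply, Matrix.one_apply]
    have hnn := h.nn
    have haa := h.aa
    have hbb := h.bb
    have hna := h.na
    have hnb := h.nb
    have hab := h.ab
    simp only [Fin.sum_univ_three] at *
    fin_cases i <;> fin_cases j <;> simp [hQ] <;> linarith
  have h2 : Q.transpose * Q = 1 := mul_eq_one_comm.1 h1
  have h3 : (Q.transpose * Q) a b = (1 : Matrix (Fin 3) (Fin 3) ℝ) a b := by rw [h2]
  rw [Matrix.mul_apply, Matrix.one_apply] at h3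
  simp only [Matrix.transpose_apply, Fin.sum_univ_three] at h3
  exact h3

theorem n6_RR (x : E3) (a b : Fin 3) :
    ∑ i, n6_R i x a * n6_R i x b = (if a = b then ∑ c, x c ^ 2 else 0) - x a * x b := by
  simp only [Fin.sum_univ_three, n6_R]
  fin_cases a <;> fin_cases b <;> simp [EuclideanSpace.single, EuclideanSpace.proj] <;> ring

theorem n6_RR2 (x : E3) (a : Fin 3) : ∑ i, n6_R i (n6_R i x) a = -2 * x a := by
  simp only [Fin.sum_univ_three, n6_R]
  fin_cases a <;> simp [EuclideanSpace.single, EuclideanSpace.proj] <;> ring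

theorem n6_rot_sum {L : E3 → ℝ} {n e1 e2 : E3} (h : Frame n e1 e2) {ρ : ℝ} (hL : ContDiffAt ℝ 2 L (ρ • n)) :
    ∑ i, rotd i (rotd i L) (ρ • n)
      = ρ ^ 2 * (fderiv ℝ (fderiv ℝ L) (ρ • n) e1 e1 + fderiv ℝ (fderiv ℝ L) (ρ • n) e2 e2)
        - 2 * ρ * fderiv ℝ L (ρ • n) n := by
  simp only [n6_rotd hL]
  rw [Finset.sum_add_distrib]
  set B := fderiv ℝ (fderiv ℝ L) (ρ • n) with hB
  set D := fderiv ℝ L (ρ • n) with hD
  have h1 : ∑ i, B (n6_R i (ρ • n)) (n6_R i (ρ • n)) = ρ ^ 2 * (B e1 e1 + B e2 e2) := by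
    have h2 : ∑ i, B (n6_R i (ρ • n)) (n6_R i (ρ • n))
        = ∑ a, ∑ b, (∑ i, n6_R i (ρ • n) a * n6_R i (ρ • n) b)
            * B (EuclideanSpace.single a 1) (EuclideanSpace.single b 1) := by
      simp only [n6_bil B (n6_R _ (ρ • n))]
      rw [Finset.sum_comm]
      refine Finset.sum_congr rfl fun a _ => ?_
      rw [Finset.sum_comm]
      refine Finset.sum_congr rfl fun b _ => ?_
      rw [Finset.sum_mul]
    have h3 : ∀ a b, ∑ i, n6_R i (ρ • n) a * n6_R i (ρ • n) b = ρ ^ 2 * (e1 a * e1 b + e2 a * e2 b) := by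
      intro a b
      rw [n6_RR]
      have h4 := n6_complete h a b
      have h5 : ∑ c, (ρ • n) c ^ 2 = ρ ^ 2 := by
        have : ∀ c, (ρ • n) c ^ 2 = ρ ^ 2 * (n c * n c) := by
          intro c
          simp only [PiLp.smul_apply, smul_eq_mul]
          ring
        simp only [this]
        rw [← Finset.mul_sum, h.nn, mul_one]
      rw [h5]
      simp only [PiLp.smul_apply, smul_eq_mul]
      split_ifs with hab
      · rw [if_pos hab] at h4
        linear_combination (-ρ ^ 2) * h4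
      · rw [if_neg hab] at h4
        linear_combination (-ρ ^ 2) * h4
    rw [h2]
    simp only [h3]
    rw [n6_bil B e1 e1, n6_bil B e2 e2, ← Finset.sum_add_distrib, Finset.mul_sum]
    refine Finset.sum_congr rfl fun a _ => ?_
    rw [← Finset.sum_add_distrib, Finset.mul_sum]
    refine Finset.sum_congr rfl fun b _ => ?_
    ring
  have h2 : ∑ i, D (n6_R i (n6_R i (ρ • n))) = -(2 * ρ * D n) := by
    simp only [n6_lin D (n6_R _ _)]
    rw [Finset.sum_comm, n6_lin D n, Finset.mul_sum, ← Finset.sum_neg_distrib]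
    refine Finset.sum_congr rfl fun a _ => ?_
    rw [← Finset.sum_mul, n6_RR2]
    simp only [PiLp.smul_apply, smul_eq_mul]
    ring
  rw [h1, h2]
  ring

/-- First and second derivative of the curve. -/
theorem n6_x (n e : E3) (ρ : ℝ) :
    ∃ x' : ℝ → E3, (∀ s : ℝ, HasDerivAt (fun s : ℝ => ρ • ((2 * (1 + s ^ 2)⁻¹) • (n + s • e) - n)) (x' s) s) ∧
      x' 0 = (2 * ρ) • e ∧ HasDerivAt x' ((-4 * ρ) • n) 0 := by
  have hne : ∀ s : ℝ, (1 + s ^ 2) ≠ 0 := fun s => by positivity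
  have h1 : ∀ s : ℝ, HasDerivAt (fun s : ℝ => 2 * (1 + s ^ 2)⁻¹) (2 * (-(2 * s) / (1 + s ^ 2) ^ 2)) s := by
    intro s
    have h2 : HasDerivAt (fun s : ℝ => 1 + s ^ 2) (2 * s) s := by
      simpa using ((hasDerivAt_id s).pow 2).const_add 1
    exact (h2.inv (hne s)).const_mul 2
  have h2 : ∀ s : ℝ, HasDerivAt (fun s : ℝ => n + s • e) e s := by
    intro s
    simpa using ((hasDerivAt_id s).smul_const e).const_add n
  refine ⟨fun s => ρ • ((2 * (1 + s ^ 2)⁻¹) • e + (2 * (-(2 * s) / (1 + s ^ 2) ^ 2)) • (n + s • e)), ?_, ?_, ?_⟩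
  · intro s
    exact (((h1 s).smul (h2 s)).sub_const n).const_smul ρ
  · simp only [mul_zero, neg_zero, zero_div, zero_smul, add_zero]
    rw [smul_smul]
    congr 1
    norm_num
    ring
  · have h3 : HasDerivAt (fun s : ℝ => 2 * (-(2 * s) / (1 + s ^ 2) ^ 2)) (-4) 0 := by
      have h4 : HasDerivAt (fun s : ℝ => -(2 * s)) (-2) 0 := by
        simpa using ((hasDerivAt_id (0 : ℝ)).const_mul 2).fun_neg
      have h5 : HasDerivAt (fun s : ℝ => (1 + s ^ 2) ^ 2) 0 0 := by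
        have h6 : HasDerivAt (fun s : ℝ => 1 + s ^ 2) (2 * 0) 0 := by
          simpa using ((hasDerivAt_id (0 : ℝ)).pow 2).const_add 1
        simpa using h6.fun_pow 2
      have h7 := (h4.div h5 (by norm_num)).const_mul 2
      refine h7.congr_deriv ?_
      norm_num
    have h8 := (((h1 0).smul_const e).add (h3.smul (h2 0))).const_smul ρ
    refine h8.congr_deriv ?_
    simp only [mul_zero, neg_zero, zero_div, zero_smul, add_zero, zero_add, smul_smul]
    congr 1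
    ring

/-- The second derivative of `log F` along a stereographic coordinate line. -/
theorem n6_line {F : E4 → ℝ} {n e : E3} {q : ℝ × ℝ} {Fh : E4 → ℝ} {j : Fin 4}
    (hF : ContDiffAt ℝ ∞ F (ev q n)) (hF0 : 0 < F (ev q n)) (hFh : ContDiffAt ℝ 2 Fh (bp q))
    (hline : ∀ s : ℝ, Fh (bp q + s • EuclideanSpace.single j 1)
      = F (pt q.1 (q.2 • ((2 * (1 + s ^ 2)⁻¹) • (n + s • e) - n)))) :
    4 * q.2 ^ 2 * fderiv ℝ (fderiv ℝ fun x => Real.log (F (pt q.1 x))) (q.2 • n) e e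
        - 4 * q.2 * fderiv ℝ (fun x => Real.log (F (pt q.1 x))) (q.2 • n) n
      = H31R.pd j (H31R.pd j Fh) (bp q) / F (ev q n) - (H31R.pd j Fh (bp q) / F (ev q n)) ^ 2 := by
  obtain ⟨x', hx, hx0, hx''⟩ := n6_x n e q.2
  set x : ℝ → E3 := fun s : ℝ => q.2 • ((2 * (1 + s ^ 2)⁻¹) • (n + s • e) - n) with hxd
  have hx00 : x 0 = q.2 • n := by
    simp only [hxd]
    congr 1
    norm_num
    rw [two_smul]
    abel
  have hψ : ContDiffAt ℝ ∞ (fun x => F (pt q.1 x)) (q.2 • n) := by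
    have h1 : ContDiffAt ℝ ∞ (fun x : E3 => ((q.1, x) : ℝ × E3)) (q.2 • n) := contDiffAt_const.prodMk contDiffAt_id
    have h2 : ContDiffAt ℝ ∞ (fun x : E3 => pt q.1 x) (q.2 • n) :=
      ContDiffAt.comp (g := fun q : ℝ × E3 => pt q.1 q.2) (q.2 • n) pt_smooth.contDiffAt h1
    exact ContDiffAt.comp (g := F) (q.2 • n) hF h2
  have hL : ContDiffAt ℝ 2 (fun x => Real.log (F (pt q.1 x))) (x 0) := by
    rw [hx00]
    exact (hψ.log hF0.ne').of_le (by norm_cast)
  have hc1 := n6_curve hL hx hx''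
  have hl : ∀ s : ℝ, HasDerivAt (fun s : ℝ => bp q + s • (EuclideanSpace.single j (1 : ℝ) : E4))
      (EuclideanSpace.single j (1 : ℝ)) s := by
    intro s
    simpa using ((hasDerivAt_id s).smul_const (EuclideanSpace.single j (1 : ℝ) : E4)).const_add (bp q)
  have hb0 : bp q + (0 : ℝ) • (EuclideanSpace.single j (1 : ℝ) : E4) = bp q := by simp
  have hc2 := n6_curve (φ := Fh) (x := fun s : ℝ => bp q + s • (EuclideanSpace.single j (1 : ℝ) : E4))
    (x' := fun _ => EuclideanSpace.single j (1 : ℝ)) (x'' := 0) (by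
      change ContDiffAt ℝ 2 Fh (bp q + (0 : ℝ) • (EuclideanSpace.single j (1 : ℝ) : E4))
      rw [hb0]; exact hFh) hl (hasDerivAt_const _ _)
  simp only [hb0, map_zero, add_zero] at hc2
  set g : ℝ → ℝ := fun s => Fh (bp q + s • (EuclideanSpace.single j (1 : ℝ) : E4)) with hg
  have hg0 : g 0 = F (ev q n) := by
    simp only [hg]
    rw [hline 0]
    have : q.2 • ((2 * (1 + (0 : ℝ) ^ 2)⁻¹) • (n + (0 : ℝ) • e) - n) = q.2 • n := hx00
    rw [this]
    rfl
  have hlog := n6_log (hc2.1.mono fun s hs => hs.differentiableAt) (by rw [hg0]; exact hF0) hc2.2.2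
  have hfun : (fun s => Real.log (F (pt q.1 (x s)))) = fun s => Real.log (g s) := by
    funext s
    simp only [hg]
    rw [hline s]
  have hc3 := hc1.2.2
  rw [hfun] at hc3
  have huniq := hc3.unique hlog
  rw [hg0, hc2.2.1, hx00, hx0] at huniq
  have hpd : H31R.pd j (H31R.pd j Fh) (bp q)
      = fderiv ℝ (fderiv ℝ Fh) (bp q) (EuclideanSpace.single j 1) (EuclideanSpace.single j 1) := by
    have hd : DifferentiableAt ℝ (fderiv ℝ Fh) (bp q) :=
      (hFh.fderiv_right (m := 1) (by norm_num)).differentiableAt (by norm_num)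
    have h1 : H31R.pd j Fh = fun y => fderiv ℝ Fh y (EuclideanSpace.single j 1) := rfl
    rw [h1]
    unfold H31R.pd
    rw [fderiv_clm_apply hd (by fun_prop)]
    simp
  have hpd1 : H31R.pd j Fh (bp q) = fderiv ℝ Fh (bp q) (EuclideanSpace.single j 1) := rfl
  rw [hpd, hpd1, ← huniq]
  simp only [map_smul, ContinuousLinearMap.smul_apply, smul_eq_mul]
  ring

theorem fh_rad {F : E4 → ℝ} {n e1 e2 : E3} {q : ℝ × ℝ} (hF : ContDiffAt ℝ ∞ F (ev q n)) (k : ℝ → ℝ) :
    (H31R.pd 0 (fun q' => F (SM n e1 e2 q')) (bp q) + H31R.pd 1 (fun q' => F (SM n e1 e2 q')) (bp q) / k q.2) / 2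
      = Da k (fun q => F (ev q n)) q ∧
    (-(H31R.pd 0 (fun q' => F (SM n e1 e2 q')) (bp q)) + H31R.pd 1 (fun q' => F (SM n e1 e2 q')) (bp q) / k q.2) / 2
      = Db k (fun q => F (ev q n)) q := by
  have h1 := n6_rad (e1 := e1) (e2 := e2) hF (1 / 2, 1 / (2 * k q.2))
  have h2 := n6_rad (e1 := e1) (e2 := e2) hF (-(1 / 2), 1 / (2 * k q.2))
  unfold Da Db
  rw [h1, h2]
  constructor
  · have : 1 / (2 * k q.2) = (1 / k q.2) / 2 := by
      rw [div_div, mul_comm]
    simp only [this]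
    ring
  · have : 1 / (2 * k q.2) = (1 / k q.2) / 2 := by
      rw [div_div, mul_comm]
    simp only [this]
    ring

theorem fh_rot {F : E4 → ℝ} {n e1 e2 : E3} (h : Frame n e1 e2) {q : ℝ × ℝ} (hq : 0 < q.2)
    (hF : ContDiffAt ℝ ∞ F (ev q n)) (hF0 : 0 < F (ev q n)) :
    ∑ i, rotd i (rotd i fun x => Real.log (F (pt q.1 x))) (q.2 • n)
      = 1 / 4 * (H31R.pd 2 (H31R.pd 2 fun q' => F (SM n e1 e2 q')) (bp q) / F (ev q n)
            - (H31R.pd 2 (fun q' => F (SM n e1 e2 q')) (bp q) / F (ev q n)) ^ 2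
          + H31R.pd 3 (H31R.pd 3 fun q' => F (SM n e1 e2 q')) (bp q) / F (ev q n)
            - (H31R.pd 3 (fun q' => F (SM n e1 e2 q')) (bp q) / F (ev q n)) ^ 2) := by
  set Fh : E4 → ℝ := fun q' => F (SM n e1 e2 q') with hFhd
  have hFh : ContDiffAt ℝ 2 Fh (bp q) := by
    have h1 : ContDiffAt ℝ ∞ F (SM n e1 e2 (bp q)) := by
      rw [SM_bp]
      exact hF
    exact (ContDiffAt.comp (f := SM n e1 e2) (bp q) h1 (SM_smooth n e1 e2).contDiffAt).of_le (by norm_cast)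
  have hl2 := n6_line (n := n) (e := e1) (Fh := Fh) (j := 2) hF hF0 hFh (by
    intro s
    simp only [hFhd, SM]
    have h1 : ∀ i : Fin 4, (bp q + s • (EuclideanSpace.single 2 (1 : ℝ) : E4)) i = ![q.1, q.2, s, 0] i := by
      intro i
      fin_cases i <;> simp [bp, EuclideanSpace.single]
    rw [h1 0, h1 1, h1 2, h1 3]
    simp [stn])
  have hl3 := n6_line (n := n) (e := e2) (Fh := Fh) (j := 3) hF hF0 hFh (by
    intro s
    simp only [hFhd, SM]
    have h1 : ∀ i : Fin 4, (bp q + s • (EuclideanSpace.single 3 (1 : ℝ) : E4)) i = ![q.1, q.2, 0, s] i := by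
      intro i
      fin_cases i <;> simp [bp, EuclideanSpace.single]
    rw [h1 0, h1 1, h1 2, h1 3]
    simp [stn])
  have hψ : ContDiffAt ℝ ∞ (fun x => F (pt q.1 x)) (q.2 • n) := by
    have h1 : ContDiffAt ℝ ∞ (fun x : E3 => ((q.1, x) : ℝ × E3)) (q.2 • n) := contDiffAt_const.prodMk contDiffAt_id
    have h2 : ContDiffAt ℝ ∞ (fun x : E3 => pt q.1 x) (q.2 • n) :=
      ContDiffAt.comp (g := fun q : ℝ × E3 => pt q.1 q.2) (q.2 • n) pt_smooth.contDiffAt h1
    exact ContDiffAt.comp (g := F) (q.2 • n) hF h2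
  have hL : ContDiffAt ℝ 2 (fun x => Real.log (F (pt q.1 x))) (q.2 • n) :=
    (hψ.log hF0.ne').of_le (by norm_cast)
  rw [n6_rot_sum h hL]
  linear_combination (1 / 4) * hl2 + (1 / 4) * hl3

end H17T
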