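import Pool.Agent.Lib.H17T.N6

set_option autoImplicit false

/-!
# H17T, chunk N7 (M): integration by parts on the sphere

`ψ` is `C¹` at all points of the sphere of radius `ρ > 0`. The function `ψ̃ x = ψ ((ρ/‖x‖) • x)` is `C¹` off the origin and constant along rays, and
`rotd i ψ̃ (ρ n) = rotd i ψ (ρ n)` (the derivative of `x ↦ (ρ/‖x‖) • x` at `x0`, `‖x0‖ = ρ`, is the identity on vectors orthogonal to `x0`). Now
`Pool.Agent.Lib.PenroseSph.avg_rot` (with `a = ρ/2`, `t = ρ`) for the two coordinates `i + 1`, `i + 2`: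
`rotd i ψ x = x (i+1) * pd (i+2) ψ x - x (i+2) * pd (i+1) ψ x`.
-/

open MeasureTheory Filter Topology Set
open scoped ContDiff

namespace H17T

open Pool.Agent.Lib.PenroseSph (E3 Tens S2 sm)

theorem n7_orth (i : Fin 3) (x : E3) : inner ℝ x (rotv i x) = 0 := by
  unfold rotv
  rw [inner_sub_right, inner_smul_right, inner_smul_right, EuclideanSpace.inner_single_right,
    EuclideanSpace.inner_single_right]
  simp
  ring

theorem n7_rotd (i : Fin 3) (φ : E3 → ℝ) (x : E3) :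
    rotd i φ x = x (i + 1) * Pool.Agent.Lib.PenroseSph.pd (i + 2) φ x -
      x (i + 2) * Pool.Agent.Lib.PenroseSph.pd (i + 1) φ x := by
  unfold rotd rotv Pool.Agent.Lib.PenroseSph.pd
  rw [map_sub, map_smul, map_smul, smul_eq_mul, smul_eq_mul]

/-- The derivative of the projection to the sphere. -/
theorem n7_curve {x v : E3} {ρ : ℝ} (hρ : 0 < ρ) (hx : ‖x‖ = ρ) (hv : inner ℝ x v = 0) :
    HasDerivAt (fun t : ℝ => (ρ * ‖x + t • v‖⁻¹) • (x + t • v)) v 0 := by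
  have hnorm : ∀ t : ℝ, ‖x + t • v‖ ^ 2 = ρ ^ 2 + t ^ 2 * ‖v‖ ^ 2 := by
    intro t
    rw [norm_add_sq_real, inner_smul_right, hv, norm_smul, hx, mul_pow, Real.norm_eq_abs, sq_abs]
    ring
  have hsq : ∀ t : ℝ, ‖x + t • v‖ = Real.sqrt (ρ ^ 2 + t ^ 2 * ‖v‖ ^ 2) := by
    intro t
    rw [← hnorm, Real.sqrt_sq (norm_nonneg _)]
  have e0 : Real.sqrt (ρ ^ 2 + (0 : ℝ) ^ 2 * ‖v‖ ^ 2) = ρ := by
    rw [← hsq, zero_smul, add_zero, hx]
  have d1 : HasDerivAt (fun t : ℝ => ρ * ‖x + t • v‖⁻¹) 0 0 := by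
    have a1 : HasDerivAt (fun t : ℝ => ρ ^ 2 + t ^ 2 * ‖v‖ ^ 2) 0 0 := by
      have a2 := ((hasDerivAt_pow 2 (0 : ℝ)).mul_const (‖v‖ ^ 2)).const_add (ρ ^ 2)
      simpa using a2
    have hne : ρ ^ 2 + (0 : ℝ) ^ 2 * ‖v‖ ^ 2 ≠ 0 := by
      have : 0 < ρ ^ 2 := by positivity
      simp
      exact hρ.ne'
    have a3 := a1.sqrt hne
    simp only [hsq]
    exact ((a3.inv (by rw [e0]; exact hρ.ne')).const_mul ρ).congr_deriv (by simp)
  have d2 : HasDerivAt (fun t : ℝ => x + t • v) v 0 := by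
    have a1 := ((hasDerivAt_id (0 : ℝ)).smul_const v).const_add x
    simpa using a1
  refine (d1.smul d2).congr_deriv ?_
  have h0 : x + (0 : ℝ) • v = x := by simp
  rw [h0, hx, mul_inv_cancel₀ hρ.ne', one_smul, zero_smul, add_zero]

theorem int_rotd {ψ : E3 → ℝ} {ρ : ℝ} (hρ : 0 < ρ) (hψ : ∀ n : S2, ContDiffAt ℝ 1 ψ (ρ • (n : E3))) (i : Fin 3) :
    ∫ n : S2, rotd i ψ (ρ • (n : E3)) ∂sm = 0 := by
  obtain ⟨ψ', hψ'⟩ : ∃ ψ' : E3 → ℝ, ψ' = fun x => ψ ((ρ * ‖x‖⁻¹) • x) := ⟨_, rfl⟩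
  have hnn : ∀ n : S2, ‖ρ • (n : E3)‖ = ρ := Pool.Agent.Lib.PenroseSph.norm_ray hρ
  have hsm : ∀ x : E3, x ≠ 0 → ContDiffAt ℝ 1 ψ' x := by
    intro x hx
    have hx0 : 0 < ‖x‖ := norm_pos_iff.2 hx
    have h1 : ContDiffAt ℝ 1 (fun x : E3 => (ρ * ‖x‖⁻¹) • x) x :=
      (contDiffAt_const.mul ((contDiffAt_norm ℝ hx).inv hx0.ne')).smul contDiffAt_id
    have h2 : ContDiffAt ℝ 1 ψ ((ρ * ‖x‖⁻¹) • x) := by
      have h3 := hψ ⟨‖x‖⁻¹ • x, by
        rw [mem_sphere_zero_iff_norm, norm_smul, norm_inv, norm_norm, inv_mul_cancel₀ hx0.ne']⟩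
      have h4 : (ρ * ‖x‖⁻¹) • x = ρ • (‖x‖⁻¹ • x) := by rw [smul_smul]
      rw [h4]
      exact h3
    rw [hψ']
    exact ContDiffAt.comp (g := ψ) x h2 h1
  have hne : ∀ n : S2, ρ • (n : E3) ≠ 0 := by
    intro n h
    have a1 := hnn n
    rw [h, norm_zero] at a1
    exact hρ.ne a1
  have heq : ∀ n : S2, rotd i ψ (ρ • (n : E3)) = rotd i ψ' (ρ • (n : E3)) := by
    intro n
    obtain ⟨x, hx⟩ : ∃ x : E3, x = ρ • (n : E3) := ⟨_, rfl⟩
    have hxn : ‖x‖ = ρ := by rw [hx]; exact hnn n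
    have hx0 : x ≠ 0 := by rw [hx]; exact hne n
    have hd := hψ n
    rw [← hx] at hd ⊢
    unfold rotd
    have c1 := n7_curve hρ hxn (n7_orth i x)
    have e1 : (ρ * ‖x + (0 : ℝ) • rotv i x‖⁻¹) • (x + (0 : ℝ) • rotv i x) = x := by
      rw [zero_smul, add_zero, hxn, mul_inv_cancel₀ hρ.ne', one_smul]
    have c2 : HasDerivAt (fun t : ℝ => ψ ((ρ * ‖x + t • rotv i x‖⁻¹) • (x + t • rotv i x)))
        (fderiv ℝ ψ x (rotv i x)) 0 := by
      have b1 : HasFDerivAt ψ (fderiv ℝ ψ x)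
          ((ρ * ‖x + (0 : ℝ) • rotv i x‖⁻¹) • (x + (0 : ℝ) • rotv i x)) := by
        rw [e1]
        exact (hd.differentiableAt (by simp)).hasFDerivAt
      exact b1.comp_hasDerivAt (0 : ℝ) c1
    have c3 : HasDerivAt (fun t : ℝ => ψ' (x + t • rotv i x)) (fderiv ℝ ψ' x (rotv i x)) 0 := by
      have b1 : HasFDerivAt ψ' (fderiv ℝ ψ' x) (x + (0 : ℝ) • rotv i x) := by
        rw [zero_smul, add_zero]
        exact ((hsm x hx0).differentiableAt (by simp)).hasFDerivAt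
      have b2 : HasDerivAt (fun t : ℝ => x + t • rotv i x) (rotv i x) 0 := by
        have a1 := ((hasDerivAt_id (0 : ℝ)).smul_const (rotv i x)).const_add x
        simpa using a1
      exact b1.comp_hasDerivAt (0 : ℝ) b2
    rw [hψ'] at c3
    rw [hψ']
    exact c2.unique c3
  simp only [heq]
  have hij : i + 1 ≠ i + 2 := by
    fin_cases i <;> decide
  have h3 := Pool.Agent.Lib.PenroseSph.avg_rot (a := ρ / 2) (t := ρ) (by linarith) (by linarith) (f := ψ')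
    (fun x hx => by
      have hx0 : x ≠ 0 := by
        rintro rfl
        have h4 : ρ / 2 < ‖(0 : E3)‖ := hx
        rw [norm_zero] at h4
        linarith
      exact (hsm x hx0).contDiffWithinAt) hij
  unfold Pool.Agent.Lib.PenroseSph.avg at h3
  have hpi : (4 * Real.pi)⁻¹ ≠ 0 := by positivity
  have h5 := (mul_eq_zero.1 h3).resolve_left hpi
  rw [← h5]
  exact integral_congr_ae (Filter.Eventually.of_forall fun n => n7_rotd i ψ' (ρ • (n : E3)))

/-- Rotational derivatives are smooth. -/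
theorem rotd_smooth {ψ : E3 → ℝ} {x : E3} (hψ : ContDiffAt ℝ ∞ ψ x) (i : Fin 3) : ContDiffAt ℝ ∞ (rotd i ψ) x := by
  have h1 : ContDiffAt ℝ ∞ (fun x : E3 => rotv i x) x := by
    unfold rotv
    fun_prop
  unfold rotd
  exact (hψ.fderiv_right (m := ∞) (by simp)).clm_apply h1

end H17T
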