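import Pool.Agent.Lib.H17T.F0

set_option autoImplicit false

/-!
# H17T, chunk S1 (M): the area element of the enclosing graphs is at most `r²`

At `y = s n • n`, `ρ = ‖y‖ = s n`, `ŷ = n`; `τ_i = gtan s n i = (fderiv s n (e_i × n)) n + s(n) (e_i × n)`. By `slice_eq` for vectors `ξ`, `ζ`
`g(ξ, ζ) = -F df(ξ) df(ζ) + F k² (n·ξ)(n·ζ) + (r/ρ)² (ξ·ζ - (n·ξ)(n·ζ))`, and with `α = fderiv (NN 1)`, `β = fderiv (NN (-1))` (`NN_fderiv`: `α = df + k n·`,
`β = -df + k n·`) the first two terms are `(F/2)(α(ξ) β(ζ) + α(ζ) β(ξ))`. Let `l α(τ_i) + m β(τ_i) = 0` for all `i`; say `l > 0` (the case `m > 0` is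
the same): `α(τ_i) = -κ β(τ_i)`, `κ = m/l ≥ 0`. So `gprod i j = -κ F β_i β_j + r² σ_ij`, `β_i = β(τ_i)`, `σ_ij = (e_i × n)·(e_j × n) = δ_ij - n_i n_j`
(`(τ_i)_⊥ = ρ (e_i × n)`). `areaSq = (1/2) Σ_ij (g_ii g_jj - g_ij²) = (1/2)((tr)² - |·|²)`: with `M = r² σ - c β βᵀ`, `c = κ F ≥ 0`,
`areaSq = (1/2)((tr M)² - tr M²) = r⁴ · (1/2)(4 - 2) - c r² (|β|² tr σ - βᵀ σ β) = r⁴ - c r² (2 |β|² - βᵀσβ) ≤ r⁴` since `σ ≤ 1`.
-/

open MeasureTheory Filter Topology Set
open scoped ContDiff

namespace H17T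

open Pool.Agent.Lib.PenroseSph (E3 Tens S2 sm pd)

private theorem S1_mat {n b : Fin 3 → ℝ} (hn : n 0 ^ 2 + n 1 ^ 2 + n 2 ^ 2 = 1) {c R : ℝ} (hc : 0 ≤ c)
    (hR : 0 ≤ R) :
    1 / 2 * ∑ i, ∑ j, ((R * ((if i = i then 1 else 0) - n i * n i) - c * (b i * b i)) *
      (R * ((if j = j then 1 else 0) - n j * n j) - c * (b j * b j))
      - (R * ((if i = j then 1 else 0) - n i * n j) - c * (b i * b j)) ^ 2) ≤ R ^ 2 := by
  have key : R ^ 2 - 1 / 2 * ∑ i, ∑ j, ((R * ((if i = i then 1 else 0) - n i * n i) - c * (b i * b i)) *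
      (R * ((if j = j then 1 else 0) - n j * n j) - c * (b j * b j))
      - (R * ((if i = j then 1 else 0) - n i * n j) - c * (b i * b j)) ^ 2)
      = c * R * ((b 0 ^ 2 + b 1 ^ 2 + b 2 ^ 2) + (n 0 * b 0 + n 1 * b 1 + n 2 * b 2) ^ 2) := by
    simp only [Fin.sum_univ_three, if_true, Fin.isValue, show ((0 : Fin 3) = 1) = False by decide,
      show ((0 : Fin 3) = 2) = False by decide, show ((1 : Fin 3) = 0) = False by decide,
      show ((1 : Fin 3) = 2) = False by decide, show ((2 : Fin 3) = 0) = False by decide,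
      show ((2 : Fin 3) = 1) = False by decide, if_false]
    generalize n 0 = n0 at *; generalize n 1 = n1 at *; generalize n 2 = n2 at *
    generalize b 0 = b0 at *; generalize b 1 = b1 at *; generalize b 2 = b2 at *
    linear_combination (exp := 1) (2 * R ^ 2 - c * R * (b0 ^ 2 + b1 ^ 2 + b2 ^ 2)) * hn
  have h0 : 0 ≤ c * R * ((b 0 ^ 2 + b 1 ^ 2 + b 2 ^ 2) + (n 0 * b 0 + n 1 * b 1 + n 2 * b 2) ^ 2) := by
    positivity
  linarith

private theorem S1_gen (A Q : ℝ) (B : ℝ) (N d u v : Fin 3 → ℝ) :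
    ∑ a, ∑ b, (A * (N a * N b) + Q * ((if a = b then 1 else 0) - N a * N b) - B * (d a * d b)) * u a * v b
      = A * ((∑ a, N a * u a) * ∑ a, N a * v a)
        + Q * ((∑ a, u a * v a) - (∑ a, N a * u a) * ∑ a, N a * v a)
        - B * ((∑ a, d a * u a) * ∑ a, d a * v a) := by
  simp only [Fin.sum_univ_three, if_true, Fin.isValue, show ((0 : Fin 3) = 1) = False by decide,
    show ((0 : Fin 3) = 2) = False by decide, show ((1 : Fin 3) = 0) = False by decide,
    show ((1 : Fin 3) = 2) = False by decide, show ((2 : Fin 3) = 0) = False by decide,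
    show ((2 : Fin 3) = 1) = False by decide, if_false]
  ring

private theorem rotv_comp (i : Fin 3) (n : E3) (a : Fin 3) :
    rotv i n a = n (i + 1) * (if a = i + 2 then 1 else 0) - n (i + 2) * (if a = i + 1 then 1 else 0) := by
  simp [rotv, PiLp.single_apply]

private theorem rotv_dot (i : Fin 3) (n : E3) : ∑ a, n a * rotv i n a = 0 := by
  simp only [rotv_comp]
  fin_cases i <;> simp [Fin.sum_univ_three] <;> ring

private theorem rotv_gram (i j : Fin 3) (n : E3) (hn : n 0 ^ 2 + n 1 ^ 2 + n 2 ^ 2 = 1) :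
    ∑ a, rotv i n a * rotv j n a = (if i = j then 1 else 0) - n i * n j := by
  simp only [rotv_comp]
  fin_cases i <;> fin_cases j <;> simp [Fin.sum_univ_three] <;> linarith

private theorem fd_sum (f : E3 → ℝ) (y v : E3) : fderiv ℝ f y v = ∑ a, pd a f y * v a := by
  have hv : v = ∑ a, v a • EuclideanSpace.single a (1 : ℝ) := by
    ext j
    simp [Pi.single_apply]
  conv_lhs => rw [hv]
  rw [map_sum]
  refine Finset.sum_congr rfl fun a _ => ?_
  rw [map_smul, smul_eq_mul, mul_comm]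
  rfl

theorem area_le {F : E4 → ℝ} {k : ℝ → ℝ} {r : ℝ × ℝ → ℝ} {f : E3 → ℝ} (hS : Slice F k r f) {s : E3 → ℝ}
    (hs : RadialGraph s) (n : S2) {l m : ℝ} (hl : 0 ≤ l) (hm : 0 ≤ m) (hlm : 0 < l + m)
    (h : ∀ i, l * fderiv ℝ (NN 1 k f) (s n • (n : E3)) (gtan s n i)
      + m * fderiv ℝ (NN (-1) k f) (s n • (n : E3)) (gtan s n i) = 0) :
    areaSq (slice (stMetric F k r) f) s n ≤ r (qq f (s n • (n : E3))) ^ 4 := by
  have hn1 : ‖(n : E3)‖ = 1 := by simpa using n.2
  have hne : (n : E3) ≠ 0 := by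
    intro h0
    rw [h0, norm_zero] at hn1
    exact one_ne_zero hn1.symm
  have hs0 : 0 < s n := hs.pos n hne
  set N : E3 := (n : E3) with hN
  set y : E3 := s N • N with hy
  have hy0 : y ≠ 0 := smul_ne_zero hs0.ne' hne
  have hyn : ‖y‖ = s N := by rw [hy, norm_smul, hn1, mul_one, Real.norm_eq_abs, abs_of_pos hs0]
  have hya : ∀ a, y a / ‖y‖ = N a := by
    intro a
    rw [hyn, hy, PiLp.smul_apply, smul_eq_mul, mul_div_assoc, mul_div_cancel₀]
    exact hs0.ne'
  have hNN : N 0 ^ 2 + N 1 ^ 2 + N 2 ^ 2 = 1 := by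
    have := EuclideanSpace.norm_sq_eq N
    rw [hn1] at this
    simp [Fin.sum_univ_three] at this
    linarith
  have hds : HasFDerivAt (fun x => s x • x) (s N • ContinuousLinearMap.id ℝ E3 + (fderiv ℝ s N).smulRight N) N := by
    have h1 : HasFDerivAt s (fderiv ℝ s N) N := ((hs.smooth N hne).differentiableAt (by simp)).hasFDerivAt
    exact h1.smul (hasFDerivAt_id N)
  have htan : ∀ i a, gtan s N i a = fderiv ℝ s N (rotv i N) * N a + s N * rotv i N a := by
    intro i a
    rw [gtan, hds.fderiv]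
    simp
    ring
  have hp : ∀ i, ∑ a, N a * gtan s N i a = fderiv ℝ s N (rotv i N) := by
    intro i
    have h1 := rotv_dot i N
    simp only [htan, Fin.sum_univ_three] at h1 ⊢
    linear_combination (fderiv ℝ s N (rotv i N)) * hNN + s N * h1
  have hq : ∀ i, fderiv ℝ f y (gtan s N i) = ∑ a, pd a f y * gtan s N i a := fun i => fd_sum f y _
  have hNNf : ∀ (ε : ℝ) (i : Fin 3), fderiv ℝ (NN ε k f) y (gtan s N i)
      = ε * (∑ a, pd a f y * gtan s N i a) + k (s N) * fderiv ℝ s N (rotv i N) := by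
    intro ε i
    rw [NN_fderiv hS.k_smooth hS.f_smooth hy0, hq, hyn]
    congr 2
    rw [← hp i, ← hyn, Finset.sum_div]
    refine Finset.sum_congr rfl fun a _ => ?_
    rw [← hya a]
    ring
  have hgp : ∀ i j, gprod (slice (stMetric F k r) f) s N i j
      = F (pt (f y) y) * k (s N) ^ 2 * (fderiv ℝ s N (rotv i N) * fderiv ℝ s N (rotv j N))
        + r (qq f y) ^ 2 * ((if i = j then 1 else 0) - N i * N j)
        - F (pt (f y) y) * ((∑ a, pd a f y * gtan s N i a) * ∑ a, pd a f y * gtan s N j a) := by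
    intro i j
    have h1 := S1_gen (F (pt (f y) y) * k (s N) ^ 2) ((r (qq f y) / s N) ^ 2) (F (pt (f y) y)) N
      (fun a => pd a f y) (fun a => gtan s N i a) (fun a => gtan s N j a)
    rw [hp, hp] at h1
    have h2 : ∑ a, gtan s N i a * gtan s N j a
        = fderiv ℝ s N (rotv i N) * fderiv ℝ s N (rotv j N)
          + s N ^ 2 * ((if i = j then 1 else 0) - N i * N j) := by
      rw [← rotv_gram i j N hNN]
      have e1 := rotv_dot i N
      have e2 := rotv_dot j N
      simp only [htan, Fin.sum_univ_three] at e1 e2 ⊢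
      linear_combination (fderiv ℝ s N (rotv i N) * fderiv ℝ s N (rotv j N)) * hNN
        + s N * fderiv ℝ s N (rotv j N) * e1 + s N * fderiv ℝ s N (rotv i N) * e2
    rw [h2] at h1
    have h3 : gprod (slice (stMetric F k r) f) s N i j = ∑ a, ∑ b,
        (F (pt (f y) y) * k (s N) ^ 2 * (N a * N b) +
          (r (qq f y) / s N) ^ 2 * ((if a = b then 1 else 0) - N a * N b) -
            F (pt (f y) y) * (pd a f y * pd b f y)) * gtan s N i a * gtan s N j b := by
      rw [gprod]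
      simp only [← hy, slice_eq, hya]
      rw [hyn]
    rw [h3, h1]
    have h4 : (r (qq f y) / s N) ^ 2 * s N ^ 2 = r (qq f y) ^ 2 := by
      rw [← mul_pow, div_mul_cancel₀ _ hs0.ne']
    linear_combination ((if i = j then 1 else 0) - N i * N j) * h4
  have hF0 : 0 < F (pt (f y) y) := hS.F_pos _ (mem_near hy0)
  set Fy := F (pt (f y) y)
  set q : Fin 3 → ℝ := fun i => ∑ a, pd a f y * gtan s N i a with hqdef
  set p : Fin 3 → ℝ := fun i => fderiv ℝ s N (rotv i N) with hpdef
  have hrel : ∀ i, l * (q i + k (s N) * p i) + m * (-q i + k (s N) * p i) = 0 := by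
    intro i
    have := h i
    rw [hNNf, hNNf] at this
    linarith
  have main : ∀ (b : Fin 3 → ℝ) (c : ℝ), 0 ≤ c →
      (∀ i j, gprod (slice (stMetric F k r) f) s N i j
        = r (qq f y) ^ 2 * ((if i = j then 1 else 0) - N i * N j) - c * (b i * b j)) →
      areaSq (slice (stMetric F k r) f) s N ≤ r (qq f y) ^ 4 := by
    intro b c hc hb
    have h1 := S1_mat (n := N) (b := b) hNN hc (sq_nonneg (r (qq f y)))
    rw [areaSq]
    simp only [hb]
    calc _ ≤ (r (qq f y) ^ 2) ^ 2 := h1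
      _ = r (qq f y) ^ 4 := by ring
  rcases hl.lt_or_eq with hl0 | hl0
  · refine main (fun i => -q i + k (s N) * p i) (Fy * (m / l)) (by positivity) fun i j => ?_
    have e : ∀ i, q i + k (s N) * p i = -(m / l) * (-q i + k (s N) * p i) := by
      intro i
      have := hrel i
      field_simp
      linarith
    rw [hgp]
    have ei := e i
    have ej := e j
    linear_combination (Fy / 2) * (-q j + k (s N) * p j) * ei + (Fy / 2) * (-q i + k (s N) * p i) * ej
  · have hm0 : 0 < m := by rw [← hl0, zero_add] at hlm; exact hlm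
    refine main (fun i => q i + k (s N) * p i) 0 le_rfl fun i j => ?_
    have e : ∀ i, -q i + k (s N) * p i = 0 := by
      intro i
      have := hrel i
      rw [← hl0, zero_mul, zero_add] at this
      exact (mul_eq_zero.1 this).resolve_left hm0.ne'
    rw [hgp]
    have ei := e i
    have ej := e j
    linear_combination (Fy / 2) * (q j + k (s N) * p j) * ei + (Fy / 2) * (q i + k (s N) * p i) * ej

end H17T
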