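import Pool.Agent.Lib.H17T.Defs

set_option autoImplicit false

/-!
# H17T, chunk T2 (M): first and second order conditions at a touching point

`w p = 0` (`Pool.Agent.Lib.PenroseSph.DefFun.zero`). Write `dw = fderiv w p`, `dN = fderiv N p` (`fderiv_eq_sum` in
`PenroseSph.Touch`).
(1) If `dw v < 0` then `p + t v ∈ Om` for small `t > 0`, so `N (p + t v) ≤ N p` and `dN v ≤ 0`. Hence `dN = L dw` with `L ≥ 0`
(choose `a` with `dw a = 1`, `L = dN a`: if `dw v = 0` then `dw (v - t a) < 0` for `t > 0`, so `dN v ≤ t dN a` for all `t > 0`,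
`dN v ≤ 0`, and the same for `-v`) and `L ≠ 0` as `dN ≠ 0`.
(2) Let `dw v = 0`, `η > 0`, `b = -(D²w(v,v) + η) a`, `c(t) = p + t v + (t²/2) b`. The second derivative at `0` of `w ∘ c` is
`D²w(v,v) + dw b = -η < 0`, its first derivative is `0`, so `w(c(t)) < 0` for small `t ≠ 0`, `c(t) ∈ Om`, `N(c(t)) ≤ N p`:
`N ∘ c` has a local maximum at `0`, so `0 ≥ (N ∘ c)''(0) = D²N(v,v) + dN b = D²N(v,v) - L (D²w(v,v) + η)`. Let `η ↓ 0`.
(`hasDerivAt_curve`, `second_deriv_nonneg`, `diff_pd` of `PenroseSph.Touch` are useful; there `D²w(v,v)` is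
`∑ m, v m * ∑ i, v i * pd i (pd m w) p`.)
-/

open MeasureTheory Filter Topology Set
open scoped ContDiff

namespace H17T

open Pool.Agent.Lib.PenroseSph (E3 Tens S2 sm pd DefFun)

open Pool.Agent.Lib.PenroseSph (hasDerivAt_curve diff_pd ev_diff fderiv_eq_sum)

theorem t2_curve {F : E3 → ℝ} {p : E3} (V b : E3) (hF : ContDiffAt ℝ 2 F p) :
    deriv (fun t : ℝ => F (p + t • V + (t ^ 2 / 2) • b)) 0 = fderiv ℝ F p V ∧
      HasDerivAt (deriv fun t : ℝ => F (p + t • V + (t ^ 2 / 2) • b))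
        (fderiv ℝ F p b + ∑ i, ∑ j, V i * V j * pd i (pd j F) p) 0 ∧
      (∀ᶠ t in 𝓝 (0 : ℝ), DifferentiableAt ℝ (fun t : ℝ => F (p + t • V + (t ^ 2 / 2) • b)) t) := by
  set c : ℝ → E3 := fun t => p + t • V + (t ^ 2 / 2) • b with hc
  have hc0 : c 0 = p := by simp [hc]
  have hcd : ∀ t, HasDerivAt c (V + t • b) t := by
    intro t
    have h1 : HasDerivAt (fun t : ℝ => p + t • V) V t := by
      simpa using ((hasDerivAt_id t).smul_const V).const_add p
    have h2 : HasDerivAt (fun t : ℝ => (t ^ 2 / 2) • b) (t • b) t := by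
      have h3 : HasDerivAt (fun t : ℝ => t ^ 2 / 2) t t := by
        have h4 := (hasDerivAt_pow 2 t).div_const 2
        have e : (2 : ℕ) * t ^ (2 - 1) / 2 = t := by
          norm_num
        rw [e] at h4
        exact h4
      exact h3.smul_const b
    exact h1.add h2
  have hct : Tendsto c (𝓝 0) (𝓝 p) := by
    have := (hcd 0).continuousAt.tendsto
    rwa [hc0] at this
  have hev := hct.eventually (ev_diff hF)
  have hd1 : ∀ᶠ t in 𝓝 (0 : ℝ), deriv (fun t => F (c t)) t = ∑ m, (V m + t * b m) * pd m F (c t) := by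
    filter_upwards [hev] with t ht
    rw [(hasDerivAt_curve ht (hcd t)).deriv]
    simp
  have hfirst : deriv (fun t => F (c t)) 0 = ∑ m, V m * pd m F p := by
    have h := hd1.self_of_nhds
    simpa [hc0] using h
  have hsecond : HasDerivAt (fun t => ∑ m, (V m + t * b m) * pd m F (c t))
      (∑ m, (b m * pd m F p + V m * ∑ i, V i * pd i (pd m F) p)) 0 := by
    apply HasDerivAt.fun_sum
    intro m _
    have h1 : HasDerivAt (fun t : ℝ => V m + t * b m) (b m) 0 := by
      have := ((hasDerivAt_id (0 : ℝ)).mul_const (b m)).const_add (V m)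
      simpa using this
    have h2 : HasDerivAt (fun t => pd m F (c t)) (∑ i, V i * pd i (pd m F) p) 0 := by
      have hd : DifferentiableAt ℝ (pd m F) (c 0) := by
        rw [hc0]
        exact diff_pd hF m
      have := hasDerivAt_curve hd (hcd 0)
      simpa [hc0] using this
    have h3 := h1.fun_mul h2
    exact h3.congr_deriv (by rw [hc0]; ring)
  refine ⟨?_, ?_, ?_⟩
  · rw [fderiv_eq_sum]
    exact hfirst
  · have e : fderiv ℝ F p b + ∑ i, ∑ j, V i * V j * pd i (pd j F) p =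
        ∑ m, (b m * pd m F p + V m * ∑ i, V i * pd i (pd m F) p) := by
      rw [fderiv_eq_sum, Finset.sum_comm, ← Finset.sum_add_distrib]
      refine Finset.sum_congr rfl fun m _ => ?_
      rw [Finset.mul_sum]
      congr 1
      refine Finset.sum_congr rfl fun i _ => ?_
      ring
    rw [e]
    exact hsecond.congr_of_eventuallyEq hd1
  · filter_upwards [hev] with t ht
    exact (hasDerivAt_curve ht (hcd t)).differentiableAt

theorem t2_neg {g : ℝ → ℝ} {d : ℝ} (h1 : deriv g 0 = 0) (hd : ∀ᶠ t in 𝓝 (0 : ℝ), DifferentiableAt ℝ g t)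
    (h2 : HasDerivAt (deriv g) d 0) (hneg : d < 0) : ∀ᶠ t in 𝓝[>] (0 : ℝ), g t < g 0 := by
  have h3 : ∀ᶠ t in 𝓝[>] (0 : ℝ), deriv g t < 0 := by
    have h4 : Tendsto (slope (deriv g) 0) (𝓝[>] 0) (𝓝 d) :=
      (hasDerivAt_iff_tendsto_slope.1 h2).mono_left (nhdsWithin_mono _ fun t ht => (ne_of_gt ht))
    filter_upwards [h4.eventually (gt_mem_nhds hneg), self_mem_nhdsWithin] with t ht ht0
    have ht0' : 0 < t := ht0
    rw [slope_def_field, h1, sub_zero, sub_zero] at ht
    by_contra hcon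
    rw [not_lt] at hcon
    exact absurd ht (not_lt.2 (div_nonneg hcon ht0'.le))
  obtain ⟨u, hu, hu'⟩ := mem_nhdsGT_iff_exists_Ioo_subset.1 h3
  obtain ⟨l, u', ⟨hl, hu2⟩, hlu⟩ := mem_nhds_iff_exists_Ioo_subset.1 hd
  have hu0 : (0 : ℝ) < u := hu
  filter_upwards [Ioo_mem_nhdsGT (lt_min hu0 hu2)] with t ht
  have ht1 : t < u := lt_of_lt_of_le ht.2 (min_le_left _ _)
  have ht2 : t < u' := lt_of_lt_of_le ht.2 (min_le_right _ _)
  have hanti : StrictAntiOn g (Icc 0 t) := by
    refine strictAntiOn_of_deriv_neg (convex_Icc 0 t) ?_ ?_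
    · intro s hs
      have h5 : DifferentiableAt ℝ g s := hlu ⟨lt_of_lt_of_le hl hs.1, lt_of_le_of_lt hs.2 ht2⟩
      exact h5.continuousAt.continuousWithinAt
    · intro s hs
      rw [interior_Icc] at hs
      exact hu' ⟨hs.1, lt_trans hs.2 ht1⟩
  exact hanti (left_mem_Icc.2 ht.1.le) (right_mem_Icc.2 ht.1.le) ht.1

theorem t2_first {F : E3 → ℝ} {p v : E3} (hF : DifferentiableAt ℝ F p) (h : fderiv ℝ F p v < 0) :
    ∀ᶠ t in 𝓝[>] (0 : ℝ), F (p + t • v) < F p := by
  have h1 : HasDerivAt (fun t : ℝ => p + t • v) v 0 := by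
    simpa using ((hasDerivAt_id (0 : ℝ)).smul_const v).const_add p
  have h2 : HasDerivAt (fun t : ℝ => F (p + t • v)) (fderiv ℝ F p v) 0 := by
    have e : p = p + (0 : ℝ) • v := by simp
    have h3 : HasFDerivAt F (fderiv ℝ F p) (p + (0 : ℝ) • v) := by
      rw [← e]
      exact hF.hasFDerivAt
    exact h3.comp_hasDerivAt 0 h1
  have h4 : Tendsto (slope (fun t : ℝ => F (p + t • v)) 0) (𝓝[>] 0) (𝓝 (fderiv ℝ F p v)) :=
    (hasDerivAt_iff_tendsto_slope.1 h2).mono_left (nhdsWithin_mono _ fun t ht => (ne_of_gt ht))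
  filter_upwards [h4.eventually (gt_mem_nhds h), self_mem_nhdsWithin] with t ht ht0
  have ht0' : 0 < t := ht0
  rw [slope_def_field, sub_zero, zero_smul, add_zero] at ht
  by_contra hcon
  rw [not_lt] at hcon
  exact absurd ht (not_lt.2 (div_nonneg (sub_nonneg.2 hcon) ht0'.le))

theorem second_order {Om : Set E3} {w N : E3 → ℝ} {p : E3} (hw : DefFun Om w p) (hp : p ∈ frontier Om)
    (hN : ContDiffAt ℝ 2 N p) (hdN : fderiv ℝ N p ≠ 0) (hmax : ∀ᶠ x in 𝓝 p, x ∈ Om → N x ≤ N p) :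
    ∃ L : ℝ, 0 < L ∧ (∀ i, pd i N p = L * pd i w p) ∧
      ∀ v : Fin 3 → ℝ, (∑ i, v i * pd i w p = 0) →
        ∑ i, ∑ j, v i * v j * pd i (pd j N) p ≤ L * ∑ i, ∑ j, v i * v j * pd i (pd j w) p := by
  have hw0 : w p = 0 := hw.zero hp
  have hNd : DifferentiableAt ℝ N p := hN.differentiableAt (by norm_num)
  have hwd : DifferentiableAt ℝ w p := hw.smooth.differentiableAt (by norm_num)
  -- a general statement: along curves which enter `Om`
  have hcurve : ∀ c : ℝ → E3, Tendsto c (𝓝[>] 0) (𝓝 p) → (∀ᶠ t in 𝓝[>] (0 : ℝ), w (c t) < 0) →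
      ∀ᶠ t in 𝓝[>] (0 : ℝ), N (c t) ≤ N p := by
    intro c hc hneg
    filter_upwards [hneg, hc.eventually hw.neg_iff, hc.eventually hmax] with t h1 h2 h3
    exact h3 (h2.2 h1)
  -- (1)
  have h1 : ∀ v : E3, fderiv ℝ w p v < 0 → fderiv ℝ N p v ≤ 0 := by
    intro v hv
    by_contra hcon
    rw [not_le] at hcon
    have h2 := t2_first hwd hv
    rw [hw0] at h2
    have hc : Tendsto (fun t : ℝ => p + t • v) (𝓝[>] 0) (𝓝 p) := by
      have h3 : Continuous fun t : ℝ => p + t • v := by fun_prop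
      have h4 := h3.tendsto 0
      rw [zero_smul, add_zero] at h4
      exact h4.mono_left nhdsWithin_le_nhds
    have h3 := hcurve _ hc h2
    have hneg : fderiv ℝ (fun x => -N x) p v < 0 := by
      rw [fderiv_fun_neg]
      show -(fderiv ℝ N p v) < 0
      linarith
    have h4 := t2_first hNd.fun_neg hneg
    obtain ⟨t, ht1, ht2⟩ := (h3.and h4).exists
    linarith
  obtain ⟨a, ha⟩ : ∃ a : E3, fderiv ℝ w p a = 1 := by
    obtain ⟨v, hv⟩ : ∃ v, fderiv ℝ w p v ≠ 0 := by
      by_contra hcon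
      push Not at hcon
      exact hw.grad (ContinuousLinearMap.ext hcon)
    refine ⟨(fderiv ℝ w p v)⁻¹ • v, ?_⟩
    rw [map_smul, smul_eq_mul, inv_mul_cancel₀ hv]
  set L : ℝ := fderiv ℝ N p a with hL
  have hL0 : 0 ≤ L := by
    have h2 := h1 (-a) (by rw [map_neg, ha]; norm_num)
    rw [map_neg] at h2
    linarith
  have hker : ∀ v : E3, fderiv ℝ w p v = 0 → fderiv ℝ N p v ≤ 0 := by
    intro v hv
    have h2 : ∀ t : ℝ, 0 < t → fderiv ℝ N p v ≤ t * L := by
      intro t ht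
      have h3 := h1 (v - t • a) (by rw [map_sub, map_smul, hv, ha, smul_eq_mul]; linarith)
      rw [map_sub, map_smul, smul_eq_mul] at h3
      linarith
    by_contra hcon
    rw [not_le] at hcon
    have h3 := h2 (fderiv ℝ N p v / (2 * (L + 1))) (by positivity)
    have h4 : fderiv ℝ N p v / (2 * (L + 1)) * L ≤ fderiv ℝ N p v / 2 := by
      rw [div_mul_eq_mul_div, div_le_div_iff₀ (by positivity) (by positivity)]
      nlinarith
    linarith
  have hdN' : ∀ v : E3, fderiv ℝ N p v = L * fderiv ℝ w p v := by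
    intro v
    have e0 : fderiv ℝ w p (v - fderiv ℝ w p v • a) = 0 := by
      rw [map_sub, map_smul, ha, smul_eq_mul, mul_one, sub_self]
    have h2 := hker _ e0
    have h3 := hker (-(v - fderiv ℝ w p v • a)) (by rw [map_neg, e0, neg_zero])
    rw [map_neg] at h3
    have h4 : fderiv ℝ N p (v - fderiv ℝ w p v • a) = 0 := le_antisymm h2 (by linarith)
    rw [map_sub, map_smul, smul_eq_mul, sub_eq_zero] at h4
    rw [h4, mul_comm]
  have hL1 : 0 < L := by
    refine lt_of_le_of_ne hL0 fun h => hdN ?_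
    ext v
    rw [hdN' v, ← h, zero_mul]
    rfl
  refine ⟨L, hL1, fun i => hdN' _, fun v hv => ?_⟩
  set V : E3 := !₂[v 0, v 1, v 2] with hV
  have hVi : ∀ i, V i = v i := by
    intro i
    fin_cases i <;> rfl
  have hdV : fderiv ℝ w p V = 0 := by
    rw [fderiv_eq_sum]
    simp only [hVi]
    exact hv
  have hD : ∀ F : E3 → ℝ, ∑ i, ∑ j, v i * v j * pd i (pd j F) p = ∑ i, ∑ j, V i * V j * pd i (pd j F) p := by
    intro F
    simp only [hVi]
  rw [hD, hD]
  set DN : ℝ := ∑ i, ∑ j, V i * V j * pd i (pd j N) p with hDN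
  set Dw : ℝ := ∑ i, ∑ j, V i * V j * pd i (pd j w) p with hDw
  refine le_of_forall_pos_le_add fun e he => ?_
  set η : ℝ := e / L with hη
  have hη0 : 0 < η := by positivity
  set b : E3 := -(Dw + η) • a with hb
  have hbw : fderiv ℝ w p b = -(Dw + η) := by
    rw [hb, map_smul, ha, smul_eq_mul, mul_one]
  have hbN : fderiv ℝ N p b = -(L * (Dw + η)) := by
    rw [hdN', hbw]
    ring
  obtain ⟨w1, w2, w3⟩ := t2_curve V b hw.smooth
  obtain ⟨n1, n2, n3⟩ := t2_curve V b hN
  rw [hdV] at w1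
  rw [hdN' V, hdV, mul_zero] at n1
  rw [hbw] at w2
  rw [hbN] at n2
  have hneg := t2_neg w1 w3 w2 (by rw [← hDw]; linarith)
  have e0 : p + (0 : ℝ) • V + ((0 : ℝ) ^ 2 / 2) • b = p := by simp
  simp only [e0, hw0] at hneg
  have hc : Tendsto (fun t : ℝ => p + t • V + (t ^ 2 / 2) • b) (𝓝[>] 0) (𝓝 p) := by
    have h3 : Continuous fun t : ℝ => p + t • V + (t ^ 2 / 2) • b := by fun_prop
    have h4 := h3.tendsto 0
    simp only [e0] at h4
    exact h4.mono_left nhdsWithin_le_nhds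
  have hle := hcurve _ hc hneg
  by_contra hcon
  rw [not_le] at hcon
  have hLη : L * η = e := by
    rw [hη]
    field_simp
  -- the second derivative of `N` along the curve would be positive
  have hpos : 0 < -(L * (Dw + η)) + DN := by
    rw [mul_add, hLη]
    linarith
  have m1 : deriv (fun t : ℝ => -N (p + t • V + (t ^ 2 / 2) • b)) 0 = 0 := by
    rw [deriv.fun_neg, n1, neg_zero]
  have m3 : ∀ᶠ t in 𝓝 (0 : ℝ), DifferentiableAt ℝ (fun t : ℝ => -N (p + t • V + (t ^ 2 / 2) • b)) t := by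
    filter_upwards [n3] with t ht
    exact ht.fun_neg
  have m2 : HasDerivAt (deriv fun t : ℝ => -N (p + t • V + (t ^ 2 / 2) • b)) (-(-(L * (Dw + η)) + DN)) 0 := by
    have e1 : (deriv fun t : ℝ => -N (p + t • V + (t ^ 2 / 2) • b)) =
        fun s => -deriv (fun t : ℝ => N (p + t • V + (t ^ 2 / 2) • b)) s := by
      funext s
      rw [deriv.fun_neg]
    rw [e1]
    exact n2.fun_neg
  have hgt := t2_neg m1 m3 m2 (by linarith)
  simp only [e0] at hgt
  obtain ⟨t, ht1, ht2⟩ := (hle.and hgt).exists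
  linarith

end H17T
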