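import Pool.Agent.Lib.H17T.Defs

set_option autoImplicit false

/-!
# H17T, chunk T5 (M): the Hessian of `ν` is half the Lie derivative of the metric along `W = grad ν`

`ν_b = Σ_c G_bc W^c` near `p`. Then `ν_ab = Σ_c (∂_a G_bc W^c + G_bc ∂_a W^c)`,
`Σ_c Γ^c_ab ν_c = Σ_c Γ^c_ab Σ_d G_cd W^d = (1/2) Σ_d (∂_a G_bd + ∂_b G_ad - ∂_d G_ab) W^d` (`G` symmetric and invertible).
Contract with `e^a e^b`: the terms with `∂_a G_bd`, `∂_b G_ad` cancel and the claim follows.
-/

open MeasureTheory Filter Topology Set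
open scoped ContDiff

namespace H17T

theorem t5_pd_mul {u v : E4 → ℝ} {p : E4} (a : Fin 4) (hu : DifferentiableAt ℝ u p)
    (hv : DifferentiableAt ℝ v p) :
    H31R.pd a (fun q => u q * v q) p = H31R.pd a u p * v p + u p * H31R.pd a v p := by
  unfold H31R.pd
  rw [fderiv_fun_mul hu hv]
  simp only [add_apply, smul_apply, smul_eq_mul]
  ring

theorem t5_pd_sum {u : Fin 4 → E4 → ℝ} {p : E4} (a : Fin 4)
    (hu : ∀ c, DifferentiableAt ℝ (u c) p) :
    H31R.pd a (fun q => ∑ c, u c q) p = ∑ c, H31R.pd a (u c) p := by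
  unfold H31R.pd
  rw [fderiv_fun_sum fun c _ => hu c]
  rw [sum_apply]

theorem t5_dot (G : Matrix (Fin 4) (Fin 4) ℝ) (hs : ∀ a b, G a b = G b a) (hd : G.det ≠ 0)
    (y w : Fin 4 → ℝ) :
    ∑ c, (∑ l, G⁻¹ c l * y l) * (∑ d, G c d * w d) = ∑ d, y d * w d := by
  have hu : IsUnit G.det := isUnit_iff_ne_zero.2 hd
  have h1 : G * G⁻¹ = 1 := Matrix.mul_nonsing_inv G hu
  have h2 : ∀ d l, ∑ c, G c d * G⁻¹ c l = if d = l then 1 else 0 := by
    intro d l
    have h3 : (G * G⁻¹) d l = (1 : Matrix (Fin 4) (Fin 4) ℝ) d l := by rw [h1]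
    rw [Matrix.mul_apply, Matrix.one_apply] at h3
    rw [← h3]
    exact Finset.sum_congr rfl fun c _ => by rw [hs c d]
  calc ∑ c, (∑ l, G⁻¹ c l * y l) * (∑ d, G c d * w d)
      = ∑ c, ∑ l, ∑ d, (G c d * G⁻¹ c l) * (y l * w d) := by
        refine Finset.sum_congr rfl fun c _ => ?_
        rw [Finset.sum_mul_sum]
        refine Finset.sum_congr rfl fun l _ => Finset.sum_congr rfl fun d _ => ?_
        ring
    _ = ∑ l, ∑ d, (∑ c, G c d * G⁻¹ c l) * (y l * w d) := by
        rw [Finset.sum_comm]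
        refine Finset.sum_congr rfl fun l _ => ?_
        rw [Finset.sum_comm]
        refine Finset.sum_congr rfl fun d _ => ?_
        rw [Finset.sum_mul]
    _ = ∑ d, y d * w d := by
        refine Finset.sum_congr rfl fun l _ => ?_
        simp only [h2]
        simp

theorem hess_lie {G : E4 → Matrix (Fin 4) (Fin 4) ℝ} {ν : E4 → ℝ} {W : E4 → Fin 4 → ℝ} {p : E4}
    (hsym : ∀ p a b, G p a b = G p b a) (hG : ∀ a b, DifferentiableAt ℝ (fun p => G p a b) p)
    (hdet : (G p).det ≠ 0) (hW : ∀ c, DifferentiableAt ℝ (fun p => W p c) p)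
    (hGW : ∀ᶠ q in 𝓝 p, ∀ b, H31R.pd b ν q = ∑ c, G q b c * W q c) (e : Fin 4 → ℝ) :
    ∑ a, ∑ b, (H31R.pd a (H31R.pd b ν) p - ∑ c, H31R.chr G c a b p * H31R.pd c ν p) * e a * e b
      = 1 / 2 * (∑ a, ∑ b, ∑ c, W p c * H31R.pd c (fun q => G q a b) p * e a * e b)
        + ∑ a, ∑ b, ∑ c, G p c b * H31R.pd a (fun q => W q c) p * e a * e b := by
  have h1 : ∀ a b, H31R.pd a (H31R.pd b ν) p =
      ∑ c, (H31R.pd a (fun q => G q b c) p * W p c + G p b c * H31R.pd a (fun q => W q c) p) := by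
    intro a b
    have hev : (H31R.pd b ν) =ᶠ[𝓝 p] fun q => ∑ c, G q b c * W q c := hGW.mono fun q hq => hq b
    have h2 : H31R.pd a (H31R.pd b ν) p = H31R.pd a (fun q => ∑ c, G q b c * W q c) p := by
      show fderiv ℝ (H31R.pd b ν) p (H31R.ebas a) = fderiv ℝ _ p (H31R.ebas a)
      rw [hev.fderiv_eq]
    rw [h2, t5_pd_sum a fun c => (hG b c).fun_mul (hW c)]
    exact Finset.sum_congr rfl fun c _ => t5_pd_mul a (hG b c) (hW c)
  have h0 : ∀ c, H31R.pd c ν p = ∑ d, G p c d * W p d := fun c => hGW.self_of_nhds c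
  have h3 : ∀ a b, ∑ c, H31R.chr G c a b p * H31R.pd c ν p =
      1 / 2 * ∑ d, (H31R.pd a (fun y => G y b d) p + H31R.pd b (fun y => G y a d) p -
        H31R.pd d (fun y => G y a b) p) * W p d := by
    intro a b
    rw [← t5_dot (G p) (hsym p) hdet (fun d => H31R.pd a (fun y => G y b d) p +
      H31R.pd b (fun y => G y a d) p - H31R.pd d (fun y => G y a b) p) (W p), Finset.mul_sum]
    refine Finset.sum_congr rfl fun c _ => ?_
    rw [h0 c]
    unfold H31R.chr
    ring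
  simp only [h1, h3]
  have hswap : ∑ a, ∑ b, ∑ c, W p c * H31R.pd b (fun q => G q a c) p * e a * e b =
      ∑ a, ∑ b, ∑ c, W p c * H31R.pd a (fun q => G q b c) p * e a * e b := by
    rw [Finset.sum_comm]
    refine Finset.sum_congr rfl fun b _ => Finset.sum_congr rfl fun a _ =>
      Finset.sum_congr rfl fun c _ => ?_
    ring
  have hG2 : ∑ a, ∑ b, ∑ c, G p c b * H31R.pd a (fun q => W q c) p * e a * e b =
      ∑ a, ∑ b, ∑ c, G p b c * H31R.pd a (fun q => W q c) p * e a * e b := by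
    refine Finset.sum_congr rfl fun b _ => Finset.sum_congr rfl fun a _ =>
      Finset.sum_congr rfl fun c _ => ?_
    rw [hsym p c a]
  have hL : ∑ a, ∑ b, (∑ c, (H31R.pd a (fun q => G q b c) p * W p c +
        G p b c * H31R.pd a (fun q => W q c) p) -
        1 / 2 * ∑ d, (H31R.pd a (fun y => G y b d) p + H31R.pd b (fun y => G y a d) p -
        H31R.pd d (fun y => G y a b) p) * W p d) * e a * e b =
      ∑ a, ∑ b, ∑ c, W p c * H31R.pd a (fun q => G q b c) p * e a * e b +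
      ∑ a, ∑ b, ∑ c, G p b c * H31R.pd a (fun q => W q c) p * e a * e b -
      1 / 2 * (∑ a, ∑ b, ∑ c, W p c * H31R.pd a (fun q => G q b c) p * e a * e b +
        ∑ a, ∑ b, ∑ c, W p c * H31R.pd b (fun q => G q a c) p * e a * e b -
        ∑ a, ∑ b, ∑ c, W p c * H31R.pd c (fun q => G q a b) p * e a * e b) := by
    simp only [Finset.mul_sum, ← Finset.sum_add_distrib, ← Finset.sum_sub_distrib, Finset.sum_mul]
    refine Finset.sum_congr rfl fun a _ => Finset.sum_congr rfl fun b _ =>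
      Finset.sum_congr rfl fun c _ => ?_
    ring
  rw [hL, hswap, hG2]
  ring

end H17T
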