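import Pool.Agent.Lib.H17T.T0
import Pool.Agent.Lib.H17T.T5

set_option autoImplicit false

/-!
# H17T, chunk T6 (M/L): the Hessian of the null coordinate

`ν(p) = ε p 0 + XX k ‖pos p‖`, `ν_0 = ε`, `ν_i = k x̂_i` (`x̂ = pos p/ρ`). `W = (1/F) (-ε, x̂/k)` satisfies `G W = dν`. Apply `hess_lie`.
With `e` such that `dν(e) = ε e_0 + k (x̂·e) = 0`, the right hand side is
`(1/2) d/dt|_0 G(p + t W)(e + t ∂_e W, e + t ∂_e W)`, or directly: write `W = W₀/F`, `W₀ = (-ε, x̂/k)`; as `G W₀ = F dν`, the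
derivative of `1/F` in `∂_e W` does not contribute (`dν(e) = 0`). For `W₀`: let `p_t = p + t W₀`, so `‖pos p_t‖ = ρ + t/k`, `x̂_t = x̂`,
and `e_t = e + t ∂_e W₀`, `∂_e W₀ = (0, (e_x - x̂ (x̂·e))/(kρ) - x̂ (k'/k²) (x̂·e))`. By `stMetric_quad`
`G(p_t)(e_t, e_t) = F(p_t) (-e_0² + k(ρ_t)² (x̂·e)² (1 - t k'/k²)²) + (r/ρ)²(t) |e_⊥|² (1 + t/(kρ))²`, `|e_⊥|² = |e_x|² - (x̂·e)²`.
The derivative at `t = 0` of the first summand is `0` (`e_0² = k² (x̂·e)²`, `k(ρ_t)(1 - t k'/k²)` has derivative `0`), that of the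
second is `2 r (W₀ r) |e_⊥|²/ρ²`, `W₀ r = fderiv r (-ε, 1/k)`. And `G(e, e) = r² |e_⊥|²/ρ²`.
-/

open MeasureTheory Filter Topology Set
open scoped ContDiff

namespace H17T

open Pool.Agent.Lib.PenroseSph (E3 Tens S2 sm pd)

/-- The null coordinates `v = T + X` (`ε = 1`) and `-u = X - T` (`ε = -1`). -/
noncomputable def nuf (ε : ℝ) (k : ℝ → ℝ) (p : E4) : ℝ := ε * p 0 + XX k ‖pos p‖

theorem nuf_slice (ε : ℝ) (k : ℝ → ℝ) (f : E3 → ℝ) : (fun x => nuf ε k (pt (f x) x)) = NN ε k f := by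
  funext x
  unfold nuf NN
  rw [pt_zero, pos_pt]

theorem t6_pos_add (p v : E4) (t : ℝ) : pos (p + t • v) = pos p + t • pos v := by
  ext i
  fin_cases i <;> simp [pos]

theorem t6_pos_ap (p : E4) (i : Fin 3) : pos p i = p i.succ := by
  fin_cases i <;> simp [pos]

theorem t6_line {u : E4 → ℝ} {p : E4} (hu : DifferentiableAt ℝ u p) (v : E4) :
    HasDerivAt (fun t : ℝ => u (p + t • v)) (fderiv ℝ u p v) 0 := by
  have h2 : HasDerivAt (fun t : ℝ => p + t • v) v 0 := by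
    simpa using ((hasDerivAt_id (0 : ℝ)).smul_const v).const_add p
  have h1 : HasFDerivAt u (fderiv ℝ u p) (p + (0 : ℝ) • v) := by
    rw [zero_smul, add_zero]
    exact hu.hasFDerivAt
  exact h1.comp_hasDerivAt 0 h2

theorem t6_line0 {u : E4 → ℝ} {p : E4} (hu : DifferentiableAt ℝ u p) (v : E4) (d : ℝ)
    (h : HasDerivAt (fun t : ℝ => u (p + t • v)) d 0) : fderiv ℝ u p v = d :=
  (t6_line hu v).unique h

theorem t6_co (p v : E4) (c : Fin 4) : HasDerivAt (fun t : ℝ => (p + t • v) c) (v c) 0 := by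
  have h : (fun t : ℝ => (p + t • v) c) = fun t : ℝ => p c + t * v c := by
    funext t
    simp
  rw [h]
  simpa using ((hasDerivAt_id (0 : ℝ)).mul_const (v c)).const_add (p c)

theorem t6_rho {p : E4} (hp : pos p ≠ 0) (v : E4) :
    HasDerivAt (fun t : ℝ => ‖pos (p + t • v)‖) ((∑ i : Fin 3, pos p i * pos v i) / ‖pos p‖) 0 := by
  have h2 : HasDerivAt (fun t : ℝ => pos p + t • pos v) (pos v) 0 := by
    simpa using ((hasDerivAt_id (0 : ℝ)).smul_const (pos v)).const_add (pos p)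
  have h1 : HasFDerivAt (fun x : E3 => ‖x‖) (‖pos p‖⁻¹ • innerSL ℝ (pos p)) (pos p + (0 : ℝ) • pos v) := by
    rw [zero_smul, add_zero]
    exact Pool.Agent.Lib.PenroseSph.hasFDerivAt_norm' hp
  have h3 := h1.comp_hasDerivAt 0 h2
  have e : (innerSL ℝ (pos p)) (pos v) = ∑ i : Fin 3, pos p i * pos v i := by
    rw [innerSL_apply_apply, PiLp.inner_apply]
    refine Finset.sum_congr rfl fun i _ => ?_
    rw [real_inner_comm]
    rfl
  have e2 : (‖pos p‖⁻¹ • innerSL ℝ (pos p)) (pos v) = (∑ i : Fin 3, pos p i * pos v i) / ‖pos p‖ := by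
    rw [smul_apply, e, smul_eq_mul, div_eq_inv_mul]
  rw [e2] at h3
  refine h3.congr_of_eventuallyEq (Filter.Eventually.of_forall fun t => ?_)
  show ‖pos (p + t • v)‖ = ‖pos p + t • pos v‖
  rw [t6_pos_add]

theorem t6_sumsq {p : E4} : ∑ i : Fin 3, pos p i * pos p i = ‖pos p‖ ^ 2 := by
  rw [EuclideanSpace.norm_sq_eq]
  refine Finset.sum_congr rfl fun i _ => ?_
  rw [Real.norm_eq_abs, sq_abs, sq]

theorem t6_xh {p : E4} (hp : pos p ≠ 0) (v : E4) (i : Fin 3) :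
    HasDerivAt (fun t : ℝ => pos (p + t • v) i / ‖pos (p + t • v)‖)
      ((pos v i * ‖pos p‖ - pos p i * ((∑ i : Fin 3, pos p i * pos v i) / ‖pos p‖)) / ‖pos p‖ ^ 2) 0 := by
  have h1 : HasDerivAt (fun t : ℝ => pos (p + t • v) i) (pos v i) 0 := by
    have h := t6_co p v i.succ
    rw [← t6_pos_ap] at h
    refine h.congr_of_eventuallyEq (Filter.Eventually.of_forall fun t => ?_)
    exact t6_pos_ap _ i
  have h2 := t6_rho hp v
  have hn : ‖pos (p + (0 : ℝ) • v)‖ ≠ 0 := by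
    rw [zero_smul, add_zero]
    exact norm_ne_zero_iff.2 hp
  have h3 := h1.div h2 hn
  rw [zero_smul, add_zero] at h3
  exact h3

theorem nuf_smooth' {ε : ℝ} {k : ℝ → ℝ} (hk : ∀ t : ℝ, 0 < t → ContDiffAt ℝ ∞ k t) {p : E4} (hp : pos p ≠ 0) :
    ContDiffAt ℝ ∞ (nuf ε k) p := by
  unfold nuf
  have h0 : ContDiffAt ℝ ∞ (fun q : E4 => q 0) p :=
    (EuclideanSpace.proj (𝕜 := ℝ) (0 : Fin 4)).contDiff.contDiffAt
  refine (contDiffAt_const.mul h0).add ?_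
  have h1 : ContDiffAt ℝ ∞ (fun q : E4 => ‖pos q‖) p := pos_smooth.contDiffAt.norm ℝ hp
  exact ContDiffAt.comp (g := XX k) (f := fun q : E4 => ‖pos q‖) p
    (XX_smooth hk (norm_pos_iff.2 hp)) h1

theorem t6_nuf_line {ε : ℝ} {k : ℝ → ℝ} (hk : ∀ t : ℝ, 0 < t → ContDiffAt ℝ ∞ k t) {p : E4} (hp : pos p ≠ 0)
    (v : E4) : fderiv ℝ (nuf ε k) p v =
      ε * v 0 + k ‖pos p‖ * ((∑ i : Fin 3, pos p i * pos v i) / ‖pos p‖) := by
  refine t6_line0 ((nuf_smooth' hk hp).differentiableAt (by simp)) v _ ?_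
  unfold nuf
  refine ((t6_co p v 0).const_mul ε).add ?_
  have h1 : HasDerivAt (XX k) (k ‖pos p‖) ‖pos (p + (0 : ℝ) • v)‖ := by
    rw [zero_smul, add_zero]
    exact XX_deriv hk (norm_pos_iff.2 hp)
  exact h1.comp 0 (t6_rho hp v)

theorem nuf_pd {ε : ℝ} {k : ℝ → ℝ} (hk : ∀ t : ℝ, 0 < t → ContDiffAt ℝ ∞ k t) {p : E4} (hp : pos p ≠ 0) :
    ContDiffAt ℝ ∞ (nuf ε k) p ∧ H31R.pd 0 (nuf ε k) p = ε ∧
      ∀ i : Fin 3, H31R.pd i.succ (nuf ε k) p = k ‖pos p‖ * (pos p i / ‖pos p‖) := by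
  refine ⟨nuf_smooth' hk hp, ?_, fun i => ?_⟩
  · unfold H31R.pd
    rw [t6_nuf_line hk hp]
    have h1 : ∀ i : Fin 3, pos (H31R.ebas (0 : Fin 4)) i = 0 := by
      intro i
      rw [t6_pos_ap]
      simp [H31R.ebas]
    simp [h1, H31R.ebas]
  · unfold H31R.pd
    rw [t6_nuf_line hk hp]
    have h1 : ∀ j : Fin 3, pos (H31R.ebas i.succ) j = if j = i then 1 else 0 := by
      intro j
      rw [t6_pos_ap]
      simp [H31R.ebas, Fin.succ_inj]
    have h2 : (H31R.ebas i.succ : E4) 0 = 0 := by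
      simp [H31R.ebas, Fin.succ_ne_zero]
    rw [h2]
    simp [h1]

/-- the bilinear form of the metric -/
theorem t6_bil (F : E4 → ℝ) (k : ℝ → ℝ) (r : ℝ × ℝ → ℝ) (p : E4) (w e : Fin 4 → ℝ) :
    ∑ b, (∑ c, stMetric F k r p c b * w c) * e b
      = -F p * w 0 * e 0 + F p * k ‖pos p‖ ^ 2 * (∑ i : Fin 3, pos p i / ‖pos p‖ * w i.succ) *
          (∑ i : Fin 3, pos p i / ‖pos p‖ * e i.succ)
        + (r (p 0, ‖pos p‖) / ‖pos p‖) ^ 2 *
          (∑ i : Fin 3, w i.succ * e i.succ - (∑ i : Fin 3, pos p i / ‖pos p‖ * w i.succ) *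
            (∑ i : Fin 3, pos p i / ‖pos p‖ * e i.succ)) := by
  simp only [stMetric, Matrix.of_apply, Fin.sum_univ_succ, Fin.cases_zero, Fin.cases_succ]
  simp
  ring

/-- the gradient of the null coordinate -/
noncomputable def t6_W (ε : ℝ) (F : E4 → ℝ) (k : ℝ → ℝ) (q : E4) : Fin 4 → ℝ :=
  Fin.cons (-ε / F q) fun i => pos q i / ‖pos q‖ / (k ‖pos q‖ * F q)

theorem t6_sum_ebas (v : E4) : v = ∑ c, v c • (H31R.ebas c : E4) := by
  ext i
  rw [WithLp.ofLp_sum, Finset.sum_apply]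
  simp [H31R.ebas]

theorem t6_fd {u : E4 → ℝ} {p : E4} (v : E4) : ∑ c, v c * H31R.pd c u p = fderiv ℝ u p v := by
  conv_rhs => rw [t6_sum_ebas v]
  rw [map_sum]
  refine Finset.sum_congr rfl fun c _ => ?_
  rw [map_smul, smul_eq_mul]
  rfl

theorem t6_xx {p : E4} (hp : pos p ≠ 0) :
    ∑ i : Fin 3, pos p i / ‖pos p‖ * (pos p i / ‖pos p‖) = 1 := by
  have h : ∀ i : Fin 3, pos p i / ‖pos p‖ * (pos p i / ‖pos p‖) = pos p i * pos p i / ‖pos p‖ ^ 2 := by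
    intro i
    ring
  simp only [h]
  rw [← Finset.sum_div, t6_sumsq, div_self]
  exact pow_ne_zero 2 (norm_ne_zero_iff.2 hp)

theorem t6_GW {F : E4 → ℝ} {k : ℝ → ℝ} {r : ℝ × ℝ → ℝ} {ε : ℝ} (hk : ∀ t : ℝ, 0 < t → ContDiffAt ℝ ∞ k t)
    (hk0 : ∀ t : ℝ, 0 < t → 0 < k t) {q : E4} (hq : pos q ≠ 0) (hF : 0 < F q) (b : Fin 4) :
    H31R.pd b (nuf ε k) q = ∑ c, stMetric F k r q b c * t6_W ε F k q c := by
  have h1 := t6_bil F k r q (t6_W ε F k q) (Pi.single b 1)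
  have h2 : ∑ b', (∑ c, stMetric F k r q c b' * t6_W ε F k q c) * (Pi.single b 1 : Fin 4 → ℝ) b' =
      ∑ c, stMetric F k r q b c * t6_W ε F k q c := by
    rw [Finset.sum_eq_single b]
    · rw [Pi.single_eq_same, mul_one]
      exact Finset.sum_congr rfl fun c _ => by rw [stMetric_symm]
    · intro b' _ hb
      rw [Pi.single_eq_of_ne hb, mul_zero]
    · intro h
      exact absurd (Finset.mem_univ b) h
  rw [← h2, h1]
  have hn : ‖pos q‖ ≠ 0 := norm_ne_zero_iff.2 hq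
  have hkq : k ‖pos q‖ ≠ 0 := (hk0 _ (norm_pos_iff.2 hq)).ne'
  have hFq : F q ≠ 0 := hF.ne'
  have hW0 : t6_W ε F k q 0 = -ε / F q := rfl
  have hWs : ∀ i : Fin 3, t6_W ε F k q i.succ = pos q i / ‖pos q‖ / (k ‖pos q‖ * F q) := fun i => rfl
  have hxw : ∑ i : Fin 3, pos q i / ‖pos q‖ * t6_W ε F k q i.succ = 1 / (k ‖pos q‖ * F q) := by
    simp only [hWs]
    have h3 : ∀ i : Fin 3, pos q i / ‖pos q‖ * (pos q i / ‖pos q‖ / (k ‖pos q‖ * F q)) =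
        pos q i / ‖pos q‖ * (pos q i / ‖pos q‖) / (k ‖pos q‖ * F q) := by
      intro i
      ring
    simp only [h3]
    rw [← Finset.sum_div, t6_xx hq]
  rw [hxw, hW0]
  obtain ⟨-, hd0, hds⟩ := nuf_pd (ε := ε) hk hq
  refine Fin.cases ?_ (fun j => ?_) b
  · rw [hd0]
    have h4 : ∀ i : Fin 3, (Pi.single (0 : Fin 4) (1 : ℝ) : Fin 4 → ℝ) i.succ = 0 := by
      intro i
      exact Pi.single_eq_of_ne (Fin.succ_ne_zero i) 1
    simp only [h4, mul_zero, Finset.sum_const_zero, Pi.single_eq_same]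
    field_simp
    ring
  · rw [hds j]
    have h4 : ∀ i : Fin 3, (Pi.single (j.succ : Fin 4) (1 : ℝ) : Fin 4 → ℝ) i.succ = if i = j then 1 else 0 := by
      intro i
      rw [Pi.single_apply]
      simp [Fin.succ_inj]
    have h5 : (Pi.single (j.succ : Fin 4) (1 : ℝ) : Fin 4 → ℝ) 0 = 0 :=
      Pi.single_eq_of_ne (Fin.succ_ne_zero j).symm 1
    simp only [h4, h5, mul_ite, mul_one, mul_zero, Finset.sum_ite_eq', Finset.mem_univ, if_true]
    rw [hWs]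
    field_simp
    ring

theorem t6_Wdiff {F : E4 → ℝ} {k : ℝ → ℝ} {ε : ℝ} (hk : ∀ t : ℝ, 0 < t → ContDiffAt ℝ ∞ k t)
    (hk0 : ∀ t : ℝ, 0 < t → 0 < k t) {p : E4} (hp : pos p ≠ 0) (hF : 0 < F p) (hFs : ContDiffAt ℝ ∞ F p)
    (c : Fin 4) : DifferentiableAt ℝ (fun q => t6_W ε F k q c) p := by
  have hn : ‖pos p‖ ≠ 0 := norm_ne_zero_iff.2 hp
  refine Fin.cases ?_ (fun j => ?_) c
  · show DifferentiableAt ℝ (fun q => -ε / F q) p
    have h0 : ContDiffAt ℝ ∞ (fun q => -ε / F q) p := contDiffAt_const.div hFs hF.ne'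
    exact h0.differentiableAt (by simp)
  · show DifferentiableAt ℝ (fun q => pos q j / ‖pos q‖ / (k ‖pos q‖ * F q)) p
    have h1 : ContDiffAt ℝ ∞ (fun q : E4 => ‖pos q‖) p := pos_smooth.contDiffAt.norm ℝ hp
    have h2 : ContDiffAt ℝ ∞ (fun q : E4 => pos q j) p := by
      have h3 : (fun q : E4 => pos q j) = fun q : E4 => q j.succ := by
        funext q
        exact t6_pos_ap q j
      rw [h3]
      exact (EuclideanSpace.proj (𝕜 := ℝ) (j.succ : Fin 4)).contDiff.contDiffAt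
    have h4 : ContDiffAt ℝ ∞ (fun q : E4 => k ‖pos q‖) p :=
      ContDiffAt.comp (g := k) (f := fun q : E4 => ‖pos q‖) p (hk _ (norm_pos_iff.2 hp)) h1
    have h5 : ContDiffAt ℝ ∞ (fun q => pos q j / ‖pos q‖ / (k ‖pos q‖ * F q)) p :=
      (h2.div h1 hn).div (h4.mul hFs) (mul_ne_zero (hk0 _ (norm_pos_iff.2 hp)).ne' hF.ne')
    exact h5.differentiableAt (by simp)

/-- derivative of the quadratic form along a line -/
theorem t6_Q {F : E4 → ℝ} {k : ℝ → ℝ} {r : ℝ × ℝ → ℝ} (hk : ∀ t : ℝ, 0 < t → ContDiffAt ℝ ∞ k t)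
    {p : E4} (hp : pos p ≠ 0) (hFs : ContDiffAt ℝ ∞ F p) (hrs : ContDiffAt ℝ ∞ r (p 0, ‖pos p‖))
    (e : Fin 4 → ℝ) (v : E4) (ρ' S' S : ℝ) (hρ' : ρ' = (∑ i : Fin 3, pos p i * pos v i) / ‖pos p‖)
    (hS' : S' = ∑ i : Fin 3, (pos v i * ‖pos p‖ - pos p i * ρ') / ‖pos p‖ ^ 2 * e i.succ)
    (hS : S = ∑ i : Fin 3, pos p i / ‖pos p‖ * e i.succ) :
    ∑ a, ∑ b, fderiv ℝ (fun q => stMetric F k r q a b) p v * e a * e b =
      -fderiv ℝ F p v * e 0 ^ 2 + (fderiv ℝ F p v * k ‖pos p‖ ^ 2 * S ^ 2 +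
        F p * (2 * k ‖pos p‖ * (deriv k ‖pos p‖ * ρ')) * S ^ 2 + F p * k ‖pos p‖ ^ 2 * (2 * S * S'))
      + (2 * (r (p 0, ‖pos p‖) / ‖pos p‖) *
          ((fderiv ℝ r (p 0, ‖pos p‖) (v 0, ρ') * ‖pos p‖ - r (p 0, ‖pos p‖) * ρ') / ‖pos p‖ ^ 2) *
          (∑ i : Fin 3, e i.succ ^ 2 - S ^ 2) + (r (p 0, ‖pos p‖) / ‖pos p‖) ^ 2 * (-(2 * S * S'))) := by
  have hn : ‖pos p‖ ≠ 0 := norm_ne_zero_iff.2 hp
  have hpp : (p + (0 : ℝ) • v) = p := by rw [zero_smul, add_zero]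
  have hG : ∀ a b, DifferentiableAt ℝ (fun q => stMetric F k r q a b) p := fun a b =>
    (stMetric_smooth hp hFs (hk _ (norm_pos_iff.2 hp)) hrs a b).differentiableAt (by simp)
  have h1 : HasDerivAt (fun t : ℝ => ∑ a, ∑ b, stMetric F k r (p + t • v) a b * e a * e b)
      (∑ a, ∑ b, fderiv ℝ (fun q => stMetric F k r q a b) p v * e a * e b) 0 := by
    refine HasDerivAt.fun_sum fun a _ => HasDerivAt.fun_sum fun b _ => ?_
    exact ((t6_line (hG a b) v).mul_const (e a)).mul_const (e b)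
  have hFl := t6_line (hFs.differentiableAt (by simp)) v
  have hρl := t6_rho hp v
  rw [← hρ'] at hρl
  have hkl : HasDerivAt (fun t : ℝ => k ‖pos (p + t • v)‖) (deriv k ‖pos p‖ * ρ') 0 := by
    have h2 : HasDerivAt k (deriv k ‖pos p‖) ‖pos (p + (0 : ℝ) • v)‖ := by
      rw [hpp]
      exact ((hk _ (norm_pos_iff.2 hp)).differentiableAt (by simp)).hasDerivAt
    exact h2.comp 0 hρl
  have hrl : HasDerivAt (fun t : ℝ => r ((p + t • v) 0, ‖pos (p + t • v)‖))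
      (fderiv ℝ r (p 0, ‖pos p‖) (v 0, ρ')) 0 := by
    have h2 : HasFDerivAt r (fderiv ℝ r (p 0, ‖pos p‖))
        ((p + (0 : ℝ) • v) 0, ‖pos (p + (0 : ℝ) • v)‖) := by
      rw [hpp]
      exact (hrs.differentiableAt (by simp)).hasFDerivAt
    exact h2.comp_hasDerivAt 0 ((t6_co p v 0).prodMk hρl)
  have hSl : HasDerivAt (fun t : ℝ => ∑ i : Fin 3, pos (p + t • v) i / ‖pos (p + t • v)‖ * e i.succ) S' 0 := by
    rw [hS']
    refine HasDerivAt.fun_sum fun i _ => ?_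
    have h2 := t6_xh hp v i
    rw [← hρ'] at h2
    exact h2.mul_const _
  have hrρ : HasDerivAt (fun t : ℝ => r ((p + t • v) 0, ‖pos (p + t • v)‖) / ‖pos (p + t • v)‖)
      ((fderiv ℝ r (p 0, ‖pos p‖) (v 0, ρ') * ‖pos p‖ - r (p 0, ‖pos p‖) * ρ') / ‖pos p‖ ^ 2) 0 := by
    have h2 := hrl.fun_div hρl (by rw [hpp]; exact hn)
    rw [hpp] at h2
    exact h2
  have h3 := ((hFl.neg.mul_const (e 0 ^ 2)).add ((hFl.mul (hkl.pow 2)).mul (hSl.pow 2))).add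
    ((hrρ.pow 2).mul ((hSl.pow 2).const_sub (∑ i : Fin 3, e i.succ ^ 2)))
  have h4 := h1.congr_of_eventuallyEq (f₁ := _) (Filter.EventuallyEq.refl _ _)
  have h5 : (fun t : ℝ => ∑ a, ∑ b, stMetric F k r (p + t • v) a b * e a * e b) =
      fun t : ℝ => -F (p + t • v) * e 0 ^ 2 + F (p + t • v) * k ‖pos (p + t • v)‖ ^ 2 *
        (∑ i : Fin 3, pos (p + t • v) i / ‖pos (p + t • v)‖ * e i.succ) ^ 2
        + (r ((p + t • v) 0, ‖pos (p + t • v)‖) / ‖pos (p + t • v)‖) ^ 2 *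
          (∑ i : Fin 3, e i.succ ^ 2 -
            (∑ i : Fin 3, pos (p + t • v) i / ‖pos (p + t • v)‖ * e i.succ) ^ 2) := by
    funext t
    exact stMetric_quad F k r (p + t • v) e
  rw [h5] at h1
  have h6 := h1.unique h3
  rw [h6]
  simp only [hpp, Pi.pow_apply, Pi.mul_apply]
  rw [← hS]
  norm_num
  ring

/-- derivatives of the components of the gradient along a line -/
theorem t6_W0 {F : E4 → ℝ} {k : ℝ → ℝ} {ε : ℝ} (hk : ∀ t : ℝ, 0 < t → ContDiffAt ℝ ∞ k t)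
    (hk0 : ∀ t : ℝ, 0 < t → 0 < k t) {p : E4} (hp : pos p ≠ 0) (hF : 0 < F p) (hFs : ContDiffAt ℝ ∞ F p)
    (v : E4) : fderiv ℝ (fun q => t6_W ε F k q 0) p v = ε * fderiv ℝ F p v / F p ^ 2 := by
  refine t6_line0 (t6_Wdiff hk hk0 hp hF hFs 0) v _ ?_
  have hpp : (p + (0 : ℝ) • v) = p := by rw [zero_smul, add_zero]
  have h1 := (hasDerivAt_const (0 : ℝ) (-ε)).fun_div (t6_line (hFs.differentiableAt (by simp)) v)
    (by rw [hpp]; exact hF.ne')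
  rw [hpp] at h1
  have e : (0 * F p - -ε * fderiv ℝ F p v) / F p ^ 2 = ε * fderiv ℝ F p v / F p ^ 2 := by ring
  rw [e] at h1
  exact h1

theorem t6_Ws {F : E4 → ℝ} {k : ℝ → ℝ} {ε : ℝ} (hk : ∀ t : ℝ, 0 < t → ContDiffAt ℝ ∞ k t)
    (hk0 : ∀ t : ℝ, 0 < t → 0 < k t) {p : E4} (hp : pos p ≠ 0) (hF : 0 < F p) (hFs : ContDiffAt ℝ ∞ F p)
    (v : E4) (ρ' : ℝ) (hρ' : ρ' = (∑ i : Fin 3, pos p i * pos v i) / ‖pos p‖) (j : Fin 3) :
    fderiv ℝ (fun q => t6_W ε F k q j.succ) p v =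
      (pos v j * ‖pos p‖ - pos p j * ρ') / ‖pos p‖ ^ 2 / (k ‖pos p‖ * F p) -
        pos p j / ‖pos p‖ * ((deriv k ‖pos p‖ * ρ' * F p + k ‖pos p‖ * fderiv ℝ F p v) /
          (k ‖pos p‖ * F p) ^ 2) := by
  refine t6_line0 (t6_Wdiff hk hk0 hp hF hFs j.succ) v _ ?_
  have hpp : (p + (0 : ℝ) • v) = p := by rw [zero_smul, add_zero]
  have hkp : k ‖pos p‖ ≠ 0 := (hk0 _ (norm_pos_iff.2 hp)).ne'
  have hFl := t6_line (hFs.differentiableAt (by simp)) v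
  have hρl := t6_rho hp v
  rw [← hρ'] at hρl
  have hkl : HasDerivAt (fun t : ℝ => k ‖pos (p + t • v)‖) (deriv k ‖pos p‖ * ρ') 0 := by
    have h2 : HasDerivAt k (deriv k ‖pos p‖) ‖pos (p + (0 : ℝ) • v)‖ := by
      rw [hpp]
      exact ((hk _ (norm_pos_iff.2 hp)).differentiableAt (by simp)).hasDerivAt
    exact h2.comp 0 hρl
  have hx := t6_xh hp v j
  rw [← hρ'] at hx
  have h1 := hx.fun_div (hkl.fun_mul hFl) (by rw [hpp]; exact mul_ne_zero hkp hF.ne')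
  rw [hpp] at h1
  have e : ((pos v j * ‖pos p‖ - pos p j * ρ') / ‖pos p‖ ^ 2 * (k ‖pos p‖ * F p) -
      pos p j / ‖pos p‖ * (deriv k ‖pos p‖ * ρ' * F p + k ‖pos p‖ * fderiv ℝ F p v)) /
        (k ‖pos p‖ * F p) ^ 2 =
      (pos v j * ‖pos p‖ - pos p j * ρ') / ‖pos p‖ ^ 2 / (k ‖pos p‖ * F p) -
        pos p j / ‖pos p‖ * ((deriv k ‖pos p‖ * ρ' * F p + k ‖pos p‖ * fderiv ℝ F p v) /
          (k ‖pos p‖ * F p) ^ 2) := by
    have hF0 := hF.ne'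
    have hn : ‖pos p‖ ≠ 0 := norm_ne_zero_iff.2 hp
    field_simp
  rw [e] at h1
  exact h1

theorem hess_null {F : E4 → ℝ} {k : ℝ → ℝ} {r : ℝ × ℝ → ℝ} {f : E3 → ℝ} (hS : Slice F k r f) {ε : ℝ}
    (hε : ε = 1 ∨ ε = -1) {p : E4} (hp : p ∈ Near f) {e : Fin 4 → ℝ}
    (he : ∑ a, H31R.pd a (nuf ε k) p * e a = 0) :
    ∑ a, ∑ b, (H31R.pd a (H31R.pd b (nuf ε k)) p
        - ∑ c, H31R.chr (stMetric F k r) c a b p * H31R.pd c (nuf ε k) p) * e a * e b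
      = fderiv ℝ r (p 0, ‖pos p‖) (-ε, 1 / k ‖pos p‖) / (F p * r (p 0, ‖pos p‖)) *
        ∑ a, ∑ b, stMetric F k r p a b * e a * e b := by
  have hpn : pos p ≠ 0 := hp.1
  have hFs := hS.F_smooth p hp
  have hF := hS.F_pos p hp
  have hrs := hS.r_smooth p hp
  have hr := hS.r_pos p hp
  have hk := hS.k_smooth
  have hk0 := hS.k_pos
  have hnp : 0 < ‖pos p‖ := norm_pos_iff.2 hpn
  have hkp := hk0 _ hnp
  have hkn : k ‖pos p‖ ≠ 0 := hkp.ne'
  have hFn : F p ≠ 0 := hF.ne'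
  have hn : ‖pos p‖ ≠ 0 := hnp.ne'
  have hrn : r (p 0, ‖pos p‖) ≠ 0 := hr.ne'
  have hG : ∀ a b, DifferentiableAt ℝ (fun q => stMetric F k r q a b) p := fun a b =>
    (stMetric_smooth hpn hFs (hk _ hnp) hrs a b).differentiableAt (by simp)
  have hev : ∀ᶠ q in 𝓝 p, ∀ b, H31R.pd b (nuf ε k) q = ∑ c, stMetric F k r q b c * t6_W ε F k q c := by
    have h1 : ∀ᶠ q in 𝓝 p, 0 < F q := hFs.continuousAt.eventually (lt_mem_nhds hF)
    have h2 : ∀ᶠ q in 𝓝 p, pos q ≠ 0 := pos_smooth.continuous.continuousAt.eventually_ne hpn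
    filter_upwards [h1, h2] with q hq1 hq2 b
    exact t6_GW hk hk0 hq2 hq1 b
  rw [hess_lie (fun q a b => stMetric_symm F k r q a b) hG
    (stMetric_inv hpn hF hkp hr).2 (fun c => t6_Wdiff hk hk0 hpn hF hFs c) hev e]
  -- the condition on `e`
  obtain ⟨-, hd0, hds⟩ := nuf_pd (ε := ε) hk hpn
  set S : ℝ := ∑ i : Fin 3, pos p i / ‖pos p‖ * e i.succ with hSdef
  have he' : ε * e 0 = -(k ‖pos p‖ * S) := by
    rw [Fin.sum_univ_succ, hd0] at he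
    simp only [hds] at he
    have h3 : ∑ i : Fin 3, k ‖pos p‖ * (pos p i / ‖pos p‖) * e i.succ = k ‖pos p‖ * S := by
      rw [hSdef, Finset.mul_sum]
      exact Finset.sum_congr rfl fun i _ => by ring
    rw [h3] at he
    linarith
  have he2 : e 0 ^ 2 = k ‖pos p‖ ^ 2 * S ^ 2 := by
    have h3 : ε ^ 2 = 1 := by rcases hε with h | h <;> rw [h] <;> norm_num
    have h4 : (ε * e 0) ^ 2 = (k ‖pos p‖ * S) ^ 2 := by rw [he']; ring
    rw [mul_pow, h3, one_mul, mul_pow] at h4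
    exact h4
  -- term A
  let w : E4 := WithLp.toLp 2 (t6_W ε F k p)
  have hw0 : w 0 = -ε / F p := rfl
  have hws : ∀ i : Fin 3, pos w i = pos p i / ‖pos p‖ / (k ‖pos p‖ * F p) := by
    intro i
    rw [t6_pos_ap]
    rfl
  have hA1 : ∑ a, ∑ b, ∑ c, t6_W ε F k p c * H31R.pd c (fun q => stMetric F k r q a b) p * e a * e b =
      ∑ a, ∑ b, fderiv ℝ (fun q => stMetric F k r q a b) p w * e a * e b := by
    refine Finset.sum_congr rfl fun a _ => Finset.sum_congr rfl fun b _ => ?_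
    rw [← Finset.sum_mul, ← Finset.sum_mul]
    congr 2
    exact t6_fd w
  have hρw : 1 / (k ‖pos p‖ * F p) = (∑ i : Fin 3, pos p i * pos w i) / ‖pos p‖ := by
    have h3 : ∀ i : Fin 3, pos p i * pos w i = pos p i * pos p i / (‖pos p‖ * (k ‖pos p‖ * F p)) := by
      intro i
      rw [hws]
      field_simp
    simp only [h3]
    rw [← Finset.sum_div, t6_sumsq]
    field_simp
  have hSw : (0 : ℝ) = ∑ i : Fin 3, (pos w i * ‖pos p‖ - pos p i * (1 / (k ‖pos p‖ * F p))) / ‖pos p‖ ^ 2 *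
      e i.succ := by
    symm
    refine Finset.sum_eq_zero fun i _ => ?_
    rw [hws]
    have h3 : pos p i / ‖pos p‖ / (k ‖pos p‖ * F p) * ‖pos p‖ - pos p i * (1 / (k ‖pos p‖ * F p)) = 0 := by
      field_simp
      ring
    rw [h3, zero_div, zero_mul]
  have hA2 := t6_Q (r := r) hk hpn hFs hrs e w _ 0 S hρw hSw hSdef
  have hr' : fderiv ℝ r (p 0, ‖pos p‖) (w 0, 1 / (k ‖pos p‖ * F p)) =
      fderiv ℝ r (p 0, ‖pos p‖) (-ε, 1 / k ‖pos p‖) / F p := by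
    have h3 : ((w 0, 1 / (k ‖pos p‖ * F p)) : ℝ × ℝ) = (F p)⁻¹ • ((-ε, 1 / k ‖pos p‖) : ℝ × ℝ) := by
      rw [Prod.smul_mk, smul_eq_mul, smul_eq_mul, hw0]
      refine Prod.ext ?_ ?_
      · show -ε / F p = (F p)⁻¹ * -ε
        ring
      · show 1 / (k ‖pos p‖ * F p) = (F p)⁻¹ * (1 / k ‖pos p‖)
        field_simp
    rw [h3, map_smul, smul_eq_mul]
    ring
  rw [hr'] at hA2
  -- term B
  let v : E4 := WithLp.toLp 2 e
  have hv0 : v 0 = e 0 := rfl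
  have hvs : ∀ i : Fin 3, pos v i = e i.succ := by
    intro i
    rw [t6_pos_ap]
  have hρv : S = (∑ i : Fin 3, pos p i * pos v i) / ‖pos p‖ := by
    rw [hSdef, Finset.sum_div]
    refine Finset.sum_congr rfl fun i _ => ?_
    rw [hvs]
    ring
  have hB1 : ∑ a, ∑ b, ∑ c, stMetric F k r p c b * H31R.pd a (fun q => t6_W ε F k q c) p * e a * e b =
      ∑ b, (∑ c, stMetric F k r p c b * fderiv ℝ (fun q => t6_W ε F k q c) p v) * e b := by
    rw [Finset.sum_comm]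
    refine Finset.sum_congr rfl fun b _ => ?_
    rw [Finset.sum_mul, Finset.sum_comm]
    refine Finset.sum_congr rfl fun c _ => ?_
    rw [← t6_fd v, Finset.mul_sum, Finset.sum_mul]
    refine Finset.sum_congr rfl fun a _ => ?_
    show _ = stMetric F k r p c b * (e a * H31R.pd a (fun q => t6_W ε F k q c) p) * e b
    ring
  have hB2 := t6_bil F k r p (fun c => fderiv ℝ (fun q => t6_W ε F k q c) p v) e
  have hB0 := t6_W0 (ε := ε) hk hk0 hpn hF hFs v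
  have hBs := t6_Ws (ε := ε) hk hk0 hpn hF hFs v S hρv
  set F' := fderiv ℝ F p v with hF'
  set κ := (deriv k ‖pos p‖ * S * F p + k ‖pos p‖ * F') / (k ‖pos p‖ * F p) ^ 2 with hκ
  have hxw : ∑ i : Fin 3, pos p i / ‖pos p‖ * fderiv ℝ (fun q => t6_W ε F k q i.succ) p v = -κ := by
    simp only [hBs, hvs]
    have h3 : ∀ i : Fin 3, pos p i / ‖pos p‖ * ((e i.succ * ‖pos p‖ - pos p i * S) / ‖pos p‖ ^ 2 /
        (k ‖pos p‖ * F p) - pos p i / ‖pos p‖ * κ) =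
        (pos p i / ‖pos p‖ * e i.succ) * (1 / (‖pos p‖ * (k ‖pos p‖ * F p))) -
        (pos p i / ‖pos p‖ * (pos p i / ‖pos p‖)) * (S * (1 / (‖pos p‖ * (k ‖pos p‖ * F p))) + κ) := by
      intro i
      field_simp
      ring
    simp only [h3]
    rw [Finset.sum_sub_distrib, ← Finset.sum_mul, ← Finset.sum_mul, t6_xx hpn, ← hSdef]
    ring
  have hew : ∑ i : Fin 3, fderiv ℝ (fun q => t6_W ε F k q i.succ) p v * e i.succ =
      (∑ i : Fin 3, e i.succ ^ 2 - S ^ 2) / (‖pos p‖ * (k ‖pos p‖ * F p)) - S * κ := by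
    simp only [hBs, hvs]
    have h3 : ∀ i : Fin 3, ((e i.succ * ‖pos p‖ - pos p i * S) / ‖pos p‖ ^ 2 /
        (k ‖pos p‖ * F p) - pos p i / ‖pos p‖ * κ) * e i.succ =
        e i.succ ^ 2 * (1 / (‖pos p‖ * (k ‖pos p‖ * F p))) -
        (pos p i / ‖pos p‖ * e i.succ) * (S * (1 / (‖pos p‖ * (k ‖pos p‖ * F p))) + κ) := by
      intro i
      field_simp
      ring
    simp only [h3]
    rw [Finset.sum_sub_distrib, ← Finset.sum_mul, ← Finset.sum_mul, ← hSdef]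
    ring
  rw [hA1, hA2, hB1, hB2, hxw, hew, hB0, ← hSdef, stMetric_quad, ← hSdef, he2, hκ]
  have h7 : -F p * (ε * F' / F p ^ 2) * e 0 = F' * (k ‖pos p‖ * S) / F p := by
    have h8 : -F p * (ε * F' / F p ^ 2) * e 0 = -(F' * (ε * e 0)) / F p := by
      field_simp
    rw [h8, he']
    ring
  rw [h7]
  generalize ∑ i : Fin 3, e i.succ ^ 2 = m
  generalize fderiv ℝ r (p 0, ‖pos p‖) (-ε, 1 / k ‖pos p‖) = R'
  generalize r (p 0, ‖pos p‖) = r0 at *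
  generalize deriv k ‖pos p‖ = k1 at *
  generalize k ‖pos p‖ = k0 at *
  generalize ‖pos p‖ = ρ at *
  generalize F p = F0 at *
  field_simp
  ring

end H17T
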