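import Pool.Agent.Lib.H17T.T6
import Pool.Agent.Lib.H17T.T4
import Pool.Agent.Lib.H17T.T4B

set_option autoImplicit false

/-!
# H17T, chunk T7 (M): the normal of the slice and the null coordinate

At `P = pt (f x) x`; `G⁻¹ = stInv` (`stMetric_inv`). `T = G⁻¹(τ,τ) = -1/F + Y`, `Y = Σ G^{ij} f_i f_j ≥ 0`. `T < 0`: if all `f_i = 0` clear;
otherwise `Y > 0` and the vector `ξ^i = Σ_j G^{ij} f_j ≠ 0` has `g(ξ,ξ) = -F (Σ f_i ξ^i)² + Σ G_ij ξ^i ξ^j = -F Y² + Y > 0`, so `F Y < 1`.
`G⁻¹(τ, dν) = -ε/F - (f_ρ/(F k))`, `f_ρ = Σ x̂_i f_i`, `|f_ρ| < k` (`slope_of_spacelike`), so `-G⁻¹(τ,dν)` has the sign of `ε`.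
`G⁻¹(dν, dν) = -1/F + k²/(F k²) = 0`; contract `inv_decomp` twice with `dν`: `0 = |dN|²_g + (G⁻¹(τ,dν))²/T` where
`dN_i = dν(e_i)`. Hence `(−G⁻¹(τ,dν)/√(-T))² = gradNorm²`. (`nuf_slice`, chain rule for `pd i (NN ε k f) x = Σ_a ∂_aν e_i^a`.)
-/

open MeasureTheory Filter Topology Set
open scoped ContDiff

namespace H17T

open Pool.Agent.Lib.PenroseSph (E3 Tens S2 sm pd gradNorm)

theorem t7_quad (n : Fin 3 → ℝ) (A B : ℝ) (f h : Fin 3 → ℝ) :
    ∑ i, ∑ j, (A * (n i * n j) + B * ((if i = j then 1 else 0) - n i * n j)) * f i * h j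
      = A * (∑ i, n i * f i) * (∑ i, n i * h i)
        + B * (∑ i, f i * h i - (∑ i, n i * f i) * (∑ i, n i * h i)) := by
  simp only [Fin.sum_univ_three]
  simp only [Fin.isValue, Fin.reduceEq, if_true, if_false]
  ring

theorem t7_form (F : E4 → ℝ) (k : ℝ → ℝ) (r : ℝ × ℝ → ℝ) (p : E4) (u w : Fin 4 → ℝ) :
    ∑ a, ∑ b, stInv F k r p a b * u a * w b
      = -(F p)⁻¹ * u 0 * w 0
        + (F p * k ‖pos p‖ ^ 2)⁻¹ * (∑ i : Fin 3, pos p i / ‖pos p‖ * u i.succ)
            * (∑ i : Fin 3, pos p i / ‖pos p‖ * w i.succ)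
        + (‖pos p‖ / r (p 0, ‖pos p‖)) ^ 2 * (∑ i : Fin 3, u i.succ * w i.succ
            - (∑ i : Fin 3, pos p i / ‖pos p‖ * u i.succ) * (∑ i : Fin 3, pos p i / ‖pos p‖ * w i.succ)) := by
  have h := t7_quad (fun i => pos p i / ‖pos p‖) (F p * k ‖pos p‖ ^ 2)⁻¹ ((‖pos p‖ / r (p 0, ‖pos p‖)) ^ 2)
    (fun i => u i.succ) (fun i => w i.succ)
  simp only at h
  rw [add_assoc, ← h, Fin.sum_univ_succ, Fin.sum_univ_succ]
  have h1 : ∀ j : Fin 3, stInv F k r p 0 j.succ * u 0 * w j.succ = 0 := by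
    intro j
    have : stInv F k r p 0 j.succ = 0 := rfl
    rw [this]
    ring
  have h2 : ∀ i : Fin 3, ∑ b, stInv F k r p i.succ b * u i.succ * w b
      = ∑ j : Fin 3, ((F p * k ‖pos p‖ ^ 2)⁻¹ * (pos p i / ‖pos p‖ * (pos p j / ‖pos p‖))
          + (‖pos p‖ / r (p 0, ‖pos p‖)) ^ 2 *
            ((if i = j then 1 else 0) - pos p i / ‖pos p‖ * (pos p j / ‖pos p‖))) * u i.succ * w j.succ := by
    intro i
    rw [Fin.sum_univ_succ]
    have : stInv F k r p i.succ 0 = 0 := rfl
    rw [this, zero_mul, zero_mul, zero_add]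
    rfl
  simp only [h1, h2, Finset.sum_const_zero, add_zero]
  rfl

theorem t7_unit {x : E3} (hx : x ≠ 0) : ∑ i : Fin 3, x i / ‖x‖ * (x i / ‖x‖) = 1 := by
  have hn : ‖x‖ ≠ 0 := norm_ne_zero_iff.2 hx
  have h1 : ‖x‖ ^ 2 = ∑ i : Fin 3, x i ^ 2 := by
    rw [EuclideanSpace.norm_sq_eq]
    simp
  have h2 : ∀ i : Fin 3, x i / ‖x‖ * (x i / ‖x‖) = x i ^ 2 / ‖x‖ ^ 2 := by
    intro i
    rw [div_mul_div_comm]
    ring
  simp only [h2]
  rw [← Finset.sum_div, ← h1]
  exact div_self (pow_ne_zero 2 hn)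

/-- Data of the slice at a point. -/
theorem t7_data {F : E4 → ℝ} {k : ℝ → ℝ} {r : ℝ × ℝ → ℝ} {f : E3 → ℝ} (hS : Slice F k r f) {x : E3}
    (hx : x ≠ 0) : pt (f x) x ∈ Near f ∧ pos (pt (f x) x) = x ∧ pt (f x) x 0 = f x ∧ 0 < F (pt (f x) x) ∧ 0 < k ‖x‖ ∧
      0 < r (f x, ‖x‖) ∧ (stMetric F k r (pt (f x) x))⁻¹ = stInv F k r (pt (f x) x) ∧
      (stMetric F k r (pt (f x) x)).det ≠ 0 := by
  have hn : 0 < ‖x‖ := norm_pos_iff.2 hx
  have hPn : pt (f x) x ∈ Near f := mem_near hx
  have hpos0 : pos (pt (f x) x) = x := pos_pt _ _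
  have hP0 : pt (f x) x 0 = f x := pt_zero _ _
  have hFP : 0 < F (pt (f x) x) := hS.F_pos _ hPn
  have hkP : 0 < k ‖x‖ := hS.k_pos _ hn
  have hrP : 0 < r (f x, ‖x‖) := by
    have := hS.r_pos _ hPn
    rwa [hpos0, hP0] at this
  have hinv := stMetric_inv (F := F) (k := k) (r := r) (p := pt (f x) x) (by rw [hpos0]; exact hx) hFP
    (by rw [hpos0]; exact hkP) (by rw [hpos0, hP0]; exact hrP)
  exact ⟨hPn, hpos0, hP0, hFP, hkP, hrP, hinv.1, hinv.2⟩

theorem normal_timelike {F : E4 → ℝ} {k : ℝ → ℝ} {r : ℝ × ℝ → ℝ} {f : E3 → ℝ} (hS : Slice F k r f) {x : E3}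
    (hx : x ≠ 0) :
    0 < -∑ a, ∑ b, (stMetric F k r (pt (f x) x))⁻¹ a b * conorm f x a * conorm f x b := by
  classical
  obtain ⟨hPn, hpos0, hP0, hFP, hkP, hrP, hinv, hdet⟩ := t7_data hS hx
  have hn : 0 < ‖x‖ := norm_pos_iff.2 hx
  rw [hinv, t7_form, hpos0, hP0]
  set n : Fin 3 → ℝ := fun i => x i / ‖x‖ with hnd
  have hunit : ∑ i, n i * n i = 1 := t7_unit hx
  set fi : Fin 3 → ℝ := fun i => pd i f x with hfi
  set a : ℝ := ∑ i, n i * fi i with ha
  have hc0 : conorm f x 0 = 1 := rfl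
  have hcs : ∀ i : Fin 3, conorm f x i.succ = -fi i := fun i => rfl
  simp only [hc0, hcs]
  have h1 : ∑ i : Fin 3, x i / ‖x‖ * -fi i = -a := by
    simp only [ha, hnd, mul_neg, Finset.sum_neg_distrib]
  have h2 : ∑ i : Fin 3, -fi i * -fi i = ∑ i, fi i ^ 2 := by
    refine Finset.sum_congr rfl fun i _ => ?_
    ring
  rw [h1, h2]
  set S : ℝ := ∑ i, fi i ^ 2 with hSdef
  set Fp : ℝ := F (pt (f x) x) with hFpd
  set K : ℝ := k ‖x‖ with hK
  set B : ℝ := (‖x‖ / r (f x, ‖x‖)) ^ 2 with hB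
  have hBpos : 0 < B := by positivity
  set A : ℝ := (Fp * K ^ 2)⁻¹ with hA
  have hApos : 0 < A := by positivity
  set Y : ℝ := A * a ^ 2 + B * (S - a ^ 2) with hY
  have hgoal : -(-Fp⁻¹ * 1 * 1 + A * -a * -a + B * (S - -a * -a)) = Fp⁻¹ - Y := by
    rw [hY]; ring
  rw [hgoal]
  -- the vector ξ
  set ξ : Fin 3 → ℝ := fun i => A * a * n i + B * (fi i - a * n i) with hξ
  have hfξ : ∑ i, fi i * ξ i = Y := by
    have : ∀ i, fi i * ξ i = (A * a - B * a) * (n i * fi i) + B * fi i ^ 2 := by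
      intro i
      simp only [hξ]
      ring
    simp only [this]
    rw [Finset.sum_add_distrib, ← Finset.mul_sum, ← Finset.mul_sum, ← ha, ← hSdef, hY]
    ring
  have hnξ : ∑ i, n i * ξ i = A * a := by
    have : ∀ i, n i * ξ i = (A * a - B * a) * (n i * n i) + B * (n i * fi i) := by
      intro i
      simp only [hξ]
      ring
    simp only [this]
    rw [Finset.sum_add_distrib, ← Finset.mul_sum, ← Finset.mul_sum, ← ha, hunit]
    ring
  have hξξ : ∑ i, ξ i ^ 2 = A ^ 2 * a ^ 2 + B ^ 2 * (S - a ^ 2) := by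
    have : ∀ i, ξ i ^ 2 = (A * a - B * a) ^ 2 * (n i * n i) + 2 * (A * a - B * a) * B * (n i * fi i)
        + B ^ 2 * fi i ^ 2 := by
      intro i
      simp only [hξ]
      ring
    simp only [this]
    rw [Finset.sum_add_distrib, Finset.sum_add_distrib, ← Finset.mul_sum, ← Finset.mul_sum, ← Finset.mul_sum, ← ha,
      hunit, ← hSdef]
    ring
  have hSa : 0 ≤ S - a ^ 2 := by
    have : S - a ^ 2 = ∑ i, (fi i - a * n i) ^ 2 := by
      have : ∀ i, (fi i - a * n i) ^ 2 = fi i ^ 2 - 2 * a * (n i * fi i) + a ^ 2 * (n i * n i) := by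
        intro i
        ring
      simp only [this]
      rw [Finset.sum_add_distrib, Finset.sum_sub_distrib, ← Finset.mul_sum, ← Finset.mul_sum, ← ha, hunit, ← hSdef]
      ring
    rw [this]
    exact Finset.sum_nonneg fun i _ => sq_nonneg _
  have hY0 : 0 ≤ Y := by positivity
  by_cases hξ0 : ξ = 0
  · have : Y = 0 := by
      rw [← hfξ, hξ0]
      simp
    rw [this, sub_zero]
    positivity
  · have hq := hS.spacelike x hx ξ hξ0
    have hq2 : ∑ i, ∑ j, slice (stMetric F k r) f x i j * ξ i * ξ j = -Fp * Y ^ 2 + Y := by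
      set e : Fin 4 → ℝ := fun a => ∑ i, ξ i * tang f x i a with he
      have h3 : ∑ i, ∑ j, slice (stMetric F k r) f x i j * ξ i * ξ j
          = ∑ a, ∑ b, stMetric F k r (pt (f x) x) a b * e a * e b := by
        have h4 : ∀ i j, slice (stMetric F k r) f x i j * ξ i * ξ j
            = ∑ a, ∑ b, stMetric F k r (pt (f x) x) a b * tang f x i a * tang f x j b * ξ i * ξ j := by
          intro i j
          change (∑ a, ∑ b, stMetric F k r (pt (f x) x) a b * tang f x i a * tang f x j b) * ξ i * ξ j = _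
          rw [Finset.sum_mul, Finset.sum_mul]
          refine Finset.sum_congr rfl fun a _ => ?_
          rw [Finset.sum_mul, Finset.sum_mul]
        simp only [h4]
        have h5 := t4b_swap (fun i j a b => stMetric F k r (pt (f x) x) a b * tang f x i a * tang f x j b * ξ i * ξ j)
        rw [h5]
        refine Finset.sum_congr rfl fun a _ => Finset.sum_congr rfl fun b _ => ?_
        rw [mul_assoc, he]
        simp only
        rw [Finset.sum_mul_sum, Finset.mul_sum]
        refine Finset.sum_congr rfl fun i _ => ?_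
        rw [Finset.mul_sum]
        refine Finset.sum_congr rfl fun j _ => ?_
        ring
      have he0 : e 0 = Y := by
        rw [← hfξ]
        simp only [he]
        refine Finset.sum_congr rfl fun i _ => ?_
        rw [mul_comm]
        rfl
      have hes : ∀ j : Fin 3, e j.succ = ξ j := by
        intro j
        simp only [he]
        have : ∀ i, ξ i * tang f x i j.succ = if j = i then ξ i else 0 := by
          intro i
          have : tang f x i j.succ = if j = i then 1 else 0 := rfl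
          rw [this]
          split_ifs <;> simp
        simp only [this]
        simp
      rw [h3, stMetric_quad, hpos0, hP0, he0]
      simp only [hes]
      have h6 : ∑ i : Fin 3, x i / ‖x‖ * ξ i = A * a := hnξ
      rw [h6, hξξ, ← hK, ← hFpd]
      have h7 : Fp * K ^ 2 * A = 1 := by
        rw [hA]
        exact mul_inv_cancel₀ (by positivity)
      have h8 : (r (f x, ‖x‖) / ‖x‖) ^ 2 * B = 1 := by
        rw [hB]
        have := hrP.ne'
        have := hn.ne'
        field_simp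
      have h9 : Fp * K ^ 2 * (A * a) ^ 2 = A * a ^ 2 := by
        calc Fp * K ^ 2 * (A * a) ^ 2 = (Fp * K ^ 2 * A) * (A * a ^ 2) := by ring
          _ = _ := by rw [h7, one_mul]
      have h10 : (r (f x, ‖x‖) / ‖x‖) ^ 2 * (A ^ 2 * a ^ 2 + B ^ 2 * (S - a ^ 2) - (A * a) ^ 2)
          = B * (S - a ^ 2) := by
        calc _ = ((r (f x, ‖x‖) / ‖x‖) ^ 2 * B) * (B * (S - a ^ 2)) := by ring
          _ = _ := by rw [h8, one_mul]
      rw [h9, h10, hY]
      ring
    rw [hq2] at hq
    have hY1 : Fp * Y < 1 := by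
      by_contra hcon
      push Not at hcon
      have : -Fp * Y ^ 2 + Y = Y * (1 - Fp * Y) := by ring
      rw [this] at hq
      have : Y * (1 - Fp * Y) ≤ 0 := mul_nonpos_of_nonneg_of_nonpos hY0 (by linarith)
      linarith
    have : Y < Fp⁻¹ := by
      have h := mul_lt_mul_of_pos_left hY1 (inv_pos.2 hFP)
      rwa [← mul_assoc, inv_mul_cancel₀ hFP.ne', one_mul, mul_one] at h
    linarith

theorem pd_NN {F : E4 → ℝ} {k : ℝ → ℝ} {r : ℝ × ℝ → ℝ} {f : E3 → ℝ} (hS : Slice F k r f) {ε : ℝ} {x : E3}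
    (hx : x ≠ 0) (i : Fin 3) :
    pd i (NN ε k f) x = ∑ a, H31R.pd a (nuf ε k) (pt (f x) x) * tang f x i a := by
  have hsl : NN ε k f = fun y => nuf ε k (pt (f y) y) := (nuf_slice ε k f).symm
  obtain ⟨hPn, hpos0, hP0, hFP, hkP, hrP, hinv, hdet⟩ := t7_data hS hx
  rw [hsl]
  exact t4b_chain ((nuf_pd hS.k_smooth (by rw [hpos0]; exact hx)).1.differentiableAt (by simp))
    ((hS.f_smooth x hx).differentiableAt (by simp)) i

theorem null_normal {F : E4 → ℝ} {k : ℝ → ℝ} {r : ℝ × ℝ → ℝ} {f : E3 → ℝ} (hS : Slice F k r f) {ε : ℝ}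
    (hε : ε = 1 ∨ ε = -1) {x : E3} (hx : x ≠ 0) :
    -(∑ a, ∑ b, (stMetric F k r (pt (f x) x))⁻¹ a b * conorm f x a * H31R.pd b (nuf ε k) (pt (f x) x)) /
        Real.sqrt (-∑ a, ∑ b, (stMetric F k r (pt (f x) x))⁻¹ a b * conorm f x a * conorm f x b)
      = ε * gradNorm (slice (stMetric F k r) f) (NN ε k f) x ∧
    0 < gradNorm (slice (stMetric F k r) f) (NN ε k f) x := by
  classical
  obtain ⟨hPn, hpos0, hP0, hFP, hkP, hrP, hinv, hdet⟩ := t7_data hS hx
  have hn : 0 < ‖x‖ := norm_pos_iff.2 hx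
  have hT := normal_timelike hS hx
  set P := pt (f x) x with hP
  set τ := conorm f x with hτ
  set dn : Fin 4 → ℝ := fun a => H31R.pd a (nuf ε k) P with hdn
  have hdn0 : dn 0 = ε := (nuf_pd hS.k_smooth (by rw [hpos0]; exact hx)).2.1
  have hdns : ∀ i : Fin 3, dn i.succ = k ‖x‖ * (x i / ‖x‖) := by
    intro i
    have := (nuf_pd (ε := ε) hS.k_smooth (p := P) (by rw [hpos0]; exact hx)).2.2 i
    rw [hpos0] at this
    exact this
  set n : Fin 3 → ℝ := fun i => x i / ‖x‖ with hnd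
  have hunit : ∑ i, n i * n i = 1 := t7_unit hx
  set a : ℝ := ∑ i, n i * pd i f x with ha
  have hε2 : ε ^ 2 = 1 := by rcases hε with h | h <;> rw [h] <;> norm_num
  have hak : |a| < k ‖x‖ := by
    have h1 := slope_of_spacelike hS hx
    rw [Pool.Agent.Lib.PenroseSph.fderiv_eq_sum] at h1
    have h2 : ∑ m, x m * pd m f x = ‖x‖ * a := by
      rw [ha, Finset.mul_sum]
      refine Finset.sum_congr rfl fun m _ => ?_
      simp only [hnd]
      field_simp
    rw [h2, abs_mul, abs_of_pos hn, mul_comm] at h1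
    exact lt_of_mul_lt_mul_right h1 hn.le
  -- products with the inverse metric
  have hkn : ∑ i : Fin 3, x i / ‖x‖ * dn i.succ = k ‖x‖ := by
    have : ∀ i : Fin 3, x i / ‖x‖ * dn i.succ = k ‖x‖ * (n i * n i) := by
      intro i
      rw [hdns]
      simp only [hnd]
      ring
    simp only [this]
    rw [← Finset.mul_sum, hunit, mul_one]
  have hτn : ∑ i : Fin 3, x i / ‖x‖ * τ i.succ = -a := by
    have : ∀ i : Fin 3, x i / ‖x‖ * τ i.succ = -(n i * pd i f x) := by
      intro i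
      have : τ i.succ = -pd i f x := rfl
      rw [this]
      simp only [hnd]
      ring
    simp only [this]
    rw [Finset.sum_neg_distrib]
  have hτd : ∑ i : Fin 3, τ i.succ * dn i.succ = -a * k ‖x‖ := by
    have : ∀ i : Fin 3, τ i.succ * dn i.succ = -(k ‖x‖) * (n i * pd i f x) := by
      intro i
      have : τ i.succ = -pd i f x := rfl
      rw [this, hdns]
      simp only [hnd]
      ring
    simp only [this]
    rw [← Finset.mul_sum, ← ha]
    ring
  have hdd : ∑ i : Fin 3, dn i.succ * dn i.succ = k ‖x‖ ^ 2 := by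
    have : ∀ i : Fin 3, dn i.succ * dn i.succ = k ‖x‖ ^ 2 * (n i * n i) := by
      intro i
      rw [hdns]
      simp only [hnd]
      ring
    simp only [this]
    rw [← Finset.mul_sum, hunit, mul_one]
  have hτν : ∑ a, ∑ b, (stMetric F k r P)⁻¹ a b * τ a * dn b = -(ε / F P + a / (F P * k ‖x‖)) := by
    rw [hinv, t7_form, hpos0, hP0, hkn, hτn, hτd, hdn0]
    have : τ 0 = 1 := rfl
    rw [this]
    have h1 := hFP.ne'
    have h2 := hkP.ne'
    have h3 : -a * k ‖x‖ - -a * k ‖x‖ = 0 := by ring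
    rw [h3]
    field_simp
    ring
  have hνν : ∑ a, ∑ b, (stMetric F k r P)⁻¹ a b * dn a * dn b = 0 := by
    rw [hinv, t7_form, hpos0, hP0, hkn, hdd, hdn0]
    have h1 := hFP.ne'
    have h2 := hkP.ne'
    have h3 : k ‖x‖ ^ 2 - k ‖x‖ * k ‖x‖ = 0 := by ring
    rw [h3]
    field_simp
    rw [hε2]
    ring
  set T : ℝ := ∑ a, ∑ b, (stMetric F k r P)⁻¹ a b * τ a * τ b with hTd
  have hT0 : T ≠ 0 := fun h => by rw [h, neg_zero] at hT; exact lt_irrefl _ hT
  set g := slice (stMetric F k r) f with hg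
  set W : ℝ := ∑ a, ∑ b, (stMetric F k r P)⁻¹ a b * τ a * dn b with hW
  have hsT : 0 < Real.sqrt (-T) := Real.sqrt_pos.2 hT
  have hWval : W = -(ε / F P + a / (F P * k ‖x‖)) := hτν
  have hak2 := abs_lt.1 hak
  have hWpos : ε * |W| = -W ∧ W ≠ 0 := by
    rcases hε with h | h
    · have h1 : W < 0 := by
        rw [hWval, h]
        have : (1 : ℝ) / F P + a / (F P * k ‖x‖) = (k ‖x‖ + a) / (F P * k ‖x‖) := by
          have h1 := hFP.ne'
          have h2 := hkP.ne'
          field_simp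
        rw [this, neg_lt_zero]
        exact div_pos (by linarith) (by positivity)
      rw [abs_of_neg h1, h]
      exact ⟨by ring, h1.ne⟩
    · have h1 : 0 < W := by
        rw [hWval, h]
        have : (-1 : ℝ) / F P + a / (F P * k ‖x‖) = -((k ‖x‖ - a) / (F P * k ‖x‖)) := by
          have h1 := hFP.ne'
          have h2 := hkP.ne'
          field_simp
          ring
        rw [this, neg_neg]
        exact div_pos (by linarith) (by positivity)
      rw [abs_of_pos h1, h]
      exact ⟨by ring, h1.ne'⟩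
  have hgsym : ∀ i j, g x i j = g x j i := by
    intro i j
    change ∑ a, ∑ b, stMetric F k r (pt (f x) x) a b * tang f x i a * tang f x j b
      = ∑ a, ∑ b, stMetric F k r (pt (f x) x) a b * tang f x j a * tang f x i b
    rw [Finset.sum_comm]
    refine Finset.sum_congr rfl fun a _ => Finset.sum_congr rfl fun b _ => ?_
    rw [stMetric_symm F k r _ b a]
    ring
  have hgdet : (g x).det ≠ 0 := by
    have hpd : (g x).PosDef := by
      refine Matrix.PosDef.of_dotProduct_mulVec_pos ?_ ?_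
      · ext i j
        simp only [Matrix.conjTranspose_apply, star_trivial]
        exact hgsym j i
      · intro ξ hξ
        have h1 := hS.spacelike x hx ξ hξ
        simp only [star_trivial, dotProduct, Matrix.mulVec, Finset.mul_sum]
        refine lt_of_lt_of_eq h1 ?_
        refine Finset.sum_congr rfl fun i _ => Finset.sum_congr rfl fun j _ => ?_
        ring
    exact hpd.det_pos.ne'
  have hdec := inv_decomp (G := stMetric F k r P) (fun a b => stMetric_symm F k r P a b) hdet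
    (p := fun i => pd i f x) (e := tang f x) (fun i => rfl) (τ := τ) rfl (g := g x) (fun i j => rfl) hgdet hT0
  have hgrad : ∑ i, ∑ j, (g x)⁻¹ i j * pd i (NN ε k f) x * pd j (NN ε k f) x = W ^ 2 / -T := by
    have hsymI : ∀ a b, (stMetric F k r P)⁻¹ a b = (stMetric F k r P)⁻¹ b a := by
      intro a b
      have h1 : (stMetric F k r P).transpose = stMetric F k r P := by
        ext a b
        exact stMetric_symm F k r P b a
      have h2 : ((stMetric F k r P)⁻¹).transpose = (stMetric F k r P)⁻¹ := by rw [Matrix.transpose_nonsing_inv, h1]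
      conv_lhs => rw [← h2]
      rfl
    have hW' : W = ∑ a, (∑ c, (stMetric F k r P)⁻¹ a c * τ c) * dn a := by
      rw [hW, Finset.sum_comm]
      refine Finset.sum_congr rfl fun a _ => ?_
      rw [Finset.sum_mul]
      refine Finset.sum_congr rfl fun b _ => ?_
      rw [hsymI b a]
    have h0 : ∑ a, ∑ b, (stMetric F k r P)⁻¹ a b * dn a * dn b
        = (∑ i, ∑ j, (g x)⁻¹ i j * pd i (NN ε k f) x * pd j (NN ε k f) x) + W ^ 2 / T := by
      have h1 : ∀ i j, (g x)⁻¹ i j * pd i (NN ε k f) x * pd j (NN ε k f) x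
          = ∑ a, ∑ b, (g x)⁻¹ i j * (dn a * tang f x i a) * (dn b * tang f x j b) := by
        intro i j
        rw [pd_NN hS hx i, pd_NN hS hx j, mul_assoc, Finset.sum_mul_sum, Finset.mul_sum]
        refine Finset.sum_congr rfl fun a _ => ?_
        rw [Finset.mul_sum]
        refine Finset.sum_congr rfl fun b _ => ?_
        simp only [hdn, hP]
        ring
      simp only [h1]
      rw [t4b_swap]
      have h2 : W ^ 2 / T = ∑ a, ∑ b, ((∑ c, (stMetric F k r P)⁻¹ a c * τ c) * dn a)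
          * ((∑ c, (stMetric F k r P)⁻¹ b c * τ c) * dn b) / T := by
        rw [sq, hW', Finset.sum_mul_sum, Finset.sum_div]
        refine Finset.sum_congr rfl fun a _ => ?_
        rw [Finset.sum_div]
      rw [h2, ← Finset.sum_add_distrib]
      refine Finset.sum_congr rfl fun a _ => ?_
      rw [← Finset.sum_add_distrib]
      refine Finset.sum_congr rfl fun b _ => ?_
      rw [hdec a b, ← hTd, add_mul, add_mul, Finset.sum_mul, Finset.sum_mul]
      congr 1
      · refine Finset.sum_congr rfl fun i _ => ?_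
        rw [Finset.sum_mul, Finset.sum_mul]
        refine Finset.sum_congr rfl fun j _ => ?_
        ring
      · ring
    rw [hνν] at h0
    rw [div_neg]
    linarith
  have hgn : gradNorm g (NN ε k f) x = |W| / Real.sqrt (-T) := by
    unfold gradNorm
    rw [hgrad, Real.sqrt_div (sq_nonneg W), Real.sqrt_sq_eq_abs]
  rw [hgn]
  refine ⟨?_, div_pos (abs_pos.2 hWpos.2) hsT⟩
  rw [← mul_div_assoc, hWpos.1]

end H17T
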