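import Pool.Agent.Lib.H17T.T7
import Pool.Agent.Lib.H17T.T4B
import Pool.Agent.Lib.H17T.T3

set_option autoImplicit false

/-!
# H17T, chunk T8 (M): the null expansion of the cones

`g = slice G f`, `N = NN ε k f = ν(pt (f y) y)` (`nuf_slice`), `l_i = pd i N x ≠ 0`, `ν^i = normal g N i x = (g⁻¹ l)_i/|l|`,
`|l| = gradNorm = √M`, so `g⁻¹ i j - normal i * normal j` is the matrix `P` of `plane_decomp`, `P = Σ_c v_c v_cᵀ`, `l(v_c) = 0`.
`meanCurv g N x = (Σ P_ij (N_ij - Γ N))/|l|`; by `gauss_hessian` and `null_normal`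
`Σ P_ij (N_ij - Γ N) = Σ_c (∇²ν)(E_c, E_c) + (Σ P_ij second_ij) ε |l|` with `E_c = Σ_i v_c^i e_i` (`e_i = tang f x i`),
`dν(E_c) = Σ_i v_c^i l_i = 0` (`pd_NN`); by `hess_null` `(∇²ν)(E_c, E_c) = (W₀ r/(F r)) G(E_c, E_c) = (W₀ r/(F r)) g(v_c, v_c)`, and
`Σ_c g(v_c, v_c) = Σ P_ij g_ij = 2` (`plane_trace`).
-/

open MeasureTheory Filter Topology Set
open scoped ContDiff

namespace H17T

open Pool.Agent.Lib.PenroseSph (E3 Tens S2 sm pd gradNorm normal meanCurv trLevel)

theorem expansion {F : E4 → ℝ} {k : ℝ → ℝ} {r : ℝ × ℝ → ℝ} {f : E3 → ℝ} (hS : Slice F k r f) {ε : ℝ}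
    (hε : ε = 1 ∨ ε = -1) {x : E3} (hx : x ≠ 0) :
    meanCurv (slice (stMetric F k r) f) (NN ε k f) x
        - ε * trLevel (slice (stMetric F k r) f) (second (stMetric F k r) f) (NN ε k f) x
      = 2 * fderiv ℝ r (qq f x) (-ε, 1 / k ‖x‖) /
        (F (pt (f x) x) * r (qq f x) * gradNorm (slice (stMetric F k r) f) (NN ε k f) x) := by
  classical
  have hn : 0 < ‖x‖ := norm_pos_iff.2 hx
  set Gm := stMetric F k r with hGm
  set P := pt (f x) x with hP
  set g := slice Gm f with hg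
  have hPn : P ∈ Near f := mem_near hx
  have hpos0 : pos P = x := pos_pt _ _
  have hP0 : P 0 = f x := pt_zero _ _
  have hFP : 0 < F P := hS.F_pos P hPn
  have hkP : 0 < k ‖x‖ := hS.k_pos _ hn
  have hrP : 0 < r (f x, ‖x‖) := by
    have := hS.r_pos P hPn
    rwa [hpos0, hP0] at this
  have hinv := stMetric_inv (F := F) (k := k) (r := r) (p := P) (by rw [hpos0]; exact hx) hFP
    (by rw [hpos0]; exact hkP) (by rw [hpos0, hP0]; exact hrP)
  have hdet : (Gm P).det ≠ 0 := hinv.2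
  have hsymG : ∀ p a b, Gm p a b = Gm p b a := fun p a b => stMetric_symm F k r p a b
  have hsmG : ∀ a b, ContDiffAt ℝ ∞ (fun p => Gm p a b) P := fun a b =>
    stMetric_smooth (by rw [hpos0]; exact hx) (hS.F_smooth P hPn) (by rw [hpos0]; exact hS.k_smooth _ hn)
      (hS.r_smooth P hPn) a b
  have hgsym : ∀ i j, g x i j = g x j i := by
    intro i j
    change ∑ a, ∑ b, Gm (pt (f x) x) a b * tang f x i a * tang f x j b
      = ∑ a, ∑ b, Gm (pt (f x) x) a b * tang f x j a * tang f x i b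
    rw [Finset.sum_comm]
    refine Finset.sum_congr rfl fun a _ => Finset.sum_congr rfl fun b _ => ?_
    rw [hsymG _ b a]
    ring
  have hgpos : ∀ ξ : Fin 3 → ℝ, ξ ≠ 0 → 0 < ∑ i, ∑ j, g x i j * ξ i * ξ j := hS.spacelike x hx
  set N := NN ε k f with hN
  have hnn := null_normal hS hε hx
  have hL : 0 < gradNorm g N x := hnn.2
  set L := gradNorm g N x with hLdef
  set l : Fin 3 → ℝ := fun i => pd i N x with hl
  set M : ℝ := ∑ a, ∑ b, (g x)⁻¹ a b * l a * l b with hM
  have hLM : L = Real.sqrt M := rfl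
  have hMpos : 0 < M := by
    rw [hLM] at hL
    exact Real.sqrt_pos.1 hL
  have hL2 : L * L = M := by rw [hLM]; exact Real.mul_self_sqrt hMpos.le
  have hl0 : l ≠ 0 := by
    intro h
    rw [hM, h] at hMpos
    simp at hMpos
  obtain ⟨hgdet, hginv, _⟩ := plane_pos hgsym hgpos hl0
  obtain ⟨v, hv0, hv⟩ := plane_decomp hgsym hgpos hl0
  have htr := plane_trace hgsym hgpos hl0
  rw [← hM] at htr
  have hPd : ∀ i j, (g x)⁻¹ i j - normal g N i x * normal g N j x = ∑ c, v c i * v c j := by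
    intro i j
    rw [← hv i j, ← hM]
    congr 1
    change (∑ a, (g x)⁻¹ i a * l a) / L * ((∑ a, (g x)⁻¹ j a * l a) / L) = _
    rw [div_mul_div_comm, hL2]
  have hνs : ContDiffAt ℝ ∞ (nuf ε k) P := (nuf_pd hS.k_smooth (by rw [hpos0]; exact hx)).1
  have hT := normal_timelike hS hx
  have hgauss := gauss_hessian (G := Gm) (f := f) (ν := nuf ε k) (x := x) hsymG hsmG hdet (hS.f_smooth x hx) hνs
    hgdet hT
  have hsl : (fun y => nuf ε k (pt (f y) y)) = N := nuf_slice ε k f
  rw [hsl] at hgauss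
  set HH : Fin 4 → Fin 4 → ℝ := fun a b => H31R.pd a (H31R.pd b (nuf ε k)) P
      - ∑ c, H31R.chr Gm c a b P * H31R.pd c (nuf ε k) P with hHH
  have hgauss' : ∀ i j, pd i (pd j N) x - ∑ l, Pool.Agent.Lib.PenroseSph.chr g l i j x * pd l N x
      = (∑ a, ∑ b, HH a b * tang f x i a * tang f x j b) + second Gm f x i j * (ε * L) := by
    intro i j
    rw [hgauss i j, hnn.1]
  set w0 : ℝ := fderiv ℝ r (f x, ‖x‖) (-ε, 1 / k ‖x‖) / (F P * r (f x, ‖x‖)) with hw0
  have hnull : ∀ c, ∑ i, ∑ j, (v c i * v c j) * (∑ a, ∑ b, HH a b * tang f x i a * tang f x j b)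
      = w0 * ∑ i, ∑ j, (v c i * v c j) * g x i j := by
    intro c
    set e : Fin 4 → ℝ := fun a => ∑ i, v c i * tang f x i a with he
    have he0 : ∑ a, H31R.pd a (nuf ε k) P * e a = 0 := by
      rw [← hv0 c]
      have h1 : ∀ i, v c i * l i = ∑ a, H31R.pd a (nuf ε k) P * (v c i * tang f x i a) := by
        intro i
        simp only [hl]
        rw [pd_NN hS hx i, Finset.mul_sum]
        refine Finset.sum_congr rfl fun a _ => ?_
        ring
      simp only [h1]
      rw [Finset.sum_comm]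
      refine Finset.sum_congr rfl fun a _ => ?_
      rw [Finset.mul_sum]
    have h2 := hess_null hS hε hPn he0
    have h3 : ∀ Q : Fin 4 → Fin 4 → ℝ, ∑ a, ∑ b, Q a b * e a * e b
        = ∑ i, ∑ j, (v c i * v c j) * (∑ a, ∑ b, Q a b * tang f x i a * tang f x j b) := by
      intro Q
      simp only [Finset.mul_sum]
      have h4 := t4b_swap (fun i j a b => v c i * v c j * (Q a b * tang f x i a * tang f x j b))
      rw [h4]
      refine Finset.sum_congr rfl fun a _ => Finset.sum_congr rfl fun b _ => ?_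
      rw [mul_assoc, he]
      simp only
      rw [Finset.sum_mul_sum, Finset.mul_sum]
      refine Finset.sum_congr rfl fun i _ => ?_
      rw [Finset.mul_sum]
      refine Finset.sum_congr rfl fun j _ => ?_
      ring
    rw [← h3 HH]
    have h5 : ∑ a, ∑ b, Gm P a b * e a * e b = ∑ i, ∑ j, (v c i * v c j) * g x i j := h3 (fun a b => Gm P a b)
    rw [← h5, hw0]
    rw [hpos0, hP0] at h2
    exact h2
  have hmc : meanCurv g N x = (∑ i, ∑ j, ((g x)⁻¹ i j - normal g N i x * normal g N j x) *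
    (pd i (pd j N) x - ∑ k, Pool.Agent.Lib.PenroseSph.chr g k i j x * pd k N x)) / L := rfl
  have htl : trLevel g (second Gm f) N x
    = ∑ i, ∑ j, ((g x)⁻¹ i j - normal g N i x * normal g N j x) * second Gm f x i j := rfl
  have hsumP : ∑ i, ∑ j, ((g x)⁻¹ i j - normal g N i x * normal g N j x) *
      (pd i (pd j N) x - ∑ k, Pool.Agent.Lib.PenroseSph.chr g k i j x * pd k N x)
      = w0 * 2 + ε * L * trLevel g (second Gm f) N x := by
    have h6 : ∑ i, ∑ j, ((g x)⁻¹ i j - normal g N i x * normal g N j x) * g x i j = 2 := by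
      rw [← htr]
      refine Finset.sum_congr rfl fun i _ => Finset.sum_congr rfl fun j _ => ?_
      rw [hPd, ← hv i j]
    rw [htl, ← h6]
    simp only [hPd, hgauss']
    have h7 : ∀ Q : Fin 3 → Fin 3 → ℝ, ∑ i, ∑ j, (∑ c, v c i * v c j) * Q i j
        = ∑ c, ∑ i, ∑ j, (v c i * v c j) * Q i j := by
      intro Q
      have h8 : ∀ i, ∑ j, (∑ c, v c i * v c j) * Q i j = ∑ c, ∑ j, (v c i * v c j) * Q i j := by
        intro i
        rw [Finset.sum_comm]
        refine Finset.sum_congr rfl fun j _ => ?_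
        rw [Finset.sum_mul]
      simp only [h8]
      rw [Finset.sum_comm]
    rw [h7 (fun i j => (∑ a, ∑ b, HH a b * tang f x i a * tang f x j b) + second Gm f x i j * (ε * L)),
      h7 (fun i j => g x i j), h7 (fun i j => second Gm f x i j), Finset.mul_sum, Finset.mul_sum,
      ← Finset.sum_add_distrib]
    refine Finset.sum_congr rfl fun c _ => ?_
    rw [← hnull c]
    simp only [mul_add, Finset.sum_add_distrib]
    congr 1
    simp only [Finset.mul_sum]
    refine Finset.sum_congr rfl fun i _ => Finset.sum_congr rfl fun j _ => ?_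
    ring
  rw [hmc, hsumP]
  change (w0 * 2 + ε * L * trLevel g (second Gm f) N x) / L - ε * trLevel g (second Gm f) N x
    = 2 * fderiv ℝ r (f x, ‖x‖) (-ε, 1 / k ‖x‖) / (F P * r (f x, ‖x‖) * L)
  rw [hw0]
  have h9 : F P ≠ 0 := hFP.ne'
  have h10 : L ≠ 0 := hL.ne'
  field_simp
  ring

end H17T
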