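import Pool.Agent.Lib.H17T.T2
import Pool.Agent.Lib.H17T.T3

set_option autoImplicit false

/-!
# H17T, chunk T9 (M): comparison of the mean curvatures at the touching point

Let `L > 0` be as in `second_order`: `pd i N p = L pd i w p`. Then `gradNorm g N = L gradNorm g w`, the normals agree, hence `trLevel`
agree, and with `P = g⁻¹ - ν ν = Σ_c v_c v_cᵀ` (`plane_decomp` with `l = dw`; `l ≠ 0` because `fderiv w p ≠ 0`)
`meanCurv w - meanCurv N = (1/(L |dw|)) Σ_c (L D²w(v_c, v_c) - D²N(v_c, v_c)) ≥ 0`: the Christoffel terms cancel.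
-/

open MeasureTheory Filter Topology Set
open scoped ContDiff

namespace H17T

open Pool.Agent.Lib.PenroseSph (E3 Tens S2 sm pd gradNorm normal meanCurv trLevel DefFun)

theorem touch_compare {g h : Tens} {Om : Set E3} {w N : E3 → ℝ} {p : E3} (hsym : ∀ i j, g p i j = g p j i)
    (hpos : ∀ ξ : Fin 3 → ℝ, ξ ≠ 0 → 0 < ∑ i, ∑ j, g p i j * ξ i * ξ j) (hw : DefFun Om w p)
    (hp : p ∈ frontier Om) (hN : ContDiffAt ℝ 2 N p) (hdN : fderiv ℝ N p ≠ 0)
    (hmax : ∀ᶠ x in 𝓝 p, x ∈ Om → N x ≤ N p) :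
    meanCurv g N p ≤ meanCurv g w p ∧ trLevel g h w p = trLevel g h N p := by
  classical
  obtain ⟨L, hL, hLd, hLs⟩ := second_order hw hp hN hdN hmax
  set l : Fin 3 → ℝ := fun i => pd i w p with hl
  have hl0 : l ≠ 0 := by
    intro h
    apply hw.grad
    ext v
    rw [Pool.Agent.Lib.PenroseSph.fderiv_eq_sum]
    simp only [ContinuousLinearMap.zero_apply]
    refine Finset.sum_eq_zero fun m _ => ?_
    have : pd m w p = 0 := congrFun h m
    rw [this, mul_zero]
  obtain ⟨_, _, hMpos⟩ := plane_pos hsym hpos hl0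
  obtain ⟨v, hv0, hv⟩ := plane_decomp hsym hpos hl0
  set M : ℝ := ∑ a, ∑ b, (g p)⁻¹ a b * l a * l b with hM
  have hgw : gradNorm g w p = Real.sqrt M := rfl
  have hsM : 0 < Real.sqrt M := Real.sqrt_pos.2 hMpos
  have hsM2 : Real.sqrt M * Real.sqrt M = M := Real.mul_self_sqrt hMpos.le
  have hgN : gradNorm g N p = L * Real.sqrt M := by
    unfold gradNorm
    have : ∑ i, ∑ j, (g p)⁻¹ i j * pd i N p * pd j N p = L ^ 2 * M := by
      rw [hM, Finset.mul_sum]
      refine Finset.sum_congr rfl fun i _ => ?_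
      rw [Finset.mul_sum]
      refine Finset.sum_congr rfl fun j _ => ?_
      rw [hLd i, hLd j]
      simp only [hl]
      ring
    rw [this, Real.sqrt_mul (by positivity), Real.sqrt_sq hL.le]
  have hnor : ∀ i, normal g N i p = normal g w i p := by
    intro i
    unfold normal
    rw [hgN, hgw]
    have : ∑ j, (g p)⁻¹ i j * pd j N p = L * ∑ j, (g p)⁻¹ i j * pd j w p := by
      rw [Finset.mul_sum]
      refine Finset.sum_congr rfl fun j _ => ?_
      rw [hLd j]
      ring
    rw [this, mul_div_mul_left _ _ hL.ne']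
  have hP : ∀ i j, (g p)⁻¹ i j - normal g w i p * normal g w j p = ∑ c, v c i * v c j := by
    intro i j
    rw [← hv i j]
    congr 1
    change (∑ a, (g p)⁻¹ i a * l a) / Real.sqrt M * ((∑ a, (g p)⁻¹ j a * l a) / Real.sqrt M) = _
    rw [div_mul_div_comm, hsM2]
  refine ⟨?_, ?_⟩
  · have h7 : ∀ Q : Fin 3 → Fin 3 → ℝ, ∑ i, ∑ j, (∑ c, v c i * v c j) * Q i j
        = ∑ c, ∑ i, ∑ j, (v c i * v c j) * Q i j := by
      intro Q
      have h8 : ∀ i, ∑ j, (∑ c, v c i * v c j) * Q i j = ∑ c, ∑ j, (v c i * v c j) * Q i j := by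
        intro i
        rw [Finset.sum_comm]
        refine Finset.sum_congr rfl fun j _ => ?_
        rw [Finset.sum_mul]
      simp only [h8]
      rw [Finset.sum_comm]
    have hw1 : meanCurv g w p = (∑ i, ∑ j, (∑ c, v c i * v c j) *
        (pd i (pd j w) p - ∑ k, Pool.Agent.Lib.PenroseSph.chr g k i j p * pd k w p)) / Real.sqrt M := by
      unfold meanCurv
      rw [hgw]
      congr 1
      refine Finset.sum_congr rfl fun i _ => Finset.sum_congr rfl fun j _ => ?_
      rw [hP]
    have hN1 : meanCurv g N p = (∑ i, ∑ j, (∑ c, v c i * v c j) *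
        (pd i (pd j N) p - L * ∑ k, Pool.Agent.Lib.PenroseSph.chr g k i j p * pd k w p)) / (L * Real.sqrt M) := by
      unfold meanCurv
      rw [hgN]
      congr 1
      refine Finset.sum_congr rfl fun i _ => Finset.sum_congr rfl fun j _ => ?_
      rw [hnor, hnor, hP, Finset.mul_sum]
      congr 2
      refine Finset.sum_congr rfl fun k _ => ?_
      rw [hLd k]
      ring
    rw [hw1, hN1, div_le_div_iff₀ (by positivity) hsM]
    have h9 : (∑ i, ∑ j, (∑ c, v c i * v c j) *
        (pd i (pd j N) p - L * ∑ k, Pool.Agent.Lib.PenroseSph.chr g k i j p * pd k w p))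
        ≤ L * ∑ i, ∑ j, (∑ c, v c i * v c j) *
        (pd i (pd j w) p - ∑ k, Pool.Agent.Lib.PenroseSph.chr g k i j p * pd k w p) := by
      rw [h7 (fun i j => pd i (pd j N) p - L * ∑ k, Pool.Agent.Lib.PenroseSph.chr g k i j p * pd k w p),
        h7 (fun i j => pd i (pd j w) p - ∑ k, Pool.Agent.Lib.PenroseSph.chr g k i j p * pd k w p), Finset.mul_sum]
      refine Finset.sum_le_sum fun c _ => ?_
      have h10 := hLs (v c) (hv0 c)
      have h11 : ∑ i, ∑ j, (v c i * v c j) *
          (pd i (pd j N) p - L * ∑ k, Pool.Agent.Lib.PenroseSph.chr g k i j p * pd k w p)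
          = (∑ i, ∑ j, v c i * v c j * pd i (pd j N) p)
            - L * ∑ i, ∑ j, v c i * v c j * ∑ k, Pool.Agent.Lib.PenroseSph.chr g k i j p * pd k w p := by
        rw [Finset.mul_sum, ← Finset.sum_sub_distrib]
        refine Finset.sum_congr rfl fun i _ => ?_
        rw [Finset.mul_sum, ← Finset.sum_sub_distrib]
        refine Finset.sum_congr rfl fun j _ => ?_
        ring
      have h12 : ∑ i, ∑ j, (v c i * v c j) *
          (pd i (pd j w) p - ∑ k, Pool.Agent.Lib.PenroseSph.chr g k i j p * pd k w p)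
          = (∑ i, ∑ j, v c i * v c j * pd i (pd j w) p)
            - ∑ i, ∑ j, v c i * v c j * ∑ k, Pool.Agent.Lib.PenroseSph.chr g k i j p * pd k w p := by
        rw [← Finset.sum_sub_distrib]
        refine Finset.sum_congr rfl fun i _ => ?_
        rw [← Finset.sum_sub_distrib]
        refine Finset.sum_congr rfl fun j _ => ?_
        ring
      rw [h11, h12, mul_sub]
      linarith
    calc _ ≤ (L * ∑ i, ∑ j, (∑ c, v c i * v c j) *
        (pd i (pd j w) p - ∑ k, Pool.Agent.Lib.PenroseSph.chr g k i j p * pd k w p)) * Real.sqrt M :=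
          mul_le_mul_of_nonneg_right h9 hsM.le
      _ = _ := by ring
  · unfold trLevel
    refine Finset.sum_congr rfl fun i _ => Finset.sum_congr rfl fun j _ => ?_
    rw [hnor, hnor]

end H17T
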