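import Pool.Agent.Lib.H17T.CMain
import Pool.Agent.Lib.H17T.N8
import Pool.Agent.Lib.H17T.T1
import Pool.Agent.Lib.H17T.T8
import Pool.Agent.Lib.H17T.T9
import Pool.Agent.Lib.H17T.F5
import Pool.Agent.Lib.H17T.F8
import Pool.Agent.Lib.H17T.S1

set_option autoImplicit false

/-!
# H17T: assembly of the main theorem
-/

open MeasureTheory Filter Topology Set
open scoped ContDiff

namespace H17T

open Pool.Agent.Lib.PenroseSph (E3 Tens S2 sm pd gradNorm normal meanCurv trLevel admFlux admMom momDensity DefFun)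

/-- The touching point of an apparent horizon. -/
theorem touch_main {F : E4 → ℝ} {k : ℝ → ℝ} {r : ℝ × ℝ → ℝ} {f : E3 → ℝ} (hS : Slice F k r f) {h : Tens}
    (hh : (∀ x, h x = second (stMetric F k r) f x) ∨ ∀ x, h x = -second (stMetric F k r) f x)
    {Om : Set E3} (hOo : IsOpen Om) (hOb : Bornology.IsBounded Om)
    (hin : (∃ δ : ℝ, 0 < δ ∧ ∀ x : E3, x ≠ 0 → ‖x‖ < δ → x ∈ Om) ∨
      (Om.Nonempty ∧ ContinuousAt f 0 ∧ ∃ K δ : ℝ, 0 < δ ∧ ∀ t : ℝ, 0 < t → t < δ → k t ≤ K))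
    (hor : ∀ x ∈ frontier Om, x ≠ 0 → ∃ w : E3 → ℝ, DefFun Om w x ∧
      meanCurv (slice (stMetric F k r) f) w x ≤ trLevel (slice (stMetric F k r) f) h w x) :
    ∃ ε : ℝ, (ε = 1 ∨ ε = -1) ∧ ∃ (p : E3) (ρ0 : ℝ), p ≠ 0 ∧ 0 < ρ0 ∧
      fderiv ℝ r (qq f p) (-ε, 1 / k ‖p‖) ≤ 0 ∧ (∀ x ∈ Om, x ≠ 0 → NN ε k f x ≤ NN ε k f p) ∧
      ∀ x : E3, x ≠ 0 → ‖x‖ < ρ0 → NN ε k f x < NN ε k f p := by
  set g := slice (stMetric F k r) f with hg
  set K := second (stMetric F k r) f with hK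
  obtain ⟨ε, hε, htr⟩ : ∃ ε : ℝ, (ε = 1 ∨ ε = -1) ∧ ∀ w x, trLevel g h w x = ε * trLevel g K w x := by
    rcases hh with hh | hh
    · refine ⟨1, Or.inl rfl, fun w x => ?_⟩
      unfold trLevel
      rw [one_mul]
      simp only [hh]
    · refine ⟨-1, Or.inr rfl, fun w x => ?_⟩
      unfold trLevel
      rw [Finset.mul_sum]
      refine Finset.sum_congr rfl fun i _ => ?_
      rw [Finset.mul_sum]
      refine Finset.sum_congr rfl fun j _ => ?_
      rw [hh]
      show _ * -(K x i j) = _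
      ring
  have hslope : ∀ x : E3, x ≠ 0 → |fderiv ℝ f x x| < k ‖x‖ * ‖x‖ := fun x hx => slope_of_spacelike hS hx
  obtain ⟨p, ρ0, hp, hpf, hρ0, hOm, hin0⟩ :=
    exists_max hε hS.k_smooth hS.k_pos hS.f_smooth hslope hOo hOb hin
  refine ⟨ε, hε, p, ρ0, hp, hρ0, ?_, hOm, hin0⟩
  obtain ⟨w, hw, hhor⟩ := hor p hpf hp
  have hNs : ContDiffAt ℝ ∞ (NN ε k f) p := NN_smooth hS.k_smooth hS.f_smooth hp
  have hrad := NN_radial hε hS.k_smooth hS.f_smooth hslope hp
  have hdN : fderiv ℝ (NN ε k f) p ≠ 0 := by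
    intro h0
    rw [h0] at hrad
    simp at hrad
  have hmax : ∀ᶠ x in 𝓝 p, x ∈ Om → NN ε k f x ≤ NN ε k f p := by
    filter_upwards [isOpen_ne.mem_nhds hp] with x hx hxO
    exact hOm x hxO hx
  obtain ⟨h1, h2⟩ := touch_compare (g := g) (h := K) (fun i j => slice_symm F k r f p i j)
    (hS.spacelike p hp) hw hpf (hNs.of_le (by norm_cast)) hdN hmax
  have h3 := expansion hS hε hp
  rw [← hg, ← hK] at h3
  rw [htr, h2] at hhor
  have hFp : 0 < F (pt (f p) p) := hS.F_pos _ (mem_near hp)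
  have hrp : 0 < r (qq f p) := by
    have := hS.r_pos _ (mem_near hp)
    rwa [pt_zero, pos_pt] at this
  have hgn := (null_normal hS hε hp).2
  rw [← hg] at hgn
  have h4 : 2 * fderiv ℝ r (qq f p) (-ε, 1 / k ‖p‖) / (F (pt (f p) p) * r (qq f p) * gradNorm g (NN ε k f) p) ≤ 0 := by
    rw [← h3]
    linarith
  have hden : 0 < F (pt (f p) p) * r (qq f p) * gradNorm g (NN ε k f) p := by positivity
  by_contra hcon
  push Not at hcon
  have : 0 < 2 * fderiv ℝ r (qq f p) (-ε, 1 / k ‖p‖) / (F (pt (f p) p) * r (qq f p) * gradNorm g (NN ε k f) p) :=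
    div_pos (by linarith) hden
  linarith

/-- The area of the enclosing graphs. -/
theorem area_total {F : E4 → ℝ} {k : ℝ → ℝ} {r : ℝ × ℝ → ℝ} {f : E3 → ℝ} (hS : Slice F k r f) {s : E3 → ℝ}
    {M : ℝ} (hM : 0 ≤ M) (hr : ∀ n : S2, 0 < r (qq f (s n • (n : E3))) ∧ r (qq f (s n • (n : E3))) ≤ M)
    (h : ∀ n : S2, areaSq (slice (stMetric F k r) f) s n ≤ r (qq f (s n • (n : E3))) ^ 4) :
    graphArea (slice (stMetric F k r) f) s ≤ 4 * Real.pi * M ^ 2 := by
  unfold graphArea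
  have h1 : ∀ n : S2, Real.sqrt (areaSq (slice (stMetric F k r) f) s n) ≤ M ^ 2 := by
    intro n
    obtain ⟨h2, h3⟩ := hr n
    refine Real.sqrt_le_iff.2 ⟨by positivity, ?_⟩
    calc areaSq (slice (stMetric F k r) f) s n ≤ r (qq f (s n • (n : E3))) ^ 4 := h n
      _ ≤ M ^ 4 := pow_le_pow_left₀ h2.le h3 4
      _ = (M ^ 2) ^ 2 := by ring
  calc ∫ n : S2, Real.sqrt (areaSq (slice (stMetric F k r) f) s n) ∂sm ≤ ∫ _ : S2, M ^ 2 ∂sm := by
        refine integral_mono_of_nonneg (Eventually.of_forall fun n => Real.sqrt_nonneg _) ?_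
          (Eventually.of_forall h1)
        exact integrable_const _
    _ = 4 * Real.pi * M ^ 2 := by
        rw [integral_const, Pool.Agent.Lib.PenroseSph.sm_univ, smul_eq_mul]

theorem main {F : E4 → ℝ} {k : ℝ → ℝ} {r : ℝ × ℝ → ℝ} {f : E3 → ℝ} (hS : Slice F k r f)
    (hA : AsympFlat F k r f) {h : Tens}
    (hh : (∀ x, h x = second (stMetric F k r) f x) ∨ ∀ x, h x = -second (stMetric F k r) f x)
    {E : ℝ} {P : Fin 3 → ℝ} (hE : Tendsto (admFlux (slice (stMetric F k r) f)) atTop (𝓝 E))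
    (hP : ∀ i, Tendsto (admMom (slice (stMetric F k r) f) h i) atTop (𝓝 (P i)))
    {Om : Set E3} (hOo : IsOpen Om) (hOb : Bornology.IsBounded Om)
    (hin : (∃ δ : ℝ, 0 < δ ∧ ∀ x : E3, x ≠ 0 → ‖x‖ < δ → x ∈ Om) ∨
      (Om.Nonempty ∧ ContinuousAt f 0 ∧ ∃ K δ : ℝ, 0 < δ ∧ ∀ t : ℝ, 0 < t → t < δ → k t ≤ K))
    (hor : ∀ x ∈ frontier Om, x ≠ 0 → ∃ w : E3 → ℝ, DefFun Om w x ∧
      meanCurv (slice (stMetric F k r) f) w x ≤ trLevel (slice (stMetric F k r) f) h w x) :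
    Real.sqrt (∑ i, P i ^ 2) < E ∧ ∀ δ : ℝ, 0 < δ → ∃ s : E3 → ℝ, RadialGraph s ∧
      (∀ x ∈ Om, x ≠ 0 → ‖x‖ < s x) ∧
      graphArea (slice (stMetric F k r) f) s ≤ 16 * Real.pi * (E ^ 2 - ∑ i, P i ^ 2) + δ := by
  have hR := red_of_slice hS
  have hEnds := ends hS hA hE
  obtain ⟨ε, hε, p, ρ0, hp, hρ0, hW, hOm, hin0⟩ := touch_main hS hh hOo hOb hin hor
  obtain ⟨hEpos, hEnv⟩ := env_both hε hR hEnds hp hW hOm hρ0 hin0
  -- the momentum vanishes
  obtain ⟨C, R, hB⟩ := bounds hS hA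
  have hP0 : ∀ i, P i = 0 := by
    intro i
    have h1 := mom_lim hS hB i
    rcases hh with hh | hh
    · have e : admMom (slice (stMetric F k r) f) h i
          = admMom (slice (stMetric F k r) f) (second (stMetric F k r) f) i := by
        have : h = second (stMetric F k r) f := funext hh
        rw [this]
      have h2 := hP i
      rw [e] at h2
      exact tendsto_nhds_unique h2 h1
    · have e : admMom (slice (stMetric F k r) f) h i
          = fun t => -admMom (slice (stMetric F k r) f) (second (stMetric F k r) f) i t := by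
        have hfun : h = fun x => -second (stMetric F k r) f x := funext hh
        funext t
        unfold admMom
        rw [← mul_neg, ← integral_neg]
        congr 1
        refine integral_congr_ae (Eventually.of_forall fun n => ?_)
        show t ^ 2 * momDensity (slice (stMetric F k r) f) h i (t • (n : E3))
          = -(t ^ 2 * momDensity (slice (stMetric F k r) f) (second (stMetric F k r) f) i (t • (n : E3)))
        rw [← mul_neg]
        congr 1
        unfold momDensity Pool.Agent.Lib.PenroseSph.trg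
        rw [hfun, ← Finset.sum_neg_distrib]
        refine Finset.sum_congr rfl fun j _ => ?_
        simp only [Matrix.neg_apply, mul_neg, Finset.sum_neg_distrib]
        ring
      have h2 := hP i
      rw [e] at h2
      have h3 := tendsto_nhds_unique h2 h1.neg
      rw [h3, neg_zero]
  have hPs : ∑ i, P i ^ 2 = 0 := by
    refine Finset.sum_eq_zero fun i _ => ?_
    rw [hP0 i]
    norm_num
  rw [hPs]
  refine ⟨by rw [Real.sqrt_zero]; exact hEpos, ?_⟩
  intro δ hδ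
  -- choose `η` with `4π (2E + η)² ≤ 16π E² + δ`
  obtain ⟨η, hη, hη2⟩ : ∃ η : ℝ, 0 < η ∧ 4 * Real.pi * (2 * E + η) ^ 2 ≤ 16 * Real.pi * E ^ 2 + δ := by
    have hc : ContinuousAt (fun η : ℝ => 4 * Real.pi * (2 * E + η) ^ 2) 0 := by fun_prop
    have h1 : (fun η : ℝ => 4 * Real.pi * (2 * E + η) ^ 2) 0 < 16 * Real.pi * E ^ 2 + δ := by
      simp only [add_zero]
      have : 4 * Real.pi * (2 * E) ^ 2 = 16 * Real.pi * E ^ 2 := by ring
      linarith
    have h2 := hc.eventually (gt_mem_nhds h1)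
    obtain ⟨η, h3, h4⟩ := ((h2.filter_mono nhdsWithin_le_nhds).and
      (self_mem_nhdsWithin : Ioi (0 : ℝ) ∈ 𝓝[>] 0)).exists
    exact ⟨η, h4, h3.le⟩
  obtain ⟨s, hs, hsO, hsn⟩ := hEnv η hη
  refine ⟨s, hs, hsO, ?_⟩
  rw [sub_zero]
  refine (area_total hS (M := 2 * E + η) (by linarith) ?_ ?_).trans hη2
  · intro n
    have hn0 : (n : E3) ≠ 0 := by
      intro h
      have := norm_eq_of_mem_sphere n
      rw [h, norm_zero] at this
      exact zero_ne_one this
    exact ⟨hR.r_pos _ ⟨s n • (n : E3), smul_ne_zero (hs.pos _ hn0).ne' hn0, rfl⟩, (hsn n).1⟩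
  · intro n
    obtain ⟨-, l, m, hl, hm, hlm, hi⟩ := hsn n
    exact area_le hS hs n hl hm hlm hi

end H17T
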